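import Mathlib

set_option autoImplicit false

namespace Pool.Agent.Helper602.MK.N_J10

open Finset

/-- rainbow matchings -/
def J10RM (A B : Finset ℕ) (E : ℕ → ℕ → Prop) (lab : ℕ → ℕ → ℕ) (M : Finset (ℕ × ℕ)) : Prop :=
  M ⊆ A ×ˢ B ∧ (∀ x ∈ M, E x.1 x.2) ∧
    (∀ x ∈ M, ∀ y ∈ M, x ≠ y → x.1 ≠ y.1 ∧ x.2 ≠ y.2 ∧ lab x.1 x.2 ≠ lab y.1 y.2)

theorem J10RM.mono {A B : Finset ℕ} {E : ℕ → ℕ → Prop} {lab : ℕ → ℕ → ℕ} {M M' : Finset (ℕ × ℕ)}
    (h : J10RM A B E lab M) (hs : M' ⊆ M) : J10RM A B E lab M' :=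
  ⟨hs.trans h.1, fun x hx => h.2.1 x (hs hx), fun x hx y hy => h.2.2 x (hs hx) y (hs hy)⟩

theorem J10RM.insert {A B : Finset ℕ} {E : ℕ → ℕ → Prop} {lab : ℕ → ℕ → ℕ} {M : Finset (ℕ × ℕ)}
    (h : J10RM A B E lab M) {a b : ℕ} (ha : a ∈ A) (hb : b ∈ B) (hE : E a b)
    (hM : ∀ x ∈ M, x.1 ≠ a ∧ x.2 ≠ b ∧ lab x.1 x.2 ≠ lab a b) :
    J10RM A B E lab (insert (a, b) M) := by
  refine ⟨?_, ?_, ?_⟩
  · intro x hx
    rcases Finset.mem_insert.1 hx with rfl | hx
    · exact Finset.mem_product.2 ⟨ha, hb⟩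
    · exact h.1 hx
  · intro x hx
    rcases Finset.mem_insert.1 hx with rfl | hx
    · exact hE
    · exact h.2.1 x hx
  · intro x hx y hy hxy
    rcases Finset.mem_insert.1 hx with rfl | hx
    · rcases Finset.mem_insert.1 hy with rfl | hy
      · exact absurd rfl hxy
      · exact ⟨(hM y hy).1.symm, (hM y hy).2.1.symm, (hM y hy).2.2.symm⟩
    · rcases Finset.mem_insert.1 hy with rfl | hy
      · exact hM x hx
      · exact h.2.2 x hx y hy hxy

open Classical in
theorem J10_max (A B : Finset ℕ) (E : ℕ → ℕ → Prop) (lab : ℕ → ℕ → ℕ) :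
    ∃ M, J10RM A B E lab M ∧ ∀ M', J10RM A B E lab M' → M'.card ≤ M.card := by
  have hne : (((A ×ˢ B).powerset).filter (fun M => J10RM A B E lab M)).Nonempty := by
    refine ⟨∅, Finset.mem_filter.2 ⟨Finset.empty_mem_powerset _, Finset.empty_subset _, ?_, ?_⟩⟩
    · intro x hx
      exact absurd hx (Finset.notMem_empty x)
    · intro x hx
      exact absurd hx (Finset.notMem_empty x)
  obtain ⟨M, hM, hmax⟩ := Finset.exists_max_image _ Finset.card hne
  refine ⟨M, (Finset.mem_filter.1 hM).2, fun M' hM' => hmax M' ?_⟩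
  exact Finset.mem_filter.2 ⟨Finset.mem_powerset.2 hM'.1, hM'⟩

open Classical in
/-- left vertices uncovered by a modification of `M` with at most `j` new edges -/
noncomputable def J10R (A B : Finset ℕ) (E : ℕ → ℕ → Prop) (lab : ℕ → ℕ → ℕ) (M : Finset (ℕ × ℕ))
    (j : ℕ) : Finset ℕ :=
  A.filter (fun a => ∃ M', J10RM A B E lab M' ∧ M'.card = M.card ∧ (∀ x ∈ M', x.1 ≠ a) ∧
    (M' \ M).card ≤ j)

open Classical in
theorem J10_step {A B : Finset ℕ} {E : ℕ → ℕ → Prop} {lab : ℕ → ℕ → ℕ} {M M' : Finset (ℕ × ℕ)}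
    (hmax : ∀ M', J10RM A B E lab M' → M'.card ≤ M.card) (hM' : J10RM A B E lab M')
    (hc : M'.card = M.card) {j : ℕ} (hj : (M' \ M).card ≤ j) {a b : ℕ} (ha : a ∈ A) (hb : b ∈ B)
    (hun : ∀ x ∈ M', x.1 ≠ a) (hE : E a b) (hl : ∀ x ∈ M, lab x.1 x.2 ≠ lab a b)
    (hl' : ∀ x ∈ M' \ M, lab x.1 x.2 ≠ lab a b ∧ x.2 ≠ b) :
    ∃ a', (a', b) ∈ M ∧ a' ∈ J10R A B E lab M (j + 1) := by
  have hlab : ∀ x ∈ M', lab x.1 x.2 ≠ lab a b := by
    intro x hx
    by_cases hxM : x ∈ M
    · exact hl x hxM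
    · exact (hl' x (Finset.mem_sdiff.2 ⟨hx, hxM⟩)).1
  have hab : (a, b) ∉ M' := fun h => hun _ h rfl
  -- b is covered
  have hcov : ∃ a', (a', b) ∈ M' := by
    by_contra hcon
    push Not at hcon
    have h1 : J10RM A B E lab (insert (a, b) M') := by
      refine hM'.insert ha hb hE fun x hx => ⟨hun x hx, ?_, hlab x hx⟩
      intro hxb
      apply hcon x.1
      rw [← hxb]
      exact hx
    have h2 := hmax _ h1
    rw [Finset.card_insert_of_notMem hab] at h2
    omega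
  obtain ⟨a', ha'⟩ := hcov
  have ha'M : (a', b) ∈ M := by
    by_contra hcon
    exact (hl' (a', b) (Finset.mem_sdiff.2 ⟨ha', hcon⟩)).2 rfl
  refine ⟨a', ha'M, ?_⟩
  have ha'A : a' ∈ A := (Finset.mem_product.1 (hM'.1 ha')).1
  refine Finset.mem_filter.2 ⟨ha'A, insert (a, b) (M'.erase (a', b)), ?_, ?_, ?_, ?_⟩
  · refine (hM'.mono (Finset.erase_subset _ _)).insert ha hb hE fun x hx => ?_
    obtain ⟨hx1, hx2⟩ := Finset.mem_erase.1 hx
    exact ⟨hun x hx2, (hM'.2.2 x hx2 (a', b) ha' hx1).2.1, hlab x hx2⟩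
  · rw [Finset.card_insert_of_notMem (fun h => hab (Finset.mem_of_mem_erase h)),
      Finset.card_erase_of_mem ha']
    have : 0 < M'.card := Finset.card_pos.2 ⟨_, ha'⟩
    omega
  · intro x hx
    rcases Finset.mem_insert.1 hx with rfl | hx
    · intro h
      exact hun _ ha' h.symm
    · obtain ⟨hx1, hx2⟩ := Finset.mem_erase.1 hx
      exact (hM'.2.2 x hx2 (a', b) ha' hx1).1
  · have hsub : insert (a, b) (M'.erase (a', b)) \ M ⊆ insert (a, b) (M' \ M) := by
      intro x hx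
      obtain ⟨hx1, hx2⟩ := Finset.mem_sdiff.1 hx
      rcases Finset.mem_insert.1 hx1 with rfl | hx1
      · exact Finset.mem_insert_self _ _
      · exact Finset.mem_insert_of_mem
          (Finset.mem_sdiff.2 ⟨Finset.mem_of_mem_erase hx1, hx2⟩)
    exact (Finset.card_le_card hsub).trans ((Finset.card_insert_le _ _).trans (by omega))

open Classical in
theorem J10_count (A B : Finset ℕ) (E : ℕ → ℕ → Prop) (lab : ℕ → ℕ → ℕ) (n D η : ℝ)
    (hη : 0 < η) (hn : 0 < n) (hD : 0 < D)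
    (hdA : ∑ a ∈ A, |((B.filter (fun b => E a b)).card : ℝ) - D| ≤ η * n * D)
    (hdB : ∑ b ∈ B, |((A.filter (fun a => E a b)).card : ℝ) - D| ≤ η * n * D)
    (hlab : ∀ l : ℕ, (((A ×ˢ B).filter (fun x => E x.1 x.2 ∧ lab x.1 x.2 = l)).card : ℝ) ≤ η * D)
    (hinj : ∀ a ∈ A, ∀ b ∈ B, ∀ b' ∈ B, E a b → E a b' → lab a b = lab a b' → b = b')
    (Lam : Finset ℕ) (hLam : (Lam.card : ℝ) ≤ n) (R S : Finset ℕ) (hRA : R ⊆ A) (hSB : S ⊆ B)
    (j : ℕ) (W : ℕ → Finset (ℕ × ℕ)) (hW : ∀ a ∈ R, (W a).card ≤ j)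
    (hS : ∀ a ∈ R, ∀ b ∈ B, E a b → lab a b ∉ Lam →
      (∀ x ∈ W a, lab x.1 x.2 ≠ lab a b ∧ x.2 ≠ b) → b ∈ S) :
    (R.card : ℝ) * D - 3 * (η * n * D) - 2 * j * R.card ≤ S.card * D := by
  -- lower bound for the number of edges
  have h1 : (R.card : ℝ) * D - η * n * D ≤ ∑ a ∈ R, ((B.filter (fun b => E a b)).card : ℝ) := by
    have e1 : ∑ a ∈ R, (D - ((B.filter (fun b => E a b)).card : ℝ)) ≤ η * n * D := by
      refine le_trans ?_ hdA
      refine le_trans (Finset.sum_le_sum fun a _ => ?_)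
        (Finset.sum_le_sum_of_subset_of_nonneg hRA fun a _ _ => abs_nonneg _)
      rw [abs_sub_comm]
      exact le_abs_self _
    rw [Finset.sum_sub_distrib, Finset.sum_const, nsmul_eq_mul] at e1
    linarith
  have h2 : ∑ b ∈ S, ((A.filter (fun a => E a b)).card : ℝ) ≤ S.card * D + η * n * D := by
    have e1 : ∑ b ∈ S, (((A.filter (fun a => E a b)).card : ℝ) - D) ≤ η * n * D := by
      refine le_trans ?_ hdB
      exact le_trans (Finset.sum_le_sum fun a _ => le_abs_self _)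
        (Finset.sum_le_sum_of_subset_of_nonneg hSB fun a _ _ => abs_nonneg _)
    rw [Finset.sum_sub_distrib, Finset.sum_const, nsmul_eq_mul] at e1
    linarith
  -- non-free edges
  have h3 : ∑ a ∈ A, ((B.filter (fun b => E a b ∧ lab a b ∈ Lam)).card : ℝ) ≤ η * n * D := by
    have e1 : ∑ a ∈ A, (B.filter (fun b => E a b ∧ lab a b ∈ Lam)).card
        = ((A ×ˢ B).filter (fun x => E x.1 x.2 ∧ lab x.1 x.2 ∈ Lam)).card := by
      rw [Finset.card_filter, Finset.sum_product]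
      exact Finset.sum_congr rfl fun a _ => by rw [Finset.card_filter]
    have e2 : ((A ×ˢ B).filter (fun x => E x.1 x.2 ∧ lab x.1 x.2 ∈ Lam)).card
        ≤ ∑ l ∈ Lam, ((A ×ˢ B).filter (fun x => E x.1 x.2 ∧ lab x.1 x.2 = l)).card := by
      refine le_trans (Finset.card_le_card ?_) Finset.card_biUnion_le
      intro x hx
      obtain ⟨hx1, hx2, hx3⟩ := Finset.mem_filter.1 hx
      exact Finset.mem_biUnion.2 ⟨_, hx3, Finset.mem_filter.2 ⟨hx1, hx2, rfl⟩⟩
    have e3 : (∑ a ∈ A, ((B.filter (fun b => E a b ∧ lab a b ∈ Lam)).card : ℝ))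
        ≤ ∑ l ∈ Lam, (((A ×ˢ B).filter (fun x => E x.1 x.2 ∧ lab x.1 x.2 = l)).card : ℝ) := by
      exact_mod_cast e1.le.trans e2
    refine e3.trans ((Finset.sum_le_sum fun l _ => hlab l).trans ?_)
    rw [Finset.sum_const, nsmul_eq_mul]
    have : (Lam.card : ℝ) * (η * D) ≤ n * (η * D) :=
      mul_le_mul_of_nonneg_right hLam (by positivity)
    linarith
  -- split the degree
  have h4 : ∀ a ∈ R, ((B.filter (fun b => E a b)).card : ℝ)
      ≤ ((S.filter (fun b => E a b)).card : ℝ)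
        + ((B.filter (fun b => E a b ∧ lab a b ∈ Lam)).card : ℝ) + 2 * j := by
    intro a ha
    have hsub : B.filter (fun b => E a b) ⊆ (S.filter (fun b => E a b)) ∪
        (B.filter (fun b => E a b ∧ lab a b ∈ Lam)) ∪
        ((B.filter (fun b => E a b ∧ lab a b ∈ (W a).image (fun x => lab x.1 x.2))) ∪
          (W a).image Prod.snd) := by
      intro b hb
      obtain ⟨hbB, hbE⟩ := Finset.mem_filter.1 hb
      by_cases c1 : lab a b ∈ Lam
      · exact Finset.mem_union_left _ (Finset.mem_union_right _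
          (Finset.mem_filter.2 ⟨hbB, hbE, c1⟩))
      · by_cases c2 : lab a b ∈ (W a).image (fun x => lab x.1 x.2)
        · exact Finset.mem_union_right _ (Finset.mem_union_left _
            (Finset.mem_filter.2 ⟨hbB, hbE, c2⟩))
        · by_cases c3 : b ∈ (W a).image Prod.snd
          · exact Finset.mem_union_right _ (Finset.mem_union_right _ c3)
          · refine Finset.mem_union_left _ (Finset.mem_union_left _
              (Finset.mem_filter.2 ⟨hS a ha b hbB hbE c1 fun x hx => ⟨?_, ?_⟩, hbE⟩))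
            · intro h
              exact c2 (Finset.mem_image.2 ⟨x, hx, h⟩)
            · intro h
              exact c3 (Finset.mem_image.2 ⟨x, hx, h⟩)
    have e1 : (B.filter (fun b => E a b ∧ lab a b ∈ (W a).image (fun x => lab x.1 x.2))).card
        ≤ j := by
      refine le_trans ?_ ((Finset.card_image_le (f := fun x : ℕ × ℕ => lab x.1 x.2)).trans
        (hW a ha))
      refine Finset.card_le_card_of_injOn (fun b => lab a b) ?_ ?_
      · intro b hb
        exact (Finset.mem_filter.1 hb).2.2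
      · intro b hb b' hb' hbb
        obtain ⟨g1, g2, _⟩ := Finset.mem_filter.1 hb
        obtain ⟨g1', g2', _⟩ := Finset.mem_filter.1 hb'
        exact hinj a (hRA ha) b g1 b' g1' g2 g2' hbb
    have e2 : ((W a).image Prod.snd).card ≤ j := Finset.card_image_le.trans (hW a ha)
    have e3 := Finset.card_le_card hsub
    have e4 := Finset.card_union_le ((S.filter (fun b => E a b)) ∪
        (B.filter (fun b => E a b ∧ lab a b ∈ Lam)))
        ((B.filter (fun b => E a b ∧ lab a b ∈ (W a).image (fun x => lab x.1 x.2))) ∪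
          (W a).image Prod.snd)
    have e5 := Finset.card_union_le (S.filter (fun b => E a b))
        (B.filter (fun b => E a b ∧ lab a b ∈ Lam))
    have e6 := Finset.card_union_le
      (B.filter (fun b => E a b ∧ lab a b ∈ (W a).image (fun x => lab x.1 x.2)))
      ((W a).image Prod.snd)
    have e7 : (B.filter (fun b => E a b)).card ≤ (S.filter (fun b => E a b)).card
        + (B.filter (fun b => E a b ∧ lab a b ∈ Lam)).card + 2 * j := by omega
    exact_mod_cast e7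
  have h5 : ∑ a ∈ R, ((B.filter (fun b => E a b)).card : ℝ)
      ≤ ∑ a ∈ R, ((S.filter (fun b => E a b)).card : ℝ)
        + ∑ a ∈ R, ((B.filter (fun b => E a b ∧ lab a b ∈ Lam)).card : ℝ) + 2 * j * R.card := by
    refine (Finset.sum_le_sum h4).trans (le_of_eq ?_)
    rw [Finset.sum_add_distrib, Finset.sum_add_distrib, Finset.sum_const, nsmul_eq_mul]
    ring
  have h6 : ∑ a ∈ R, ((S.filter (fun b => E a b)).card : ℝ)
      ≤ ∑ b ∈ S, ((A.filter (fun a => E a b)).card : ℝ) := by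
    have e1 : ∑ a ∈ A, (S.filter (fun b => E a b)).card
        = ∑ b ∈ S, (A.filter (fun a => E a b)).card :=
      Finset.sum_card_bipartiteAbove_eq_sum_card_bipartiteBelow E
    have e2 : ∑ a ∈ R, (S.filter (fun b => E a b)).card
        ≤ ∑ a ∈ A, (S.filter (fun b => E a b)).card :=
      Finset.sum_le_sum_of_subset hRA
    exact_mod_cast e2.trans e1.le
  have h7 : ∑ a ∈ R, ((B.filter (fun b => E a b ∧ lab a b ∈ Lam)).card : ℝ) ≤ η * n * D :=
    le_trans (Finset.sum_le_sum_of_subset_of_nonneg hRA fun a _ _ => Nat.cast_nonneg _) h3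
  linarith

open Classical in
/-- J10: almost perfect rainbow matching in an almost regular bipartite graph -/
theorem J10 (A B : Finset ℕ) (E : ℕ → ℕ → Prop) (lab : ℕ → ℕ → ℕ) (n D η : ℝ)
    (hη : 0 < η) (hη1 : η ≤ 1 / 100) (hn : 0 < n) (hD : 8 / η ^ 2 ≤ D)
    (hA1 : (1 - η) * n ≤ A.card) (hA2 : (A.card : ℝ) ≤ (1 + η) * n)
    (hdA : ∑ a ∈ A, |((B.filter (fun b => E a b)).card : ℝ) - D| ≤ η * n * D)
    (hdB : ∑ b ∈ B, |((A.filter (fun a => E a b)).card : ℝ) - D| ≤ η * n * D)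
    (hlab : ∀ l : ℕ, (((A ×ˢ B).filter (fun x => E x.1 x.2 ∧ lab x.1 x.2 = l)).card : ℝ) ≤ η * D)
    (hinj : ∀ a ∈ A, ∀ b ∈ B, ∀ b' ∈ B, E a b → E a b' → lab a b = lab a b' → b = b') :
    ∃ M : Finset (ℕ × ℕ), M ⊆ A ×ˢ B ∧ (∀ x ∈ M, E x.1 x.2) ∧
      (∀ x ∈ M, ∀ y ∈ M, x ≠ y → x.1 ≠ y.1 ∧ x.2 ≠ y.2 ∧ lab x.1 x.2 ≠ lab y.1 y.2) ∧
      (1 - 8 * η) * n ≤ M.card := by
  obtain ⟨M, hM, hmax⟩ := J10_max A B E lab
  refine ⟨M, hM.1, hM.2.1, hM.2.2, ?_⟩
  by_contra hcon
  push Not at hcon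
  have hD0 : 0 < D := lt_of_lt_of_le (by positivity) hD
  have hMn : (M.card : ℝ) ≤ n := by nlinarith
  set A0 : Finset ℕ := A.filter (fun a => ∀ x ∈ M, x.1 ≠ a) with hA0
  -- uncovered vertices
  have hA0c : 7 * η * n ≤ A0.card := by
    have hsub : A ⊆ A0 ∪ M.image Prod.fst := by
      intro a ha
      by_cases h : ∀ x ∈ M, x.1 ≠ a
      · exact Finset.mem_union_left _ (Finset.mem_filter.2 ⟨ha, h⟩)
      · push Not at h
        obtain ⟨x, hx, hxa⟩ := h
        exact Finset.mem_union_right _ (Finset.mem_image.2 ⟨x, hx, hxa⟩)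
    have e1 := (Finset.card_le_card hsub).trans (Finset.card_union_le _ _)
    have e2 : (M.image Prod.fst).card ≤ M.card := Finset.card_image_le
    have e3 : (A.card : ℝ) ≤ A0.card + M.card := by exact_mod_cast e1.trans (by omega)
    nlinarith
  have hA0R : ∀ j, A0 ⊆ J10R A B E lab M j := by
    intro j a ha
    obtain ⟨h1, h2⟩ := Finset.mem_filter.1 ha
    refine Finset.mem_filter.2 ⟨h1, M, hM, rfl, h2, ?_⟩
    rw [Finset.sdiff_self, Finset.card_empty]
    exact Nat.zero_le j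
  have hstep : ∀ j : ℕ, (j : ℝ) ≤ 1 / η →
      ((J10R A B E lab M j).card : ℝ) + 3 * η * n ≤ (J10R A B E lab M (j + 1)).card := by
    intro j hj
    set R := J10R A B E lab M j with hR
    have hRA : R ⊆ A := Finset.filter_subset _ _
    have hw : ∀ a, ∃ M', a ∈ R → J10RM A B E lab M' ∧ M'.card = M.card ∧ (∀ x ∈ M', x.1 ≠ a) ∧
        (M' \ M).card ≤ j := by
      intro a
      by_cases ha : a ∈ R
      · obtain ⟨M', h⟩ := (Finset.mem_filter.1 ha).2
        exact ⟨M', fun _ => h⟩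
      · exact ⟨∅, fun h => absurd h ha⟩
    choose F hF using hw
    set Lam : Finset ℕ := M.image (fun x => lab x.1 x.2) with hLamdef
    set S : Finset ℕ := B.filter (fun b => ∃ a ∈ R, E a b ∧ lab a b ∉ Lam ∧
      ∀ x ∈ F a \ M, lab x.1 x.2 ≠ lab a b ∧ x.2 ≠ b) with hS
    have hcnt := J10_count A B E lab n D η hη hn hD0 hdA hdB hlab hinj Lam
      (le_trans (by exact_mod_cast Finset.card_image_le) hMn) R S hRA (Finset.filter_subset _ _)
      j (fun a => F a \ M) (fun a ha => (hF a ha).2.2.2)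
      (fun a ha b hb h1 h2 h3 => Finset.mem_filter.2 ⟨hb, a, ha, h1, h2, h3⟩)
    -- partners
    have hpar : ∀ b, ∃ a', b ∈ S → (a', b) ∈ M ∧ a' ∈ J10R A B E lab M (j + 1) := by
      intro b
      by_cases hb : b ∈ S
      · obtain ⟨hbB, a, ha, h1, h2, h3⟩ := Finset.mem_filter.1 hb
        obtain ⟨k1, k2, k3, k4⟩ := hF a ha
        obtain ⟨a', h⟩ := J10_step hmax k1 k2 k4 (hRA ha) hbB k3 h1
          (fun x hx h => h2 (Finset.mem_image.2 ⟨x, hx, h⟩)) h3
        exact ⟨a', fun _ => h⟩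
      · exact ⟨0, fun h => absurd h hb⟩
    choose g hg using hpar
    have hinjg : Set.InjOn g (S : Set ℕ) := by
      intro b hb b' hb' hbb
      by_contra hne
      have h1 := (hg b hb).1
      have h2 := (hg b' hb').1
      rw [hbb] at h1
      exact (hM.2.2 _ h1 _ h2 (fun h => hne (Prod.ext_iff.1 h).2)).1 rfl
    have hdis : Disjoint A0 (S.image g) := by
      rw [Finset.disjoint_left]
      intro a ha ha'
      obtain ⟨b, hb, hba⟩ := Finset.mem_image.1 ha'
      exact (Finset.mem_filter.1 ha).2 _ (hg b hb).1 hba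
    have hsub : A0 ∪ S.image g ⊆ J10R A B E lab M (j + 1) := by
      refine Finset.union_subset (hA0R _) ?_
      intro a ha
      obtain ⟨b, hb, hba⟩ := Finset.mem_image.1 ha
      rw [← hba]
      exact (hg b hb).2
    have hc1 := Finset.card_le_card hsub
    rw [Finset.card_union_of_disjoint hdis, Finset.card_image_of_injOn hinjg] at hc1
    have hc2 : (A0.card : ℝ) + S.card ≤ (J10R A B E lab M (j + 1)).card := by exact_mod_cast hc1
    have hRc : (R.card : ℝ) ≤ (1 + η) * n :=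
      le_trans (by exact_mod_cast Finset.card_le_card hRA) hA2
    -- 2 j |R| ≤ η n D
    have hbig : 2 * (j : ℝ) * R.card ≤ η * n * D := by
      have e1 : 2 * (j : ℝ) * R.card ≤ 2 * (1 / η) * ((1 + η) * n) := by
        gcongr
      have e2 : 2 * (1 / η) * ((1 + η) * n) ≤ η * n * (8 / η ^ 2) := by
        have e3 : η * n * (8 / η ^ 2) = 8 * n / η := by
          field_simp
        have e4 : 2 * (1 / η) * ((1 + η) * n) = (2 * (1 + η) * n) / η := by
          field_simp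
        rw [e3, e4]
        gcongr
        linarith
      have e5 : η * n * (8 / η ^ 2) ≤ η * n * D := by gcongr
      linarith
    have hSc : (R.card : ℝ) - 4 * (η * n) ≤ S.card := by
      have e1 : ((R.card : ℝ) - 4 * (η * n)) * D ≤ S.card * D := by linarith
      exact le_of_mul_le_mul_right e1 hD0
    linarith
  have hind : ∀ j : ℕ, (j : ℝ) ≤ 1 / η + 1 →
      3 * j * η * n ≤ (J10R A B E lab M j).card := by
    intro j
    induction j with
    | zero =>
      intro _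
      simp
    | succ j ih =>
      intro hj
      push_cast at hj
      have h1 := ih (by linarith)
      have h2 := hstep j (by linarith)
      push_cast
      linarith
  have hJ1 : (⌊1 / η⌋₊ : ℝ) ≤ 1 / η := Nat.floor_le (by positivity)
  have hJ2 : 1 / η < (⌊1 / η⌋₊ : ℝ) + 1 := Nat.lt_floor_add_one _
  have h1 := hind ⌊1 / η⌋₊ (by linarith)
  have h2 : ((J10R A B E lab M ⌊1 / η⌋₊).card : ℝ) ≤ (1 + η) * n :=
    le_trans (by exact_mod_cast Finset.card_le_card (Finset.filter_subset _ _)) hA2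
  have h3 : 1 < ((⌊1 / η⌋₊ : ℝ) + 1) * η := by
    rw [div_lt_iff₀ hη] at hJ2
    exact hJ2
  have h4 : 3 * ((1 - η) * n) ≤ 3 * (⌊1 / η⌋₊ : ℝ) * η * n := by
    have : (1 - η) ≤ (⌊1 / η⌋₊ : ℝ) * η := by linarith
    nlinarith
  nlinarith

end Pool.Agent.Helper602.MK.N_J10
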