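import Mathlib

set_option autoImplicit false

namespace Pool.Agent.Helper602.MK.N_J10g

open Finset

open Classical in
/-- J10g: greedy one-sided rainbow matching -/
theorem J10g (A Y : Finset ℕ) (E : ℕ → ℕ → Prop) (lab : ℕ → ℕ → ℕ) (K D s : ℝ)
    (hD : 0 < D) (hs : 0 ≤ s)
    (hdeg : ((A.filter (fun a => ((Y.filter (fun y => E a y)).card : ℝ) < D)).card : ℝ) ≤ s)
    (h1 : ∀ y ∈ Y, ((A.filter (fun a => E a y)).card : ℝ) ≤ K)
    (h2 : ∀ l : ℕ, (((A ×ˢ Y).filter (fun x => E x.1 x.2 ∧ lab x.1 x.2 = l)).card : ℝ) ≤ K)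
    (h : 2 * A.card * K ≤ s * D) :
    ∃ M : Finset (ℕ × ℕ), M ⊆ A ×ˢ Y ∧ (∀ x ∈ M, E x.1 x.2) ∧
      (∀ x ∈ M, ∀ y ∈ M, x ≠ y → x.1 ≠ y.1 ∧ x.2 ≠ y.2 ∧ lab x.1 x.2 ≠ lab y.1 y.2) ∧
      (A.card : ℝ) - 2 * s ≤ M.card := by
  have hK : 0 ≤ K := le_trans (Nat.cast_nonneg _) (h2 0)
  obtain ⟨F, hF⟩ : ∃ F : Finset (Finset (ℕ × ℕ)), F = (A ×ˢ Y).powerset.filter (fun M =>
      (∀ x ∈ M, E x.1 x.2) ∧
      (∀ x ∈ M, ∀ y ∈ M, x ≠ y → x.1 ≠ y.1 ∧ x.2 ≠ y.2 ∧ lab x.1 x.2 ≠ lab y.1 y.2)) := ⟨_, rfl⟩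
  have hFne : F.Nonempty := ⟨∅, by rw [hF]; simp⟩
  obtain ⟨M, hM, hmax⟩ := Finset.exists_max_image F Finset.card hFne
  rw [hF, Finset.mem_filter, Finset.mem_powerset] at hM
  obtain ⟨hMs, hME, hMp⟩ := hM
  refine ⟨M, hMs, hME, hMp, ?_⟩
  -- injectivity of first coordinate
  have hinj : Set.InjOn Prod.fst (M : Set (ℕ × ℕ)) := by
    intro x hx y hy hxy
    by_contra hne
    exact (hMp x hx y hy hne).1 hxy
  have hcardI : (M.image Prod.fst).card = M.card := Finset.card_image_of_injOn hinj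
  have hIA : M.image Prod.fst ⊆ A := by
    intro a ha
    rw [Finset.mem_image] at ha
    obtain ⟨x, hx, rfl⟩ := ha
    exact (Finset.mem_product.1 (hMs hx)).1
  obtain ⟨U, hU⟩ : ∃ U : Finset ℕ, U = A \ M.image Prod.fst := ⟨_, rfl⟩
  have hUc : U.card + M.card = A.card := by
    rw [hU, ← hcardI]
    exact Finset.card_sdiff_add_card_eq_card hIA
  have hMA : M.card ≤ A.card := by omega
  obtain ⟨U1, hU1⟩ : ∃ U1 : Finset ℕ,
      U1 = U.filter (fun a => ¬ ((Y.filter (fun y => E a y)).card : ℝ) < D) := ⟨_, rfl⟩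
  obtain ⟨U2, hU2⟩ : ∃ U2 : Finset ℕ,
      U2 = U.filter (fun a => ((Y.filter (fun y => E a y)).card : ℝ) < D) := ⟨_, rfl⟩
  have hU12 : U2.card + U1.card = U.card := by
    rw [hU1, hU2]
    exact Finset.card_filter_add_card_filter_not (s := U) _
  have hU2s : (U2.card : ℝ) ≤ s := by
    refine le_trans ?_ hdeg
    have : U2 ⊆ A.filter (fun a => ((Y.filter (fun y => E a y)).card : ℝ) < D) := by
      rw [hU2, hU]
      exact Finset.filter_subset_filter _ Finset.sdiff_subset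
    exact_mod_cast Finset.card_le_card this
  -- edges
  obtain ⟨Ed, hEd⟩ : ∃ Ed : Finset (ℕ × ℕ),
      Ed = (U1 ×ˢ Y).filter (fun x => E x.1 x.2) := ⟨_, rfl⟩
  have hEdlow : (U1.card : ℝ) * D ≤ Ed.card := by
    have h3 : Ed.card = ∑ a ∈ U1, (Y.filter (fun y => E a y)).card := by
      rw [hEd, Finset.card_filter, Finset.sum_product]
      exact Finset.sum_congr rfl (fun a _ => (Finset.card_filter _ _).symm)
    rw [h3]
    push_cast
    have h5 : ∑ _a ∈ U1, D ≤ ∑ a ∈ U1, ((Y.filter (fun y => E a y)).card : ℝ) := by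
      refine Finset.sum_le_sum (fun a ha => ?_)
      rw [hU1, Finset.mem_filter] at ha
      exact not_lt.1 ha.2
    simpa using h5
  have hblock : Ed ⊆ (M.biUnion (fun m => (A ×ˢ Y).filter (fun x => E x.1 x.2 ∧ x.2 = m.2))) ∪
      (M.biUnion (fun m => (A ×ˢ Y).filter (fun x => E x.1 x.2 ∧ lab x.1 x.2 = lab m.1 m.2))) := by
    intro e he
    rw [hEd, Finset.mem_filter, Finset.mem_product, hU1, Finset.mem_filter, hU, Finset.mem_sdiff] at he
    obtain ⟨⟨⟨⟨heA, heM⟩, _⟩, heY⟩, heE⟩ := he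
    by_contra hcon
    rw [Finset.mem_union, not_or, Finset.mem_biUnion, Finset.mem_biUnion] at hcon
    obtain ⟨hc1, hc2⟩ := hcon
    have hd1 : ∀ m ∈ M, e.2 ≠ m.2 := by
      intro m hm hem
      exact hc1 ⟨m, hm, Finset.mem_filter.2 ⟨Finset.mem_product.2 ⟨heA, heY⟩, heE, hem⟩⟩
    have hd2 : ∀ m ∈ M, lab e.1 e.2 ≠ lab m.1 m.2 := by
      intro m hm hem
      exact hc2 ⟨m, hm, Finset.mem_filter.2 ⟨Finset.mem_product.2 ⟨heA, heY⟩, heE, hem⟩⟩
    have hd3 : ∀ m ∈ M, e.1 ≠ m.1 := by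
      intro m hm hem
      exact heM (Finset.mem_image.2 ⟨m, hm, hem.symm⟩)
    have heM' : e ∉ M := fun he' => hd3 e he' rfl
    have hins : insert e M ∈ F := by
      rw [hF, Finset.mem_filter, Finset.mem_powerset]
      refine ⟨?_, ?_, ?_⟩
      · rw [Finset.insert_subset_iff]
        exact ⟨Finset.mem_product.2 ⟨heA, heY⟩, hMs⟩
      · intro x hx
        rcases Finset.mem_insert.1 hx with rfl | hx
        · exact heE
        · exact hME x hx
      · intro x hx y hy hxy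
        rcases Finset.mem_insert.1 hx with hx1 | hx1
        · rcases Finset.mem_insert.1 hy with hy1 | hy1
          · exact absurd (hx1.trans hy1.symm) hxy
          · rw [hx1]
            exact ⟨hd3 y hy1, hd1 y hy1, hd2 y hy1⟩
        · rcases Finset.mem_insert.1 hy with hy1 | hy1
          · rw [hy1]
            exact ⟨(hd3 x hx1).symm, (hd1 x hx1).symm, (hd2 x hx1).symm⟩
          · exact hMp x hx1 y hy1 hxy
    have := hmax _ hins
    rw [Finset.card_insert_of_notMem heM'] at this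
    omega
  have hc1 : ((M.biUnion (fun m => (A ×ˢ Y).filter (fun x => E x.1 x.2 ∧ x.2 = m.2))).card : ℝ)
      ≤ M.card * K := by
    have h3 := Finset.card_biUnion_le (s := M)
      (t := fun m => (A ×ˢ Y).filter (fun x => E x.1 x.2 ∧ x.2 = m.2))
    have h4 : ((∑ m ∈ M, ((A ×ˢ Y).filter (fun x => E x.1 x.2 ∧ x.2 = m.2)).card : ℕ) : ℝ)
        ≤ ∑ _m ∈ M, K := by
      push_cast
      refine Finset.sum_le_sum (fun m hm => ?_)
      have hmY : m.2 ∈ Y := (Finset.mem_product.1 (hMs hm)).2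
      refine le_trans ?_ (h1 m.2 hmY)
      have : ((A ×ˢ Y).filter (fun x => E x.1 x.2 ∧ x.2 = m.2)).card ≤
          (A.filter (fun a => E a m.2)).card := by
        refine Finset.card_le_card_of_injOn Prod.fst ?_ ?_
        · intro x hx
          have hx' := Finset.mem_filter.1 (Finset.mem_coe.1 hx)
          refine Finset.mem_coe.2 (Finset.mem_filter.2 ⟨(Finset.mem_product.1 hx'.1).1, ?_⟩)
          rw [← hx'.2.2]
          exact hx'.2.1
        · intro x hx y hy hxy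
          have hx' := Finset.mem_filter.1 (Finset.mem_coe.1 hx)
          have hy' := Finset.mem_filter.1 (Finset.mem_coe.1 hy)
          exact Prod.ext hxy (hx'.2.2.trans hy'.2.2.symm)
      exact_mod_cast this
    rw [Finset.sum_const, nsmul_eq_mul] at h4
    refine le_trans ?_ h4
    exact_mod_cast h3
  have hc2 : ((M.biUnion (fun m => (A ×ˢ Y).filter
      (fun x => E x.1 x.2 ∧ lab x.1 x.2 = lab m.1 m.2))).card : ℝ) ≤ M.card * K := by
    have h3 := Finset.card_biUnion_le (s := M)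
      (t := fun m => (A ×ˢ Y).filter (fun x => E x.1 x.2 ∧ lab x.1 x.2 = lab m.1 m.2))
    have h4 : ((∑ m ∈ M, ((A ×ˢ Y).filter
        (fun x => E x.1 x.2 ∧ lab x.1 x.2 = lab m.1 m.2)).card : ℕ) : ℝ) ≤ ∑ _m ∈ M, K := by
      push_cast
      exact Finset.sum_le_sum (fun m _ => h2 (lab m.1 m.2))
    rw [Finset.sum_const, nsmul_eq_mul] at h4
    refine le_trans ?_ h4
    exact_mod_cast h3
  have hEdup : (Ed.card : ℝ) ≤ 2 * M.card * K := by
    have h3 : (Ed.card : ℝ) ≤ ((M.biUnion (fun m => (A ×ˢ Y).filter (fun x => E x.1 x.2 ∧ x.2 = m.2))).card : ℝ)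
      + ((M.biUnion (fun m => (A ×ˢ Y).filter
        (fun x => E x.1 x.2 ∧ lab x.1 x.2 = lab m.1 m.2))).card : ℝ) := by
      have := (Finset.card_le_card hblock).trans (Finset.card_union_le _ _)
      exact_mod_cast this
    linarith
  have hU1s : (U1.card : ℝ) ≤ s := by
    have h3 : (U1.card : ℝ) * D ≤ s * D := by
      have h4 : (M.card : ℝ) ≤ A.card := by exact_mod_cast hMA
      have h5 : 2 * (M.card : ℝ) * K ≤ 2 * A.card * K := by
        refine mul_le_mul_of_nonneg_right ?_ hK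
        linarith
      linarith
    exact le_of_mul_le_mul_right h3 hD
  have hfin : (A.card : ℝ) = U2.card + U1.card + M.card := by
    have : A.card = U2.card + U1.card + M.card := by omega
    exact_mod_cast this
  linarith

end Pool.Agent.Helper602.MK.N_J10g
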