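import Mathlib
import Pool.Agent.Helper602.MK.Defs
import Pool.Agent.Helper602.MK.J10
import Pool.Agent.Helper602.MK.J10g

set_option autoImplicit false

namespace Pool.Agent.Helper602.MK

open Finset N_J10 N_J10g

open Filter Topology

theorem mem_win {k : ℕ} {I : Finset (ℝ × ℝ)} {p : ℕ} : p ∈ win k I ↔
    (1 ≤ p ∧ p ≤ k) ∧ p.Prime ∧ ∃ J ∈ I, J.1 * k < p ∧ (p : ℝ) ≤ J.2 * k := by
  classical
  unfold win
  rw [Finset.mem_filter, Finset.mem_Icc]

theorem card_edges (k : ℕ) (I : Finset (ℝ × ℝ)) (F : ℕ → ℤ) :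
    ((((win k I).filter (fun y => Nat.Prime (F y).toNat)).card : ℕ) : ℝ) =
      ∑ y ∈ win k I, ip (F y) := by
  unfold ip
  rw [Finset.sum_boole]

theorem nlog_tendsto : Tendsto (fun k : ℕ => (k : ℝ) / (Real.log k) ^ 2) atTop atTop := by
  have h : Tendsto (fun x : ℝ => x / (Real.log x) ^ 2) atTop atTop := by
    have h1 := Real.isLittleO_pow_log_id_atTop (n := 2)
    have h2 : Tendsto (fun x : ℝ => (Real.log x) ^ 2 / x) atTop (𝓝 0) := h1.tendsto_div_nhds_zero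
    have h3 : Tendsto (fun x : ℝ => (Real.log x) ^ 2 / x) atTop (𝓝[>] 0) := by
      rw [tendsto_nhdsWithin_iff]
      refine ⟨h2, ?_⟩
      filter_upwards [eventually_gt_atTop (1 : ℝ)] with x hx
      have hl := Real.log_pos hx
      have hx0 : 0 < x := by linarith
      exact Set.mem_Ioi.2 (by positivity)
    have h4 := h3.inv_tendsto_nhdsGT_zero
    refine h4.congr fun x => ?_
    simp [inv_div]
  exact h.comp tendsto_natCast_atTop_atTop

/-- matching for one relation -/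
theorem match_of (h8 : J8Stmt) (h12 : J12Stmt) (IX IY : Finset (ℝ × ℝ)) (a b : ℤ)
    (hX : Wok IX) (hY : Wok IY) (ha : a.natAbs ∈ ({1, 2, 4} : Finset ℕ))
    (hb : b.natAbs ∈ ({1, 2, 4} : Finset ℕ)) (hodd : Odd (a + b))
    (hpos : ∀ x y : ℝ, (∃ J ∈ IX, J.1 ≤ x ∧ x ≤ J.2) → (∃ J ∈ IY, J.1 ≤ y ∧ y ≤ J.2) →
      1 / 10 ≤ a * x + b * y)
    (lam η : ℝ) (hlam : 0 < lam) (hη : 0 < η) (hη1 : η ≤ 1 / 100) (hlX : len IX = lam)
    (hlY : len IY = lam)
    (hmult : ∀ᶠ k : ℕ in atTop, ∀ l : ℕ, (((win k IX ×ˢ win k IY).filter (fun x =>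
      Nat.Prime (a * x.1 + b * x.2 : ℤ).toNat ∧ (a * x.1 + b * x.2 : ℤ).toNat = l)).card : ℝ) ≤
        η * (lam * k / (Real.log k) ^ 2)) :
    ∀ᶠ k : ℕ in atTop, ∃ M : Finset (ℕ × ℕ), M ⊆ win k IX ×ˢ win k IY ∧
      (∀ x ∈ M, Nat.Prime (a * x.1 + b * x.2 : ℤ).toNat) ∧
      (∀ x ∈ M, ∀ y ∈ M, x ≠ y → x.1 ≠ y.1 ∧ x.2 ≠ y.2 ∧
        (a * x.1 + b * x.2 : ℤ).toNat ≠ (a * y.1 + b * y.2 : ℤ).toNat) ∧
      (1 - 8 * η) * (lam * k / Real.log k) ≤ M.card := by
  obtain ⟨ρ, hρ1, hρ2, k0, hk0, H8⟩ := h8 IX IY a b hX hY ha hb hodd hpos (η * lam ^ 2)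
    (by positivity)
  have hcX := h12 IX hX
  rw [hlX] at hcX
  have e1 : ∀ᶠ k : ℕ in atTop, |((win k IX).card : ℝ) * Real.log k / k - lam| < η * lam := by
    have := Metric.tendsto_atTop.1 hcX (η * lam) (by positivity)
    obtain ⟨N, hN⟩ := this
    filter_upwards [eventually_ge_atTop N] with k hk
    have := hN k hk
    rwa [Real.dist_eq] at this
  have e2 := (nlog_tendsto.const_mul_atTop hlam).eventually_ge_atTop (8 / η ^ 2)
  filter_upwards [e1, e2, hmult, eventually_ge_atTop k0, eventually_ge_atTop 3] with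
    k h1 h2 h3 h4 h5
  have hk3 : (3 : ℝ) ≤ k := by exact_mod_cast h5
  have hk : (0 : ℝ) < k := by linarith
  have hL : 0 < Real.log k := Real.log_pos (by linarith)
  obtain ⟨H8a, H8b⟩ := H8 k h4
  set n : ℝ := lam * k / Real.log k with hn
  set D : ℝ := ρ * lam * k / (Real.log k) ^ 2 with hD
  have hn0 : 0 < n := by positivity
  have hDge : lam * (k / (Real.log k) ^ 2) ≤ D := by
    rw [hD]
    rw [← mul_div_assoc]
    apply div_le_div_of_nonneg_right _ (by positivity)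
    have : lam * k ≤ ρ * (lam * k) := le_mul_of_one_le_left (by positivity) hρ1
    linarith
  have hD0 : 0 < D := lt_of_lt_of_le (by positivity) hDge
  have hcard : n * (1 - η) ≤ (win k IX).card ∧ ((win k IX).card : ℝ) ≤ n * (1 + η) := by
    have hc : ((win k IX).card : ℝ) = (((win k IX).card : ℝ) * Real.log k / k) *
        (k / Real.log k) := by field_simp
    have hkl : 0 < (k : ℝ) / Real.log k := by positivity
    rw [abs_lt] at h1
    rw [hc, hn]
    constructor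
    · have : lam * (1 - η) ≤ ((win k IX).card : ℝ) * Real.log k / k := by linarith [h1.1]
      calc lam * k / Real.log k * (1 - η) = (lam * (1 - η)) * (k / Real.log k) := by ring
        _ ≤ _ := mul_le_mul_of_nonneg_right this hkl.le
    · have : ((win k IX).card : ℝ) * Real.log k / k ≤ lam * (1 + η) := by linarith [h1.2]
      calc _ ≤ (lam * (1 + η)) * (k / Real.log k) := mul_le_mul_of_nonneg_right this hkl.le
        _ = _ := by ring
  have hbound : η * lam ^ 2 * (k : ℝ) ^ 2 / Real.log k ^ 3 ≤ η * n * D := by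
    have e : η * n * D = ρ * (η * lam ^ 2 * (k : ℝ) ^ 2 / Real.log k ^ 3) := by
      rw [hn, hD]; field_simp
    rw [e]
    exact le_mul_of_one_le_left (by positivity) hρ1
  have hbne : b ≠ 0 := by
    rintro rfl
    simp at hb
  obtain ⟨M, hM1, hM2, hM3, hM4⟩ := J10 (win k IX) (win k IY)
    (fun x y => Nat.Prime (a * x + b * y : ℤ).toNat) (fun x y => (a * x + b * y : ℤ).toNat)
    n D η hη hη1 hn0 (le_trans h2 hDge) (by linarith [hcard.1]) (by linarith [hcard.2])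
    (by
      refine le_trans (le_of_eq ?_) (le_trans H8a hbound)
      refine Finset.sum_congr rfl fun x _ => ?_
      have := card_edges k IY (fun y : ℕ => (a * x + b * y : ℤ))
      beta_reduce at this
      rw [hlY, ← this, hD]
      congr!)
    (by
      refine le_trans (le_of_eq ?_) (le_trans H8b hbound)
      refine Finset.sum_congr rfl fun y _ => ?_
      have := card_edges k IX (fun x : ℕ => (a * x + b * y : ℤ))
      beta_reduce at this
      rw [hlX, ← this, hD]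
      congr!)
    (by
      intro l
      refine le_trans (le_trans (le_of_eq (by congr!)) (h3 l)) ?_
      refine mul_le_mul_of_nonneg_left ?_ hη.le
      calc lam * k / Real.log k ^ 2 = lam * (k / Real.log k ^ 2) := by ring
        _ ≤ D := hDge)
    (by
      intro x _ y _ y' _ hE hE' hl
      have p1 := hE.pos
      have p2 := hE'.pos
      have : (a * x + b * y : ℤ) = a * x + b * y' := by
        have hl' : (a * x + b * y : ℤ).toNat = (a * x + b * y' : ℤ).toNat := hl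
        omega
      have h6 : b * (y : ℤ) = b * y' := by linarith
      have := mul_left_cancel₀ hbne h6
      exact_mod_cast this)
  refine ⟨M, hM1, hM2, hM3, ?_⟩
  linarith

/-- greedy matching for one relation -/
theorem greedy_of (h8 : J8Stmt) (h12 : J12Stmt) (IX IY : Finset (ℝ × ℝ)) (a b : ℤ)
    (hX : Wok IX) (hY : Wok IY) (ha : a.natAbs ∈ ({1, 2, 4} : Finset ℕ))
    (hb : b.natAbs ∈ ({1, 2, 4} : Finset ℕ)) (hodd : Odd (a + b))
    (hpos : ∀ x y : ℝ, (∃ J ∈ IX, J.1 ≤ x ∧ x ≤ J.2) → (∃ J ∈ IY, J.1 ≤ y ∧ y ≤ J.2) →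
      1 / 10 ≤ a * x + b * y)
    (lX lY K0 s0 : ℝ) (hlX0 : 0 < lX) (hlY0 : 0 < lY) (hs0 : 0 < s0) (hK0 : 0 < K0)
    (hlX : len IX = lX) (hlY : len IY = lY)
    (hsmall : 8 * lX * K0 ≤ s0 * lY)
    (hm1 : ∀ᶠ k : ℕ in atTop, ∀ y ∈ win k IY, (((win k IX).filter (fun x : ℕ =>
      Nat.Prime (a * x + b * y : ℤ).toNat)).card : ℝ) ≤ K0 * (k / (Real.log k) ^ 2))
    (hm2 : ∀ᶠ k : ℕ in atTop, ∀ l : ℕ, (((win k IX ×ˢ win k IY).filter (fun x =>
      Nat.Prime (a * x.1 + b * x.2 : ℤ).toNat ∧ (a * x.1 + b * x.2 : ℤ).toNat = l)).card : ℝ) ≤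
        K0 * (k / (Real.log k) ^ 2)) :
    ∀ᶠ k : ℕ in atTop, ∃ M : Finset (ℕ × ℕ), M ⊆ win k IX ×ˢ win k IY ∧
      (∀ x ∈ M, Nat.Prime (a * x.1 + b * x.2 : ℤ).toNat) ∧
      (∀ x ∈ M, ∀ y ∈ M, x ≠ y → x.1 ≠ y.1 ∧ x.2 ≠ y.2 ∧
        (a * x.1 + b * x.2 : ℤ).toNat ≠ (a * y.1 + b * y.2 : ℤ).toNat) ∧
      ((win k IX).card : ℝ) - 2 * s0 * (k / Real.log k) ≤ M.card := by
  obtain ⟨ρ, hρ1, hρ2, k0, hk0, H8⟩ := h8 IX IY a b hX hY ha hb hodd hpos (s0 * lY / 2)
    (by positivity)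
  have hcX := h12 IX hX
  rw [hlX] at hcX
  have e1 : ∀ᶠ k : ℕ in atTop, ((win k IX).card : ℝ) * Real.log k / k < 2 * lX :=
    hcX.eventually_lt_const (by linarith)
  filter_upwards [e1, hm1, hm2, eventually_ge_atTop k0, eventually_ge_atTop 3] with
    k h1 h2 h3 h4 h5
  have hk3 : (3 : ℝ) ≤ k := by exact_mod_cast h5
  have hk : (0 : ℝ) < k := by linarith
  have hL : 0 < Real.log k := Real.log_pos (by linarith)
  obtain ⟨H8a, -⟩ := H8 k h4
  have hcard : ((win k IX).card : ℝ) ≤ 2 * lX * (k / Real.log k) := by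
    have hc : ((win k IX).card : ℝ) = (((win k IX).card : ℝ) * Real.log k / k) *
        (k / Real.log k) := by field_simp
    rw [hc]
    exact mul_le_mul_of_nonneg_right h1.le (by positivity)
  set D : ℝ := lY * (k / (Real.log k) ^ 2) / 2 with hD
  have hD0 : 0 < D := by positivity
  have hbne : b ≠ 0 := by
    rintro rfl
    simp at hb
  obtain ⟨M, hM1, hM2, hM3, hM4⟩ := J10g (win k IX) (win k IY)
    (fun x y => Nat.Prime (a * x + b * y : ℤ).toNat) (fun x y => (a * x + b * y : ℤ).toNat)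
    (K0 * (k / (Real.log k) ^ 2)) D (s0 * (k / Real.log k)) hD0 (by positivity)
    (by
      -- few vertices of low degree
      set Bad := (win k IX).filter (fun x : ℕ => ((((win k IY).filter (fun y : ℕ =>
        Nat.Prime (a * x + b * y : ℤ).toNat)).card : ℕ) : ℝ) < D) with hBad
      have hge : ∀ x ∈ Bad, D ≤ |∑ y ∈ win k IY, ip (a * x + b * y) -
          ρ * len IY * k / (Real.log k) ^ 2| := by
        intro x hx
        rw [hBad, Finset.mem_filter] at hx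
        have hthis := card_edges k IY (fun y : ℕ => (a * x + b * y : ℤ))
        beta_reduce at hthis
        rw [← hthis, hlY]
        have h7 : 2 * D ≤ ρ * lY * k / Real.log k ^ 2 := by
          have : 2 * D = lY * k / Real.log k ^ 2 := by rw [hD]; ring
          rw [this]
          apply div_le_div_of_nonneg_right _ (by positivity)
          have : lY * k ≤ ρ * (lY * k) := le_mul_of_one_le_left (by positivity) hρ1
          linarith
        have h8' := hx.2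
        rw [abs_sub_comm]
        refine le_trans ?_ (le_abs_self _)
        linarith
      have h9 : (Bad.card : ℝ) * D ≤ s0 * lY / 2 * (k : ℝ) ^ 2 / Real.log k ^ 3 := by
        calc (Bad.card : ℝ) * D = ∑ _x ∈ Bad, D := by rw [Finset.sum_const, nsmul_eq_mul]
          _ ≤ ∑ x ∈ Bad, |∑ y ∈ win k IY, ip (a * x + b * y) -
              ρ * len IY * k / (Real.log k) ^ 2| := Finset.sum_le_sum hge
          _ ≤ ∑ x ∈ win k IX, |∑ y ∈ win k IY, ip (a * x + b * y) -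
              ρ * len IY * k / (Real.log k) ^ 2| :=
            Finset.sum_le_sum_of_subset_of_nonneg (Finset.filter_subset _ _)
              (fun _ _ _ => abs_nonneg _)
          _ ≤ _ := H8a
      have h10 : s0 * lY / 2 * (k : ℝ) ^ 2 / Real.log k ^ 3 = (s0 * (k / Real.log k)) * D := by
        rw [hD]; field_simp
      rw [h10] at h9
      refine le_trans (le_of_eq ?_) (le_of_mul_le_mul_right h9 hD0)
      rw [hBad]
      congr!)
    (by
      intro y hy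
      exact le_trans (le_of_eq (by congr!)) (h2 y hy))
    (by
      intro l
      exact le_trans (le_of_eq (by congr!)) (h3 l))
    (by
      calc 2 * ((win k IX).card : ℝ) * (K0 * (k / Real.log k ^ 2))
          ≤ 2 * (2 * lX * (k / Real.log k)) * (K0 * (k / Real.log k ^ 2)) := by
            gcongr
        _ = (8 * lX * K0) * ((k / Real.log k) * (k / Real.log k ^ 2)) / 2 := by ring
        _ ≤ (s0 * lY) * ((k / Real.log k) * (k / Real.log k ^ 2)) / 2 := by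
            gcongr
        _ = s0 * (k / Real.log k) * D := by rw [hD]; ring)
  refine ⟨M, hM1, hM2, hM3, ?_⟩
  linarith

/-- prime pairs in a real interval -/
theorem J9real (h9 : J9Stmt) : ∃ C : ℝ, 1 ≤ C ∧ ∀ g : ℝ, 0 < g → g ≤ 1 → ∀ᶠ k : ℕ in atTop,
    ∀ p : ℕ, p.Prime → k ≤ 10 * p → p ≤ 10 * k → ∀ c s : ℤ, c.natAbs ∈ ({2, 4} : Finset ℕ) →
    s.natAbs = 1 → ∀ r : ℝ, ∀ S : Finset ℕ, (∀ x ∈ S, x.Prime ∧
      Nat.Prime (c * x + s * p : ℤ).toNat ∧ x ≤ k ∧ r < x ∧ (x : ℝ) ≤ r + g * k) →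
    (S.card : ℝ) ≤ C * g * (k / (Real.log k) ^ 2) := by
  obtain ⟨C, hC1, k0, hk0, H⟩ := h9
  refine ⟨3 * C, by linarith, ?_⟩
  intro g hg hg1
  have e1 : ∀ᶠ k : ℕ in atTop, (1 : ℝ) ≤ g ^ 2 * k := by
    have : Tendsto (fun k : ℕ => g ^ 2 * (k : ℝ)) atTop atTop :=
      tendsto_natCast_atTop_atTop.const_mul_atTop (by positivity)
    exact this.eventually_ge_atTop 1
  have e2 : ∀ᶠ k : ℕ in atTop, (1 : ℝ) ≤ g * k := by
    have : Tendsto (fun k : ℕ => g * (k : ℝ)) atTop atTop :=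
      tendsto_natCast_atTop_atTop.const_mul_atTop (by positivity)
    exact this.eventually_ge_atTop 1
  filter_upwards [e1, e2, eventually_ge_atTop k0, eventually_ge_atTop 3] with k h1 h2 h3 h4
  intro p hp hp1 hp2 c s hc hs r S hS
  have hk3 : (3 : ℝ) ≤ k := by exact_mod_cast h4
  have hk : (0 : ℝ) < k := by linarith
  have hL : 0 < Real.log k := Real.log_pos (by linarith)
  rcases S.eq_empty_or_nonempty with rfl | ⟨x0, hx0⟩
  · simp only [Finset.card_empty, Nat.cast_zero]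
    positivity
  have hx0' := hS x0 hx0
  set L := ⌊r⌋₊ with hLdef
  set ℓ := ⌈g * k⌉₊ + 1 with hℓ
  have hℓ1 : g * k + 1 ≤ (ℓ : ℝ) := by
    rw [hℓ]; push_cast
    linarith [Nat.le_ceil (g * k)]
  have hℓ2 : (ℓ : ℝ) ≤ 3 * (g * k) := by
    rw [hℓ]; push_cast
    have := (Nat.ceil_lt_add_one (show 0 ≤ g * (k : ℝ) by positivity)).le
    linarith
  have hLk : L ≤ 10 * k := by
    have : L ≤ x0 := by
      rw [hLdef]
      exact Nat.floor_le_of_le hx0'.2.2.2.1.le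
    omega
  have hsub : S ⊆ (Ioc L (L + ℓ)).filter (fun x : ℕ => x.Prime ∧
      Nat.Prime (c * x + s * p : ℤ).toNat) := by
    intro x hx
    obtain ⟨hx1, hx2, hx3, hx4, hx5⟩ := hS x hx
    rw [Finset.mem_filter, Finset.mem_Ioc]
    refine ⟨⟨?_, ?_⟩, hx1, hx2⟩
    · rcases le_or_gt 0 r with hr | hr
      · have : (L : ℝ) < x := lt_of_le_of_lt (Nat.floor_le hr) hx4
        exact_mod_cast this
      · have : L = 0 := Nat.floor_of_nonpos hr.le
        rw [this]; exact hx1.pos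
    · have h6 : r < L + 1 := Nat.lt_floor_add_one r
      have : (x : ℝ) < (L + ℓ : ℕ) + 1 := by push_cast; linarith
      have : x < L + ℓ + 1 := by exact_mod_cast this
      omega
  have hkl : k ≤ ℓ ^ 2 := by
    have : (k : ℝ) ≤ (ℓ : ℝ) ^ 2 := by
      calc (k : ℝ) ≤ (g ^ 2 * k) * k := le_mul_of_one_le_left hk.le h1
        _ = (g * k) ^ 2 := by ring
        _ ≤ (ℓ : ℝ) ^ 2 := by
          apply pow_le_pow_left₀ (by positivity); linarith
    exact_mod_cast this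
  have hl10 : ℓ ≤ 10 * k := by
    have : (ℓ : ℝ) ≤ 10 * k := by nlinarith
    exact_mod_cast this
  have := H k h3 p hp hp1 hp2 c s hc hs L ℓ hkl hl10 hLk
  calc (S.card : ℝ) ≤ _ := by exact_mod_cast Finset.card_le_card hsub
    _ ≤ C * ℓ / (Real.log k) ^ 2 := this
    _ ≤ C * (3 * (g * k)) / (Real.log k) ^ 2 := by gcongr
    _ = 3 * C * g * (k / (Real.log k) ^ 2) := by ring

/-- cells of length g at s0 + i w -/
noncomputable def cells (s0 w g : ℝ) (m : ℕ) : Finset (ℝ × ℝ) := by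
  classical
  exact (range m).image (fun i : ℕ => (s0 + i * w, s0 + i * w + g))

theorem mem_cells {s0 w g : ℝ} {m : ℕ} {J : ℝ × ℝ} : J ∈ cells s0 w g m ↔
    ∃ i : ℕ, i < m ∧ (s0 + i * w, s0 + i * w + g) = J := by
  classical
  unfold cells
  simp only [Finset.mem_image, Finset.mem_range]

theorem len_cells {s0 w g : ℝ} {m : ℕ} (hw : 0 < w) : len (cells s0 w g m) = m * g := by
  classical
  unfold len cells
  rw [Finset.sum_image]
  · simp
  · intro i _ j _ hij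
    simp only [Prod.mk.injEq] at hij
    have : (i : ℝ) * w = j * w := by linarith [hij.1]
    have := mul_right_cancel₀ hw.ne' this
    exact_mod_cast this

theorem Wok_cells {s0 w g : ℝ} {m : ℕ} (hg : 0 < g) (hgw : g ≤ w) (h1 : 1 / 10 ≤ s0)
    (h2 : s0 + m * w ≤ 1) : Wok (cells s0 w g m) := by
  have hw : 0 < w := by linarith
  constructor
  · intro J hJ
    obtain ⟨i, hi, rfl⟩ := mem_cells.1 hJ
    have hi' : (i : ℝ) + 1 ≤ m := by exact_mod_cast hi
    have hi0 : (0 : ℝ) ≤ i := by positivity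
    refine ⟨?_, ?_, ?_⟩
    · change 1 / 10 ≤ s0 + i * w
      have : 0 ≤ (i : ℝ) * w := by positivity
      linarith
    · change s0 + i * w < s0 + i * w + g
      linarith
    · change s0 + i * w + g ≤ 1
      nlinarith
  · intro J hJ J' hJ' hne
    obtain ⟨i, hi, rfl⟩ := mem_cells.1 hJ
    obtain ⟨j, hj, rfl⟩ := mem_cells.1 hJ'
    change s0 + i * w + g ≤ s0 + j * w ∨ s0 + j * w + g ≤ s0 + i * w
    rcases lt_trichotomy i j with h | h | h
    · left
      have : (i : ℝ) + 1 ≤ j := by exact_mod_cast h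
      nlinarith
    · exact absurd (by rw [h]) hne
    · right
      have : (j : ℝ) + 1 ≤ i := by exact_mod_cast h
      nlinarith

theorem cell_count (h9 : J9Stmt) : ∃ C : ℝ, 1 ≤ C ∧ ∀ g : ℝ, 0 < g → g ≤ 1 → ∀ᶠ k : ℕ in atTop,
    ∀ p : ℕ, p.Prime → k ≤ 10 * p → p ≤ 10 * k → ∀ c s : ℤ, c.natAbs ∈ ({2, 4} : Finset ℕ) →
    s.natAbs = 1 → ∀ w s0 α β : ℝ, g ≤ w → 1 ≤ α → ∀ S : Finset ℕ, (∀ x ∈ S, x.Prime ∧
      Nat.Prime (c * x + s * p : ℤ).toNat ∧ x ≤ k ∧
      ∃ i : ℕ, (s0 + i * w) * k < α * x + β ∧ α * x + β ≤ (s0 + i * w + g) * k) →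
    (∀ x ∈ S, ∀ x' ∈ S, α * (x : ℝ) - α * (x' : ℝ) ≤ w * k) →
    (S.card : ℝ) ≤ 2 * C * g * (k / (Real.log k) ^ 2) := by
  obtain ⟨C, hC1, H⟩ := J9real h9
  refine ⟨C, hC1, ?_⟩
  intro g hg hg1
  filter_upwards [H g hg hg1, eventually_ge_atTop 3] with k h1 h2
  intro p hp hp1 hp2 c s hc hs w s0 α β hgw hα S hS hspread
  have hk3 : (3 : ℝ) ≤ k := by exact_mod_cast h2
  have hk : (0 : ℝ) < k := by linarith
  have hL : 0 < Real.log k := Real.log_pos (by linarith)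
  have hw : 0 < w := by linarith
  rcases S.eq_empty_or_nonempty with rfl | hne
  · simp only [Finset.card_empty, Nat.cast_zero]
    positivity
  obtain ⟨x0, hx0, hmin⟩ := Finset.exists_min_image S (fun x => x) hne
  obtain ⟨-, -, -, i0, hi1, hi2⟩ := hS x0 hx0
  have hα0 : 0 < α := by linarith
  classical
  set S0 := S.filter (fun x : ℕ => (s0 + i0 * w) * k < α * x + β ∧
    α * x + β ≤ (s0 + i0 * w + g) * k) with hS0
  set S1 := S.filter (fun x : ℕ => (s0 + ((i0 + 1 : ℕ) : ℝ) * w) * k < α * x + β ∧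
    α * x + β ≤ (s0 + ((i0 + 1 : ℕ) : ℝ) * w + g) * k) with hS1
  have hcov : S ⊆ S0 ∪ S1 := by
    intro x hx
    obtain ⟨-, -, -, i, hi3, hi4⟩ := hS x hx
    have hxx : (x0 : ℝ) ≤ x := by exact_mod_cast hmin x hx
    have hsp := hspread x hx x0 hx0
    have h3 : α * (x0 : ℝ) ≤ α * x := mul_le_mul_of_nonneg_left hxx hα0.le
    have h4 : (s0 + i * w) * k < (s0 + i0 * w + g) * k + w * k := by linarith
    have h5 : (s0 + i0 * w) * k < (s0 + i * w + g) * k := by linarith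
    have h6 : (s0 + i * w) < (s0 + i0 * w + g) + w := by
      have : (s0 + i * w) * k < (s0 + i0 * w + g + w) * k := by linarith
      exact lt_of_mul_lt_mul_right this hk.le
    have h7 : (s0 + i0 * w) < (s0 + i * w + g) := lt_of_mul_lt_mul_right h5 hk.le
    have h8 : i < i0 + 2 := by
      by_contra hcon
      have : (i0 : ℝ) + 2 ≤ i := by exact_mod_cast not_lt.1 hcon
      nlinarith
    have h9 : i0 < i + 1 := by
      by_contra hcon
      have : (i : ℝ) + 1 ≤ i0 := by exact_mod_cast not_lt.1 hcon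
      nlinarith
    have h10 : i = i0 ∨ i = i0 + 1 := by omega
    rw [Finset.mem_union, hS0, hS1, Finset.mem_filter, Finset.mem_filter]
    rcases h10 with h | h
    · left; rw [← h]; exact ⟨hx, hi3, hi4⟩
    · right; rw [← h]; exact ⟨hx, hi3, hi4⟩
  have hone : ∀ i : ℕ, ∀ S' : Finset ℕ, S' ⊆ S → (∀ x ∈ S', (s0 + i * w) * k < α * x + β ∧
      α * x + β ≤ (s0 + i * w + g) * k) → (S'.card : ℝ) ≤ C * g * (k / (Real.log k) ^ 2) := by
    intro i S' hsub hS'
    refine h1 p hp hp1 hp2 c s hc hs (((s0 + i * w) * k - β) / α) S' ?_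
    intro x hx
    obtain ⟨hx1, hx2, hx3, -⟩ := hS x (hsub hx)
    obtain ⟨hx4, hx5⟩ := hS' x hx
    refine ⟨hx1, hx2, hx3, ?_, ?_⟩
    · rw [div_lt_iff₀ hα0]; linarith
    · have h11 : (x : ℝ) ≤ ((s0 + i * w) * k - β) / α + g * k / α := by
        rw [← add_div, le_div_iff₀ hα0]; linarith
      have h12 : g * k / α ≤ g * k := div_le_self (by positivity) hα
      linarith
  have c0 := hone i0 S0 (Finset.filter_subset _ _) (fun x hx => (Finset.mem_filter.1 hx).2)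
  have c1 := hone (i0 + 1) S1 (Finset.filter_subset _ _) (fun x hx => (Finset.mem_filter.1 hx).2)
  calc (S.card : ℝ) ≤ ((S0 ∪ S1).card : ℝ) := by exact_mod_cast Finset.card_le_card hcov
    _ ≤ (S0.card : ℝ) + S1.card := by exact_mod_cast Finset.card_union_le S0 S1
    _ ≤ 2 * C * g * (k / (Real.log k) ^ 2) := by linarith

theorem win_pos {IX IY : Finset (ℝ × ℝ)} {a b : ℤ}
    (hpos : ∀ x y : ℝ, (∃ J ∈ IX, J.1 ≤ x ∧ x ≤ J.2) → (∃ J ∈ IY, J.1 ≤ y ∧ y ≤ J.2) →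
      1 / 10 ≤ a * x + b * y) {k x y : ℕ} (hk : 0 < k) (hx : x ∈ win k IX) (hy : y ∈ win k IY) :
    (k : ℝ) ≤ 10 * (a * x + b * y) := by
  have hk' : (0 : ℝ) < k := by exact_mod_cast hk
  obtain ⟨-, -, J, hJ, h1, h2⟩ := mem_win.1 hx
  obtain ⟨-, -, J', hJ', h3, h4⟩ := mem_win.1 hy
  have h := hpos (x / k) (y / k) ⟨J, hJ, by rw [le_div_iff₀ hk']; exact h1.le,
    by rw [div_le_iff₀ hk']; exact h2⟩ ⟨J', hJ', by rw [le_div_iff₀ hk']; exact h3.le,
    by rw [div_le_iff₀ hk']; exact h4⟩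
  have e : (a : ℝ) * (x / k) + b * (y / k) = (a * x + b * y) / k := by ring
  rw [e, le_div_iff₀ hk'] at h
  linarith

theorem lab_range {IX IY : Finset (ℝ × ℝ)} {a b : ℤ}
    (ha : a.natAbs ∈ ({1, 2, 4} : Finset ℕ)) (hb : b.natAbs ∈ ({1, 2, 4} : Finset ℕ))
    (hpos : ∀ x y : ℝ, (∃ J ∈ IX, J.1 ≤ x ∧ x ≤ J.2) → (∃ J ∈ IY, J.1 ≤ y ∧ y ≤ J.2) →
      1 / 10 ≤ a * x + b * y) {k x y : ℕ} (hk : 0 < k) (hx : x ∈ win k IX) (hy : y ∈ win k IY) :
    (k : ℤ) ≤ 10 * (a * x + b * y) ∧ (a * x + b * y : ℤ) ≤ 8 * k := by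
  have h := win_pos hpos hk hx hy
  have hxk : x ≤ k := (mem_win.1 hx).1.2
  have hyk : y ≤ k := (mem_win.1 hy).1.2
  constructor
  · have : ((k : ℤ) : ℝ) ≤ ((10 * (a * x + b * y) : ℤ) : ℝ) := by push_cast; exact h
    exact_mod_cast this
  · have ha4 : a ≤ 4 := by
      simp only [Finset.mem_insert, Finset.mem_singleton] at ha
      omega
    have hb4 : b ≤ 4 := by
      simp only [Finset.mem_insert, Finset.mem_singleton] at hb
      omega
    have h1 : a * x ≤ 4 * k := by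
      have : a * (x : ℤ) ≤ 4 * x := mul_le_mul_of_nonneg_right ha4 (by positivity)
      have : (x : ℤ) ≤ k := by exact_mod_cast hxk
      linarith
    have h2 : b * y ≤ 4 * k := by
      have : b * (y : ℤ) ≤ 4 * y := mul_le_mul_of_nonneg_right hb4 (by positivity)
      have : (y : ℤ) ≤ k := by exact_mod_cast hyk
      linarith
    linarith

/-- multiplicity bound, form A -/
theorem multA (h9 : J9Stmt) : ∃ C : ℝ, 1 ≤ C ∧ ∀ g : ℝ, 0 < g → g ≤ 1 → ∀ (m : ℕ) (s0 w : ℝ),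
    g ≤ w → ∀ (IY : Finset (ℝ × ℝ)) (a b : ℤ), a = 2 → (b = 1 ∨ b = -1) →
    (∀ x y : ℝ, (∃ J ∈ cells s0 w g m, J.1 ≤ x ∧ x ≤ J.2) → (∃ J ∈ IY, J.1 ≤ y ∧ y ≤ J.2) →
      1 / 10 ≤ a * x + b * y) →
    (∀ J ∈ IY, ∀ J' ∈ IY, J.2 - J'.1 ≤ 2 * w) →
    ∀ᶠ k : ℕ in atTop, ∀ l : ℕ, (((win k (cells s0 w g m) ×ˢ win k IY).filter (fun x =>
      Nat.Prime (a * x.1 + b * x.2 : ℤ).toNat ∧ (a * x.1 + b * x.2 : ℤ).toNat = l)).card : ℝ) ≤
        2 * C * g * (k / (Real.log k) ^ 2) := by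
  obtain ⟨C, hC1, H⟩ := cell_count h9
  refine ⟨C, hC1, ?_⟩
  intro g hg hg1 m s0 w hgw IY a b ha hb hpos hsp
  filter_upwards [H g hg hg1, eventually_ge_atTop 3] with k h1 h2
  intro l
  have hk3 : (3 : ℝ) ≤ k := by exact_mod_cast h2
  have hk : (0 : ℝ) < k := by linarith
  have hL : 0 < Real.log k := Real.log_pos (by linarith)
  classical
  set F := ((win k (cells s0 w g m) ×ˢ win k IY).filter (fun x =>
      Nat.Prime (a * x.1 + b * x.2 : ℤ).toNat ∧ (a * x.1 + b * x.2 : ℤ).toNat = l)) with hF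
  rcases F.eq_empty_or_nonempty with hFe | ⟨x0, hx0⟩
  · rw [hFe]
    simp only [Finset.card_empty, Nat.cast_zero]
    positivity
  have hmemF : ∀ x ∈ F, x.1 ∈ win k (cells s0 w g m) ∧ x.2 ∈ win k IY ∧
      Nat.Prime (a * x.1 + b * x.2 : ℤ).toNat ∧ (a * x.1 + b * x.2 : ℤ).toNat = l ∧
      (a * x.1 + b * x.2 : ℤ) = l := by
    intro x hx
    rw [hF, Finset.mem_filter, Finset.mem_product] at hx
    refine ⟨hx.1.1, hx.1.2, hx.2.1, hx.2.2, ?_⟩
    have := hx.2.1.pos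
    omega
  have ha' : a.natAbs ∈ ({1, 2, 4} : Finset ℕ) := by rw [ha]; decide
  have hb' : b.natAbs ∈ ({1, 2, 4} : Finset ℕ) := by
    rcases hb with h | h <;> rw [h] <;> decide
  obtain ⟨q1, q2, q3, q4, q5⟩ := hmemF x0 hx0
  have hr := lab_range ha' hb' hpos (by omega : 0 < k) q1 q2
  rw [q5] at hr
  have hlp : l.Prime := by rw [← q4]; exact q3
  have hinj : Set.InjOn (fun x : ℕ × ℕ => x.1) (F : Set (ℕ × ℕ)) := by
    intro x hx y hy hxy
    have e1 := (hmemF x hx).2.2.2.2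
    have e2 := (hmemF y hy).2.2.2.2
    simp only at hxy
    rw [hxy] at e1
    ext
    · exact hxy
    · rcases hb with h | h
      · rw [h] at e1 e2; omega
      · rw [h] at e1 e2; omega
  have hcard : F.card = (F.image (fun x : ℕ × ℕ => x.1)).card := (Finset.card_image_of_injOn hinj).symm
  rw [hcard]
  refine h1 l hlp (by omega) (by omega) (-a * b) b ?_ ?_ w s0 1 0 hgw le_rfl _ ?_ ?_
  · rcases hb with h | h <;> rw [h, ha] <;> decide
  · rcases hb with h | h <;> rw [h] <;> decide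
  · intro x hx
    obtain ⟨z, hz, rfl⟩ := Finset.mem_image.1 hx
    obtain ⟨p1, p2, p3, p4, p5⟩ := hmemF z hz
    obtain ⟨p6, p7, J, hJ, p8, p9⟩ := mem_win.1 p1
    obtain ⟨i, hi, rfl⟩ := mem_cells.1 hJ
    refine ⟨p7, ?_, p6.2, i, ?_, ?_⟩
    · have : (-a * b * z.1 + b * l : ℤ) = z.2 := by
        rcases hb with h | h
        · rw [h, ha] at p5 ⊢; linarith
        · rw [h, ha] at p5 ⊢; linarith
      rw [this, Int.toNat_natCast]
      exact (mem_win.1 p2).2.1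
    · simpa using p8
    · simpa using p9
  · intro x hx x' hx'
    obtain ⟨z, hz, rfl⟩ := Finset.mem_image.1 hx
    obtain ⟨z', hz', rfl⟩ := Finset.mem_image.1 hx'
    obtain ⟨p1, p2, p3, p4, p5⟩ := hmemF z hz
    obtain ⟨p1', p2', p3', p4', p5'⟩ := hmemF z' hz'
    obtain ⟨-, -, J, hJ, p8, p9⟩ := mem_win.1 p2
    obtain ⟨-, -, J', hJ', p8', p9'⟩ := mem_win.1 p2'
    have s1 := hsp J hJ J' hJ'
    have s2 := hsp J' hJ' J hJ
    have r1 : (J.2 - J'.1) * k ≤ 2 * w * k := mul_le_mul_of_nonneg_right s1 hk.le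
    have r2 : (J'.2 - J.1) * k ≤ 2 * w * k := mul_le_mul_of_nonneg_right s2 hk.le
    have e5 : (2 : ℝ) * z.1 + b * z.2 = l := by
      have : ((a * z.1 + b * z.2 : ℤ) : ℝ) = l := by exact_mod_cast congrArg (Int.cast : ℤ → ℝ) p5
      rw [ha] at this; push_cast at this; exact this
    have e5' : (2 : ℝ) * z'.1 + b * z'.2 = l := by
      have : ((a * z'.1 + b * z'.2 : ℤ) : ℝ) = l := by exact_mod_cast congrArg (Int.cast : ℤ → ℝ) p5'
      rw [ha] at this; push_cast at this; exact this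
    rcases hb with h | h
    · rw [h] at e5 e5'
      push_cast at e5 e5'
      nlinarith
    · rw [h] at e5 e5'
      push_cast at e5 e5'
      nlinarith

/-- multiplicity bound, form B -/
theorem multB (h9 : J9Stmt) : ∃ C : ℝ, 1 ≤ C ∧ ∀ g : ℝ, 0 < g → g ≤ 1 → ∀ (m : ℕ) (s0 w : ℝ),
    g ≤ w → ∀ (IX : Finset (ℝ × ℝ)) (a b : ℤ), a = 4 → b = -1 →
    (∀ x y : ℝ, (∃ J ∈ IX, J.1 ≤ x ∧ x ≤ J.2) → (∃ J ∈ cells s0 w g m, J.1 ≤ y ∧ y ≤ J.2) →
      1 / 10 ≤ a * x + b * y) →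
    (∀ J ∈ IX, ∀ J' ∈ IX, 4 * (J.2 - J'.1) ≤ w) →
    ∀ᶠ k : ℕ in atTop, ∀ l : ℕ, (((win k IX ×ˢ win k (cells s0 w g m)).filter (fun x =>
      Nat.Prime (a * x.1 + b * x.2 : ℤ).toNat ∧ (a * x.1 + b * x.2 : ℤ).toNat = l)).card : ℝ) ≤
        2 * C * g * (k / (Real.log k) ^ 2) := by
  obtain ⟨C, hC1, H⟩ := cell_count h9
  refine ⟨C, hC1, ?_⟩
  intro g hg hg1 m s0 w hgw IX a b ha hb hpos hsp
  filter_upwards [H g hg hg1, eventually_ge_atTop 3] with k h1 h2
  intro l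
  have hk3 : (3 : ℝ) ≤ k := by exact_mod_cast h2
  have hk : (0 : ℝ) < k := by linarith
  have hL : 0 < Real.log k := Real.log_pos (by linarith)
  classical
  set F := ((win k IX ×ˢ win k (cells s0 w g m)).filter (fun x =>
      Nat.Prime (a * x.1 + b * x.2 : ℤ).toNat ∧ (a * x.1 + b * x.2 : ℤ).toNat = l)) with hF
  rcases F.eq_empty_or_nonempty with hFe | ⟨x0, hx0⟩
  · rw [hFe]
    simp only [Finset.card_empty, Nat.cast_zero]
    positivity
  have hmemF : ∀ x ∈ F, x.1 ∈ win k IX ∧ x.2 ∈ win k (cells s0 w g m) ∧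
      Nat.Prime (a * x.1 + b * x.2 : ℤ).toNat ∧ (a * x.1 + b * x.2 : ℤ).toNat = l ∧
      (a * x.1 + b * x.2 : ℤ) = l := by
    intro x hx
    rw [hF, Finset.mem_filter, Finset.mem_product] at hx
    refine ⟨hx.1.1, hx.1.2, hx.2.1, hx.2.2, ?_⟩
    have := hx.2.1.pos
    omega
  have ha' : a.natAbs ∈ ({1, 2, 4} : Finset ℕ) := by rw [ha]; decide
  have hb' : b.natAbs ∈ ({1, 2, 4} : Finset ℕ) := by rw [hb]; decide
  obtain ⟨q1, q2, q3, q4, q5⟩ := hmemF x0 hx0
  have hr := lab_range ha' hb' hpos (by omega : 0 < k) q1 q2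
  rw [q5] at hr
  have hlp : l.Prime := by rw [← q4]; exact q3
  have hinj : Set.InjOn (fun x : ℕ × ℕ => x.1) (F : Set (ℕ × ℕ)) := by
    intro x hx y hy hxy
    have e1 := (hmemF x hx).2.2.2.2
    have e2 := (hmemF y hy).2.2.2.2
    simp only at hxy
    rw [hxy] at e1
    ext
    · exact hxy
    · rw [hb] at e1 e2; omega
  have hcard : F.card = (F.image (fun x : ℕ × ℕ => x.1)).card := (Finset.card_image_of_injOn hinj).symm
  rw [hcard]
  refine h1 l hlp (by omega) (by omega) 4 (-1) (by decide) (by decide) w s0 4 (-(l : ℝ)) hgw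
    (by norm_num) _ ?_ ?_
  · intro x hx
    obtain ⟨z, hz, rfl⟩ := Finset.mem_image.1 hx
    obtain ⟨p1, p2, p3, p4, p5⟩ := hmemF z hz
    obtain ⟨p6, p7, -⟩ := mem_win.1 p1
    obtain ⟨-, p7', J, hJ, p8, p9⟩ := mem_win.1 p2
    obtain ⟨i, hi, rfl⟩ := mem_cells.1 hJ
    rw [ha, hb] at p5
    have e5 : (4 : ℝ) * z.1 + -(l : ℝ) = z.2 := by
      have : ((4 * z.1 + -1 * z.2 : ℤ) : ℝ) = l := by exact_mod_cast congrArg (Int.cast : ℤ → ℝ) p5
      push_cast at this; linarith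
    refine ⟨p7, ?_, p6.2, i, ?_, ?_⟩
    · have : (4 * z.1 + -1 * l : ℤ) = z.2 := by linarith
      rw [this, Int.toNat_natCast]
      exact p7'
    · rw [e5]; simpa using p8
    · rw [e5]; simpa using p9
  · intro x hx x' hx'
    obtain ⟨z, hz, rfl⟩ := Finset.mem_image.1 hx
    obtain ⟨z', hz', rfl⟩ := Finset.mem_image.1 hx'
    obtain ⟨p1, p2, p3, p4, p5⟩ := hmemF z hz
    obtain ⟨p1', p2', p3', p4', p5'⟩ := hmemF z' hz'
    obtain ⟨-, -, J, hJ, p8, p9⟩ := mem_win.1 p1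
    obtain ⟨-, -, J', hJ', p8', p9'⟩ := mem_win.1 p1'
    have s1 := hsp J hJ J' hJ'
    have r1 : 4 * (J.2 - J'.1) * k ≤ w * k := mul_le_mul_of_nonneg_right s1 hk.le
    nlinarith

/-- count over a window made of at most two short intervals -/
theorem win_count (h9 : J9Stmt) : ∃ C : ℝ, 1 ≤ C ∧ ∀ g : ℝ, 0 < g → g ≤ 1 →
    ∀ IX : Finset (ℝ × ℝ), IX.card ≤ 2 → (∀ J ∈ IX, J.2 - J.1 ≤ g) → ∀ᶠ k : ℕ in atTop,
    ∀ p : ℕ, p.Prime → k ≤ 10 * p → p ≤ 10 * k → ∀ c s : ℤ, c.natAbs ∈ ({2, 4} : Finset ℕ) →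
    s.natAbs = 1 → ∀ S : Finset ℕ, (∀ x ∈ S, x ∈ win k IX ∧
      Nat.Prime (c * x + s * p : ℤ).toNat) →
    (S.card : ℝ) ≤ 2 * C * g * (k / (Real.log k) ^ 2) := by
  obtain ⟨C, hC1, H⟩ := J9real h9
  refine ⟨C, hC1, ?_⟩
  intro g hg hg1 IX hIX hJ
  filter_upwards [H g hg hg1, eventually_ge_atTop 3] with k h1 h2
  intro p hp hp1 hp2 c s hc hs S hS
  have hk3 : (3 : ℝ) ≤ k := by exact_mod_cast h2
  have hk : (0 : ℝ) < k := by linarith
  have hL : 0 < Real.log k := Real.log_pos (by linarith)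
  classical
  have hcov : S ⊆ IX.biUnion (fun J => S.filter (fun x : ℕ => J.1 * k < x ∧ (x : ℝ) ≤ J.2 * k)) := by
    intro x hx
    obtain ⟨h3, h4⟩ := hS x hx
    obtain ⟨-, -, J, hJ', h5, h6⟩ := mem_win.1 h3
    rw [Finset.mem_biUnion]
    exact ⟨J, hJ', Finset.mem_filter.2 ⟨hx, h5, h6⟩⟩
  have hone : ∀ J ∈ IX, ((S.filter (fun x : ℕ => J.1 * k < x ∧ (x : ℝ) ≤ J.2 * k)).card : ℝ) ≤
      C * g * (k / (Real.log k) ^ 2) := by
    intro J hJ'
    refine h1 p hp hp1 hp2 c s hc hs (J.1 * k) _ ?_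
    intro x hx
    obtain ⟨h3, h4, h5⟩ := Finset.mem_filter.1 hx
    obtain ⟨h6, h7⟩ := hS x h3
    obtain ⟨h8, h9', -⟩ := mem_win.1 h6
    refine ⟨h9', h7, h8.2, h4, ?_⟩
    have := mul_le_mul_of_nonneg_right (hJ J hJ') hk.le
    linarith
  calc (S.card : ℝ) ≤ ((IX.biUnion (fun J => S.filter (fun x : ℕ => J.1 * k < x ∧
      (x : ℝ) ≤ J.2 * k))).card : ℝ) := by exact_mod_cast Finset.card_le_card hcov
    _ ≤ ((∑ J ∈ IX, (S.filter (fun x : ℕ => J.1 * k < x ∧ (x : ℝ) ≤ J.2 * k)).card : ℕ) : ℝ) := by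
      exact_mod_cast Finset.card_biUnion_le
    _ = ∑ J ∈ IX, ((S.filter (fun x : ℕ => J.1 * k < x ∧ (x : ℝ) ≤ J.2 * k)).card : ℝ) := by
      push_cast; rfl
    _ ≤ ∑ _J ∈ IX, C * g * (k / (Real.log k) ^ 2) := Finset.sum_le_sum hone
    _ = IX.card * (C * g * (k / (Real.log k) ^ 2)) := by rw [Finset.sum_const, nsmul_eq_mul]
    _ ≤ 2 * (C * g * (k / (Real.log k) ^ 2)) := by
      apply mul_le_mul_of_nonneg_right _ (by positivity)
      exact_mod_cast hIX
    _ = _ := by ring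

theorem multU (h9 : J9Stmt) : ∃ C : ℝ, 1 ≤ C ∧ ∀ g : ℝ, 0 < g → g ≤ 1 →
    ∀ IX : Finset (ℝ × ℝ), IX.card ≤ 2 → (∀ J ∈ IX, J.2 - J.1 ≤ g) →
    ∀ IY : Finset (ℝ × ℝ), Wok IY →
    (∀ x y : ℝ, (∃ J ∈ IX, J.1 ≤ x ∧ x ≤ J.2) → (∃ J ∈ IY, J.1 ≤ y ∧ y ≤ J.2) →
      1 / 10 ≤ ((2 : ℤ) : ℝ) * x + ((1 : ℤ) : ℝ) * y) →
    (∀ᶠ k : ℕ in atTop, ∀ y ∈ win k IY, (((win k IX).filter (fun x : ℕ =>
      Nat.Prime (2 * x + 1 * y : ℤ).toNat)).card : ℝ) ≤ 2 * C * g * (k / (Real.log k) ^ 2)) ∧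
    (∀ᶠ k : ℕ in atTop, ∀ l : ℕ, (((win k IX ×ˢ win k IY).filter (fun x =>
      Nat.Prime (2 * x.1 + 1 * x.2 : ℤ).toNat ∧ (2 * x.1 + 1 * x.2 : ℤ).toNat = l)).card : ℝ) ≤
        2 * C * g * (k / (Real.log k) ^ 2)) := by
  obtain ⟨C, hC1, H⟩ := win_count h9
  refine ⟨C, hC1, ?_⟩
  intro g hg hg1 IX hIX hJ IY hY hpos
  have HH := H g hg hg1 IX hIX hJ
  constructor
  · filter_upwards [HH, eventually_ge_atTop 3] with k h1 h2
    intro y hy
    have hk3 : (3 : ℝ) ≤ k := by exact_mod_cast h2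
    obtain ⟨h3, h4, J, hJ', h5, h6⟩ := mem_win.1 hy
    have h7 := (hY.1 J hJ').1
    have h8 : (k : ℝ) ≤ 10 * y := by nlinarith
    refine h1 y h4 (by exact_mod_cast h8) (by omega) 2 1 (by decide) (by decide) _ ?_
    intro x hx
    exact Finset.mem_filter.1 hx
  · filter_upwards [HH, eventually_ge_atTop 3] with k h1 h2
    intro l
    have hk3 : (3 : ℝ) ≤ k := by exact_mod_cast h2
    have hk : (0 : ℝ) < k := by linarith
    have hL : 0 < Real.log k := Real.log_pos (by linarith)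
    classical
    set F := ((win k IX ×ˢ win k IY).filter (fun x =>
      Nat.Prime (2 * x.1 + 1 * x.2 : ℤ).toNat ∧ (2 * x.1 + 1 * x.2 : ℤ).toNat = l)) with hF
    rcases F.eq_empty_or_nonempty with hFe | ⟨x0, hx0⟩
    · rw [hFe]
      simp only [Finset.card_empty, Nat.cast_zero]
      positivity
    have hmemF : ∀ x ∈ F, x.1 ∈ win k IX ∧ x.2 ∈ win k IY ∧
        Nat.Prime (2 * x.1 + 1 * x.2 : ℤ).toNat ∧ (2 * x.1 + 1 * x.2 : ℤ).toNat = l ∧
        (2 * x.1 + 1 * x.2 : ℤ) = l := by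
      intro x hx
      rw [hF, Finset.mem_filter, Finset.mem_product] at hx
      refine ⟨hx.1.1, hx.1.2, hx.2.1, hx.2.2, ?_⟩
      have := hx.2.1.pos
      omega
    obtain ⟨q1, q2, q3, q4, q5⟩ := hmemF x0 hx0
    have hr := lab_range (a := 2) (b := 1) (by decide) (by decide) hpos (by omega : 0 < k) q1 q2
    rw [q5] at hr
    have hlp : l.Prime := by rw [← q4]; exact q3
    have hinj : Set.InjOn (fun x : ℕ × ℕ => x.1) (F : Set (ℕ × ℕ)) := by
      intro x hx y hy hxy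
      have e1 := (hmemF x hx).2.2.2.2
      have e2 := (hmemF y hy).2.2.2.2
      simp only at hxy
      rw [hxy] at e1
      ext
      · exact hxy
      · omega
    have hcard : F.card = (F.image (fun x : ℕ × ℕ => x.1)).card :=
      (Finset.card_image_of_injOn hinj).symm
    rw [hcard]
    refine h1 l hlp (by omega) (by omega) (-2) 1 (by decide) (by decide) _ ?_
    intro x hx
    obtain ⟨z, hz, rfl⟩ := Finset.mem_image.1 hx
    obtain ⟨p1, p2, p3, p4, p5⟩ := hmemF z hz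
    refine ⟨p1, ?_⟩
    have : (-2 * z.1 + 1 * l : ℤ) = z.2 := by linarith
    rw [this, Int.toNat_natCast]
    exact (mem_win.1 p2).2.1

theorem bad_count (h13 : J13Stmt) (ε : ℝ) (hε : 0 < ε) (hε1 : ε ≤ 1) : ∀ᶠ k : ℕ in atTop,
    (((Icc k (k + (⌊ε * k⌋₊ + 1))).filter Nat.Prime).card : ℝ) ≤ 2 * ε * (k / Real.log k) := by
  have h := h13 1 0 le_rfl (by decide)
  set P : ℕ → ℝ := fun N => (((Icc 1 N).filter (fun p => p.Prime ∧ p ≡ 0 [MOD 1])).card : ℝ) with hP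
  have hPe : ∀ N, P N = (((Icc 1 N).filter Nat.Prime).card : ℝ) := by
    intro N
    have : (Icc 1 N).filter (fun p => p.Prime ∧ p ≡ 0 [MOD 1]) = (Icc 1 N).filter Nat.Prime := by
      ext p
      simp [Nat.modEq_one]
    rw [hP]
    simp only [this]
  rw [Nat.totient_one, Nat.cast_one, div_one] at h
  obtain ⟨N0, hN0⟩ := Metric.tendsto_atTop.1 h (ε / 8) (by positivity)
  have e3 : ∀ᶠ k : ℕ in atTop, (5 : ℝ) ≤ ε * k := by
    have : Tendsto (fun k : ℕ => ε * (k : ℝ)) atTop atTop :=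
      tendsto_natCast_atTop_atTop.const_mul_atTop hε
    exact this.eventually_ge_atTop 5
  filter_upwards [eventually_ge_atTop (N0 + 4), e3] with k hk he
  have hk4 : (4 : ℝ) ≤ k := by
    have : 4 ≤ k := by omega
    exact_mod_cast this
  have hk0 : (0 : ℝ) < k := by linarith
  have hL : 0 < Real.log k := Real.log_pos (by linarith)
  set x := ⌊ε * k⌋₊ + 1 with hx
  have hxr : (x : ℝ) ≤ ε * k + 1 := by
    rw [hx]; push_cast
    have := Nat.floor_le (show 0 ≤ ε * (k : ℝ) by positivity)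
    linarith
  have hsub : (Icc k (k + x)).filter Nat.Prime = ((Icc 1 (k + x)).filter Nat.Prime) \
      ((Icc 1 (k - 1)).filter Nat.Prime) := by
    ext p
    simp only [Finset.mem_filter, Finset.mem_sdiff, Finset.mem_Icc]
    constructor
    · rintro ⟨⟨h1, h2⟩, h3⟩
      exact ⟨⟨⟨h3.pos, h2⟩, h3⟩, fun h4 => by omega⟩
    · rintro ⟨⟨⟨h1, h2⟩, h3⟩, h4⟩
      refine ⟨⟨?_, h2⟩, h3⟩
      by_contra h5
      exact h4 ⟨⟨h1, by omega⟩, h3⟩
  have hsub2 : (Icc 1 (k - 1)).filter Nat.Prime ⊆ (Icc 1 (k + x)).filter Nat.Prime := by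
    intro p
    simp only [Finset.mem_filter, Finset.mem_Icc]
    rintro ⟨⟨h1, h2⟩, h3⟩
    exact ⟨⟨h1, by omega⟩, h3⟩
  have hcard : (((Icc k (k + x)).filter Nat.Prime).card : ℝ) = P (k + x) - P (k - 1) := by
    rw [hsub, Finset.card_sdiff_of_subset hsub2, Nat.cast_sub (Finset.card_le_card hsub2), hPe, hPe]
  rw [hcard]
  have u1 := hN0 (k + x) (by omega)
  have u2 := hN0 (k - 1) (by omega)
  rw [Real.dist_eq, abs_lt] at u1 u2
  have hkx : ((k + x : ℕ) : ℝ) = k + x := by push_cast; ring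
  have hk1 : ((k - 1 : ℕ) : ℝ) = k - 1 := by
    rw [Nat.cast_sub (by omega)]; simp
  have hxx : (0 : ℝ) ≤ x := by positivity
  have v1 : P (k + x) ≤ (1 + ε / 8) * (k + x) / Real.log k := by
    have hl : Real.log k ≤ Real.log ((k + x : ℕ) : ℝ) := Real.log_le_log hk0 (by rw [hkx]; linarith)
    have hl0 : 0 < Real.log ((k + x : ℕ) : ℝ) := by linarith
    have hd : 0 < ((k + x : ℕ) : ℝ) := by rw [hkx]; linarith
    have w := u1.2
    have w2 : P (k + x) * Real.log ((k + x : ℕ) : ℝ) / ((k + x : ℕ) : ℝ) ≤ 1 + ε / 8 := by linarith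
    rw [div_le_iff₀ hd] at w2
    rw [le_div_iff₀ hL]
    have hPnn : 0 ≤ P (k + x) := by rw [hPe]; positivity
    calc P (k + x) * Real.log k ≤ P (k + x) * Real.log ((k + x : ℕ) : ℝ) :=
          mul_le_mul_of_nonneg_left hl hPnn
      _ ≤ (1 + ε / 8) * ((k + x : ℕ) : ℝ) := w2
      _ = (1 + ε / 8) * (k + x) := by rw [hkx]
  have v2 : (1 - ε / 8) * (k - 1) / Real.log k ≤ P (k - 1) := by
    have hk1' : 0 < ((k - 1 : ℕ) : ℝ) := by rw [hk1]; linarith
    have hl : Real.log ((k - 1 : ℕ) : ℝ) ≤ Real.log k := Real.log_le_log hk1' (by rw [hk1]; linarith)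
    have w := u2.1
    have w2 : 1 - ε / 8 ≤ P (k - 1) * Real.log ((k - 1 : ℕ) : ℝ) / ((k - 1 : ℕ) : ℝ) := by linarith
    rw [le_div_iff₀ hk1'] at w2
    rw [div_le_iff₀ hL]
    have hPnn : 0 ≤ P (k - 1) := by rw [hPe]; positivity
    calc (1 - ε / 8) * (k - 1) = (1 - ε / 8) * ((k - 1 : ℕ) : ℝ) := by rw [hk1]
      _ ≤ P (k - 1) * Real.log ((k - 1 : ℕ) : ℝ) := w2
      _ ≤ P (k - 1) * Real.log k := mul_le_mul_of_nonneg_left hl hPnn
  have v3 : (1 + ε / 8) * (k + x) / Real.log k - (1 - ε / 8) * (k - 1) / Real.log k ≤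
      2 * ε * (k / Real.log k) := by
    rw [← sub_div, ← mul_div_assoc]
    apply div_le_div_of_nonneg_right _ hL.le
    nlinarith
  linarith

theorem card_ev (h12 : J12Stmt) (I : Finset (ℝ × ℝ)) (hI : Wok I) (lam η : ℝ) (hlam : 0 < lam)
    (hη : 0 < η) (hlen : len I = lam) : ∀ᶠ k : ℕ in atTop,
    (1 - η) * (lam * k / Real.log k) ≤ (win k I).card ∧
    ((win k I).card : ℝ) ≤ (1 + η) * (lam * k / Real.log k) := by
  have hcX := h12 I hI
  rw [hlen] at hcX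
  obtain ⟨N, hN⟩ := Metric.tendsto_atTop.1 hcX (η * lam) (by positivity)
  filter_upwards [eventually_ge_atTop N, eventually_ge_atTop 3] with k h1 h5
  have h1 := hN k h1
  rw [Real.dist_eq, abs_lt] at h1
  have hk3 : (3 : ℝ) ≤ k := by exact_mod_cast h5
  have hk : (0 : ℝ) < k := by linarith
  have hL : 0 < Real.log k := Real.log_pos (by linarith)
  have hc : ((win k I).card : ℝ) = (((win k I).card : ℝ) * Real.log k / k) *
      (k / Real.log k) := by field_simp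
  have hkl : 0 < (k : ℝ) / Real.log k := by positivity
  rw [hc]
  constructor
  · have : lam * (1 - η) ≤ ((win k I).card : ℝ) * Real.log k / k := by linarith [h1.1]
    calc (1 - η) * (lam * k / Real.log k) = (lam * (1 - η)) * (k / Real.log k) := by ring
      _ ≤ _ := mul_le_mul_of_nonneg_right this hkl.le
  · have : ((win k I).card : ℝ) * Real.log k / k ≤ lam * (1 + η) := by linarith [h1.2]
    calc _ ≤ (lam * (1 + η)) * (k / Real.log k) := mul_le_mul_of_nonneg_right this hkl.le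
      _ = _ := by ring

end Pool.Agent.Helper602.MK
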