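import Mathlib

set_option autoImplicit false

namespace Pool.Agent.Helper602.MK.N_J11a

open Finset

/-- J11a: assembling n by the Chinese remainder theorem -/
theorem J11a (k x : ℕ) (hx : 5 * x < x + k) (Mv : Finset ℕ)
    (hMv : ∀ p ∈ Mv, p.Prime ∧ p < k ∧ x + k < 5 * p) (c : ℕ → ℕ)
    (hcov : ∀ t, x < t → t ≤ x + k →
      ((∃ p ∈ Mv, p ∣ t) ∨ (∃ q, q.Prime ∧ k ≤ q ∧ q ∣ t)) → ∃ p ∈ Mv, t ≡ c p [MOD p]) :
    ∃ n : ℕ, ∀ i ∈ Icc 1 k,
      x < ∏ p ∈ (range k).filter Nat.Prime, p ^ ((n + i).factorization p) := by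
  classical
  set S := (range k).filter Nat.Prime with hS
  have hSp : ∀ p ∈ S, p.Prime := fun p hp => (mem_filter.1 hp).2
  obtain ⟨n, hn⟩ := Nat.chineseRemainderOfFinset
    (fun p => if p ∈ Mv then x + (p - 1) * c p else x)
    (fun p => if p ∈ Mv then p else p ^ (x + k + 1)) S
    (by
      intro p hp
      have h1 := (hSp p hp).pos
      split_ifs
      · exact h1.ne'
      · positivity)
    (by
      intro p hp q hq hpq
      have h1 : Nat.Coprime p q := (Nat.coprime_primes (hSp p hp) (hSp q hq)).2 hpq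
      show Nat.Coprime (if p ∈ Mv then p else p ^ (x + k + 1))
        (if q ∈ Mv then q else q ^ (x + k + 1))
      split_ifs
      · exact h1
      · exact h1.pow_right _
      · exact h1.pow_left _
      · exact Nat.Coprime.pow _ _ h1)
  refine ⟨n, fun i hi => ?_⟩
  obtain ⟨hi1, hi2⟩ := mem_Icc.1 hi
  have hprod : 0 < ∏ p ∈ S, p ^ ((n + i).factorization p) :=
    Finset.prod_pos fun p hp => pow_pos (hSp p hp).pos _
  by_cases hcase : ∃ p ∈ Mv, x + i ≡ c p [MOD p]
  · obtain ⟨p, hp, hpc⟩ := hcase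
    obtain ⟨hpp, hpk, hpx⟩ := hMv p hp
    have hpS : p ∈ S := mem_filter.2 ⟨mem_range.2 hpk, hpp⟩
    have h1 := hn p hpS
    simp only [if_pos hp] at h1
    have h2 : n + i ≡ 0 [MOD p] := by
      have h3 : n + i ≡ x + (p - 1) * c p + i [MOD p] := h1.add_right i
      have h4 : x + (p - 1) * c p + i = (x + i) + (p - 1) * c p := by ring
      rw [h4] at h3
      have h5 : (x + i) + (p - 1) * c p ≡ c p + (p - 1) * c p [MOD p] := hpc.add_right _
      have h6 : c p + (p - 1) * c p = p * c p := by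
        obtain ⟨m, hm⟩ : ∃ m, p = m + 1 := ⟨p - 1, by have := hpp.pos; omega⟩
        rw [hm, Nat.add_sub_cancel]
        ring
      rw [h6] at h5
      exact h3.trans (h5.trans (Nat.modEq_zero_iff_dvd.2 (Dvd.intro _ rfl)))
    have h3 : p ∣ n + i := Nat.modEq_zero_iff_dvd.1 h2
    have h4 : n + i ≠ 0 := by omega
    have h5 : 1 ≤ (n + i).factorization p := by
      rw [← hpp.pow_dvd_iff_le_factorization h4, pow_one]
      exact h3
    have h6 : p ≤ p ^ ((n + i).factorization p) := Nat.le_self_pow (by omega) p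
    have h7 : p ^ ((n + i).factorization p) ≤ ∏ p ∈ S, p ^ ((n + i).factorization p) :=
      Nat.le_of_dvd hprod (Finset.dvd_prod_of_mem (fun p => p ^ ((n + i).factorization p)) hpS)
    omega
  · have hno : ¬ ((∃ p ∈ Mv, p ∣ x + i) ∨ (∃ q, q.Prime ∧ k ≤ q ∧ q ∣ x + i)) := fun h =>
      hcase (hcov (x + i) (by omega) (by omega) h)
    have ht0 : x + i ≠ 0 := by omega
    have hsub : (x + i).primeFactors ⊆ S := by
      intro p hp
      have hpp := Nat.prime_of_mem_primeFactors hp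
      have hpd := Nat.dvd_of_mem_primeFactors hp
      refine mem_filter.2 ⟨mem_range.2 ?_, hpp⟩
      by_contra hk
      exact hno (Or.inr ⟨p, hpp, not_lt.1 hk, hpd⟩)
    have hdvd : x + i ∣ ∏ p ∈ S, p ^ ((n + i).factorization p) := by
      have h1 : x + i = ∏ p ∈ (x + i).primeFactors, p ^ ((x + i).factorization p) :=
        (Nat.prod_factorization_pow_eq_self ht0).symm
      have h2 : ∏ p ∈ (x + i).primeFactors, p ^ ((x + i).factorization p) ∣
          ∏ p ∈ (x + i).primeFactors, p ^ ((n + i).factorization p) := by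
        refine Finset.prod_dvd_prod_of_dvd _ _ fun p hp => pow_dvd_pow p ?_
        have hpp := Nat.prime_of_mem_primeFactors hp
        have hpd := Nat.dvd_of_mem_primeFactors hp
        have hpM : p ∉ Mv := fun h => hno (Or.inl ⟨p, h, hpd⟩)
        have h3 := hn p (hsub hp)
        simp only [if_neg hpM] at h3
        have h4 : n + i ≡ x + i [MOD p ^ (x + k + 1)] := h3.add_right i
        have h5 : p ^ ((x + i).factorization p) ∣ x + i := Nat.ordProj_dvd _ _
        have h6 : (x + i).factorization p ≤ x + k + 1 := by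
          have h7 := Nat.factorization_lt p ht0
          omega
        have h7 : n + i ≡ x + i [MOD p ^ ((x + i).factorization p)] :=
          h4.of_dvd (pow_dvd_pow p h6)
        have h8 : p ^ ((x + i).factorization p) ∣ n + i :=
          (Nat.ModEq.dvd_iff h7 dvd_rfl).2 h5
        exact (hpp.pow_dvd_iff_le_factorization (by omega)).1 h8
      rw [← h1] at h2
      exact h2.trans (Finset.prod_dvd_prod_of_subset _ _ _ hsub)
    have := Nat.le_of_dvd hprod hdvd
    omega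

/-- from pairings to residue classes -/
theorem J11c (Mv E0 : Finset ℕ) (T : Finset (ℕ × ℕ × ℕ))
    (hT : ∀ x ∈ T, x.1 ∈ Mv ∧ x.2.1 ∈ E0 ∧ x.2.2 ∈ E0 ∧ x.2.1 ≠ x.2.2 ∧ x.2.1 ≡ x.2.2 [MOD x.1])
    (hd : ∀ x ∈ T, ∀ y ∈ T, x ≠ y → x.1 ≠ y.1 ∧ x.2.1 ≠ y.2.1 ∧ x.2.1 ≠ y.2.2 ∧
      x.2.2 ≠ y.2.1 ∧ x.2.2 ≠ y.2.2)
    (hcard : E0.card ≤ Mv.card + T.card) :
    ∃ c : ℕ → ℕ, ∀ e ∈ E0, ∃ p ∈ Mv, e ≡ c p [MOD p] := by
  classical
  set H := T.image (fun x => x.1) with hH
  set A := T.image (fun x => x.2.1) with hA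
  set B := T.image (fun x => x.2.2) with hB
  have cH : H.card = T.card := by
    refine Finset.card_image_of_injOn ?_
    intro x hx y hy hxy
    by_contra hne
    exact (hd x hx y hy hne).1 hxy
  have cA : A.card = T.card := by
    refine Finset.card_image_of_injOn ?_
    intro x hx y hy hxy
    by_contra hne
    exact (hd x hx y hy hne).2.1 hxy
  have cB : B.card = T.card := by
    refine Finset.card_image_of_injOn ?_
    intro x hx y hy hxy
    by_contra hne
    exact (hd x hx y hy hne).2.2.2.2 hxy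
  have dAB : Disjoint A B := by
    rw [Finset.disjoint_left]
    intro a ha hb
    obtain ⟨x, hx, hxa⟩ := mem_image.1 ha
    obtain ⟨y, hy, hya⟩ := mem_image.1 hb
    by_cases hxy : x = y
    · subst hxy
      exact (hT x hx).2.2.2.1 (hxa.trans hya.symm)
    · exact (hd x hx y hy hxy).2.2.1 (hxa.trans hya.symm)
  have sAB : A ∪ B ⊆ E0 := by
    intro a ha
    rcases mem_union.1 ha with ha | ha
    · obtain ⟨x, hx, rfl⟩ := mem_image.1 ha
      exact (hT x hx).2.1
    · obtain ⟨x, hx, rfl⟩ := mem_image.1 ha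
      exact (hT x hx).2.2.1
  have sH : H ⊆ Mv := by
    intro a ha
    obtain ⟨x, hx, rfl⟩ := mem_image.1 ha
    exact (hT x hx).1
  have c1 : (E0 \ (A ∪ B)).card = E0.card - 2 * T.card := by
    rw [Finset.card_sdiff_of_subset sAB, Finset.card_union_of_disjoint dAB, cA, cB]
    ring_nf
  have c2 : (Mv \ H).card = Mv.card - T.card := by
    rw [Finset.card_sdiff_of_subset sH, cH]
  have c3 : 2 * T.card ≤ E0.card := by
    have := Finset.card_le_card sAB
    rw [Finset.card_union_of_disjoint dAB, cA, cB] at this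
    omega
  have c4 : T.card ≤ Mv.card := by
    have := Finset.card_le_card sH
    omega
  have c5 : (E0 \ (A ∪ B)).card ≤ (Mv \ H).card := by omega
  obtain ⟨M2, hM2, hM2c⟩ := Finset.exists_subset_card_eq c5
  let φ : (E0 \ (A ∪ B) : Finset ℕ) ≃ M2 := Finset.equivOfCardEq hM2c.symm
  refine ⟨fun h => if hx : ∃ x ∈ T, x.1 = h then hx.choose.2.1 else
    if hm : h ∈ M2 then (φ.symm ⟨h, hm⟩ : ℕ) else 0, fun e he => ?_⟩
  by_cases heAB : e ∈ A ∪ B
  · have h1 : ∃ x ∈ T, e = x.2.1 ∨ e = x.2.2 := by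
      rcases mem_union.1 heAB with ha | ha
      · obtain ⟨x, hx, rfl⟩ := mem_image.1 ha
        exact ⟨x, hx, Or.inl rfl⟩
      · obtain ⟨x, hx, rfl⟩ := mem_image.1 ha
        exact ⟨x, hx, Or.inr rfl⟩
    obtain ⟨x, hx, hxe⟩ := h1
    refine ⟨x.1, (hT x hx).1, ?_⟩
    have h2 : ∃ y ∈ T, y.1 = x.1 := ⟨x, hx, rfl⟩
    have h3 : h2.choose = x := by
      by_contra hne
      exact (hd _ h2.choose_spec.1 x hx hne).1 h2.choose_spec.2
    simp only [dif_pos h2]
    rw [h3]
    rcases hxe with rfl | rfl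
    · exact Nat.ModEq.refl _
    · exact (hT x hx).2.2.2.2.symm
  · have h1 : e ∈ E0 \ (A ∪ B) := mem_sdiff.2 ⟨he, heAB⟩
    have h2 : (φ ⟨e, h1⟩ : ℕ) ∈ M2 := (φ ⟨e, h1⟩).2
    have h3 := mem_sdiff.1 (hM2 h2)
    refine ⟨(φ ⟨e, h1⟩ : ℕ), h3.1, ?_⟩
    have h4 : ¬ ∃ x ∈ T, x.1 = (φ ⟨e, h1⟩ : ℕ) := by
      rintro ⟨x, hx, hxe⟩
      exact h3.2 (mem_image.2 ⟨x, hx, hxe⟩)
    simp only [dif_neg h4, dif_pos h2]
    have h5 : (⟨(φ ⟨e, h1⟩ : ℕ), h2⟩ : M2) = φ ⟨e, h1⟩ := rfl
    rw [h5, Equiv.symm_apply_apply]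

end Pool.Agent.Helper602.MK.N_J11a
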