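import Mathlib
import Pool.Agent.Helper602.MK.FinA
import Pool.Agent.Helper602.MK.J11a

set_option autoImplicit false

namespace Pool.Agent.Helper602.MK

open Finset N_J11a Filter Topology


/-- triples (hitter, element, element) of one type, with ranges in units of k/10000 -/
structure Good (k : ℕ) (Mv E0 : Finset ℕ) (T : Finset (ℕ × ℕ × ℕ)) (h1 h2 a1 a2 b1 b2 : ℕ) :
    Prop where
  mem : ∀ x ∈ T, x.1 ∈ Mv ∧ x.2.1 ∈ E0 ∧ x.2.2 ∈ E0 ∧ x.2.1 ≡ x.2.2 [MOD x.1]
  rng : ∀ x ∈ T, (h1 * k < 10000 * x.1 ∧ 10000 * x.1 ≤ h2 * k) ∧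
    (a1 * k < 10000 * x.2.1 ∧ 10000 * x.2.1 ≤ a2 * k) ∧
    (b1 * k < 10000 * x.2.2 ∧ 10000 * x.2.2 ≤ b2 * k)
  dis : ∀ x ∈ T, ∀ y ∈ T, x ≠ y → x.1 ≠ y.1 ∧ x.2.1 ≠ y.2.1 ∧ x.2.2 ≠ y.2.2

theorem combine (k : ℕ) (Mv E0 : Finset ℕ) (T1 T2 T3 T4 T5 T6 T7 : Finset (ℕ × ℕ × ℕ))
    (g1 : Good k Mv E0 T1 3770 3771 2400 2401 9940 9943)
    (g2 : Good k Mv E0 T2 5134 5137 2405 2406 7540 7542)
    (g3 : Good k Mv E0 T3 5229 5232 3770 3771 9000 9002)
    (g4 : Good k Mv E0 T4 5099 5104 4500 4501 9600 9604)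
    (g5 : Good k Mv E0 T5 4500 4501 9620 9624 5119 5124)
    (g6 : Good k Mv E0 T6 2400 2406 5020 5030 9820 9842)
    (g7 : Good k Mv E0 T7 5050 5060 4800 4812 9850 9872)
    (hcard : E0.card ≤ Mv.card + (T1.card + T2.card + T3.card + T4.card + T5.card + T6.card +
      T7.card)) :
    ∃ c : ℕ → ℕ, ∀ e ∈ E0, ∃ p ∈ Mv, e ≡ c p [MOD p] := by
  classical
  have d12 : Disjoint T1 T2 := by
    rw [Finset.disjoint_left]; intro x h h'
    have u := (g1.rng x h).1; have v := (g2.rng x h').1; omega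
  have d3 : Disjoint (T1 ∪ T2) T3 := by
    rw [Finset.disjoint_left]; intro x h h'
    have v := (g3.rng x h').1
    rcases Finset.mem_union.1 h with h | h
    · have u := (g1.rng x h).1; omega
    · have u := (g2.rng x h).1; omega
  have d4 : Disjoint (T1 ∪ T2 ∪ T3) T4 := by
    rw [Finset.disjoint_left]; intro x h h'
    have v := (g4.rng x h').1
    simp only [Finset.mem_union] at h
    rcases h with (h | h) | h
    · have u := (g1.rng x h).1; omega
    · have u := (g2.rng x h).1; omega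
    · have u := (g3.rng x h).1; omega
  have d5 : Disjoint (T1 ∪ T2 ∪ T3 ∪ T4) T5 := by
    rw [Finset.disjoint_left]; intro x h h'
    have v := (g5.rng x h').1
    simp only [Finset.mem_union] at h
    rcases h with ((h | h) | h) | h
    · have u := (g1.rng x h).1; omega
    · have u := (g2.rng x h).1; omega
    · have u := (g3.rng x h).1; omega
    · have u := (g4.rng x h).1; omega
  have d6 : Disjoint (T1 ∪ T2 ∪ T3 ∪ T4 ∪ T5) T6 := by
    rw [Finset.disjoint_left]; intro x h h'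
    have v := (g6.rng x h').1
    simp only [Finset.mem_union] at h
    rcases h with (((h | h) | h) | h) | h
    · have u := (g1.rng x h).1; omega
    · have u := (g2.rng x h).1; omega
    · have u := (g3.rng x h).1; omega
    · have u := (g4.rng x h).1; omega
    · have u := (g5.rng x h).1; omega
  have d7 : Disjoint (T1 ∪ T2 ∪ T3 ∪ T4 ∪ T5 ∪ T6) T7 := by
    rw [Finset.disjoint_left]; intro x h h'
    have v := (g7.rng x h').1
    simp only [Finset.mem_union] at h
    rcases h with ((((h | h) | h) | h) | h) | h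
    · have u := (g1.rng x h).1; omega
    · have u := (g2.rng x h).1; omega
    · have u := (g3.rng x h).1; omega
    · have u := (g4.rng x h).1; omega
    · have u := (g5.rng x h).1; omega
    · have u := (g6.rng x h).1; omega
  refine J11c Mv E0 (T1 ∪ T2 ∪ T3 ∪ T4 ∪ T5 ∪ T6 ∪ T7) ?_ ?_ ?_
  · intro x hx
    simp only [Finset.mem_union] at hx
    rcases hx with (((((h | h) | h) | h) | h) | h) | h
    · obtain ⟨m1, m2, m3, m4⟩ := g1.mem x h; have u := g1.rng x h
      exact ⟨m1, m2, m3, by omega, m4⟩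
    · obtain ⟨m1, m2, m3, m4⟩ := g2.mem x h; have u := g2.rng x h
      exact ⟨m1, m2, m3, by omega, m4⟩
    · obtain ⟨m1, m2, m3, m4⟩ := g3.mem x h; have u := g3.rng x h
      exact ⟨m1, m2, m3, by omega, m4⟩
    · obtain ⟨m1, m2, m3, m4⟩ := g4.mem x h; have u := g4.rng x h
      exact ⟨m1, m2, m3, by omega, m4⟩
    · obtain ⟨m1, m2, m3, m4⟩ := g5.mem x h; have u := g5.rng x h
      exact ⟨m1, m2, m3, by omega, m4⟩
    · obtain ⟨m1, m2, m3, m4⟩ := g6.mem x h; have u := g6.rng x h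
      exact ⟨m1, m2, m3, by omega, m4⟩
    · obtain ⟨m1, m2, m3, m4⟩ := g7.mem x h; have u := g7.rng x h
      exact ⟨m1, m2, m3, by omega, m4⟩
  · intro x hx y hy hne
    simp only [Finset.mem_union] at hx hy
    rcases hx with (((((h | h) | h) | h) | h) | h) | h <;>
    rcases hy with (((((h' | h') | h') | h') | h') | h') | h'
    · have u := g1.rng x h; have v := g1.rng y h'; have w := g1.dis x h y h' hne
      exact ⟨w.1, w.2.1, by omega, by omega, w.2.2⟩
    · have u := g1.rng x h; have v := g2.rng y h'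
      exact ⟨by omega, by omega, by omega, by omega, by omega⟩
    · have u := g1.rng x h; have v := g3.rng y h'
      exact ⟨by omega, by omega, by omega, by omega, by omega⟩
    · have u := g1.rng x h; have v := g4.rng y h'
      exact ⟨by omega, by omega, by omega, by omega, by omega⟩
    · have u := g1.rng x h; have v := g5.rng y h'
      exact ⟨by omega, by omega, by omega, by omega, by omega⟩
    · have u := g1.rng x h; have v := g6.rng y h'
      exact ⟨by omega, by omega, by omega, by omega, by omega⟩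
    · have u := g1.rng x h; have v := g7.rng y h'
      exact ⟨by omega, by omega, by omega, by omega, by omega⟩
    · have u := g2.rng x h; have v := g1.rng y h'
      exact ⟨by omega, by omega, by omega, by omega, by omega⟩
    · have u := g2.rng x h; have v := g2.rng y h'; have w := g2.dis x h y h' hne
      exact ⟨w.1, w.2.1, by omega, by omega, w.2.2⟩
    · have u := g2.rng x h; have v := g3.rng y h'
      exact ⟨by omega, by omega, by omega, by omega, by omega⟩
    · have u := g2.rng x h; have v := g4.rng y h'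
      exact ⟨by omega, by omega, by omega, by omega, by omega⟩
    · have u := g2.rng x h; have v := g5.rng y h'
      exact ⟨by omega, by omega, by omega, by omega, by omega⟩
    · have u := g2.rng x h; have v := g6.rng y h'
      exact ⟨by omega, by omega, by omega, by omega, by omega⟩
    · have u := g2.rng x h; have v := g7.rng y h'
      exact ⟨by omega, by omega, by omega, by omega, by omega⟩
    · have u := g3.rng x h; have v := g1.rng y h'
      exact ⟨by omega, by omega, by omega, by omega, by omega⟩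
    · have u := g3.rng x h; have v := g2.rng y h'
      exact ⟨by omega, by omega, by omega, by omega, by omega⟩
    · have u := g3.rng x h; have v := g3.rng y h'; have w := g3.dis x h y h' hne
      exact ⟨w.1, w.2.1, by omega, by omega, w.2.2⟩
    · have u := g3.rng x h; have v := g4.rng y h'
      exact ⟨by omega, by omega, by omega, by omega, by omega⟩
    · have u := g3.rng x h; have v := g5.rng y h'
      exact ⟨by omega, by omega, by omega, by omega, by omega⟩
    · have u := g3.rng x h; have v := g6.rng y h'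
      exact ⟨by omega, by omega, by omega, by omega, by omega⟩
    · have u := g3.rng x h; have v := g7.rng y h'
      exact ⟨by omega, by omega, by omega, by omega, by omega⟩
    · have u := g4.rng x h; have v := g1.rng y h'
      exact ⟨by omega, by omega, by omega, by omega, by omega⟩
    · have u := g4.rng x h; have v := g2.rng y h'
      exact ⟨by omega, by omega, by omega, by omega, by omega⟩
    · have u := g4.rng x h; have v := g3.rng y h'
      exact ⟨by omega, by omega, by omega, by omega, by omega⟩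
    · have u := g4.rng x h; have v := g4.rng y h'; have w := g4.dis x h y h' hne
      exact ⟨w.1, w.2.1, by omega, by omega, w.2.2⟩
    · have u := g4.rng x h; have v := g5.rng y h'
      exact ⟨by omega, by omega, by omega, by omega, by omega⟩
    · have u := g4.rng x h; have v := g6.rng y h'
      exact ⟨by omega, by omega, by omega, by omega, by omega⟩
    · have u := g4.rng x h; have v := g7.rng y h'
      exact ⟨by omega, by omega, by omega, by omega, by omega⟩
    · have u := g5.rng x h; have v := g1.rng y h'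
      exact ⟨by omega, by omega, by omega, by omega, by omega⟩
    · have u := g5.rng x h; have v := g2.rng y h'
      exact ⟨by omega, by omega, by omega, by omega, by omega⟩
    · have u := g5.rng x h; have v := g3.rng y h'
      exact ⟨by omega, by omega, by omega, by omega, by omega⟩
    · have u := g5.rng x h; have v := g4.rng y h'
      exact ⟨by omega, by omega, by omega, by omega, by omega⟩
    · have u := g5.rng x h; have v := g5.rng y h'; have w := g5.dis x h y h' hne
      exact ⟨w.1, w.2.1, by omega, by omega, w.2.2⟩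
    · have u := g5.rng x h; have v := g6.rng y h'
      exact ⟨by omega, by omega, by omega, by omega, by omega⟩
    · have u := g5.rng x h; have v := g7.rng y h'
      exact ⟨by omega, by omega, by omega, by omega, by omega⟩
    · have u := g6.rng x h; have v := g1.rng y h'
      exact ⟨by omega, by omega, by omega, by omega, by omega⟩
    · have u := g6.rng x h; have v := g2.rng y h'
      exact ⟨by omega, by omega, by omega, by omega, by omega⟩
    · have u := g6.rng x h; have v := g3.rng y h'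
      exact ⟨by omega, by omega, by omega, by omega, by omega⟩
    · have u := g6.rng x h; have v := g4.rng y h'
      exact ⟨by omega, by omega, by omega, by omega, by omega⟩
    · have u := g6.rng x h; have v := g5.rng y h'
      exact ⟨by omega, by omega, by omega, by omega, by omega⟩
    · have u := g6.rng x h; have v := g6.rng y h'; have w := g6.dis x h y h' hne
      exact ⟨w.1, w.2.1, by omega, by omega, w.2.2⟩
    · have u := g6.rng x h; have v := g7.rng y h'
      exact ⟨by omega, by omega, by omega, by omega, by omega⟩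
    · have u := g7.rng x h; have v := g1.rng y h'
      exact ⟨by omega, by omega, by omega, by omega, by omega⟩
    · have u := g7.rng x h; have v := g2.rng y h'
      exact ⟨by omega, by omega, by omega, by omega, by omega⟩
    · have u := g7.rng x h; have v := g3.rng y h'
      exact ⟨by omega, by omega, by omega, by omega, by omega⟩
    · have u := g7.rng x h; have v := g4.rng y h'
      exact ⟨by omega, by omega, by omega, by omega, by omega⟩
    · have u := g7.rng x h; have v := g5.rng y h'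
      exact ⟨by omega, by omega, by omega, by omega, by omega⟩
    · have u := g7.rng x h; have v := g6.rng y h'
      exact ⟨by omega, by omega, by omega, by omega, by omega⟩
    · have u := g7.rng x h; have v := g7.rng y h'; have w := g7.dis x h y h' hne
      exact ⟨w.1, w.2.1, by omega, by omega, w.2.2⟩
  · rw [Finset.card_union_of_disjoint d7, Finset.card_union_of_disjoint d6,
      Finset.card_union_of_disjoint d5, Finset.card_union_of_disjoint d4,
      Finset.card_union_of_disjoint d3, Finset.card_union_of_disjoint d12]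
    exact hcard

theorem rng_of_single {k p : ℕ} {I : Finset (ℝ × ℝ)} {a b : ℕ} (hk : 0 < k) (hp : p ∈ win k I)
    (h : ∀ J ∈ I, (a : ℝ) / 10000 ≤ J.1 ∧ J.2 ≤ (b : ℝ) / 10000) :
    a * k < 10000 * p ∧ 10000 * p ≤ b * k := by
  have hk' : (0 : ℝ) < k := by exact_mod_cast hk
  obtain ⟨-, -, J, hJ, h1, h2⟩ := mem_win.1 hp
  obtain ⟨h3, h4⟩ := h J hJ
  have h5 := mul_le_mul_of_nonneg_right h3 hk'.le
  have h6 := mul_le_mul_of_nonneg_right h4 hk'.le
  constructor
  · have : ((a * k : ℕ) : ℝ) < ((10000 * p : ℕ) : ℝ) := by push_cast; linarith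
    exact_mod_cast this
  · have : ((10000 * p : ℕ) : ℝ) ≤ ((b * k : ℕ) : ℝ) := by push_cast; linarith
    exact_mod_cast this

theorem modeq_of {h a b : ℕ} (hab : a ≤ b) (hd : h ∣ b - a) : a ≡ b [MOD h] :=
  (Nat.modEq_iff_dvd' hab).2 hd

/-- build a Good family from a matching -/
theorem good_of (k : ℕ) (Mv E0 : Finset ℕ) (M : Finset (ℕ × ℕ)) (F : ℕ × ℕ → ℕ × ℕ × ℕ)
    (h1 h2 a1 a2 b1 b2 : ℕ)
    (hmem : ∀ z ∈ M, (F z).1 ∈ Mv ∧ (F z).2.1 ∈ E0 ∧ (F z).2.2 ∈ E0 ∧
      (F z).2.1 ≡ (F z).2.2 [MOD (F z).1])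
    (hrng : ∀ z ∈ M, (h1 * k < 10000 * (F z).1 ∧ 10000 * (F z).1 ≤ h2 * k) ∧
      (a1 * k < 10000 * (F z).2.1 ∧ 10000 * (F z).2.1 ≤ a2 * k) ∧
      (b1 * k < 10000 * (F z).2.2 ∧ 10000 * (F z).2.2 ≤ b2 * k))
    (hdis : ∀ z ∈ M, ∀ z' ∈ M, z ≠ z' → (F z).1 ≠ (F z').1 ∧ (F z).2.1 ≠ (F z').2.1 ∧
      (F z).2.2 ≠ (F z').2.2) :
    Good k Mv E0 (M.image F) h1 h2 a1 a2 b1 b2 ∧ (M.image F).card = M.card := by
  refine ⟨⟨?_, ?_, ?_⟩, ?_⟩
  · intro x hx
    obtain ⟨z, hz, rfl⟩ := Finset.mem_image.1 hx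
    exact hmem z hz
  · intro x hx
    obtain ⟨z, hz, rfl⟩ := Finset.mem_image.1 hx
    exact hrng z hz
  · intro x hx y hy hne
    obtain ⟨z, hz, rfl⟩ := Finset.mem_image.1 hx
    obtain ⟨z', hz', rfl⟩ := Finset.mem_image.1 hy
    exact hdis z hz z' hz' (fun h => hne (by rw [h]))
  · apply Finset.card_image_of_injOn
    intro z hz z' hz' hzz
    by_contra hne
    exact (hdis z hz z' hz' hne).1 (by rw [hzz])

/-- finite part: from matchings to the block of integers -/
theorem finite_part (k x : ℕ) (hk : 0 < k) (hx : 1000 * x ≤ k)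
    (IU1 IU2 IU IR1 IR2 IY6 IY7 : Finset (ℝ × ℝ))
    (hU : ∀ J, J ∈ IU ↔ J ∈ IU1 ∨ J ∈ IU2)
    (rU1 : ∀ J ∈ IU1, ((2400 : ℕ) : ℝ) / 10000 ≤ J.1 ∧ J.2 ≤ ((2401 : ℕ) : ℝ) / 10000)
    (rU2 : ∀ J ∈ IU2, ((2405 : ℕ) : ℝ) / 10000 ≤ J.1 ∧ J.2 ≤ ((2406 : ℕ) : ℝ) / 10000)
    (rR1 : ∀ J ∈ IR1, ((3770 : ℕ) : ℝ) / 10000 ≤ J.1 ∧ J.2 ≤ ((3771 : ℕ) : ℝ) / 10000)
    (rR2 : ∀ J ∈ IR2, ((4500 : ℕ) : ℝ) / 10000 ≤ J.1 ∧ J.2 ≤ ((4501 : ℕ) : ℝ) / 10000)
    (rY6 : ∀ J ∈ IY6, ((5020 : ℕ) : ℝ) / 10000 ≤ J.1 ∧ J.2 ≤ ((5030 : ℕ) : ℝ) / 10000)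
    (rY7 : ∀ J ∈ IY7, ((5050 : ℕ) : ℝ) / 10000 ≤ J.1 ∧ J.2 ≤ ((5060 : ℕ) : ℝ) / 10000)
    (M1 M2 M3 M4 M5 M6 M7 : Finset (ℕ × ℕ))
    (s1 : M1 ⊆ win k IR1 ×ˢ win k IU1) (s2 : M2 ⊆ win k IR1 ×ˢ win k IU2)
    (s3 : M3 ⊆ win k IR2 ×ˢ win k IR1) (s4 : M4 ⊆ win k IU1 ×ˢ win k IR2)
    (s5 : M5 ⊆ win k IU2 ×ˢ win k IR2) (s6 : M6 ⊆ win k IU ×ˢ win k IY6)
    (s7 : M7 ⊆ win k IU ×ˢ win k IY7)
    (p1 : ∀ x ∈ M1, Nat.Prime (((2 : ℤ)) * x.1 + ((1 : ℤ)) * x.2 : ℤ).toNat)
    (p2 : ∀ x ∈ M2, Nat.Prime (((2 : ℤ)) * x.1 + ((-1 : ℤ)) * x.2 : ℤ).toNat)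
    (p3 : ∀ x ∈ M3, Nat.Prime (((2 : ℤ)) * x.1 + ((-1 : ℤ)) * x.2 : ℤ).toNat)
    (p4 : ∀ x ∈ M4, Nat.Prime (((4 : ℤ)) * x.1 + ((-1 : ℤ)) * x.2 : ℤ).toNat)
    (p5 : ∀ x ∈ M5, Nat.Prime (((4 : ℤ)) * x.1 + ((-1 : ℤ)) * x.2 : ℤ).toNat)
    (p6 : ∀ x ∈ M6, Nat.Prime (((2 : ℤ)) * x.1 + ((1 : ℤ)) * x.2 : ℤ).toNat)
    (p7 : ∀ x ∈ M7, Nat.Prime (((2 : ℤ)) * x.1 + ((1 : ℤ)) * x.2 : ℤ).toNat)
    (d1 : ∀ x ∈ M1, ∀ y ∈ M1, x ≠ y → x.1 ≠ y.1 ∧ x.2 ≠ y.2 ∧
        (((2 : ℤ)) * x.1 + ((1 : ℤ)) * x.2 : ℤ).toNat ≠ (((2 : ℤ)) * y.1 + ((1 : ℤ)) * y.2 : ℤ).toNat)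
    (d2 : ∀ x ∈ M2, ∀ y ∈ M2, x ≠ y → x.1 ≠ y.1 ∧ x.2 ≠ y.2 ∧
        (((2 : ℤ)) * x.1 + ((-1 : ℤ)) * x.2 : ℤ).toNat ≠ (((2 : ℤ)) * y.1 + ((-1 : ℤ)) * y.2 : ℤ).toNat)
    (d3 : ∀ x ∈ M3, ∀ y ∈ M3, x ≠ y → x.1 ≠ y.1 ∧ x.2 ≠ y.2 ∧
        (((2 : ℤ)) * x.1 + ((-1 : ℤ)) * x.2 : ℤ).toNat ≠ (((2 : ℤ)) * y.1 + ((-1 : ℤ)) * y.2 : ℤ).toNat)
    (d4 : ∀ x ∈ M4, ∀ y ∈ M4, x ≠ y → x.1 ≠ y.1 ∧ x.2 ≠ y.2 ∧
        (((4 : ℤ)) * x.1 + ((-1 : ℤ)) * x.2 : ℤ).toNat ≠ (((4 : ℤ)) * y.1 + ((-1 : ℤ)) * y.2 : ℤ).toNat)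
    (d5 : ∀ x ∈ M5, ∀ y ∈ M5, x ≠ y → x.1 ≠ y.1 ∧ x.2 ≠ y.2 ∧
        (((4 : ℤ)) * x.1 + ((-1 : ℤ)) * x.2 : ℤ).toNat ≠ (((4 : ℤ)) * y.1 + ((-1 : ℤ)) * y.2 : ℤ).toNat)
    (d6 : ∀ x ∈ M6, ∀ y ∈ M6, x ≠ y → x.1 ≠ y.1 ∧ x.2 ≠ y.2 ∧
        (((2 : ℤ)) * x.1 + ((1 : ℤ)) * x.2 : ℤ).toNat ≠ (((2 : ℤ)) * y.1 + ((1 : ℤ)) * y.2 : ℤ).toNat)
    (d7 : ∀ x ∈ M7, ∀ y ∈ M7, x ≠ y → x.1 ≠ y.1 ∧ x.2 ≠ y.2 ∧
        (((2 : ℤ)) * x.1 + ((1 : ℤ)) * x.2 : ℤ).toNat ≠ (((2 : ℤ)) * y.1 + ((1 : ℤ)) * y.2 : ℤ).toNat)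
    (hcount : 3 * (win k IU).card + (win k IR1).card + (win k IR2).card +
      ((Icc k (k + x)).filter Nat.Prime).card ≤
      M1.card + M2.card + M3.card + M4.card + M5.card + M6.card + M7.card) :
    ∃ n : ℕ, ∀ i ∈ Icc 1 k,
      x < ∏ p ∈ (range k).filter Nat.Prime, p ^ ((n + i).factorization p) := by
  classical
  set P := (range k).filter (fun p => p.Prime ∧ x + k < 2 * p) with hP
  set U := win k IU with hUdef
  set R1 := win k IR1 with hR1
  set R2 := win k IR2 with hR2
  set Bad := (Icc k (k + x)).filter Nat.Prime with hBad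
  set Mv := P ∪ U ∪ R1 ∪ R2 with hMvdef
  set E0 := P ∪ U ∪ U.image (fun u => 2 * u) ∪ U.image (fun u => 3 * u) ∪
    U.image (fun u => 4 * u) ∪ R1 ∪ R1.image (fun u => 2 * u) ∪ R2 ∪ R2.image (fun u => 2 * u) ∪
    Bad with hE0
  have memP : ∀ p, p ∈ P ↔ p < k ∧ p.Prime ∧ x + k < 2 * p := by
    intro p; rw [hP, Finset.mem_filter, Finset.mem_range]
  have rngU : ∀ p ∈ U, 2400 * k < 10000 * p ∧ 10000 * p ≤ 2406 * k := by
    intro p hp
    refine rng_of_single hk hp ?_
    intro J hJ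
    rcases (hU J).1 hJ with h | h
    · obtain ⟨h3, h4⟩ := rU1 J h
      exact ⟨h3, le_trans h4 (by norm_num)⟩
    · obtain ⟨h3, h4⟩ := rU2 J h
      exact ⟨le_trans (by norm_num) h3, h4⟩
  have rngU1 : ∀ p ∈ win k IU1, 2400 * k < 10000 * p ∧ 10000 * p ≤ 2401 * k :=
    fun p hp => rng_of_single hk hp rU1
  have rngU2 : ∀ p ∈ win k IU2, 2405 * k < 10000 * p ∧ 10000 * p ≤ 2406 * k :=
    fun p hp => rng_of_single hk hp rU2
  have rngR1 : ∀ p ∈ R1, 3770 * k < 10000 * p ∧ 10000 * p ≤ 3771 * k :=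
    fun p hp => rng_of_single hk hp rR1
  have rngR2 : ∀ p ∈ R2, 4500 * k < 10000 * p ∧ 10000 * p ≤ 4501 * k :=
    fun p hp => rng_of_single hk hp rR2
  have rngY6 : ∀ p ∈ win k IY6, 5020 * k < 10000 * p ∧ 10000 * p ≤ 5030 * k :=
    fun p hp => rng_of_single hk hp rY6
  have rngY7 : ∀ p ∈ win k IY7, 5050 * k < 10000 * p ∧ 10000 * p ≤ 5060 * k :=
    fun p hp => rng_of_single hk hp rY7
  have sub1 : win k IU1 ⊆ U := by
    intro p hp
    obtain ⟨h1, h2, J, hJ, h3⟩ := mem_win.1 hp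
    exact mem_win.2 ⟨h1, h2, J, (hU J).2 (Or.inl hJ), h3⟩
  have sub2 : win k IU2 ⊆ U := by
    intro p hp
    obtain ⟨h1, h2, J, hJ, h3⟩ := mem_win.1 hp
    exact mem_win.2 ⟨h1, h2, J, (hU J).2 (Or.inr hJ), h3⟩
  have prU : ∀ p ∈ U, p.Prime := fun p hp => (mem_win.1 hp).2.1
  have prR1 : ∀ p ∈ R1, p.Prime := fun p hp => (mem_win.1 hp).2.1
  have prR2 : ∀ p ∈ R2, p.Prime := fun p hp => (mem_win.1 hp).2.1
  -- membership helpers
  have inMvP : ∀ p ∈ P, p ∈ Mv := fun p hp => by simp [hMvdef, hp]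
  have inMvU : ∀ p ∈ U, p ∈ Mv := fun p hp => by simp [hMvdef, hp]
  have inMvR1 : ∀ p ∈ R1, p ∈ Mv := fun p hp => by simp [hMvdef, hp]
  have inMvR2 : ∀ p ∈ R2, p ∈ Mv := fun p hp => by simp [hMvdef, hp]
  have inE0P : ∀ p ∈ P, p ∈ E0 := fun p hp => by
    rw [hE0]; simp only [Finset.mem_union]; tauto
  have inE0U : ∀ p ∈ U, p ∈ E0 := fun p hp => by
    rw [hE0]; simp only [Finset.mem_union]; tauto
  have inE0U2 : ∀ p ∈ U, 2 * p ∈ E0 := fun p hp => by
    have : 2 * p ∈ U.image (fun u => 2 * u) := Finset.mem_image_of_mem _ hp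
    rw [hE0]; simp only [Finset.mem_union]; tauto
  have inE0U3 : ∀ p ∈ U, 3 * p ∈ E0 := fun p hp => by
    have : 3 * p ∈ U.image (fun u => 3 * u) := Finset.mem_image_of_mem _ hp
    rw [hE0]; simp only [Finset.mem_union]; tauto
  have inE0U4 : ∀ p ∈ U, 4 * p ∈ E0 := fun p hp => by
    have : 4 * p ∈ U.image (fun u => 4 * u) := Finset.mem_image_of_mem _ hp
    rw [hE0]; simp only [Finset.mem_union]; tauto
  have inE0R1 : ∀ p ∈ R1, p ∈ E0 := fun p hp => by
    rw [hE0]; simp only [Finset.mem_union]; tauto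
  have inE0R1b : ∀ p ∈ R1, 2 * p ∈ E0 := fun p hp => by
    have : 2 * p ∈ R1.image (fun u => 2 * u) := Finset.mem_image_of_mem _ hp
    rw [hE0]; simp only [Finset.mem_union]; tauto
  have inE0R2 : ∀ p ∈ R2, p ∈ E0 := fun p hp => by
    rw [hE0]; simp only [Finset.mem_union]; tauto
  have inE0R2b : ∀ p ∈ R2, 2 * p ∈ E0 := fun p hp => by
    have : 2 * p ∈ R2.image (fun u => 2 * u) := Finset.mem_image_of_mem _ hp
    rw [hE0]; simp only [Finset.mem_union]; tauto
  have inE0B : ∀ p ∈ Bad, p ∈ E0 := fun p hp => by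
    rw [hE0]; simp only [Finset.mem_union]; tauto
  -- the seven families
  obtain ⟨G1, c1⟩ := good_of k Mv E0 M1 (fun z => (z.1, z.2, 2 * z.1 + z.2))
    3770 3771 2400 2401 9940 9943
    (by
      intro z hz
      obtain ⟨q1, q2⟩ := Finset.mem_product.1 (s1 hz)
      have r1 := rngR1 _ q1; have r2 := rngU1 _ q2
      have hp := p1 z hz
      have e : (((2 : ℤ)) * z.1 + ((1 : ℤ)) * z.2 : ℤ).toNat = 2 * z.1 + z.2 := by omega
      rw [e] at hp
      refine ⟨inMvR1 _ q1, inE0U _ (sub1 q2), inE0P _ ((memP _).2 ⟨?_, hp, ?_⟩), ?_⟩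
      · simp only; omega
      · simp only; omega
      · exact modeq_of (by simp only; omega) ⟨2, by simp only; omega⟩)
    (by
      intro z hz
      obtain ⟨q1, q2⟩ := Finset.mem_product.1 (s1 hz)
      have r1 := rngR1 _ q1; have r2 := rngU1 _ q2
      simp only; omega)
    (by
      intro z hz z' hz' hne
      obtain ⟨e1, e2, e3⟩ := d1 z hz z' hz' hne
      simp only
      exact ⟨e1, e2, by omega⟩)
  obtain ⟨G2, c2⟩ := good_of k Mv E0 M2 (fun z => (2 * z.1 - z.2, z.2, 2 * z.1))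
    5134 5137 2405 2406 7540 7542
    (by
      intro z hz
      obtain ⟨q1, q2⟩ := Finset.mem_product.1 (s2 hz)
      have r1 := rngR1 _ q1; have r2 := rngU2 _ q2
      have hp := p2 z hz
      have e : (((2 : ℤ)) * z.1 + ((-1 : ℤ)) * z.2 : ℤ).toNat = 2 * z.1 - z.2 := by omega
      rw [e] at hp
      refine ⟨inMvP _ ((memP _).2 ⟨?_, hp, ?_⟩), inE0U _ (sub2 q2), inE0R1b _ q1, ?_⟩
      · simp only; omega
      · simp only; omega
      · exact modeq_of (by simp only; omega) ⟨1, by simp only; omega⟩)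
    (by
      intro z hz
      obtain ⟨q1, q2⟩ := Finset.mem_product.1 (s2 hz)
      have r1 := rngR1 _ q1; have r2 := rngU2 _ q2
      simp only; omega)
    (by
      intro z hz z' hz' hne
      obtain ⟨e1, e2, e3⟩ := d2 z hz z' hz' hne
      simp only
      exact ⟨by omega, e2, by omega⟩)
  obtain ⟨G3, c3⟩ := good_of k Mv E0 M3 (fun z => (2 * z.1 - z.2, z.2, 2 * z.1))
    5229 5232 3770 3771 9000 9002
    (by
      intro z hz
      obtain ⟨q1, q2⟩ := Finset.mem_product.1 (s3 hz)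
      have r1 := rngR2 _ q1; have r2 := rngR1 _ q2
      have hp := p3 z hz
      have e : (((2 : ℤ)) * z.1 + ((-1 : ℤ)) * z.2 : ℤ).toNat = 2 * z.1 - z.2 := by omega
      rw [e] at hp
      refine ⟨inMvP _ ((memP _).2 ⟨?_, hp, ?_⟩), inE0R1 _ q2, inE0R2b _ q1, ?_⟩
      · simp only; omega
      · simp only; omega
      · exact modeq_of (by simp only; omega) ⟨1, by simp only; omega⟩)
    (by
      intro z hz
      obtain ⟨q1, q2⟩ := Finset.mem_product.1 (s3 hz)
      have r1 := rngR2 _ q1; have r2 := rngR1 _ q2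
      simp only; omega)
    (by
      intro z hz z' hz' hne
      obtain ⟨e1, e2, e3⟩ := d3 z hz z' hz' hne
      simp only
      exact ⟨by omega, e2, by omega⟩)
  obtain ⟨G4, c4⟩ := good_of k Mv E0 M4 (fun z => (4 * z.1 - z.2, z.2, 4 * z.1))
    5099 5104 4500 4501 9600 9604
    (by
      intro z hz
      obtain ⟨q1, q2⟩ := Finset.mem_product.1 (s4 hz)
      have r1 := rngU1 _ q1; have r2 := rngR2 _ q2
      have hp := p4 z hz
      have e : (((4 : ℤ)) * z.1 + ((-1 : ℤ)) * z.2 : ℤ).toNat = 4 * z.1 - z.2 := by omega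
      rw [e] at hp
      refine ⟨inMvP _ ((memP _).2 ⟨?_, hp, ?_⟩), inE0R2 _ q2, inE0U4 _ (sub1 q1), ?_⟩
      · simp only; omega
      · simp only; omega
      · exact modeq_of (by simp only; omega) ⟨1, by simp only; omega⟩)
    (by
      intro z hz
      obtain ⟨q1, q2⟩ := Finset.mem_product.1 (s4 hz)
      have r1 := rngU1 _ q1; have r2 := rngR2 _ q2
      simp only; omega)
    (by
      intro z hz z' hz' hne
      obtain ⟨e1, e2, e3⟩ := d4 z hz z' hz' hne
      simp only
      exact ⟨by omega, e2, by omega⟩)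
  obtain ⟨G5, c5⟩ := good_of k Mv E0 M5 (fun z => (z.2, 4 * z.1, 4 * z.1 - z.2))
    4500 4501 9620 9624 5119 5124
    (by
      intro z hz
      obtain ⟨q1, q2⟩ := Finset.mem_product.1 (s5 hz)
      have r1 := rngU2 _ q1; have r2 := rngR2 _ q2
      have hp := p5 z hz
      have e : (((4 : ℤ)) * z.1 + ((-1 : ℤ)) * z.2 : ℤ).toNat = 4 * z.1 - z.2 := by omega
      rw [e] at hp
      refine ⟨inMvR2 _ q2, inE0U4 _ (sub2 q1), inE0P _ ((memP _).2 ⟨?_, hp, ?_⟩), ?_⟩
      · simp only; omega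
      · simp only; omega
      · exact (modeq_of (by simp only; omega) ⟨1, by simp only; omega⟩).symm)
    (by
      intro z hz
      obtain ⟨q1, q2⟩ := Finset.mem_product.1 (s5 hz)
      have r1 := rngU2 _ q1; have r2 := rngR2 _ q2
      simp only; omega)
    (by
      intro z hz z' hz' hne
      obtain ⟨e1, e2, e3⟩ := d5 z hz z' hz' hne
      simp only
      exact ⟨e2, by omega, by omega⟩)
  obtain ⟨G6, c6⟩ := good_of k Mv E0 M6 (fun z => (z.1, z.2, 2 * z.1 + z.2))
    2400 2406 5020 5030 9820 9842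
    (by
      intro z hz
      obtain ⟨q1, q2⟩ := Finset.mem_product.1 (s6 hz)
      have r1 := rngU _ q1; have r2 := rngY6 _ q2
      have hp := p6 z hz
      have e : (((2 : ℤ)) * z.1 + ((1 : ℤ)) * z.2 : ℤ).toNat = 2 * z.1 + z.2 := by omega
      rw [e] at hp
      have hp2 : z.2.Prime := (mem_win.1 q2).2.1
      refine ⟨inMvU _ q1, inE0P _ ((memP _).2 ⟨?_, hp2, ?_⟩), inE0P _ ((memP _).2 ⟨?_, hp, ?_⟩), ?_⟩
      · change z.2 < k
        omega
      · change x + k < 2 * z.2
        omega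
      · simp only; omega
      · simp only; omega
      · exact modeq_of (by simp only; omega) ⟨2, by simp only; omega⟩)
    (by
      intro z hz
      obtain ⟨q1, q2⟩ := Finset.mem_product.1 (s6 hz)
      have r1 := rngU _ q1; have r2 := rngY6 _ q2
      simp only; omega)
    (by
      intro z hz z' hz' hne
      obtain ⟨e1, e2, e3⟩ := d6 z hz z' hz' hne
      simp only
      exact ⟨e1, e2, by omega⟩)
  obtain ⟨G7, c7⟩ := good_of k Mv E0 M7 (fun z => (z.2, 2 * z.1, 2 * z.1 + z.2))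
    5050 5060 4800 4812 9850 9872
    (by
      intro z hz
      obtain ⟨q1, q2⟩ := Finset.mem_product.1 (s7 hz)
      have r1 := rngU _ q1; have r2 := rngY7 _ q2
      have hp := p7 z hz
      have e : (((2 : ℤ)) * z.1 + ((1 : ℤ)) * z.2 : ℤ).toNat = 2 * z.1 + z.2 := by omega
      rw [e] at hp
      have hp2 : z.2.Prime := (mem_win.1 q2).2.1
      refine ⟨inMvP _ ((memP _).2 ⟨?_, hp2, ?_⟩), inE0U2 _ q1, inE0P _ ((memP _).2 ⟨?_, hp, ?_⟩), ?_⟩
      · change z.2 < k
        omega
      · change x + k < 2 * z.2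
        omega
      · simp only; omega
      · simp only; omega
      · exact modeq_of (by simp only; omega) ⟨1, by simp only; omega⟩)
    (by
      intro z hz
      obtain ⟨q1, q2⟩ := Finset.mem_product.1 (s7 hz)
      have r1 := rngU _ q1; have r2 := rngY7 _ q2
      simp only; omega)
    (by
      intro z hz z' hz' hne
      obtain ⟨e1, e2, e3⟩ := d7 z hz z' hz' hne
      simp only
      exact ⟨e2, by omega, by omega⟩)
  -- cardinalities
  have cMv : P.card + U.card + R1.card + R2.card = Mv.card := by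
    rw [hMvdef, Finset.card_union_of_disjoint, Finset.card_union_of_disjoint,
      Finset.card_union_of_disjoint]
    · rw [Finset.disjoint_left]; intro p h h'
      have := (memP p).1 h; have := rngU p h'; omega
    · rw [Finset.disjoint_left]; intro p h h'
      have v := rngR1 p h'
      rcases Finset.mem_union.1 h with h | h
      · have := (memP p).1 h; omega
      · have := rngU p h; omega
    · rw [Finset.disjoint_left]; intro p h h'
      have v := rngR2 p h'
      simp only [Finset.mem_union] at h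
      rcases h with (h | h) | h
      · have := (memP p).1 h; omega
      · have := rngU p h; omega
      · have := rngR1 p h; omega
  have cE0 : E0.card ≤ P.card + U.card + U.card + U.card + U.card + R1.card + R1.card + R2.card +
      R2.card + Bad.card := by
    rw [hE0]
    refine le_trans (Finset.card_union_le _ _) (Nat.add_le_add_right ?_ _)
    refine le_trans (Finset.card_union_le _ _) (Nat.add_le_add ?_ Finset.card_image_le)
    refine le_trans (Finset.card_union_le _ _) (Nat.add_le_add_right ?_ _)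
    refine le_trans (Finset.card_union_le _ _) (Nat.add_le_add ?_ Finset.card_image_le)
    refine le_trans (Finset.card_union_le _ _) (Nat.add_le_add_right ?_ _)
    refine le_trans (Finset.card_union_le _ _) (Nat.add_le_add ?_ Finset.card_image_le)
    refine le_trans (Finset.card_union_le _ _) (Nat.add_le_add ?_ Finset.card_image_le)
    refine le_trans (Finset.card_union_le _ _) (Nat.add_le_add ?_ Finset.card_image_le)
    exact Finset.card_union_le _ _
  obtain ⟨c, hc⟩ := combine k Mv E0 _ _ _ _ _ _ _ G1 G2 G3 G4 G5 G6 G7 (by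
    rw [c1, c2, c3, c4, c5, c6, c7]; omega)
  refine J11a k x (by omega) Mv ?_ c ?_
  · intro p hp
    rw [hMvdef] at hp
    simp only [Finset.mem_union] at hp
    rcases hp with ((h | h) | h) | h
    · have := (memP p).1 h
      exact ⟨this.2.1, this.1, by omega⟩
    · have := rngU p h; exact ⟨prU p h, by omega, by omega⟩
    · have := rngR1 p h; exact ⟨prR1 p h, by omega, by omega⟩
    · have := rngR2 p h; exact ⟨prR2 p h, by omega, by omega⟩
  · intro t ht1 ht2 hcase
    have htE : t ∈ E0 := by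
      rcases hcase with ⟨p, hp, hpt⟩ | ⟨q, hq, hqk, hqt⟩
      · obtain ⟨j, rfl⟩ := hpt
        have hj0 : j ≠ 0 := by rintro rfl; omega
        rw [hMvdef] at hp
        simp only [Finset.mem_union] at hp
        rcases hp with ((h | h) | h) | h
        · have hh := (memP p).1 h
          have hj : j < 2 := by
            by_contra hcon
            have : p * 2 ≤ p * j := Nat.mul_le_mul_left p (not_lt.1 hcon)
            omega
          have : j = 1 := by omega
          rw [this, mul_one]; exact inE0P p h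
        · have hh := rngU p h
          have hj : j < 5 := by
            by_contra hcon
            have : p * 5 ≤ p * j := Nat.mul_le_mul_left p (not_lt.1 hcon)
            omega
          have hj4 : j = 1 ∨ j = 2 ∨ j = 3 ∨ j = 4 := by omega
          rcases hj4 with e | e | e | e
          · rw [e, mul_one]; exact inE0U p h
          · rw [e, mul_comm]; exact inE0U2 p h
          · rw [e, mul_comm]; exact inE0U3 p h
          · rw [e, mul_comm]; exact inE0U4 p h
        · have hh := rngR1 p h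
          have hj : j < 3 := by
            by_contra hcon
            have : p * 3 ≤ p * j := Nat.mul_le_mul_left p (not_lt.1 hcon)
            omega
          have hj4 : j = 1 ∨ j = 2 := by omega
          rcases hj4 with e | e
          · rw [e, mul_one]; exact inE0R1 p h
          · rw [e, mul_comm]; exact inE0R1b p h
        · have hh := rngR2 p h
          have hj : j < 3 := by
            by_contra hcon
            have : p * 3 ≤ p * j := Nat.mul_le_mul_left p (not_lt.1 hcon)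
            omega
          have hj4 : j = 1 ∨ j = 2 := by omega
          rcases hj4 with e | e
          · rw [e, mul_one]; exact inE0R2 p h
          · rw [e, mul_comm]; exact inE0R2b p h
      · obtain ⟨j, rfl⟩ := hqt
        have hj0 : j ≠ 0 := by rintro rfl; omega
        have hj : j < 2 := by
          by_contra hcon
          have : q * 2 ≤ q * j := Nat.mul_le_mul_left q (not_lt.1 hcon)
          omega
        have : j = 1 := by omega
        rw [this, mul_one] at ht2 ⊢
        refine inE0B q ?_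
        rw [hBad, Finset.mem_filter, Finset.mem_Icc]
        exact ⟨⟨hqk, by omega⟩, hq⟩
    exact hc t htE

end Pool.Agent.Helper602.MK
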