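import Mathlib
import Pool.Agent.Helper602.MK.FinB

set_option autoImplicit false

namespace Pool.Agent.Helper602.MK

open Finset Filter Topology


theorem Wok_single {a b : ℝ} (h1 : 1 / 10 ≤ a) (h2 : a < b) (h3 : b ≤ 1) : Wok {(a, b)} := by
  constructor
  · intro J hJ
    rw [Finset.mem_singleton] at hJ
    subst hJ
    exact ⟨h1, h2, h3⟩
  · intro J hJ J' hJ' hne
    rw [Finset.mem_singleton] at hJ hJ'
    exact absurd (hJ.trans hJ'.symm) hne

theorem len_single {a b : ℝ} : len {(a, b)} = b - a := by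
  unfold len
  rw [Finset.sum_singleton]

theorem Wok_pair {a b c d : ℝ} (h1 : 1 / 10 ≤ a) (h2 : a < b) (h3 : b ≤ c) (h4 : c < d)
    (h5 : d ≤ 1) : Wok {(a, b), (c, d)} := by
  constructor
  · intro J hJ
    rw [Finset.mem_insert, Finset.mem_singleton] at hJ
    rcases hJ with rfl | rfl
    · exact ⟨h1, h2, by simp only; linarith⟩
    · exact ⟨by simp only; linarith, h4, h5⟩
  · intro J hJ J' hJ' hne
    rw [Finset.mem_insert, Finset.mem_singleton] at hJ hJ'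
    rcases hJ with rfl | rfl <;> rcases hJ' with rfl | rfl
    · exact absurd rfl hne
    · left; exact h3
    · right; exact h3
    · exact absurd rfl hne

theorem len_pair {a b c d : ℝ} (h : a ≠ c) : len {(a, b), (c, d)} = (b - a) + (d - c) := by
  unfold len
  rw [Finset.sum_pair]
  intro h'
  exact h (congrArg Prod.fst h')

/-- the main theorem from the analytic inputs -/
theorem mk_final (h8 : J8Stmt) (h9 : J9Stmt) (h12 : J12Stmt) (h13 : J13Stmt) :
    ∃ ε : ℝ, 0 < ε ∧ ∃ K : ℕ, ∀ k : ℕ, K ≤ k → ∃ n : ℕ, ∀ i ∈ Icc 1 k,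
      ε * k < ((∏ p ∈ (range k).filter Nat.Prime, p ^ ((n + i).factorization p) : ℕ) : ℝ) := by
  obtain ⟨CA, hCA, HA⟩ := multA h9
  obtain ⟨CB, hCB, HB⟩ := multB h9
  obtain ⟨CU, hCU, HU⟩ := multU h9
  set η : ℝ := 1 / 1000 with hη
  -- choice of m and g
  obtain ⟨m, hm⟩ := exists_nat_ge (2000 * (CA + CB) + 4)
  have hm4 : (4 : ℝ) ≤ m := by linarith
  have hm0 : (0 : ℝ) < m := by linarith
  set g : ℝ := 1 / (10 ^ 8 * CU * m ^ 3) with hg
  have hCU0 : 0 < CU := by linarith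
  have hg0 : 0 < g := by rw [hg]; positivity
  have hm3g : (m : ℝ) ^ 3 * g ≤ 1 / 10 ^ 8 := by
    have : (m : ℝ) ^ 3 * g = 1 / (10 ^ 8 * CU) := by rw [hg]; field_simp
    rw [this]
    apply one_div_le_one_div_of_le (by norm_num)
    linarith
  have hm2g : (m : ℝ) ^ 2 * g ≤ 1 / 10 ^ 8 := by
    refine le_trans ?_ hm3g
    have : (m : ℝ) ^ 2 ≤ m ^ 3 := by nlinarith [sq_nonneg (m : ℝ)]
    exact mul_le_mul_of_nonneg_right this hg0.le
  have hmg : (m : ℝ) * g ≤ 1 / 10 ^ 8 := by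
    refine le_trans ?_ hm2g
    have : (m : ℝ) ≤ m ^ 2 := by nlinarith
    exact mul_le_mul_of_nonneg_right this hg0.le
  have hCUg : 10 ^ 8 * CU * (m * g) ≤ 1 := by
    have : 10 ^ 8 * CU * (m * g) = 1 / m ^ 2 := by rw [hg]; field_simp
    rw [this, div_le_one (by positivity)]
    nlinarith
  set lam : ℝ := m * g with hlamdef
  have hlam0 : 0 < lam := by rw [hlamdef]; positivity
  have hglam : g ≤ lam := by rw [hlamdef]; nlinarith
  have hg1 : g ≤ 1 := by linarith [hmg, hglam, (by norm_num : (1 : ℝ) / 10 ^ 8 ≤ 1)]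
  have hlam1 : lam ≤ 1 := by linarith [hmg, (by norm_num : (1 : ℝ) / 10 ^ 8 ≤ 1)]
  have hlams : lam ≤ 1 / 10 ^ 8 := hmg
  set w2 : ℝ := m ^ 2 * g with hw2
  have hw2s : w2 ≤ 1 / 10 ^ 8 := hm2g
  have hlamw2 : 4 * lam ≤ w2 := by
    rw [hlamdef, hw2]
    have : 4 * (m : ℝ) ≤ m ^ 2 := by nlinarith
    calc 4 * ((m : ℝ) * g) = (4 * m) * g := by ring
      _ ≤ m ^ 2 * g := mul_le_mul_of_nonneg_right this hg0.le
  have hgw2 : g ≤ w2 := by linarith
  have hmlam : (m : ℝ) * lam = w2 := by rw [hlamdef, hw2]; ring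
  have hmw2 : (m : ℝ) * w2 ≤ 1 / 10 ^ 8 := by
    have : (m : ℝ) * w2 = m ^ 3 * g := by rw [hw2]; ring
    rw [this]; exact hm3g
  -- windows
  set IU1 : Finset (ℝ × ℝ) := {(24 / 100, 24 / 100 + lam)} with hIU1
  set IU2 : Finset (ℝ × ℝ) := {(2405 / 10000, 2405 / 10000 + lam)} with hIU2
  set IU : Finset (ℝ × ℝ) := {(24 / 100, 24 / 100 + lam), (2405 / 10000, 2405 / 10000 + lam)} with hIU
  set IR1 : Finset (ℝ × ℝ) := cells (377 / 1000) lam g m with hIR1
  set IR2 : Finset (ℝ × ℝ) := cells (45 / 100) w2 g m with hIR2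
  set IY6 : Finset (ℝ × ℝ) := {(502 / 1000, 503 / 1000)} with hIY6
  set IY7 : Finset (ℝ × ℝ) := {(505 / 1000, 506 / 1000)} with hIY7
  have e8 : (1 : ℝ) / 10 ^ 8 ≤ 1 / 10000 := by norm_num
  have WU1 : Wok IU1 := Wok_single (by norm_num) (by linarith) (by linarith)
  have WU2 : Wok IU2 := Wok_single (by norm_num) (by linarith) (by linarith)
  have WU : Wok IU := Wok_pair (by norm_num) (by linarith) (by linarith) (by linarith) (by linarith)
  have WR1 : Wok IR1 := Wok_cells hg0 hglam (by norm_num) (by rw [hmlam]; linarith)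
  have WR2 : Wok IR2 := Wok_cells hg0 hgw2 (by norm_num) (by linarith)
  have WY6 : Wok IY6 := Wok_single (by norm_num) (by norm_num) (by norm_num)
  have WY7 : Wok IY7 := Wok_single (by norm_num) (by norm_num) (by norm_num)
  have LU1 : len IU1 = lam := by rw [hIU1, len_single]; ring
  have LU2 : len IU2 = lam := by rw [hIU2, len_single]; ring
  have LU : len IU = 2 * lam := by rw [hIU, len_pair (by norm_num)]; ring
  have LR1 : len IR1 = lam := by rw [hIR1, len_cells hlam0]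
  have LR2 : len IR2 = lam := by rw [hIR2, len_cells (by linarith)]
  have LY6 : len IY6 = 1 / 1000 := by rw [hIY6, len_single]; norm_num
  have LY7 : len IY7 = 1 / 1000 := by rw [hIY7, len_single]; norm_num
  -- ranges
  have rU1 : ∀ J ∈ IU1, ((2400 : ℕ) : ℝ) / 10000 ≤ J.1 ∧ J.2 ≤ ((2401 : ℕ) : ℝ) / 10000 := by
    intro J hJ
    rw [hIU1, Finset.mem_singleton] at hJ
    subst hJ
    constructor
    · norm_num
    · simp only; push_cast; linarith
  have rU2 : ∀ J ∈ IU2, ((2405 : ℕ) : ℝ) / 10000 ≤ J.1 ∧ J.2 ≤ ((2406 : ℕ) : ℝ) / 10000 := by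
    intro J hJ
    rw [hIU2, Finset.mem_singleton] at hJ
    subst hJ
    constructor
    · norm_num
    · simp only; push_cast; linarith
  have rR1 : ∀ J ∈ IR1, ((3770 : ℕ) : ℝ) / 10000 ≤ J.1 ∧ J.2 ≤ ((3771 : ℕ) : ℝ) / 10000 := by
    intro J hJ
    obtain ⟨i, hi, rfl⟩ := mem_cells.1 hJ
    have hi' : (i : ℝ) + 1 ≤ m := by exact_mod_cast hi
    have hi0 : (0 : ℝ) ≤ i := by positivity
    have h1 : 0 ≤ (i : ℝ) * lam := by positivity
    have h2 : ((i : ℝ) + 1) * lam ≤ m * lam := mul_le_mul_of_nonneg_right hi' hlam0.le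
    rw [hmlam] at h2
    constructor
    · simp only; push_cast; linarith
    · simp only; push_cast; linarith
  have rR2 : ∀ J ∈ IR2, ((4500 : ℕ) : ℝ) / 10000 ≤ J.1 ∧ J.2 ≤ ((4501 : ℕ) : ℝ) / 10000 := by
    intro J hJ
    obtain ⟨i, hi, rfl⟩ := mem_cells.1 hJ
    have hi' : (i : ℝ) + 1 ≤ m := by exact_mod_cast hi
    have hi0 : (0 : ℝ) ≤ i := by positivity
    have hw20 : 0 ≤ w2 := by linarith
    have h1 : 0 ≤ (i : ℝ) * w2 := by positivity
    have h2 : ((i : ℝ) + 1) * w2 ≤ m * w2 := mul_le_mul_of_nonneg_right hi' hw20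
    constructor
    · simp only; push_cast; linarith
    · simp only; push_cast; linarith
  have rY6 : ∀ J ∈ IY6, ((5020 : ℕ) : ℝ) / 10000 ≤ J.1 ∧ J.2 ≤ ((5030 : ℕ) : ℝ) / 10000 := by
    intro J hJ
    rw [hIY6, Finset.mem_singleton] at hJ
    subst hJ
    norm_num
  have rY7 : ∀ J ∈ IY7, ((5050 : ℕ) : ℝ) / 10000 ≤ J.1 ∧ J.2 ≤ ((5060 : ℕ) : ℝ) / 10000 := by
    intro J hJ
    rw [hIY7, Finset.mem_singleton] at hJ
    subst hJ
    norm_num
  have hU : ∀ J, J ∈ IU ↔ J ∈ IU1 ∨ J ∈ IU2 := by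
    intro J
    rw [hIU, hIU1, hIU2]
    simp only [Finset.mem_insert, Finset.mem_singleton]
  have rU : ∀ J ∈ IU, ((2400 : ℕ) : ℝ) / 10000 ≤ J.1 ∧ J.2 ≤ ((2406 : ℕ) : ℝ) / 10000 := by
    intro J hJ
    rcases (hU J).1 hJ with h | h
    · obtain ⟨h3, h4⟩ := rU1 J h
      exact ⟨h3, le_trans h4 (by norm_num)⟩
    · obtain ⟨h3, h4⟩ := rU2 J h
      exact ⟨le_trans (by norm_num) h3, h4⟩
  -- positivity of the linear forms
  have pos1 : ∀ x y : ℝ, (∃ J ∈ IR1, J.1 ≤ x ∧ x ≤ J.2) → (∃ J ∈ IU1, J.1 ≤ y ∧ y ≤ J.2) →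
      1 / 10 ≤ ((2 : ℤ) : ℝ) * x + ((1 : ℤ) : ℝ) * y := by
    rintro x y ⟨J, hJ, h1, h2⟩ ⟨J', hJ', h3, h4⟩
    have := rR1 J hJ; have := rU1 J' hJ'
    push_cast at *; linarith
  have pos2 : ∀ x y : ℝ, (∃ J ∈ IR1, J.1 ≤ x ∧ x ≤ J.2) → (∃ J ∈ IU2, J.1 ≤ y ∧ y ≤ J.2) →
      1 / 10 ≤ ((2 : ℤ) : ℝ) * x + ((-1 : ℤ) : ℝ) * y := by
    rintro x y ⟨J, hJ, h1, h2⟩ ⟨J', hJ', h3, h4⟩
    have := rR1 J hJ; have := rU2 J' hJ'
    push_cast at *; linarith
  have pos3 : ∀ x y : ℝ, (∃ J ∈ IR2, J.1 ≤ x ∧ x ≤ J.2) → (∃ J ∈ IR1, J.1 ≤ y ∧ y ≤ J.2) →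
      1 / 10 ≤ ((2 : ℤ) : ℝ) * x + ((-1 : ℤ) : ℝ) * y := by
    rintro x y ⟨J, hJ, h1, h2⟩ ⟨J', hJ', h3, h4⟩
    have := rR2 J hJ; have := rR1 J' hJ'
    push_cast at *; linarith
  have pos4 : ∀ x y : ℝ, (∃ J ∈ IU1, J.1 ≤ x ∧ x ≤ J.2) → (∃ J ∈ IR2, J.1 ≤ y ∧ y ≤ J.2) →
      1 / 10 ≤ ((4 : ℤ) : ℝ) * x + ((-1 : ℤ) : ℝ) * y := by
    rintro x y ⟨J, hJ, h1, h2⟩ ⟨J', hJ', h3, h4⟩
    have := rU1 J hJ; have := rR2 J' hJ'
    push_cast at *; linarith
  have pos5 : ∀ x y : ℝ, (∃ J ∈ IU2, J.1 ≤ x ∧ x ≤ J.2) → (∃ J ∈ IR2, J.1 ≤ y ∧ y ≤ J.2) →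
      1 / 10 ≤ ((4 : ℤ) : ℝ) * x + ((-1 : ℤ) : ℝ) * y := by
    rintro x y ⟨J, hJ, h1, h2⟩ ⟨J', hJ', h3, h4⟩
    have := rU2 J hJ; have := rR2 J' hJ'
    push_cast at *; linarith
  have pos6 : ∀ x y : ℝ, (∃ J ∈ IU, J.1 ≤ x ∧ x ≤ J.2) → (∃ J ∈ IY6, J.1 ≤ y ∧ y ≤ J.2) →
      1 / 10 ≤ ((2 : ℤ) : ℝ) * x + ((1 : ℤ) : ℝ) * y := by
    rintro x y ⟨J, hJ, h1, h2⟩ ⟨J', hJ', h3, h4⟩
    have := rU J hJ; have := rY6 J' hJ'
    push_cast at *; linarith
  have pos7 : ∀ x y : ℝ, (∃ J ∈ IU, J.1 ≤ x ∧ x ≤ J.2) → (∃ J ∈ IY7, J.1 ≤ y ∧ y ≤ J.2) →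
      1 / 10 ≤ ((2 : ℤ) : ℝ) * x + ((1 : ℤ) : ℝ) * y := by
    rintro x y ⟨J, hJ, h1, h2⟩ ⟨J', hJ', h3, h4⟩
    have := rU J hJ; have := rY7 J' hJ'
    push_cast at *; linarith
  -- multiplicity constants
  have kA : ∀ k : ℕ, 2 * CA * g * (k / (Real.log k) ^ 2) ≤ η * (lam * k / (Real.log k) ^ 2) := by
    intro k
    have h1 : 2 * CA * g ≤ η * lam := by
      rw [hlamdef, hη]
      have : 2 * CA ≤ 1 / 1000 * m := by linarith
      calc 2 * CA * g ≤ (1 / 1000 * m) * g := mul_le_mul_of_nonneg_right this hg0.le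
        _ = _ := by ring
    calc 2 * CA * g * (k / (Real.log k) ^ 2) ≤ η * lam * (k / (Real.log k) ^ 2) :=
          mul_le_mul_of_nonneg_right h1 (by positivity)
      _ = _ := by ring
  have kB : ∀ k : ℕ, 2 * CB * g * (k / (Real.log k) ^ 2) ≤ η * (lam * k / (Real.log k) ^ 2) := by
    intro k
    have h1 : 2 * CB * g ≤ η * lam := by
      rw [hlamdef, hη]
      have : 2 * CB ≤ 1 / 1000 * m := by linarith
      calc 2 * CB * g ≤ (1 / 1000 * m) * g := mul_le_mul_of_nonneg_right this hg0.le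
        _ = _ := by ring
    calc 2 * CB * g * (k / (Real.log k) ^ 2) ≤ η * lam * (k / (Real.log k) ^ 2) :=
          mul_le_mul_of_nonneg_right h1 (by positivity)
      _ = _ := by ring
  have hη0 : 0 < η := by rw [hη]; norm_num
  have hη1 : η ≤ 1 / 100 := by rw [hη]; norm_num
  -- the seven matchings
  have m1 := match_of h8 h12 IR1 IU1 2 1 WR1 WU1 (by decide) (by decide) (by decide) pos1 lam η
    hlam0 hη0 hη1 LR1 LU1 (by
      have := HA g hg0 hg1 m (377 / 1000) lam hglam IU1 2 1 rfl (Or.inl rfl) pos1 (by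
        intro J hJ J' hJ'
        rw [hIU1, Finset.mem_singleton] at hJ hJ'
        subst hJ; subst hJ'
        simp only; linarith)
      filter_upwards [this] with k hk
      intro l
      exact le_trans (hk l) (kA k))
  have m2 := match_of h8 h12 IR1 IU2 2 (-1) WR1 WU2 (by decide) (by decide) (by decide) pos2 lam η
    hlam0 hη0 hη1 LR1 LU2 (by
      have := HA g hg0 hg1 m (377 / 1000) lam hglam IU2 2 (-1) rfl (Or.inr rfl) pos2 (by
        intro J hJ J' hJ'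
        rw [hIU2, Finset.mem_singleton] at hJ hJ'
        subst hJ; subst hJ'
        simp only; linarith)
      filter_upwards [this] with k hk
      intro l
      exact le_trans (hk l) (kA k))
  have m3 := match_of h8 h12 IR2 IR1 2 (-1) WR2 WR1 (by decide) (by decide) (by decide) pos3 lam η
    hlam0 hη0 hη1 LR2 LR1 (by
      have := HA g hg0 hg1 m (45 / 100) w2 hgw2 IR1 2 (-1) rfl (Or.inr rfl) pos3 (by
        intro J hJ J' hJ'
        obtain ⟨i, hi, rfl⟩ := mem_cells.1 hJ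
        obtain ⟨i', hi', rfl⟩ := mem_cells.1 hJ'
        have h1 : (i : ℝ) + 1 ≤ m := by exact_mod_cast hi
        have h2 : ((i : ℝ) + 1) * lam ≤ m * lam := mul_le_mul_of_nonneg_right h1 hlam0.le
        have h3 : 0 ≤ (i' : ℝ) * lam := by positivity
        rw [hmlam] at h2
        simp only; linarith)
      filter_upwards [this] with k hk
      intro l
      exact le_trans (hk l) (kA k))
  have m4 := match_of h8 h12 IU1 IR2 4 (-1) WU1 WR2 (by decide) (by decide) (by decide) pos4 lam η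
    hlam0 hη0 hη1 LU1 LR2 (by
      have := HB g hg0 hg1 m (45 / 100) w2 hgw2 IU1 4 (-1) rfl rfl pos4 (by
        intro J hJ J' hJ'
        rw [hIU1, Finset.mem_singleton] at hJ hJ'
        subst hJ; subst hJ'
        simp only; linarith)
      filter_upwards [this] with k hk
      intro l
      exact le_trans (hk l) (kB k))
  have m5 := match_of h8 h12 IU2 IR2 4 (-1) WU2 WR2 (by decide) (by decide) (by decide) pos5 lam η
    hlam0 hη0 hη1 LU2 LR2 (by
      have := HB g hg0 hg1 m (45 / 100) w2 hgw2 IU2 4 (-1) rfl rfl pos5 (by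
        intro J hJ J' hJ'
        rw [hIU2, Finset.mem_singleton] at hJ hJ'
        subst hJ; subst hJ'
        simp only; linarith)
      filter_upwards [this] with k hk
      intro l
      exact le_trans (hk l) (kB k))
  have hIUc : IU.card ≤ 2 := by
    rw [hIU]; exact Finset.card_le_two
  have hIUl : ∀ J ∈ IU, J.2 - J.1 ≤ lam := by
    intro J hJ
    rw [hIU, Finset.mem_insert, Finset.mem_singleton] at hJ
    rcases hJ with rfl | rfl <;> · simp only; linarith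
  have hsmall : 8 * (2 * lam) * (2 * CU * lam) ≤ (η * lam) * (1 / 1000) := by
    rw [hη]
    have h1 : 32 * CU * lam ≤ 1 / 10 ^ 6 := by
      have : 10 ^ 8 * CU * lam ≤ 1 := hCUg
      linarith
    calc 8 * (2 * lam) * (2 * CU * lam) = (32 * CU * lam) * lam := by ring
      _ ≤ (1 / 10 ^ 6) * lam := mul_le_mul_of_nonneg_right h1 hlam0.le
      _ = _ := by ring
  have m6 := greedy_of h8 h12 IU IY6 2 1 WU WY6 (by decide) (by decide) (by decide) pos6
    (2 * lam) (1 / 1000) (2 * CU * lam) (η * lam) (by positivity) (by norm_num) (by positivity)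
    (by positivity) LU LY6 hsmall (HU lam hlam0 hlam1 IU hIUc hIUl IY6 WY6 pos6).1
    (HU lam hlam0 hlam1 IU hIUc hIUl IY6 WY6 pos6).2
  have m7 := greedy_of h8 h12 IU IY7 2 1 WU WY7 (by decide) (by decide) (by decide) pos7
    (2 * lam) (1 / 1000) (2 * CU * lam) (η * lam) (by positivity) (by norm_num) (by positivity)
    (by positivity) LU LY7 hsmall (HU lam hlam0 hlam1 IU hIUc hIUl IY7 WY7 pos7).1
    (HU lam hlam0 hlam1 IU hIUc hIUl IY7 WY7 pos7).2
  have cU := card_ev h12 IU WU (2 * lam) η (by positivity) hη0 LU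
  have cR1 := card_ev h12 IR1 WR1 lam η hlam0 hη0 LR1
  have cR2 := card_ev h12 IR2 WR2 lam η hlam0 hη0 LR2
  have cB := bad_count h13 (lam / 10) (by positivity) (by linarith)
  have hbig : ∀ᶠ k : ℕ in atTop, (2000 : ℝ) ≤ k := by
    filter_upwards [eventually_ge_atTop 2000] with k hk
    exact_mod_cast hk
  refine ⟨lam / 10, by positivity, ?_⟩
  rw [← Filter.eventually_atTop]
  filter_upwards [m1, m2, m3, m4, m5, m6, m7, cU, cR1, cR2, cB, hbig] with k
    hm1 hm2 hm3 hm4 hm5 hm6 hm7 hcU hcR1 hcR2 hcB hk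
  obtain ⟨M1, s1, p1, d1, n1⟩ := hm1
  obtain ⟨M2, s2, p2, d2, n2⟩ := hm2
  obtain ⟨M3, s3, p3, d3, n3⟩ := hm3
  obtain ⟨M4, s4, p4, d4, n4⟩ := hm4
  obtain ⟨M5, s5, p5, d5, n5⟩ := hm5
  obtain ⟨M6, s6, p6, d6, n6⟩ := hm6
  obtain ⟨M7, s7, p7, d7, n7⟩ := hm7
  have hk0 : (0 : ℝ) < k := by linarith
  have hkn : 0 < k := by exact_mod_cast hk0
  set x := ⌊lam / 10 * k⌋₊ + 1 with hxdef
  have hx : 1000 * x ≤ k := by
    have : ((1000 * x : ℕ) : ℝ) ≤ k := by
      rw [hxdef]; push_cast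
      have h1 := Nat.floor_le (show 0 ≤ lam / 10 * (k : ℝ) by positivity)
      have h2 : lam / 10 * (k : ℝ) ≤ 1 / 10 ^ 9 * k := by
        apply mul_le_mul_of_nonneg_right _ hk0.le
        linarith
      linarith
    exact_mod_cast this
  obtain ⟨n, hn⟩ := finite_part k x hkn hx IU1 IU2 IU IR1 IR2 IY6 IY7 hU rU1 rU2 rR1 rR2 rY6 rY7
    M1 M2 M3 M4 M5 M6 M7 s1 s2 s3 s4 s5 s6 s7 p1 p2 p3 p4 p5 p6 p7 d1 d2 d3 d4 d5 d6 d7 (by
      have hN : 0 < lam * k / Real.log k := by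
        have : 0 < Real.log k := Real.log_pos (by linarith)
        positivity
      set N : ℝ := lam * k / Real.log k with hNdef
      have e1 : 2 * (η * lam) * (k / Real.log k) = 2 * η * N := by rw [hNdef]; ring
      have e2 : (1 + η) * (2 * lam * k / Real.log k) = 2 * (1 + η) * N := by rw [hNdef]; ring
      have e3 : 2 * (lam / 10) * (k / Real.log k) = N / 5 := by rw [hNdef]; ring
      rw [e1] at n6 n7
      rw [e2] at hcU
      rw [e3] at hcB
      have hres : ((3 * (win k IU).card + (win k IR1).card + (win k IR2).card +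
        ((Icc k (k + x)).filter Nat.Prime).card : ℕ) : ℝ) ≤
        ((M1.card + M2.card + M3.card + M4.card + M5.card + M6.card + M7.card : ℕ) : ℝ) := by
        push_cast
        have q1 := hcU.2
        have q2 := hcR1.2
        have q3 := hcR2.2
        rw [hη] at *
        linarith
      exact_mod_cast hres)
  refine ⟨n, fun i hi => ?_⟩
  have h1 := hn i hi
  have h2 : lam / 10 * (k : ℝ) < (x : ℝ) := by
    rw [hxdef]; push_cast; exact Nat.lt_floor_add_one _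
  have h3 : ((x : ℕ) : ℝ) < ((∏ p ∈ (range k).filter Nat.Prime, p ^ ((n + i).factorization p) : ℕ) : ℝ) := by
    exact_mod_cast h1
  linarith

end Pool.Agent.Helper602.MK
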