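import Mathlib
import Pool.Agent.Helper602.MK.Defs

set_option autoImplicit false

namespace Pool.Agent.Helper602.MK.N_J12

open Finset


theorem J12_floor (h13 : J13Stmt) (t : ℝ) (ht : 0 < t) :
    Filter.Tendsto (fun k : ℕ => (((Icc 1 ⌊t * (k : ℝ)⌋₊).filter Nat.Prime).card : ℝ) *
      Real.log k / k) Filter.atTop (nhds t) := by
  have h1 := h13 1 1 le_rfl (Nat.coprime_one_left 1)
  have h1' : Filter.Tendsto (fun N : ℕ => (((Icc 1 N).filter Nat.Prime).card : ℝ) *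
      Real.log N / N) Filter.atTop (nhds 1) := by
    simpa [Nat.modEq_one] using h1
  have hcast : Filter.Tendsto (fun k : ℕ => (k : ℝ)) Filter.atTop Filter.atTop :=
    tendsto_natCast_atTop_atTop
  have hfl : Filter.Tendsto (fun k : ℕ => ⌊t * (k:ℝ)⌋₊) Filter.atTop Filter.atTop :=
    tendsto_nat_floor_atTop.comp (Filter.Tendsto.const_mul_atTop ht hcast)
  have h2 := h1'.comp hfl
  have h3 : Filter.Tendsto (fun k : ℕ => ((⌊t * (k:ℝ)⌋₊ : ℝ) / k)) Filter.atTop (nhds t) :=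
    (tendsto_nat_floor_mul_div_atTop ht.le).comp hcast
  have h4 : Filter.Tendsto (fun k : ℕ => Real.log k) Filter.atTop Filter.atTop :=
    Real.tendsto_log_atTop.comp hcast
  have h5 : Filter.Tendsto (fun k : ℕ => Real.log ((⌊t * (k:ℝ)⌋₊ : ℝ) / k)) Filter.atTop
      (nhds (Real.log t)) := (Real.continuousAt_log ht.ne').tendsto.comp h3
  have h6 : Filter.Tendsto (fun k : ℕ => Real.log ((⌊t * (k:ℝ)⌋₊ : ℝ) / k) / Real.log k)
      Filter.atTop (nhds 0) := h5.div_atTop h4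
  have h7 : Filter.Tendsto (fun k : ℕ => 1 + Real.log ((⌊t * (k:ℝ)⌋₊ : ℝ) / k) / Real.log k)
      Filter.atTop (nhds (1 + 0)) := tendsto_const_nhds.add h6
  have h8 : Filter.Tendsto (fun k : ℕ =>
      (1 + Real.log ((⌊t * (k:ℝ)⌋₊ : ℝ) / k) / Real.log k)⁻¹) Filter.atTop (nhds 1) := by
    simpa using h7.inv₀ (by norm_num)
  have h9 := (h2.mul h3).mul h8
  rw [one_mul, mul_one] at h9
  refine h9.congr' ?_
  filter_upwards [hfl.eventually_ge_atTop 2, Filter.eventually_ge_atTop 2] with k hN hk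
  obtain ⟨N, hNd⟩ : ∃ N : ℕ, N = ⌊t * (k:ℝ)⌋₊ := ⟨_, rfl⟩
  simp only [Function.comp_apply]
  rw [← hNd] at hN ⊢
  have hN' : (2:ℝ) ≤ N := by exact_mod_cast hN
  have hk' : (2:ℝ) ≤ k := by exact_mod_cast hk
  have l1 : 0 < Real.log N := Real.log_pos (by linarith)
  have l2 : 0 < Real.log k := Real.log_pos (by linarith)
  have e1 : 1 + Real.log ((N:ℝ) / k) / Real.log k = Real.log N / Real.log k := by
    rw [Real.log_div (by linarith) (by linarith)]
    field_simp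
    ring
  rw [e1, inv_div]
  have n1 : (N:ℝ) ≠ 0 := by linarith
  have n2 : (k:ℝ) ≠ 0 := by linarith
  have n3 := l1.ne'
  field_simp

theorem J12 (h13 : J13Stmt) : J12Stmt := by
  intro I hI
  classical
  obtain ⟨h1, h2⟩ := hI
  -- the pieces
  have hcard : ∀ k : ℕ, ((win k I).card : ℝ) = ∑ J ∈ I,
      ((((Icc 1 ⌊J.2 * (k : ℝ)⌋₊).filter Nat.Prime).card : ℝ) -
        (((Icc 1 ⌊J.1 * (k : ℝ)⌋₊).filter Nat.Prime).card : ℝ)) := by
    intro k
    have hk0 : (0:ℝ) ≤ k := Nat.cast_nonneg k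
    have hwin : win k I = I.biUnion (fun J => (Icc 1 ⌊J.2 * (k : ℝ)⌋₊).filter Nat.Prime \
        (Icc 1 ⌊J.1 * (k : ℝ)⌋₊).filter Nat.Prime) := by
      ext p
      unfold win
      simp only [mem_filter, mem_biUnion, mem_sdiff, mem_Icc]
      constructor
      · rintro ⟨⟨hp1, hp2⟩, hp, J, hJ, hJ1, hJ2⟩
        have hJ0 := (h1 J hJ).1
        refine ⟨J, hJ, ⟨⟨hp1, Nat.le_floor hJ2⟩, hp⟩, ?_⟩
        rintro ⟨⟨_, hp3⟩, _⟩
        have hlt : ⌊J.1 * (k : ℝ)⌋₊ < p := (Nat.floor_lt (by positivity)).2 hJ1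
        omega
      · rintro ⟨J, hJ, ⟨⟨hp1, hp2⟩, hp⟩, hn⟩
        have hJ0 := (h1 J hJ).1
        have hJ12 := (h1 J hJ).2.1
        have hJ3 := (h1 J hJ).2.2
        have hJ20 : 0 ≤ J.2 * (k:ℝ) := by
          have : 0 ≤ J.2 := by linarith
          positivity
        have hp2' : (p:ℝ) ≤ J.2 * k := (Nat.le_floor_iff hJ20).1 hp2
        refine ⟨⟨hp1, ?_⟩, hp, J, hJ, ?_, hp2'⟩
        · have : (p:ℝ) ≤ k := hp2'.trans (by nlinarith)
          exact_mod_cast this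
        · have hJ10 : 0 ≤ J.1 * (k:ℝ) := by
            have : 0 ≤ J.1 := by linarith
            positivity
          rw [← Nat.floor_lt hJ10]
          by_contra hcon
          exact hn ⟨⟨hp1, not_lt.1 hcon⟩, hp⟩
    rw [hwin, card_biUnion, Nat.cast_sum]
    · refine sum_congr rfl (fun J hJ => ?_)
      have hJ0 := (h1 J hJ).1
      have hJ12 := (h1 J hJ).2.1
      have hsub : (Icc 1 ⌊J.1 * (k : ℝ)⌋₊).filter Nat.Prime ⊆
          (Icc 1 ⌊J.2 * (k : ℝ)⌋₊).filter Nat.Prime := by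
        refine filter_subset_filter _ (Icc_subset_Icc le_rfl (Nat.floor_le_floor ?_))
        nlinarith
      rw [card_sdiff_of_subset hsub, Nat.cast_sub (card_le_card hsub)]
    · intro J hJ J' hJ' hne
      rw [Function.onFun, disjoint_left]
      intro p hp hp'
      simp only [mem_filter, mem_sdiff, mem_Icc] at hp hp'
      have g1 := (h1 J hJ).1
      have g2 := (h1 J' hJ').1
      rcases h2 J hJ J' hJ' hne with h | h
      · apply hp'.2
        refine ⟨⟨hp.1.1.1, hp.1.1.2.trans (Nat.floor_le_floor ?_)⟩, hp.1.2⟩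
        nlinarith
      · apply hp.2
        refine ⟨⟨hp'.1.1.1, hp'.1.1.2.trans (Nat.floor_le_floor ?_)⟩, hp'.1.2⟩
        nlinarith
  have hfun : (fun k : ℕ => ((win k I).card : ℝ) * Real.log k / k) = fun k : ℕ =>
      ∑ J ∈ I, ((((Icc 1 ⌊J.2 * (k : ℝ)⌋₊).filter Nat.Prime).card : ℝ) * Real.log k / k -
        (((Icc 1 ⌊J.1 * (k : ℝ)⌋₊).filter Nat.Prime).card : ℝ) * Real.log k / k) := by
    funext k
    rw [hcard, sum_mul, sum_div]
    exact sum_congr rfl (fun J _ => by ring)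
  rw [hfun]
  unfold len
  refine tendsto_finsetSum _ (fun J hJ => ?_)
  have g1 := (h1 J hJ).1
  have g2 := (h1 J hJ).2.1
  exact (J12_floor h13 J.2 (by linarith)).sub (J12_floor h13 J.1 (by linarith))

end Pool.Agent.Helper602.MK.N_J12
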