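import Mathlib
import Pool.Agent.Helper602.MK.Defs

set_option autoImplicit false

namespace Pool.Agent.Helper602.MK.N_J1b

open Finset


namespace J1bAux

/-! ### blocks -/

lemma mem_blk {y j p : ℕ} : p ∈ blk y j ↔ p < y ∧ p.Prime ∧ p ^ 2 ^ j < y ∧ y ≤ p ^ 2 ^ (j + 1) := by
  simp [blk, Finset.mem_filter]

lemma blk_lt_absurd {y j j' p : ℕ} (h : j < j') (h1 : p ∈ blk y j) (h2 : p ∈ blk y j') : False := by
  rw [mem_blk] at h1 h2
  have h3 : p ^ 2 ^ (j + 1) ≤ p ^ 2 ^ j' :=
    Nat.pow_le_pow_right h1.2.1.pos (Nat.pow_le_pow_right (by norm_num) (by omega))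
  omega

lemma blk_disj {y j j' : ℕ} (h : j ≠ j') : Disjoint (blk y j) (blk y j') := by
  rw [Finset.disjoint_left]
  intro p h1 h2
  rcases lt_or_gt_of_ne h with h3 | h3
  · exact blk_lt_absurd h3 h1 h2
  · exact blk_lt_absurd h3 h2 h1

lemma exists_blk {y p : ℕ} (hp : p.Prime) (hpy : p < y) : ∃ j, j < y ∧ p ∈ blk y j := by
  have hex : ∃ j, y ≤ p ^ 2 ^ (j + 1) := by
    refine ⟨y, ?_⟩
    have h1 : y < 2 ^ y := Nat.lt_two_pow_self
    have h2 : 2 ^ (y + 1) < 2 ^ (2 ^ (y + 1)) := Nat.lt_two_pow_self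
    have h3 : 2 ^ (2 ^ (y + 1)) ≤ p ^ 2 ^ (y + 1) := Nat.pow_le_pow_left hp.two_le _
    have h4 : 2 ^ y ≤ 2 ^ (y + 1) := Nat.pow_le_pow_right (by norm_num) (by omega)
    omega
  classical
  have hj := Nat.find_spec hex
  set j := Nat.find hex with hjdef
  have hlt : p ^ 2 ^ j < y := by
    rcases Nat.eq_zero_or_pos j with h0 | h0
    · rw [h0]; simpa using hpy
    · have h1 := Nat.find_min hex (m := j - 1) (by omega)
      have h2 : j - 1 + 1 = j := by omega
      rw [h2] at h1
      omega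
  refine ⟨j, ?_, ?_⟩
  · have h2 : 2 ^ j < 2 ^ (2 ^ j) := Nat.lt_two_pow_self
    have h3 : 2 ^ (2 ^ j) ≤ p ^ 2 ^ j := Nat.pow_le_pow_left hp.two_le _
    have h1 : j < 2 ^ j := Nat.lt_two_pow_self
    omega
  · rw [mem_blk]
    exact ⟨hpy, hp, hlt, hj⟩

/-! ### families over disjoint blocks of primes -/

section fam

variable {ι : Type*} [Fintype ι] [DecidableEq ι]

/-- the number attached to a family of sets of primes -/
def Phi (p : ι → Finset ℕ) : ℕ := ∏ i, ∏ r ∈ p i, r

lemma Phi_eq {B p : ι → Finset ℕ} (hd : ∀ i j, i ≠ j → Disjoint (B i) (B j))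
    (hp : ∀ i, p i ⊆ B i) : Phi p = ∏ r ∈ univ.biUnion p, r := by
  unfold Phi
  rw [Finset.prod_biUnion]
  intro i _ j _ hij
  exact Finset.disjoint_of_subset_left (hp i) (Finset.disjoint_of_subset_right (hp j) (hd i j hij))

lemma prod_fam {β : Type*} [CommMonoid β] (f : ℕ → β) {B p : ι → Finset ℕ}
    (hd : ∀ i j, i ≠ j → Disjoint (B i) (B j))
    (hp : ∀ i, p i ⊆ B i) : ∏ r ∈ univ.biUnion p, f r = ∏ i, ∏ r ∈ p i, f r := by
  rw [Finset.prod_biUnion]
  intro i _ j _ hij
  exact Finset.disjoint_of_subset_left (hp i) (Finset.disjoint_of_subset_right (hp j) (hd i j hij))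

lemma Phi_primeFactors {B p : ι → Finset ℕ} (hB : ∀ i, ∀ r ∈ B i, r.Prime)
    (hd : ∀ i j, i ≠ j → Disjoint (B i) (B j))
    (hp : ∀ i, p i ⊆ B i) : (Phi p).primeFactors = univ.biUnion p := by
  rw [Phi_eq hd hp]
  apply Nat.primeFactors_prod
  intro r hr
  rw [Finset.mem_biUnion] at hr
  obtain ⟨i, _, hi⟩ := hr
  exact hB i r (hp i hi)

lemma Phi_inter {B p : ι → Finset ℕ} 
    (hd : ∀ i j, i ≠ j → Disjoint (B i) (B j))
    (hp : ∀ i, p i ⊆ B i) (i : ι) : univ.biUnion p ∩ B i = p i := by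
  ext r
  rw [Finset.mem_inter, Finset.mem_biUnion]
  constructor
  · rintro ⟨⟨j, _, hj⟩, hi⟩
    by_cases hij : i = j
    · rw [hij]; exact hj
    · exact absurd (hp j hj) (Finset.disjoint_left.mp (hd i j hij) hi)
  · intro h
    exact ⟨⟨i, Finset.mem_univ _, h⟩, hp i h⟩

lemma Phi_inj {B p p' : ι → Finset ℕ} (hB : ∀ i, ∀ r ∈ B i, r.Prime)
    (hd : ∀ i j, i ≠ j → Disjoint (B i) (B j))
    (hp : ∀ i, p i ⊆ B i) (hp' : ∀ i, p' i ⊆ B i) (h : Phi p = Phi p') : p = p' := by
  have h1 := Phi_primeFactors hB hd hp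
  have h2 := Phi_primeFactors hB hd hp'
  rw [h, h2] at h1
  funext i
  rw [← Phi_inter hd hp i, ← Phi_inter hd hp' i, h1]

lemma Phi_pos {B p : ι → Finset ℕ} (hB : ∀ i, ∀ r ∈ B i, r.Prime)
    (hp : ∀ i, p i ⊆ B i) : 0 < Phi p := by
  unfold Phi
  exact Finset.prod_pos fun i _ => Finset.prod_pos fun r hr => (hB i r (hp i hr)).pos

lemma Phi_squarefree {B p : ι → Finset ℕ} (hB : ∀ i, ∀ r ∈ B i, r.Prime)
    (hd : ∀ i j, i ≠ j → Disjoint (B i) (B j))
    (hp : ∀ i, p i ⊆ B i) : Squarefree (Phi p) := by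
  have h1 := Phi_primeFactors hB hd hp
  have h2 := Phi_eq hd hp
  rw [← h1] at h2
  have h3 : ∀ s : Finset ℕ, (∀ r ∈ s, r.Prime) → Squarefree (∏ r ∈ s, r) := by
    intro s
    induction s using Finset.induction_on with
    | empty => intro _; simp
    | insert a s ha ih =>
      intro hs
      rw [Finset.prod_insert ha]
      have ha' : a.Prime := hs a (Finset.mem_insert_self _ _)
      have hs' : ∀ r ∈ s, r.Prime := fun r hr => hs r (Finset.mem_insert_of_mem hr)
      rw [Nat.squarefree_mul_iff]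
      refine ⟨?_, ha'.squarefree, ih hs'⟩
      apply Nat.Coprime.prod_right
      intro r hr
      rw [Nat.coprime_primes ha' (hs' r hr)]
      rintro rfl
      exact ha hr
  rw [h2]
  exact h3 _ (fun r hr => Nat.prime_of_mem_primeFactors hr)

lemma Phi_dvd {B p : ι → Finset ℕ} (hB : ∀ i, ∀ r ∈ B i, r.Prime)
    (hd : ∀ i j, i ≠ j → Disjoint (B i) (B j))
    (hp : ∀ i, p i ⊆ B i) (m : ℕ) : Phi p ∣ m ↔ ∀ i, ∀ r ∈ p i, r ∣ m := by
  rw [Phi_eq hd hp]
  constructor
  · intro h i r hr
    exact (Finset.dvd_prod_of_mem _ (Finset.mem_biUnion.mpr ⟨i, Finset.mem_univ _, hr⟩)).trans h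
  · intro h
    apply Finset.prod_primes_dvd
    · intro r hr
      rw [Finset.mem_biUnion] at hr
      obtain ⟨i, _, hi⟩ := hr
      exact (hB i r (hp i hi)).prime
    · intro r hr
      rw [Finset.mem_biUnion] at hr
      obtain ⟨i, _, hi⟩ := hr
      exact h i r hi

lemma dvd_Phi {B p : ι → Finset ℕ} (hB : ∀ i, ∀ r ∈ B i, r.Prime)
    (hd : ∀ i j, i ≠ j → Disjoint (B i) (B j))
    (hp : ∀ i, p i ⊆ B i) (q : ℕ) : q ∣ Phi p ↔ Squarefree q ∧ q.primeFactors ⊆ univ.biUnion p := by
  constructor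
  · intro h
    refine ⟨(Phi_squarefree hB hd hp).squarefree_of_dvd h, ?_⟩
    rw [← Phi_primeFactors hB hd hp]
    exact Nat.primeFactors_mono h (Phi_pos hB hp).ne'
  · rintro ⟨h1, h2⟩
    rw [← Nat.prod_primeFactors_of_squarefree h1, Phi_eq hd hp]
    exact Finset.prod_dvd_prod_of_subset _ _ _ h2

lemma dvd_Phi' {B p : ι → Finset ℕ} (hB : ∀ i, ∀ r ∈ B i, r.Prime)
    (hd : ∀ i j, i ≠ j → Disjoint (B i) (B j))
    (hp : ∀ i, p i ⊆ B i) {q : ℕ} (hq : Squarefree q) (hqB : q.primeFactors ⊆ univ.biUnion B) :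
    q ∣ Phi p ↔ ∀ i, q.primeFactors ∩ B i ⊆ p i := by
  rw [dvd_Phi hB hd hp]
  constructor
  · rintro ⟨_, h2⟩ i r hr
    rw [← Phi_inter hd hp i]
    rw [Finset.mem_inter] at hr ⊢
    exact ⟨h2 hr.1, hr.2⟩
  · intro h
    refine ⟨hq, fun r hr => ?_⟩
    have h1 := hqB hr
    rw [Finset.mem_biUnion] at h1 ⊢
    obtain ⟨i, hi, hi2⟩ := h1
    exact ⟨i, hi, h i (Finset.mem_inter.mpr ⟨hr, hi2⟩)⟩

end fam

/-! ### sums over families -/

section fam2

variable {ι : Type*} [Fintype ι] [DecidableEq ι]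

/-- product over blocks of truncated sums = sum over families -/
lemma prod_sum_dvd {B : ι → Finset ℕ} (hB : ∀ i, ∀ r ∈ B i, r.Prime)
    (hd : ∀ i j, i ≠ j → Disjoint (B i) (B j)) (A : ι → Finset (Finset ℕ))
    (hA : ∀ i, ∀ S ∈ A i, S ⊆ B i) (s : ι → Finset ℕ → ℝ) (m : ℕ) :
    ∏ i, ∑ S ∈ A i, (if ∀ r ∈ S, r ∣ m then s i S else 0) =
      ∑ p ∈ Fintype.piFinset A, (if Phi p ∣ m then ∏ i, s i (p i) else 0) := by
  rw [Finset.prod_univ_sum]
  apply Finset.sum_congr rfl
  intro p hp
  have hp' : ∀ i, p i ⊆ B i := fun i => hA i _ (Fintype.mem_piFinset.mp hp i)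
  rw [Finset.prod_ite_zero]
  by_cases h : Phi p ∣ m
  · rw [if_pos h, if_pos]
    intro i _
    exact (Phi_dvd hB hd hp' m).mp h i
  · rw [if_neg h, if_neg]
    intro h2
    exact h ((Phi_dvd hB hd hp' m).mpr (fun i => h2 i (Finset.mem_univ _)))

lemma card_Icc_dvd (M d : ℕ) (hd : 0 < d) : (∑ m ∈ Icc 1 M, (if d ∣ m then (1:ℝ) else 0)) = ((M / d : ℕ) : ℝ) := by
  rw [Finset.sum_boole]
  have h1 := Nat.Ioc_filter_dvd_card_eq_div M d
  have h2 : Icc 1 M = Ioc 0 M := by
    ext x; simp [Finset.mem_Icc, Finset.mem_Ioc]; omega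
  rw [h2, h1]

lemma count_main {B : ι → Finset ℕ} (hB : ∀ i, ∀ r ∈ B i, r.Prime)
    (hd : ∀ i j, i ≠ j → Disjoint (B i) (B j)) (A : ι → Finset (Finset ℕ))
    (hA : ∀ i, ∀ S ∈ A i, S ⊆ B i) (s : ι → Finset ℕ → ℝ) (hs : ∀ i S, |s i S| ≤ 1)
    (K : ℕ) (hK : ∀ p ∈ Fintype.piFinset A, Phi p ≤ K) (M : ℕ) :
    ∑ m ∈ Icc 1 M, ∏ i, ∑ S ∈ A i, (if ∀ r ∈ S, r ∣ m then s i S else 0) ≤
      M * (∏ i, ∑ S ∈ A i, s i S * ∏ r ∈ S, (1 / (r : ℝ))) + K := by
  have hpB : ∀ p ∈ Fintype.piFinset A, ∀ i, p i ⊆ B i :=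
    fun p hp i => hA i _ (Fintype.mem_piFinset.mp hp i)
  have hcard : ((Fintype.piFinset A).card : ℝ) ≤ K := by
    have h1 : (Fintype.piFinset A).card ≤ (Icc 1 K).card := by
      apply Finset.card_le_card_of_injOn Phi
      · intro p hp
        rw [Finset.mem_coe] at hp
        rw [Finset.mem_coe, Finset.mem_Icc]
        exact ⟨Phi_pos hB (hpB p hp), hK p hp⟩
      · intro p hp p' hp' h
        exact Phi_inj hB hd (hpB p hp) (hpB p' hp') h
    rw [Nat.card_Icc] at h1
    have h2 : (Fintype.piFinset A).card ≤ K := by omega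
    exact_mod_cast h2
  calc ∑ m ∈ Icc 1 M, ∏ i, ∑ S ∈ A i, (if ∀ r ∈ S, r ∣ m then s i S else 0)
      = ∑ m ∈ Icc 1 M, ∑ p ∈ Fintype.piFinset A, (if Phi p ∣ m then ∏ i, s i (p i) else 0) :=
        Finset.sum_congr rfl fun m _ => prod_sum_dvd hB hd A hA s m
    _ = ∑ p ∈ Fintype.piFinset A, ∑ m ∈ Icc 1 M, (if Phi p ∣ m then ∏ i, s i (p i) else 0) :=
        Finset.sum_comm
    _ = ∑ p ∈ Fintype.piFinset A, (∏ i, s i (p i)) * ((M / Phi p : ℕ) : ℝ) := by
        apply Finset.sum_congr rfl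
        intro p hp
        rw [← card_Icc_dvd M (Phi p) (Phi_pos hB (hpB p hp)), Finset.mul_sum]
        apply Finset.sum_congr rfl
        intro m _
        rw [mul_ite, mul_one, mul_zero]
    _ ≤ ∑ p ∈ Fintype.piFinset A, ((∏ i, s i (p i)) * ((M : ℝ) / (Phi p : ℝ)) + 1) := by
        apply Finset.sum_le_sum
        intro p hp
        have h1 : |∏ i, s i (p i)| ≤ 1 := by
          rw [Finset.abs_prod]
          exact Finset.prod_le_one (fun i _ => abs_nonneg _) (fun i _ => hs i _)
        have hpos : (0:ℝ) < Phi p := by exact_mod_cast Phi_pos hB (hpB p hp)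
        have h2 : ((M / Phi p : ℕ) : ℝ) ≤ (M : ℝ) / (Phi p : ℝ) := Nat.cast_div_le
        have h3 : (M : ℝ) / (Phi p : ℝ) - 1 ≤ ((M / Phi p : ℕ) : ℝ) := by
          have h4 : M < Phi p * (M / Phi p + 1) := Nat.lt_mul_div_succ M (Phi_pos hB (hpB p hp))
          have h5 : (M : ℝ) < Phi p * (((M / Phi p : ℕ) : ℝ) + 1) := by exact_mod_cast h4
          have h6 : (M : ℝ) / Phi p < ((M / Phi p : ℕ) : ℝ) + 1 := by
            rw [div_lt_iff₀ hpos]; linarith [mul_comm (Phi p : ℝ) (((M / Phi p : ℕ) : ℝ) + 1)]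
          linarith
        have h7 : |(∏ i, s i (p i)) * (((M / Phi p : ℕ) : ℝ) - (M : ℝ) / (Phi p : ℝ))| ≤ 1 := by
          rw [abs_mul]
          have h8 : |((M / Phi p : ℕ) : ℝ) - (M : ℝ) / (Phi p : ℝ)| ≤ 1 := by
            rw [abs_le]; constructor <;> linarith
          calc _ ≤ 1 * 1 := mul_le_mul h1 h8 (abs_nonneg _) zero_le_one
            _ = 1 := one_mul 1
        have h9 := (abs_le.mp h7).2
        rw [mul_sub] at h9
        linarith
    _ = (∑ p ∈ Fintype.piFinset A, (∏ i, s i (p i)) * ((M : ℝ) / (Phi p : ℝ))) +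
          (Fintype.piFinset A).card := by
        rw [Finset.sum_add_distrib, Finset.sum_const, nsmul_eq_mul, mul_one]
    _ ≤ (∑ p ∈ Fintype.piFinset A, (∏ i, s i (p i)) * ((M : ℝ) / (Phi p : ℝ))) + K := by linarith
    _ = M * (∏ i, ∑ S ∈ A i, s i S * ∏ r ∈ S, (1 / (r : ℝ))) + K := by
        congr 1
        rw [Finset.prod_univ_sum, Finset.mul_sum]
        apply Finset.sum_congr rfl
        intro p hp
        rw [Finset.prod_mul_distrib]
        have h1 : (∏ i, ∏ r ∈ p i, (1 / (r : ℝ))) = 1 / (Phi p : ℝ) := by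
          unfold Phi
          push_cast
          simp only [one_div]
          rw [← Finset.prod_inv_distrib]
          apply Finset.prod_congr rfl
          intro i _
          rw [Finset.prod_inv_distrib]
        rw [h1]
        ring

end fam2

/-! ### Bonferroni -/

lemma alt_choose (n β : ℕ) : ∑ i ∈ range (β + 1), (-1 : ℝ) ^ i * ((n + 1).choose i : ℝ) =
    (-1) ^ β * (n.choose β : ℝ) := by
  induction β with
  | zero => simp
  | succ β ih =>
    rw [Finset.sum_range_succ, ih, Nat.choose_succ_succ, pow_succ]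
    push_cast
    ring

lemma sum_trunc (N : Finset ℕ) (β : ℕ) :
    ∑ S ∈ N.powerset.filter (fun S => S.card ≤ β), (-1 : ℝ) ^ S.card =
      ∑ i ∈ range (β + 1), (-1 : ℝ) ^ i * (N.card.choose i : ℝ) := by
  rw [Finset.sum_filter]
  have h := Finset.sum_powerset_apply_card (fun k => if k ≤ β then (-1 : ℝ) ^ k else 0) (x := N)
  rw [h]
  have h1 : ∑ m ∈ range (N.card + 1), (N.card).choose m • (if m ≤ β then (-1 : ℝ) ^ m else 0) =
      ∑ m ∈ range (N.card + 1 + (β + 1)), (N.card).choose m • (if m ≤ β then (-1 : ℝ) ^ m else 0) := by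
    apply Finset.sum_subset
    · intro x; simp only [Finset.mem_range]; omega
    · intro x _ hx
      rw [Finset.mem_range] at hx
      rw [Nat.choose_eq_zero_of_lt (by omega)]
      simp
  have h2 : ∑ m ∈ range (β + 1), (N.card).choose m • (if m ≤ β then (-1 : ℝ) ^ m else 0) =
      ∑ m ∈ range (N.card + 1 + (β + 1)), (N.card).choose m • (if m ≤ β then (-1 : ℝ) ^ m else 0) := by
    apply Finset.sum_subset
    · intro x; simp only [Finset.mem_range]; omega
    · intro x _ hx
      rw [Finset.mem_range] at hx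
      rw [if_neg (by omega)]
      simp
  rw [h1, ← h2]
  apply Finset.sum_congr rfl
  intro x hx
  rw [Finset.mem_range] at hx
  rw [if_pos (by omega), nsmul_eq_mul]
  ring

lemma bonf (N : Finset ℕ) (β : ℕ) (hβ : Even β) :
    (if N = ∅ then (1:ℝ) else 0) ≤ ∑ S ∈ N.powerset.filter (fun S => S.card ≤ β), (-1 : ℝ) ^ S.card ∧
    ∑ S ∈ N.powerset.filter (fun S => S.card ≤ β), (-1 : ℝ) ^ S.card ≤
      (if N = ∅ then (1:ℝ) else 0) + ((N.powersetCard (β + 1)).card : ℝ) := by
  rw [sum_trunc, Finset.card_powersetCard]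
  rcases Finset.eq_empty_or_nonempty N with h | h
  · subst h
    rw [if_pos rfl, Finset.card_empty]
    have h1 : ∑ i ∈ range (β + 1), (-1 : ℝ) ^ i * (Nat.choose 0 i : ℝ) = 1 := by
      rw [Finset.sum_range_succ']
      simp
    rw [h1]
    simp
  · rw [if_neg h.ne_empty]
    obtain ⟨n, hn⟩ : ∃ n, N.card = n + 1 := ⟨N.card - 1, by have := h.card_pos; omega⟩
    rw [hn, alt_choose, hβ.neg_one_pow, one_mul]
    refine ⟨by positivity, ?_⟩
    rw [zero_add, Nat.choose_succ_succ]
    push_cast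
    have : (0:ℝ) ≤ (n.choose (β + 1) : ℝ) := by positivity
    linarith

/-- telescoping -/
lemma telesc {ι : Type*} [DecidableEq ι] (s : Finset ι) (a T E : ι → ℝ) (h0 : ∀ i, 0 ≤ a i)
    (h1 : ∀ i, a i ≤ T i) (h2 : ∀ i, T i ≤ a i + E i) :
    ∏ i ∈ s, T i - ∏ i ∈ s, a i ≤ ∑ l ∈ s, ∏ i ∈ s, (if i = l then E i else T i) := by
  induction s using Finset.induction_on with
  | empty => simp
  | insert x s hx ih =>
    rw [Finset.prod_insert hx, Finset.prod_insert hx, Finset.sum_insert hx]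
    have e1 : ∏ i ∈ insert x s, (if i = x then E i else T i) = E x * ∏ i ∈ s, T i := by
      rw [Finset.prod_insert hx, if_pos rfl]
      congr 1
      apply Finset.prod_congr rfl
      intro i hi
      rw [if_neg]
      rintro rfl
      exact hx hi
    have e2 : ∑ l ∈ s, ∏ i ∈ insert x s, (if i = l then E i else T i) =
        T x * ∑ l ∈ s, ∏ i ∈ s, (if i = l then E i else T i) := by
      rw [Finset.mul_sum]
      apply Finset.sum_congr rfl
      intro l hl
      rw [Finset.prod_insert hx, if_neg]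
      rintro rfl
      exact hx hl
    rw [e1, e2]
    have hT : ∀ i, 0 ≤ T i := fun i => (h0 i).trans (h1 i)
    have hE : ∀ i, 0 ≤ E i := fun i => by linarith [h1 i, h2 i]
    have ha : 0 ≤ ∏ i ∈ s, a i := Finset.prod_nonneg fun i _ => h0 i
    have haT : ∏ i ∈ s, a i ≤ ∏ i ∈ s, T i := Finset.prod_le_prod (fun i _ => h0 i) (fun i _ => h1 i)
    have k1 : T x * (∏ i ∈ s, T i - ∏ i ∈ s, a i) ≤
        T x * ∑ l ∈ s, ∏ i ∈ s, (if i = l then E i else T i) := mul_le_mul_of_nonneg_left ih (hT x)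
    have k2 : (T x - a x) * ∏ i ∈ s, a i ≤ E x * ∏ i ∈ s, T i :=
      mul_le_mul (by linarith [h2 x]) haT ha (hE x)
    nlinarith [k1, k2]

/-! ### analytic bounds -/

lemma pow_lower {X a : ℝ} (hX : 0 ≤ X) (ha : 0 ≤ a) (k : ℕ) :
    X ^ (k + 1) + (k + 1) * a * X ^ k ≤ (X + a) ^ (k + 1) := by
  induction k with
  | zero => simp
  | succ k ih =>
    have h1 : (X + a) * (X ^ (k + 1) + (k + 1) * a * X ^ k) ≤ (X + a) * (X + a) ^ (k + 1) :=
      mul_le_mul_of_nonneg_left ih (by linarith)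
    have h2 : 0 ≤ ((k:ℝ) + 1) * a ^ 2 * X ^ k := by positivity
    have h3 : (X + a) * (X ^ (k + 1) + (k + 1) * a * X ^ k) =
        X ^ (k + 1 + 1) + ((k : ℝ) + 1 + 1) * a * X ^ (k + 1) + ((k:ℝ) + 1) * a ^ 2 * X ^ k := by
      ring
    have h4 : (X + a) * (X + a) ^ (k + 1) = (X + a) ^ (k + 1 + 1) := by ring
    rw [h3, h4] at h1
    push_cast
    linarith

lemma esymm_le (B : Finset ℕ) (x : ℕ → ℝ) (hx : ∀ r, 0 ≤ x r) (k : ℕ) :
    ∑ S ∈ B.powersetCard k, ∏ r ∈ S, x r ≤ (∑ r ∈ B, x r) ^ k / (k.factorial : ℝ) := by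
  induction B using Finset.induction_on generalizing k with
  | empty =>
    cases k with
    | zero => simp
    | succ k =>
      rw [Finset.powersetCard_eq_empty.mpr (by simp)]
      simp
  | insert a B ha ih =>
    cases k with
    | zero => simp
    | succ k =>
      rw [Finset.powersetCard_succ_insert ha, Finset.sum_union]
      · rw [Finset.sum_image]
        · have h1 : ∑ S ∈ B.powersetCard k, ∏ r ∈ insert a S, x r = x a * ∑ S ∈ B.powersetCard k, ∏ r ∈ S, x r := by
            rw [Finset.mul_sum]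
            apply Finset.sum_congr rfl
            intro S hS
            rw [Finset.mem_powersetCard] at hS
            rw [Finset.prod_insert (fun h => ha (hS.1 h))]
          rw [h1, Finset.sum_insert ha]
          have hX : 0 ≤ ∑ r ∈ B, x r := Finset.sum_nonneg fun r _ => hx r
          have h2 := ih (k + 1)
          have h3 := mul_le_mul_of_nonneg_left (ih k) (hx a)
          have h4 := pow_lower hX (hx a) k
          have hf : (0:ℝ) < (k + 1).factorial := by positivity
          have hf0 : (0:ℝ) < k.factorial := by positivity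
          have h5 : ((k+1).factorial : ℝ) = (k + 1) * k.factorial := by
            rw [Nat.factorial_succ]; push_cast; ring
          calc _ ≤ (∑ r ∈ B, x r) ^ (k + 1) / ((k+1).factorial : ℝ) +
                x a * ((∑ r ∈ B, x r) ^ k / (k.factorial : ℝ)) := add_le_add h2 h3
            _ = ((∑ r ∈ B, x r) ^ (k + 1) + (k + 1) * x a * (∑ r ∈ B, x r) ^ k) / ((k+1).factorial : ℝ) := by
                rw [h5]; field_simp
            _ ≤ _ := by
                apply div_le_div_of_nonneg_right _ hf.le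
                rw [add_comm (x a)]
                exact h4
        · intro S hS T hT h
          rw [Finset.mem_coe, Finset.mem_powersetCard] at hS hT
          have h1 : (insert a S).erase a = (insert a T).erase a := by
            rw [show insert a S = insert a T from h]
          rwa [Finset.erase_insert (fun h => ha (hS.1 h)), Finset.erase_insert (fun h => ha (hT.1 h))] at h1
      · rw [Finset.disjoint_left]
        intro S hS hT
        rw [Finset.mem_powersetCard] at hS
        rw [Finset.mem_image] at hT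
        obtain ⟨T, _, rfl⟩ := hT
        exact ha (hS.1 (Finset.mem_insert_self _ _))

/-- tail of the exponential series -/
lemma tail_le {C : ℝ} (hC : 0 ≤ C) (n β : ℕ) :
    ∑ k ∈ range n, (if β < k then C ^ k / (k.factorial : ℝ) else 0) ≤
      C ^ (β + 1) / ((β + 1).factorial : ℝ) * Real.exp C := by
  have h1 : ∀ k ∈ range n, (if β < k then C ^ k / (k.factorial : ℝ) else 0) ≤
      (if β < k then C ^ (β + 1) / ((β + 1).factorial : ℝ) *
        (C ^ (k - (β + 1)) / ((k - (β + 1)).factorial : ℝ)) else 0) := by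
    intro k _
    by_cases hk : β < k
    · rw [if_pos hk, if_pos hk, div_mul_div_comm, ← pow_add]
      have h2 : β + 1 + (k - (β + 1)) = k := by omega
      have h3 : (β + 1).factorial * (k - (β + 1)).factorial ∣ k.factorial := by
        conv_rhs => rw [← h2]
        exact Nat.factorial_mul_factorial_dvd_factorial_add _ _
      have h4 := Nat.le_of_dvd (Nat.factorial_pos k) h3
      rw [h2]
      apply div_le_div_of_nonneg_left (by positivity) (by positivity)
      exact_mod_cast h4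
    · rw [if_neg hk, if_neg hk]
  refine (Finset.sum_le_sum h1).trans ?_
  rw [← Finset.sum_filter, ← Finset.mul_sum]
  apply mul_le_mul_of_nonneg_left _ (by positivity)
  calc ∑ k ∈ (range n).filter (fun k => β < k), C ^ (k - (β + 1)) / ((k - (β + 1)).factorial : ℝ)
      = ∑ i ∈ ((range n).filter (fun k => β < k)).image (fun k => k - (β + 1)), C ^ i / (i.factorial : ℝ) := by
        rw [Finset.sum_image]
        intro a ha b hb hab
        rw [Finset.mem_coe, Finset.mem_filter] at ha hb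
        simp only at hab
        omega
    _ ≤ ∑ i ∈ range n, C ^ i / (i.factorial : ℝ) := by
        apply Finset.sum_le_sum_of_subset_of_nonneg
        · intro i hi
          rw [Finset.mem_image] at hi
          obtain ⟨k, hk, rfl⟩ := hi
          rw [Finset.mem_filter, Finset.mem_range] at hk
          rw [Finset.mem_range]
          omega
        · intro i _ _
          positivity
    _ ≤ Real.exp C := Real.sum_le_exp_of_nonneg hC n

lemma tail_sets (B : Finset ℕ) (x : ℕ → ℝ) (hx : ∀ r, 0 ≤ x r) {C : ℝ} (hC : ∑ r ∈ B, x r ≤ C) (β : ℕ) :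
    ∑ S ∈ B.powerset.filter (fun S => β < S.card), ∏ r ∈ S, x r ≤
      C ^ (β + 1) / ((β + 1).factorial : ℝ) * Real.exp C := by
  have hX : 0 ≤ ∑ r ∈ B, x r := Finset.sum_nonneg fun r _ => hx r
  refine le_trans ?_ (tail_le (hX.trans hC) (B.card + 1) β)
  rw [Finset.sum_filter, Finset.sum_powerset]
  apply Finset.sum_le_sum
  intro k _
  by_cases hk : β < k
  · rw [if_pos hk]
    have h1 : ∑ S ∈ B.powersetCard k, (if β < S.card then ∏ r ∈ S, x r else 0) =
        ∑ S ∈ B.powersetCard k, ∏ r ∈ S, x r := by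
      apply Finset.sum_congr rfl
      intro S hS
      rw [Finset.mem_powersetCard] at hS
      rw [if_pos (by omega)]
    rw [h1]
    refine (esymm_le B x hx k).trans ?_
    apply div_le_div_of_nonneg_right _ (by positivity)
    exact pow_le_pow_left₀ hX hC k
  · rw [if_neg hk]
    apply le_of_eq
    apply Finset.sum_eq_zero
    intro S hS
    rw [Finset.mem_powersetCard] at hS
    rw [if_neg (by omega)]

/-- truncated alternating sum -/
lemma trunc_alt (B : Finset ℕ) (x : ℕ → ℝ) (hx : ∀ r, 0 ≤ x r) {C : ℝ} (hC1 : 1 ≤ C)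
    (hC : ∑ r ∈ B, x r ≤ C) (hV : 1 / C ≤ ∏ r ∈ B, (1 - x r)) (β : ℕ) :
    |∑ S ∈ B.powerset.filter (fun S => S.card ≤ β), (-1 : ℝ) ^ S.card * ∏ r ∈ S, x r| ≤
      (∏ r ∈ B, (1 - x r)) * (1 + C * (C ^ (β + 1) / ((β + 1).factorial : ℝ) * Real.exp C)) := by
  have h1 : ∏ r ∈ B, (1 - x r) = ∑ S ∈ B.powerset, (-1 : ℝ) ^ S.card * ∏ r ∈ S, x r := by
    have h2 := Finset.prod_one_add (f := fun r => - x r) B
    simp only [← sub_eq_add_neg] at h2
    rw [h2]
    apply Finset.sum_congr rfl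
    intro S _
    rw [Finset.prod_neg]
  have h3 := Finset.sum_filter_add_sum_filter_not B.powerset (fun S => S.card ≤ β)
    (fun S => (-1 : ℝ) ^ S.card * ∏ r ∈ S, x r)
  rw [← h1] at h3
  have h4 : |∑ S ∈ B.powerset.filter (fun S => ¬ S.card ≤ β), (-1 : ℝ) ^ S.card * ∏ r ∈ S, x r| ≤
      C ^ (β + 1) / ((β + 1).factorial : ℝ) * Real.exp C := by
    refine (Finset.abs_sum_le_sum_abs _ _).trans ?_
    refine le_trans (le_of_eq ?_) (tail_sets B x hx hC β)
    have h5 : B.powerset.filter (fun S => ¬ S.card ≤ β) = B.powerset.filter (fun S => β < S.card) := by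
      apply Finset.filter_congr
      intro S _
      omega
    rw [h5]
    apply Finset.sum_congr rfl
    intro S _
    rw [abs_mul, abs_pow, abs_neg, abs_one, one_pow, one_mul, abs_of_nonneg]
    exact Finset.prod_nonneg fun r _ => hx r
  set V := ∏ r ∈ B, (1 - x r)
  set t := C ^ (β + 1) / ((β + 1).factorial : ℝ) * Real.exp C
  have ht : 0 ≤ t := by positivity
  have hCpos : 0 < C := by linarith
  have hV0 : 0 < V := lt_of_lt_of_le (by positivity) hV
  have h6 : 1 ≤ V * C := by
    rw [div_le_iff₀ hCpos] at hV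
    exact hV
  have h7 : V * (1 + C * t) = V + (V * C) * t := by ring
  rw [h7]
  have h8 : t ≤ (V * C) * t := le_mul_of_one_le_left ht h6
  have h9 : ∑ S ∈ B.powerset.filter (fun S => S.card ≤ β), (-1 : ℝ) ^ S.card * ∏ r ∈ S, x r =
      V - ∑ S ∈ B.powerset.filter (fun S => ¬ S.card ≤ β), (-1 : ℝ) ^ S.card * ∏ r ∈ S, x r := by
    linarith
  rw [h9]
  refine (abs_sub _ _).trans ?_
  rw [abs_of_pos hV0]
  linarith

/-- the exceptional factor -/
lemma exc_factor (B : Finset ℕ) (x : ℕ → ℝ) (hx : ∀ r, 0 ≤ x r) {C : ℝ} (hC1 : 1 ≤ C)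
    (hC : ∑ r ∈ B, x r ≤ C) (hV : 1 / C ≤ ∏ r ∈ B, (1 - x r)) (β : ℕ) :
    |∑ S ∈ B.powersetCard (β + 1), (1 : ℝ) * ∏ r ∈ S, x r| ≤
      (∏ r ∈ B, (1 - x r)) * (C * (C ^ (β + 1) / ((β + 1).factorial : ℝ))) := by
  have h0 : ∑ S ∈ B.powersetCard (β + 1), (1 : ℝ) * ∏ r ∈ S, x r = ∑ S ∈ B.powersetCard (β + 1), ∏ r ∈ S, x r := by
    simp only [one_mul]
  rw [h0, abs_of_nonneg (Finset.sum_nonneg fun S _ => Finset.prod_nonneg fun r _ => hx r)]
  have hX : 0 ≤ ∑ r ∈ B, x r := Finset.sum_nonneg fun r _ => hx r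
  refine (esymm_le B x hx (β + 1)).trans ?_
  have h1 : (∑ r ∈ B, x r) ^ (β + 1) / ((β + 1).factorial : ℝ) ≤ C ^ (β + 1) / ((β + 1).factorial : ℝ) :=
    div_le_div_of_nonneg_right (pow_le_pow_left₀ hX hC _) (by positivity)
  refine h1.trans ?_
  have hCpos : 0 < C := by linarith
  have h6 : 1 ≤ (∏ r ∈ B, (1 - x r)) * C := by
    rw [div_le_iff₀ hCpos] at hV
    exact hV
  rw [← mul_assoc]
  exact le_mul_of_one_le_left (by positivity) h6

/-- sum over supersets of Q -/
lemma superset_sum (B Q : Finset ℕ) (hQ : Q ⊆ B) (x : ℕ → ℝ) (hx : ∀ r, 0 ≤ x r) {C : ℝ}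
    (hC : ∑ r ∈ B, x r ≤ C) :
    ∑ S ∈ B.powerset.filter (fun S => Q ⊆ S), ∏ r ∈ S, x r ≤ (∏ r ∈ Q, x r) * Real.exp C := by
  have h1 := Finset.prod_add (fun r => x r) (fun r => if r ∈ Q then (0:ℝ) else 1) B
  have h2 : ∑ S ∈ B.powerset.filter (fun S => Q ⊆ S), ∏ r ∈ S, x r =
      ∏ r ∈ B, (x r + (if r ∈ Q then (0:ℝ) else 1)) := by
    rw [h1, Finset.sum_filter]
    apply Finset.sum_congr rfl
    intro S hS
    by_cases h : Q ⊆ S
    · rw [if_pos h]
      have h3 : ∏ r ∈ B \ S, (if r ∈ Q then (0:ℝ) else 1) = 1 := by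
        apply Finset.prod_eq_one
        intro r hr
        rw [Finset.mem_sdiff] at hr
        rw [if_neg (fun h4 => hr.2 (h h4))]
      rw [h3, mul_one]
    · rw [if_neg h]
      rw [Finset.not_subset] at h
      obtain ⟨r, hr, hrS⟩ := h
      have h3 : ∏ r ∈ B \ S, (if r ∈ Q then (0:ℝ) else 1) = 0 := by
        apply Finset.prod_eq_zero (i := r)
        · rw [Finset.mem_sdiff]; exact ⟨hQ hr, hrS⟩
        · rw [if_pos hr]
      rw [h3, mul_zero]
  rw [h2]
  have h4 : ∏ r ∈ B, (x r + (if r ∈ Q then (0:ℝ) else 1)) ≤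
      ∏ r ∈ B, ((if r ∈ Q then x r else 1) * Real.exp (x r)) := by
    apply Finset.prod_le_prod
    · intro r _
      by_cases h : r ∈ Q
      · rw [if_pos h]; linarith [hx r]
      · rw [if_neg h]; linarith [hx r]
    · intro r _
      have h5 := Real.add_one_le_exp (x r)
      by_cases h : r ∈ Q
      · rw [if_pos h, if_pos h, add_zero]
        exact le_mul_of_one_le_right (hx r) (by linarith [hx r])
      · rw [if_neg h, if_neg h, one_mul]
        exact h5
  refine h4.trans ?_
  rw [Finset.prod_mul_distrib, ← Real.exp_sum, Finset.prod_ite_mem, Finset.inter_eq_right.mpr hQ]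
  apply mul_le_mul_of_nonneg_left
  · exact Real.exp_le_exp.mpr hC
  · exact Finset.prod_nonneg fun r _ => hx r

/-- the factor with a prescribed divisor -/
lemma q_factor (B Q : Finset ℕ) (hQ : Q ⊆ B) (x : ℕ → ℝ) (hx : ∀ r, 0 ≤ x r) {C : ℝ} (hC1 : 1 ≤ C)
    (hC : ∑ r ∈ B, x r ≤ C) (hV : 1 / C ≤ ∏ r ∈ B, (1 - x r)) (β : ℕ) :
    |∑ S ∈ B.powerset.filter (fun S => S.card ≤ β), (if Q ⊆ S then (-1 : ℝ) ^ S.card * ∏ r ∈ S, x r else 0)| ≤
      ((∏ r ∈ B, (1 - x r)) * (1 + C * (C ^ (β + 1) / ((β + 1).factorial : ℝ) * Real.exp C))) *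
        ((∏ r ∈ Q, x r) * (C * Real.exp C) ^ Q.card) := by
  rcases Finset.eq_empty_or_nonempty Q with h | h
  · subst h
    have h1 := trunc_alt B x hx hC1 hC hV β
    simpa using h1
  · have hCpos : 0 < C := by linarith
    have hV0 : 0 < ∏ r ∈ B, (1 - x r) := lt_of_lt_of_le (by positivity) hV
    have h6 : 1 ≤ (∏ r ∈ B, (1 - x r)) * C := by
      rw [div_le_iff₀ hCpos] at hV
      exact hV
    have hQ0 : 0 ≤ ∏ r ∈ Q, x r := Finset.prod_nonneg fun r _ => hx r
    calc _ ≤ ∑ S ∈ B.powerset.filter (fun S => S.card ≤ β), |if Q ⊆ S then (-1 : ℝ) ^ S.card * ∏ r ∈ S, x r else 0| :=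
          Finset.abs_sum_le_sum_abs _ _
      _ = ∑ S ∈ B.powerset.filter (fun S => S.card ≤ β), (if Q ⊆ S then ∏ r ∈ S, x r else 0) := by
          apply Finset.sum_congr rfl
          intro S _
          by_cases h : Q ⊆ S
          · rw [if_pos h, if_pos h, abs_mul, abs_pow, abs_neg, abs_one, one_pow, one_mul, abs_of_nonneg]
            exact Finset.prod_nonneg fun r _ => hx r
          · rw [if_neg h, if_neg h, abs_zero]
      _ ≤ ∑ S ∈ B.powerset, (if Q ⊆ S then ∏ r ∈ S, x r else 0) := by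
          apply Finset.sum_le_sum_of_subset_of_nonneg (Finset.filter_subset _ _)
          intro S _ _
          split_ifs
          · exact Finset.prod_nonneg fun r _ => hx r
          · exact le_rfl
      _ = ∑ S ∈ B.powerset.filter (fun S => Q ⊆ S), ∏ r ∈ S, x r := by rw [Finset.sum_filter]
      _ ≤ (∏ r ∈ Q, x r) * Real.exp C := superset_sum B Q hQ x hx hC
      _ ≤ (∏ r ∈ Q, x r) * (((∏ r ∈ B, (1 - x r)) * C) * Real.exp C) := by
          apply mul_le_mul_of_nonneg_left _ hQ0
          exact le_mul_of_one_le_left (by positivity) h6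
      _ = (∏ r ∈ B, (1 - x r)) * ((∏ r ∈ Q, x r) * (C * Real.exp C)) := by ring
      _ ≤ _ := by
          apply mul_le_mul
          · apply le_mul_of_one_le_right hV0.le
            have : 0 ≤ C * (C ^ (β + 1) / ((β + 1).factorial : ℝ) * Real.exp C) := by positivity
            linarith
          · apply mul_le_mul_of_nonneg_left _ hQ0
            have h7 : 1 ≤ C * Real.exp C := by
              have h8 : 1 ≤ Real.exp C := Real.one_le_exp (by linarith)
              nlinarith
            calc C * Real.exp C = (C * Real.exp C) ^ 1 := (pow_one _).symm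
              _ ≤ _ := pow_le_pow_right₀ h7 h.card_pos
          · positivity
          · apply mul_nonneg hV0.le
            positivity

/-! ### sizes -/

lemma sum_geo (b : ℕ) (n : ℕ) : ∑ i ∈ range n, ((2 * b + 2 * i : ℕ) : ℝ) / 2 ^ i =
    4 * b + 4 - (4 * b + 4 * n + 4) / 2 ^ n := by
  induction n with
  | zero => simp
  | succ n ih =>
    rw [Finset.sum_range_succ, ih]
    push_cast
    field_simp
    ring

lemma sum_one (n l : ℕ) : ∑ i ∈ range n, (if i = l then (1:ℝ) else 0) / 2 ^ i ≤ 1 := by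
  have h1 : ∀ i ∈ range n, (if i = l then (1:ℝ) else 0) / 2 ^ i = if i = l then (1:ℝ) / 2 ^ i else 0 := by
    intro i _
    split_ifs <;> simp
  rw [Finset.sum_congr rfl h1, Finset.sum_ite_eq']
  split_ifs
  · rw [div_le_one (by positivity)]
    exact one_le_pow₀ (by norm_num)
  · norm_num

lemma size_bound {y b : ℕ} (hy : 2 ≤ y) (n l : ℕ) (p : Fin n → Finset ℕ)
    (hp : ∀ i : Fin n, p i ⊆ blk y i)
    (hc : ∀ i : Fin n, (p i).card ≤ 2 * b + 2 * (i : ℕ) + if (i : ℕ) = l then 1 else 0) :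
    Phi p ≤ y ^ (4 * b + 5) := by
  have hB : ∀ i : Fin n, ∀ r ∈ blk y i, r.Prime := fun i r hr => (mem_blk.mp hr).2.1
  have hpos : 0 < Phi p := Phi_pos (B := fun i : Fin n => blk y i) hB hp
  have hyR : (1:ℝ) < y := by exact_mod_cast (by omega : 1 < y)
  have hly : 0 < Real.log y := Real.log_pos hyR
  have h1 : Real.log (Phi p) = ∑ i, ∑ r ∈ p i, Real.log r := by
    unfold Phi
    push_cast
    rw [Real.log_prod]
    · apply Finset.sum_congr rfl
      intro i _
      rw [Real.log_prod]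
      intro r hr
      have := (hB i r (hp i hr)).pos
      positivity
    · intro i _
      rw [Finset.prod_ne_zero_iff]
      intro r hr
      have := (hB i r (hp i hr)).pos
      positivity
  have h2 : ∀ i : Fin n, ∑ r ∈ p i, Real.log r ≤
      (((2 * b + 2 * (i:ℕ) : ℕ) : ℝ) / 2 ^ (i:ℕ) + (if (i:ℕ) = l then (1:ℝ) else 0) / 2 ^ (i:ℕ)) * Real.log y := by
    intro i
    have h3 : ∀ r ∈ p i, Real.log r ≤ Real.log y / 2 ^ (i:ℕ) := by
      intro r hr
      have h4 := mem_blk.mp (hp i hr)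
      rw [le_div_iff₀ (by positivity)]
      have h5 : ((r:ℝ)) ^ (2 ^ (i:ℕ)) ≤ y := by exact_mod_cast h4.2.2.1.le
      have hr0 : (0:ℝ) < r := by exact_mod_cast h4.2.1.pos
      have h6 := Real.log_le_log (by positivity) h5
      rw [Real.log_pow] at h6
      push_cast at h6
      linarith
    have h7 : ∑ r ∈ p i, Real.log r ≤ (p i).card • (Real.log y / 2 ^ (i:ℕ)) :=
      Finset.sum_le_card_nsmul _ _ _ h3
    rw [nsmul_eq_mul] at h7
    have h8 : ((p i).card : ℝ) ≤ ((2 * b + 2 * (i:ℕ) : ℕ) : ℝ) + (if (i:ℕ) = l then (1:ℝ) else 0) := by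
      have h9 := hc i
      have h10 : ((p i).card : ℝ) ≤ ((2 * b + 2 * (i:ℕ) + (if (i : ℕ) = l then 1 else 0) : ℕ) : ℝ) := by
        exact_mod_cast h9
      push_cast at h10 ⊢
      exact h10
    have h11 : 0 ≤ Real.log y / 2 ^ (i:ℕ) := by positivity
    calc _ ≤ _ := h7
      _ ≤ _ := mul_le_mul_of_nonneg_right h8 h11
      _ = _ := by ring
  have h12 : Real.log (Phi p) ≤ (4 * b + 5) * Real.log y := by
    rw [h1]
    refine (Finset.sum_le_sum fun i _ => h2 i).trans ?_
    rw [← Finset.sum_mul]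
    apply mul_le_mul_of_nonneg_right _ hly.le
    rw [Finset.sum_add_distrib]
    have h13 := Fin.sum_univ_eq_sum_range (fun i => ((2 * b + 2 * i : ℕ) : ℝ) / 2 ^ i) n
    have h14 := Fin.sum_univ_eq_sum_range (fun i => (if i = l then (1:ℝ) else 0) / 2 ^ i) n
    rw [h13, h14, sum_geo]
    have h15 := sum_one n l
    have h16 : 0 ≤ ((4:ℝ) * b + 4 * n + 4) / 2 ^ n := by positivity
    linarith
  have h17 : Real.log (Phi p) ≤ Real.log ((y:ℝ) ^ (4 * b + 5)) := by
    rw [Real.log_pow]
    push_cast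
    exact h12
  have h18 : ((Phi p : ℕ) : ℝ) ≤ (y:ℝ) ^ (4 * b + 5) :=
    (Real.log_le_log_iff (by exact_mod_cast hpos) (by positivity)).mp h17
  exact_mod_cast h18

/-- delta's -/
lemma sum_delta {C : ℝ} (hC : 1 ≤ C) (b n : ℕ) :
    ∑ j ∈ range n, C ^ (2 * b + 2 * j + 1) / ((2 * b + 2 * j + 1).factorial : ℝ) ≤
      C ^ (2 * b + 1) / ((2 * b + 1).factorial : ℝ) * Real.exp (C ^ 2) := by
  have hC0 : 0 < C := by linarith
  have h1 : ∀ j ∈ range n, C ^ (2 * b + 2 * j + 1) / ((2 * b + 2 * j + 1).factorial : ℝ) ≤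
      C ^ (2 * b + 1) / ((2 * b + 1).factorial : ℝ) * ((C ^ 2) ^ j / (j.factorial : ℝ)) := by
    intro j _
    rw [div_mul_div_comm, ← pow_mul, ← pow_add]
    have h2 : 2 * b + 2 * j + 1 = 2 * b + 1 + 2 * j := by ring
    rw [h2]
    apply div_le_div_of_nonneg_left (by positivity) (by positivity)
    have h3 := Nat.le_of_dvd (Nat.factorial_pos _) (Nat.factorial_mul_factorial_dvd_factorial_add (2 * b + 1) (2 * j))
    have h4 : j.factorial ≤ (2 * j).factorial := Nat.factorial_le (by omega)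
    have h5 : (2 * b + 1).factorial * j.factorial ≤ (2 * b + 1 + 2 * j).factorial :=
      (Nat.mul_le_mul_left _ h4).trans h3
    exact_mod_cast h5
  refine (Finset.sum_le_sum h1).trans ?_
  rw [← Finset.mul_sum]
  apply mul_le_mul_of_nonneg_left _ (by positivity)
  exact Real.sum_le_exp_of_nonneg (by positivity) n

lemma delta0_le_exp {C : ℝ} (hC : 1 ≤ C) (b : ℕ) :
    C ^ (2 * b + 1) / ((2 * b + 1).factorial : ℝ) ≤ Real.exp C :=
  Real.pow_div_factorial_le_exp C (by linarith) _

lemma delta0_le {C : ℝ} (hC : 1 ≤ C) (b : ℕ) :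
    C ^ (2 * b + 1) / ((2 * b + 1).factorial : ℝ) ≤ C * ((C ^ 2) ^ b / (b.factorial : ℝ)) := by
  have hC0 : 0 < C := by linarith
  have h1 : C * ((C ^ 2) ^ b / (b.factorial : ℝ)) = C ^ (2 * b + 1) / (b.factorial : ℝ) := by
    rw [← pow_mul, pow_succ]; ring
  rw [h1]
  apply div_le_div_of_nonneg_left (by positivity) (by positivity)
  exact_mod_cast Nat.factorial_le (by omega)

/-- product of the main factors -/
lemma prod_v_le {C : ℝ} (hC : 1 ≤ C)
    (h3 : ∀ y : ℕ, 2 ≤ y → ∏ p ∈ (range y).filter Nat.Prime, (1 - (1 : ℝ) / p) ≤ C / Real.log y)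
    {y : ℕ} (hy : 2 ≤ y) (b : ℕ) :
    ∏ i : Fin y, ((∏ r ∈ blk y i, (1 - (1:ℝ) / r)) *
      (1 + C * (C ^ (2 * b + 2 * (i:ℕ) + 1) / ((2 * b + 2 * (i:ℕ) + 1).factorial : ℝ) * Real.exp C))) ≤
    Real.exp (C * (Real.exp C * (Real.exp C * Real.exp (C ^ 2)))) * (C / Real.log y) := by
  have hC0 : 0 < C := by linarith
  rw [Finset.prod_mul_distrib]
  have e1 : ∏ i : Fin y, ∏ r ∈ blk y i, (1 - (1:ℝ) / r) = ∏ p ∈ (range y).filter Nat.Prime, (1 - (1 : ℝ) / p) := by
    have h4 : (univ : Finset (Fin y)).biUnion (fun i : Fin y => blk y i) = (range y).filter Nat.Prime := by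
      ext p
      rw [Finset.mem_biUnion, Finset.mem_filter, Finset.mem_range]
      constructor
      · rintro ⟨i, _, hi⟩
        have := mem_blk.mp hi
        exact ⟨this.1, this.2.1⟩
      · rintro ⟨h5, h6⟩
        obtain ⟨j, hj, hj2⟩ := exists_blk h6 h5
        exact ⟨⟨j, hj⟩, Finset.mem_univ _, hj2⟩
    rw [← h4]
    symm
    apply prod_fam (B := fun i : Fin y => blk y i)
    · intro i j hij
      exact blk_disj (fun h => hij (Fin.ext h))
    · intro i; exact Finset.Subset.refl _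
  rw [e1]
  have hprod0 : 0 ≤ ∏ p ∈ (range y).filter Nat.Prime, (1 - (1 : ℝ) / p) := by
    apply Finset.prod_nonneg
    intro p hp
    rw [Finset.mem_filter] at hp
    have h5 : (1:ℝ) ≤ p := by exact_mod_cast hp.2.one_le
    have h6 : (1:ℝ) / p ≤ 1 := by rw [div_le_one (by linarith)]; exact h5
    linarith
  have e2 : ∏ i : Fin y, (1 + C * (C ^ (2 * b + 2 * (i:ℕ) + 1) / ((2 * b + 2 * (i:ℕ) + 1).factorial : ℝ) * Real.exp C)) ≤
      Real.exp (C * (Real.exp C * (Real.exp C * Real.exp (C ^ 2)))) := by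
    have h7 : ∏ i : Fin y, (1 + C * (C ^ (2 * b + 2 * (i:ℕ) + 1) / ((2 * b + 2 * (i:ℕ) + 1).factorial : ℝ) * Real.exp C)) ≤
        ∏ i : Fin y, Real.exp (C * (C ^ (2 * b + 2 * (i:ℕ) + 1) / ((2 * b + 2 * (i:ℕ) + 1).factorial : ℝ) * Real.exp C)) := by
      apply Finset.prod_le_prod
      · intro i _; positivity
      · intro i _
        have := Real.add_one_le_exp (C * (C ^ (2 * b + 2 * (i:ℕ) + 1) / ((2 * b + 2 * (i:ℕ) + 1).factorial : ℝ) * Real.exp C))
        linarith
    refine h7.trans ?_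
    rw [← Real.exp_sum, Real.exp_le_exp]
    rw [← Finset.mul_sum]
    apply mul_le_mul_of_nonneg_left _ hC0.le
    rw [← Finset.sum_mul]
    have h8 := Fin.sum_univ_eq_sum_range (fun i => C ^ (2 * b + 2 * i + 1) / ((2 * b + 2 * i + 1).factorial : ℝ)) y
    rw [h8, mul_comm]
    apply mul_le_mul_of_nonneg_left _ (Real.exp_pos _).le
    refine (sum_delta hC b y).trans ?_
    apply mul_le_mul_of_nonneg_right (delta0_le_exp hC b) (Real.exp_pos _).le
  have h9 := h3 y hy
  rw [mul_comm]
  apply mul_le_mul e2 h9 hprod0 (Real.exp_pos _).le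

/-! ### assembly -/

/-- admissible sets in block i -/
def Adm (b y i : ℕ) : Finset (Finset ℕ) := (blk y i).powerset.filter (fun S => S.card ≤ 2 * b + 2 * i)

lemma sum_adm_dvd (b y i m : ℕ) :
    ∑ S ∈ Adm b y i, (if ∀ r ∈ S, r ∣ m then (-1 : ℝ) ^ S.card else 0) =
      ∑ S ∈ ((blk y i).filter (fun r => r ∣ m)).powerset.filter (fun S => S.card ≤ 2 * b + 2 * i),
        (-1 : ℝ) ^ S.card := by
  rw [← Finset.sum_filter]
  apply Finset.sum_congr _ (fun _ _ => rfl)
  ext S
  unfold Adm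
  simp only [Finset.mem_filter, Finset.mem_powerset, Finset.subset_iff]
  constructor
  · rintro ⟨⟨h1, h2⟩, h3⟩
    exact ⟨fun x hx => ⟨h1 hx, h3 x hx⟩, h2⟩
  · rintro ⟨h1, h2⟩
    exact ⟨⟨fun x hx => (h1 hx).1, h2⟩, fun x hx => (h1 hx).2⟩

lemma sum_exc_dvd (k y i m : ℕ) :
    ∑ S ∈ (blk y i).powersetCard k, (if ∀ r ∈ S, r ∣ m then (1 : ℝ) else 0) =
      ((((blk y i).filter (fun r => r ∣ m)).powersetCard k).card : ℝ) := by
  rw [Finset.sum_boole]
  congr 2
  ext S
  simp only [Finset.mem_filter, Finset.mem_powersetCard, Finset.subset_iff]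
  constructor
  · rintro ⟨⟨h1, h2⟩, h3⟩
    exact ⟨fun x hx => ⟨h1 hx, h3 x hx⟩, h2⟩
  · rintro ⟨h1, h2⟩
    exact ⟨⟨fun x hx => (h1 hx).1, h2⟩, fun x hx => (h1 hx).2⟩

lemma rough_iff {y m : ℕ} :
    Rough y m ↔ ∀ i : Fin y, (blk y i).filter (fun r => r ∣ m) = ∅ := by
  constructor
  · intro h i
    rw [Finset.filter_eq_empty_iff]
    intro r hr hrm
    have h1 := mem_blk.mp hr
    have h2 := h r h1.2.1 hrm
    omega
  · intro h p hp hpm
    by_contra hlt
    push Not at hlt
    obtain ⟨j, hj, hj2⟩ := exists_blk hp hlt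
    have h1 := h ⟨j, hj⟩
    rw [Finset.filter_eq_empty_iff] at h1
    exact h1 hj2 hpm

/-- weight -/
def wt (d : ℕ) : ℝ := (-1) ^ d.primeFactors.card

lemma wt_Phi {ι : Type*} [Fintype ι] [DecidableEq ι] {B p : ι → Finset ℕ} (hB : ∀ i, ∀ r ∈ B i, r.Prime)
    (hd : ∀ i j, i ≠ j → Disjoint (B i) (B j))
    (hp : ∀ i, p i ⊆ B i) : wt (Phi p) = ∏ i, (-1 : ℝ) ^ (p i).card := by
  unfold wt
  rw [Phi_primeFactors hB hd hp, Finset.card_biUnion]
  · rw [Finset.prod_pow_eq_pow_sum]
  · intro i _ j _ hij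
    exact Finset.disjoint_of_subset_left (hp i) (Finset.disjoint_of_subset_right (hp j) (hd i j hij))

end J1bAux

open J1bAux in
theorem J1b (h : J1aStmt) : J1bStmt := by
  obtain ⟨C, hC1, hL, hV, hM⟩ := h
  have hC0 : 0 < C := by linarith
  set K1 : ℝ := Real.exp (C * (Real.exp C * (Real.exp C * Real.exp (C ^ 2)))) with hK1
  have hK1pos : 0 < K1 := Real.exp_pos _
  have hK1one : 1 ≤ K1 := Real.one_le_exp (by positivity)
  set K2 : ℝ := C * (C * Real.exp (C ^ 2)) * (K1 * C) with hK2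
  have hK2one : 1 ≤ K2 := by
    have h1 : 1 ≤ Real.exp (C ^ 2) := Real.one_le_exp (by positivity)
    have h2 : 1 ≤ C * Real.exp (C ^ 2) := one_le_mul_of_one_le_of_one_le hC1 h1
    have h3 : 1 ≤ C * (C * Real.exp (C ^ 2)) := one_le_mul_of_one_le_of_one_le hC1 h2
    exact one_le_mul_of_one_le_of_one_le h3 (one_le_mul_of_one_le_of_one_le hK1one hC1)
  have hCe : 0 < C * Real.exp C := by positivity
  set C' : ℝ := K2 * C ^ 2 + K1 * C + C * Real.exp C + 1 with hC'
  have hK2C : 0 < K2 * C ^ 2 := by positivity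
  have hK1C : 0 < K1 * C := by positivity
  refine ⟨C', by linarith, 1, ?_⟩
  intro b hb y hy
  have hyR : (1:ℝ) < y := by exact_mod_cast (by omega : 1 < y)
  have hly : 0 < Real.log y := Real.log_pos hyR
  -- blocks
  set B : Fin y → Finset ℕ := fun i => blk y i with hBdef
  have hB : ∀ i, ∀ r ∈ B i, r.Prime := fun i r hr => (mem_blk.mp hr).2.1
  have hd : ∀ i j, i ≠ j → Disjoint (B i) (B j) := by
    intro i j hij
    exact blk_disj (fun h => hij (Fin.ext h))
  set x : ℕ → ℝ := fun r => (1:ℝ) / r with hx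
  have hx0 : ∀ r, 0 ≤ x r := fun r => by simp only [hx]; positivity
  set A : Fin y → Finset (Finset ℕ) := fun i => Adm b y i with hA
  have hAB : ∀ i, ∀ S ∈ A i, S ⊆ B i := by
    intro i S hS
    simp only [hA, Adm, Finset.mem_filter, Finset.mem_powerset] at hS
    exact hS.1
  have hpB : ∀ p ∈ Fintype.piFinset A, ∀ i, p i ⊆ B i :=
    fun p hp i => hAB i _ (Fintype.mem_piFinset.mp hp i)
  have hpc : ∀ p ∈ Fintype.piFinset A, ∀ i, (p i).card ≤ 2 * b + 2 * (i:ℕ) := by
    intro p hp i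
    have h1 := Fintype.mem_piFinset.mp hp i
    simp only [hA, Adm, Finset.mem_filter, Finset.mem_powerset] at h1
    exact h1.2
  have hinj : Set.InjOn (Phi : (Fin y → Finset ℕ) → ℕ) (Fintype.piFinset A : Set (Fin y → Finset ℕ)) := by
    intro p hp p' hp' h
    exact Phi_inj hB hd (hpB p hp) (hpB p' hp') h
  set v : Fin y → ℝ := fun i => (∏ r ∈ blk y i, (1 - x r)) *
      (1 + C * (C ^ (2 * b + 2 * (i:ℕ) + 1) / ((2 * b + 2 * (i:ℕ) + 1).factorial : ℝ) * Real.exp C)) with hv
  have hVi0 : ∀ i : Fin y, 0 < ∏ r ∈ blk y i, (1 - x r) := by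
    intro i
    exact lt_of_lt_of_le (by positivity) (hV y i hy)
  have hv0 : ∀ i, 0 ≤ v i := by
    intro i
    exact mul_nonneg (hVi0 i).le (by positivity)
  have hvprod : ∏ i, v i ≤ K1 * (C / Real.log y) := prod_v_le hC1 hM hy b
  refine ⟨(Fintype.piFinset A).image Phi, wt, ?_, ?_, ?_⟩
  · intro d hd'
    rw [Finset.mem_image] at hd'
    obtain ⟨p, hp, rfl⟩ := hd'
    refine ⟨Phi_pos hB (hpB p hp), ?_, ?_⟩
    · apply size_bound hy y y p (hpB p hp)
      intro i
      have := hpc p hp i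
      omega
    · unfold wt
      rw [abs_pow, abs_neg, abs_one, one_pow]
  · intro q hq
    have hqR : (0:ℝ) < q := by exact_mod_cast hq
    have hRHS : 0 ≤ C' * C' ^ q.primeFactors.card / (q * Real.log y) := by positivity
    rw [Finset.sum_filter, Finset.sum_image hinj]
    by_cases hq2 : Squarefree q ∧ q.primeFactors ⊆ univ.biUnion B
    · obtain ⟨hqs, hqB⟩ := hq2
      have e1 : ∑ p ∈ Fintype.piFinset A, (if q ∣ Phi p then wt (Phi p) / (Phi p : ℝ) else 0) =
          ∏ i, ∑ S ∈ A i, (if q.primeFactors ∩ B i ⊆ S then (-1 : ℝ) ^ S.card * ∏ r ∈ S, x r else 0) := by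
        rw [Finset.prod_univ_sum]
        apply Finset.sum_congr rfl
        intro p hp
        rw [Finset.prod_ite_zero]
        have h1 := dvd_Phi' hB hd (hpB p hp) hqs hqB
        by_cases h2 : q ∣ Phi p
        · rw [if_pos h2, if_pos (fun i _ => h1.mp h2 i), wt_Phi hB hd (hpB p hp), Finset.prod_mul_distrib]
          have h3 : ∏ i, ∏ r ∈ p i, x r = 1 / (Phi p : ℝ) := by
            unfold Phi
            push_cast
            simp only [hx, one_div]
            rw [← Finset.prod_inv_distrib]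
            apply Finset.prod_congr rfl
            intro i _
            rw [Finset.prod_inv_distrib]
          rw [h3]
          ring
        · rw [if_neg h2, if_neg]
          intro h3
          exact h2 (h1.mpr (fun i => h3 i (Finset.mem_univ _)))
      rw [e1, Finset.abs_prod]
      have e2 : ∏ i, |∑ S ∈ A i, (if q.primeFactors ∩ B i ⊆ S then (-1 : ℝ) ^ S.card * ∏ r ∈ S, x r else 0)| ≤
          ∏ i, (v i * ∏ r ∈ q.primeFactors ∩ B i, (x r * (C * Real.exp C))) := by
        apply Finset.prod_le_prod (fun i _ => abs_nonneg _)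
        intro i _
        have h1 := q_factor (B i) (q.primeFactors ∩ B i) Finset.inter_subset_right x hx0 hC1
          (hL y i hy) (hV y i hy) (2 * b + 2 * (i:ℕ))
        rw [Finset.prod_mul_distrib, Finset.prod_const]
        exact h1
      refine e2.trans ?_
      rw [Finset.prod_mul_distrib]
      have e3 : ∏ i, ∏ r ∈ q.primeFactors ∩ B i, (x r * (C * Real.exp C)) =
          (1 / q) * (C * Real.exp C) ^ q.primeFactors.card := by
        have h1 : univ.biUnion (fun i => q.primeFactors ∩ B i) = q.primeFactors := by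
          ext r
          rw [Finset.mem_biUnion]
          constructor
          · rintro ⟨i, _, hi⟩
            exact (Finset.mem_inter.mp hi).1
          · intro hr
            obtain ⟨i, hi, hi2⟩ := Finset.mem_biUnion.mp (hqB hr)
            exact ⟨i, hi, Finset.mem_inter.mpr ⟨hr, hi2⟩⟩
        rw [← prod_fam (fun r => x r * (C * Real.exp C)) (B := B) (p := fun i => q.primeFactors ∩ B i) hd
          (fun i => Finset.inter_subset_right), h1, Finset.prod_mul_distrib, Finset.prod_const]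
        congr 1
        simp only [hx, one_div]
        rw [Finset.prod_inv_distrib]
        congr 1
        have h2 := Nat.prod_primeFactors_of_squarefree hqs
        have h3 : ((∏ r ∈ q.primeFactors, r : ℕ) : ℝ) = (q : ℝ) := by rw [h2]
        rw [← h3]
        push_cast
        rfl
      rw [e3]
      calc (∏ i, v i) * ((1 / q) * (C * Real.exp C) ^ q.primeFactors.card)
          ≤ (K1 * (C / Real.log y)) * ((1 / q) * (C * Real.exp C) ^ q.primeFactors.card) := by
            apply mul_le_mul_of_nonneg_right hvprod (by positivity)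
        _ = (K1 * C) * (C * Real.exp C) ^ q.primeFactors.card / (q * Real.log y) := by
            field_simp
        _ ≤ C' * C' ^ q.primeFactors.card / (q * Real.log y) := by
            apply div_le_div_of_nonneg_right _ (by positivity)
            apply mul_le_mul
            · linarith
            · apply pow_le_pow_left₀ hCe.le
              linarith
            · positivity
            · linarith
    · have e1 : ∑ p ∈ Fintype.piFinset A, (if q ∣ Phi p then wt (Phi p) / (Phi p : ℝ) else 0) = 0 := by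
        apply Finset.sum_eq_zero
        intro p hp
        rw [if_neg]
        intro h
        rw [dvd_Phi hB hd (hpB p hp)] at h
        apply hq2
        refine ⟨h.1, h.2.trans ?_⟩
        apply Finset.biUnion_mono
        intro i _
        exact hpB p hp i
      rw [e1, abs_zero]
      exact hRHS
  · intro M
    -- pointwise bound
    set A' : Fin y → Fin y → Finset (Finset ℕ) := fun l i =>
      if i = l then (B i).powersetCard (2 * b + 2 * (i:ℕ) + 1) else A i with hA'
    set s' : Fin y → Fin y → Finset ℕ → ℝ := fun l i S => if i = l then 1 else (-1 : ℝ) ^ S.card with hs'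
    have hpt : ∀ m ∈ Icc 1 M, |(open Classical in if Rough y m then (1 : ℝ) else 0) -
        ∑ d ∈ ((Fintype.piFinset A).image Phi).filter (fun d => d ∣ m), wt d| ≤
        ∑ l, ∏ i, ∑ S ∈ A' l i, (if ∀ r ∈ S, r ∣ m then s' l i S else 0) := by
      intro m hm
      have h1 : ∑ d ∈ ((Fintype.piFinset A).image Phi).filter (fun d => d ∣ m), wt d =
          ∏ i, ∑ S ∈ A i, (if ∀ r ∈ S, r ∣ m then (-1 : ℝ) ^ S.card else 0) := by
        rw [prod_sum_dvd hB hd A hAB (fun _ S => (-1 : ℝ) ^ S.card) m, Finset.sum_filter,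
          Finset.sum_image hinj]
        apply Finset.sum_congr rfl
        intro p hp
        rw [wt_Phi hB hd (hpB p hp)]
      rw [h1]
      set N : Fin y → Finset ℕ := fun i => (blk y i).filter (fun r => r ∣ m) with hN
      have h2 : (open Classical in if Rough y m then (1 : ℝ) else 0) = ∏ i, (if N i = ∅ then (1:ℝ) else 0) := by
        rw [Finset.prod_ite_zero]
        by_cases h3 : Rough y m
        · rw [if_pos h3, if_pos]
          · simp
          · intro i _
            exact rough_iff.mp h3 i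
        · rw [if_neg h3, if_neg]
          intro h4
          exact h3 (rough_iff.mpr (fun i => h4 i (Finset.mem_univ _)))
      rw [h2]
      set a : Fin y → ℝ := fun i => if N i = ∅ then (1:ℝ) else 0 with ha
      set T : Fin y → ℝ := fun i => ∑ S ∈ A i, (if ∀ r ∈ S, r ∣ m then (-1 : ℝ) ^ S.card else 0) with hT
      set E : Fin y → ℝ := fun i => (((N i).powersetCard (2 * b + 2 * (i:ℕ) + 1)).card : ℝ) with hE
      have hTe : ∀ i, T i = ∑ S ∈ (N i).powerset.filter (fun S => S.card ≤ 2 * b + 2 * (i:ℕ)), (-1 : ℝ) ^ S.card :=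
        fun i => sum_adm_dvd b y i m
      have hbonf : ∀ i : Fin y, a i ≤ T i ∧ T i ≤ a i + E i := by
        intro i
        have h5 := bonf (N i) (2 * b + 2 * (i:ℕ)) ⟨b + (i:ℕ), by ring⟩
        rw [hTe i]
        exact h5
      have ha0 : ∀ i, 0 ≤ a i := by
        intro i
        simp only [ha]
        split_ifs <;> norm_num
      have h6 : ∏ i, a i ≤ ∏ i, T i := Finset.prod_le_prod (fun i _ => ha0 i) (fun i _ => (hbonf i).1)
      rw [abs_sub_comm, abs_of_nonneg (by linarith)]
      refine (telesc univ a T E ha0 (fun i => (hbonf i).1) (fun i => (hbonf i).2)).trans (le_of_eq ?_)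
      apply Finset.sum_congr rfl
      intro l _
      apply Finset.prod_congr rfl
      intro i _
      by_cases hil : i = l
      · simp only [hA', hs', if_pos hil]
        exact (sum_exc_dvd _ y i m).symm
      · simp only [hA', hs', if_neg hil]
        rfl
    have hA'B : ∀ l i, ∀ S ∈ A' l i, S ⊆ B i := by
      intro l i S hS
      by_cases hil : i = l
      · simp only [hA', if_pos hil, Finset.mem_powersetCard] at hS
        exact hS.1
      · simp only [hA', if_neg hil] at hS
        exact hAB i S hS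
    have hs'1 : ∀ l i S, |s' l i S| ≤ 1 := by
      intro l i S
      simp only [hs']
      split_ifs
      · simp
      · rw [abs_pow, abs_neg, abs_one, one_pow]
    have hK : ∀ l, ∀ p ∈ Fintype.piFinset (A' l), Phi p ≤ y ^ (4 * b + 5) := by
      intro l p hp
      have hp1 : ∀ i, p i ⊆ B i := fun i => hA'B l i _ (Fintype.mem_piFinset.mp hp i)
      apply size_bound hy y l p hp1
      intro i
      have h1 := Fintype.mem_piFinset.mp hp i
      by_cases hil : i = l
      · simp only [hA', if_pos hil, Finset.mem_powersetCard] at h1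
        rw [if_pos (by rw [hil])]
        omega
      · simp only [hA', if_neg hil, hA, Adm, Finset.mem_filter] at h1
        rw [if_neg (fun h => hil (Fin.ext h))]
        omega
    have hmain : ∀ l : Fin y, ∏ i, ∑ S ∈ A' l i, s' l i S * ∏ r ∈ S, (1 / (r : ℝ)) ≤
        (C * (C ^ (2 * b + 2 * (l:ℕ) + 1) / ((2 * b + 2 * (l:ℕ) + 1).factorial : ℝ))) * (K1 * (C / Real.log y)) := by
      intro l
      set e : ℝ := C * (C ^ (2 * b + 2 * (l:ℕ) + 1) / ((2 * b + 2 * (l:ℕ) + 1).factorial : ℝ)) with he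
      have he0 : 0 ≤ e := by positivity
      calc _ ≤ |∏ i, ∑ S ∈ A' l i, s' l i S * ∏ r ∈ S, (1 / (r : ℝ))| := le_abs_self _
        _ = ∏ i, |∑ S ∈ A' l i, s' l i S * ∏ r ∈ S, (1 / (r : ℝ))| := Finset.abs_prod _ _
        _ ≤ ∏ i, (v i * (if i = l then e else 1)) := by
            apply Finset.prod_le_prod (fun i _ => abs_nonneg _)
            intro i _
            by_cases hil : i = l
            · simp only [hA', hs', if_pos hil]
              have h1 := exc_factor (B i) x hx0 hC1 (hL y i hy) (hV y i hy) (2 * b + 2 * (i:ℕ))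
              refine h1.trans ?_
              rw [he, hil]
              apply mul_le_mul_of_nonneg_right _ (by positivity)
              apply le_mul_of_one_le_right (hVi0 l).le
              have : 0 ≤ C * (C ^ (2 * b + 2 * (l:ℕ) + 1) / ((2 * b + 2 * (l:ℕ) + 1).factorial : ℝ) * Real.exp C) := by
                positivity
              linarith
            · simp only [hA', hs', if_neg hil]
              rw [mul_one]
              exact trunc_alt (B i) x hx0 hC1 (hL y i hy) (hV y i hy) (2 * b + 2 * (i:ℕ))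
        _ = (∏ i, v i) * e := by
            rw [Finset.prod_mul_distrib, Finset.prod_ite_eq' univ l]
            simp
        _ ≤ (K1 * (C / Real.log y)) * e := mul_le_mul_of_nonneg_right hvprod he0
        _ = e * (K1 * (C / Real.log y)) := mul_comm _ _
    calc ∑ m ∈ Icc 1 M, |(open Classical in if Rough y m then (1 : ℝ) else 0) -
        ∑ d ∈ ((Fintype.piFinset A).image Phi).filter (fun d => d ∣ m), wt d|
        ≤ ∑ m ∈ Icc 1 M, ∑ l, ∏ i, ∑ S ∈ A' l i, (if ∀ r ∈ S, r ∣ m then s' l i S else 0) :=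
          Finset.sum_le_sum hpt
      _ = ∑ l, ∑ m ∈ Icc 1 M, ∏ i, ∑ S ∈ A' l i, (if ∀ r ∈ S, r ∣ m then s' l i S else 0) :=
          Finset.sum_comm
      _ ≤ ∑ l : Fin y, (M * (∏ i, ∑ S ∈ A' l i, s' l i S * ∏ r ∈ S, (1 / (r : ℝ))) + ((y ^ (4 * b + 5) : ℕ) : ℝ)) := by
          apply Finset.sum_le_sum
          intro l _
          exact count_main hB hd (A' l) (hA'B l) (s' l) (hs'1 l) _ (hK l) M
      _ ≤ ∑ l : Fin y, (M * ((C * (C ^ (2 * b + 2 * (l:ℕ) + 1) / ((2 * b + 2 * (l:ℕ) + 1).factorial : ℝ))) *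
            (K1 * (C / Real.log y))) + ((y ^ (4 * b + 5) : ℕ) : ℝ)) := by
          apply Finset.sum_le_sum
          intro l _
          have := mul_le_mul_of_nonneg_left (hmain l) (Nat.cast_nonneg (α := ℝ) M)
          linarith
      _ = M * (C * (∑ l : Fin y, C ^ (2 * b + 2 * (l:ℕ) + 1) / ((2 * b + 2 * (l:ℕ) + 1).factorial : ℝ))) *
            (K1 * (C / Real.log y)) + (y:ℝ) ^ (4 * b + 6) := by
          rw [Finset.sum_add_distrib, Finset.sum_const, Finset.card_univ, Fintype.card_fin, nsmul_eq_mul,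
            Finset.mul_sum, Finset.mul_sum, Finset.sum_mul]
          congr 1
          · apply Finset.sum_congr rfl
            intro l _
            ring
          · push_cast
            ring
      _ ≤ M * (C * (C * ((C ^ 2) ^ b / (b.factorial : ℝ)) * Real.exp (C ^ 2))) *
            (K1 * (C / Real.log y)) + (y:ℝ) ^ (4 * b + 6) := by
          have h8 := Fin.sum_univ_eq_sum_range (fun i => C ^ (2 * b + 2 * i + 1) / ((2 * b + 2 * i + 1).factorial : ℝ)) y
          rw [h8]
          have h9 := (sum_delta hC1 b y).trans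
            (mul_le_mul_of_nonneg_right (delta0_le hC1 b) (Real.exp_pos (C ^ 2)).le)
          have h10 : (M:ℝ) * (C * ∑ j ∈ range y, C ^ (2 * b + 2 * j + 1) / ((2 * b + 2 * j + 1).factorial : ℝ)) *
              (K1 * (C / Real.log y)) ≤ M * (C * (C * ((C ^ 2) ^ b / (b.factorial : ℝ)) * Real.exp (C ^ 2))) *
              (K1 * (C / Real.log y)) := by
            apply mul_le_mul_of_nonneg_right _ (by positivity)
            apply mul_le_mul_of_nonneg_left _ (by positivity)
            exact mul_le_mul_of_nonneg_left h9 hC0.le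
          linarith
      _ = (K2 * (C ^ 2) ^ b) / (b.factorial : ℝ) * M / Real.log y + (y:ℝ) ^ (4 * b + 6) := by
          rw [hK2]
          field_simp
      _ ≤ (C' ^ b / (b.factorial : ℝ)) * M / Real.log y + C' * (y : ℝ) ^ (4 * b + 6) := by
          have h11 : K2 * (C ^ 2) ^ b ≤ C' ^ b := by
            calc K2 * (C ^ 2) ^ b ≤ K2 ^ b * (C ^ 2) ^ b := by
                  apply mul_le_mul_of_nonneg_right _ (by positivity)
                  calc K2 = K2 ^ 1 := (pow_one _).symm
                    _ ≤ K2 ^ b := pow_le_pow_right₀ hK2one hb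
              _ = (K2 * C ^ 2) ^ b := (mul_pow _ _ _).symm
              _ ≤ C' ^ b := by
                  apply pow_le_pow_left₀ hK2C.le
                  linarith
          have h12 : (y:ℝ) ^ (4 * b + 6) ≤ C' * (y : ℝ) ^ (4 * b + 6) := by
            apply le_mul_of_one_le_left (by positivity)
            linarith
          have h13 : (K2 * (C ^ 2) ^ b) / (b.factorial : ℝ) * M / Real.log y ≤
              (C' ^ b / (b.factorial : ℝ)) * M / Real.log y := by
            apply div_le_div_of_nonneg_right _ hly.le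
            apply mul_le_mul_of_nonneg_right _ (Nat.cast_nonneg _)
            exact div_le_div_of_nonneg_right h11 (by positivity)
          linarith


end Pool.Agent.Helper602.MK.N_J1b

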