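import Mathlib
import Pool.Agent.Helper602.MK.Defs

set_option autoImplicit false

namespace Pool.Agent.Helper602.MK.N_J1c

open Finset


/-! helper lemmas for J1c -/

lemma c_ee_add (x y : ℝ) : ee (x + y) = ee x * ee y := by
  unfold ee
  rw [← Complex.exp_add]
  congr 1
  push_cast
  ring

lemma c_ee_int (n : ℤ) : ee n = 1 := by
  unfold ee
  rw [Complex.exp_eq_one_iff]
  exact ⟨n, by push_cast; ring⟩

lemma c_norm_ee (x : ℝ) : ‖ee x‖ = 1 := by
  unfold ee
  rw [show (2 * Real.pi * x * Complex.I : ℂ) = ((2 * Real.pi * x : ℝ) : ℂ) * Complex.I by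
    push_cast; ring]
  exact Complex.norm_exp_ofReal_mul_I _

lemma c_norm_ee_sub_one (t : ℝ) : ‖ee t - 1‖ = |2 * Real.sin (Real.pi * t)| := by
  unfold ee
  have h := Complex.norm_exp_I_mul_ofReal_sub_one (2 * Real.pi * t)
  rw [show (2 * Real.pi * t * Complex.I : ℂ) = Complex.I * ((2 * Real.pi * t : ℝ) : ℂ) by
    push_cast; ring, h, Real.norm_eq_abs]
  congr 3
  ring

lemma c_norm_ee_sub_one_le (t : ℝ) : ‖ee t - 1‖ ≤ 2 * Real.pi * |t| := by
  rw [c_norm_ee_sub_one, abs_mul, abs_two]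
  have := Real.abs_sin_le_abs (x := Real.pi * t)
  rw [abs_mul, abs_of_pos Real.pi_pos] at this
  linarith

lemma c_norm_ee_sub_one_ge (x δ : ℝ) (h : ∀ k : ℤ, δ ≤ |x - k|) : 4 * δ ≤ ‖ee x - 1‖ := by
  have h1 : ee x = ee (x - round x) := by
    have : x = (x - round x) + ((round x : ℤ) : ℝ) := by ring
    conv_lhs => rw [this]
    rw [c_ee_add, c_ee_int, mul_one]
  have h2 : |x - round x| ≤ 1 / 2 := abs_sub_round x
  rw [h1, c_norm_ee_sub_one, abs_mul, abs_two]
  have h3 := Real.mul_abs_le_abs_sin (x := Real.pi * (x - round x)) (by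
    rw [abs_mul, abs_of_pos Real.pi_pos]
    nlinarith [Real.pi_pos])
  rw [abs_mul, abs_of_pos Real.pi_pos] at h3
  have h4 : 2 / Real.pi * (Real.pi * |x - round x|) = 2 * |x - round x| := by
    field_simp
  rw [h4] at h3
  have := h (round x)
  linarith

/-- geometric sums -/
lemma c_geo (x : ℝ) (n : ℕ) : ‖∑ m ∈ Icc 1 n, ee (x * m)‖ * ‖ee x - 1‖ ≤ 2 := by
  have h : ∀ n : ℕ, (∑ m ∈ Icc 1 n, ee (x * m)) * (ee x - 1) = ee (x * (n + 1)) - ee x := by
    intro n
    induction n with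
    | zero => simp
    | succ n ih =>
      rw [Finset.sum_Icc_succ_top (by omega), add_mul, ih]
      have e1 : ee (x * ((n + 1 : ℕ) : ℝ)) * ee x = ee (x * (((n + 1 : ℕ) : ℝ) + 1)) := by
        rw [← c_ee_add]; congr 1; ring
      rw [mul_sub, e1]
      push_cast
      ring
  rw [← norm_mul, h]
  calc ‖ee (x * (n + 1)) - ee x‖ ≤ ‖ee (x * (n + 1))‖ + ‖ee x‖ := norm_sub_le _ _
    _ = 2 := by rw [c_norm_ee, c_norm_ee]; norm_num

lemma c_geo_bound (x δ : ℝ) (hδ : 0 < δ) (h : ∀ k : ℤ, δ ≤ |x - k|) (n : ℕ) :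
    ‖∑ m ∈ Icc 1 n, ee (x * m)‖ ≤ 1 / (2 * δ) := by
  have h1 := c_geo x n
  have h2 := c_norm_ee_sub_one_ge x δ h
  have h3 : ‖∑ m ∈ Icc 1 n, ee (x * m)‖ * (4 * δ) ≤ 2 :=
    (mul_le_mul_of_nonneg_left h2 (norm_nonneg _)).trans h1
  rw [le_div_iff₀ (by positivity)]
  linarith

/-- comparing a sum over multiples of `d` with the full sum -/
lemma c_block (f : ℕ → ℂ) (lam : ℝ) (hlam : 0 ≤ lam) (hf : ∀ m n : ℕ, ‖f m - f n‖ ≤ lam * |(m : ℝ) - n|)
    (d k : ℕ) :
    ‖∑ n ∈ Ioc 0 (d * k), f n - (d : ℂ) * ∑ m ∈ Icc 1 k, f (d * m)‖ ≤ k * d * (lam * d) := by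
  induction k with
  | zero => simp
  | succ k ih =>
    have e1 : Ioc 0 (d * (k + 1)) = Ioc 0 (d * k) ∪ Ioc (d * k) (d * (k + 1)) := by
      rw [Finset.Ioc_union_Ioc_eq_Ioc (by omega) (Nat.mul_le_mul_left d (by omega))]
    have hdis : Disjoint (Ioc 0 (d * k)) (Ioc (d * k) (d * (k + 1))) := by
      rw [Finset.disjoint_left]
      intro x hx hx'
      rw [Finset.mem_Ioc] at hx hx'
      omega
    rw [e1, Finset.sum_union hdis, Finset.sum_Icc_succ_top (by omega)]
    have hcard : (Ioc (d * k) (d * (k + 1))).card = d := by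
      rw [Nat.card_Ioc, mul_add, mul_one]; omega
    have e2 : ∑ n ∈ Ioc 0 (d * k), f n + ∑ n ∈ Ioc (d * k) (d * (k + 1)), f n -
        (d : ℂ) * (∑ m ∈ Icc 1 k, f (d * m) + f (d * (k + 1))) =
        (∑ n ∈ Ioc 0 (d * k), f n - (d : ℂ) * ∑ m ∈ Icc 1 k, f (d * m)) +
        ∑ n ∈ Ioc (d * k) (d * (k + 1)), (f n - f (d * (k + 1))) := by
      rw [Finset.sum_sub_distrib, Finset.sum_const, hcard, nsmul_eq_mul]
      ring
    rw [e2]
    have h3 : ‖∑ n ∈ Ioc (d * k) (d * (k + 1)), (f n - f (d * (k + 1)))‖ ≤ d * (lam * d) := by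
      refine (norm_sum_le _ _).trans ?_
      calc ∑ n ∈ Ioc (d * k) (d * (k + 1)), ‖f n - f (d * (k + 1))‖
          ≤ ∑ n ∈ Ioc (d * k) (d * (k + 1)), lam * d := by
            apply Finset.sum_le_sum
            intro n hn
            refine (hf _ _).trans ?_
            apply mul_le_mul_of_nonneg_left _ hlam
            rw [Finset.mem_Ioc] at hn
            have h4 : ((d * k : ℕ) : ℝ) ≤ n := by exact_mod_cast hn.1.le
            have h5 : (n : ℝ) ≤ ((d * (k + 1) : ℕ) : ℝ) := by exact_mod_cast hn.2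
            push_cast at h4 h5 ⊢
            rw [abs_le]
            constructor <;> nlinarith
        _ = d * (lam * d) := by rw [Finset.sum_const, hcard, nsmul_eq_mul]
    refine (norm_add_le _ _).trans ?_
    push_cast
    nlinarith

lemma c_compare (β : ℝ) (M d : ℕ) (hd : 1 ≤ d) :
    ‖∑ m ∈ Icc 1 (M / d), ee (β * (d * m : ℕ)) - (1 / (d : ℂ)) * ∑ n ∈ Icc 1 M, ee (β * n)‖ ≤
      2 * Real.pi * |β| * M + 1 := by
  have hd0 : (0 : ℝ) < d := by exact_mod_cast hd
  have hf : ∀ m n : ℕ, ‖ee (β * m) - ee (β * n)‖ ≤ (2 * Real.pi * |β|) * |(m : ℝ) - n| := by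
    intro m n
    have e : ee (β * m) - ee (β * n) = ee (β * n) * (ee (β * m - β * n) - 1) := by
      rw [mul_sub, mul_one, ← c_ee_add]; congr 2; ring
    rw [e, norm_mul, c_norm_ee, one_mul]
    refine (c_norm_ee_sub_one_le _).trans ?_
    rw [← mul_sub, abs_mul]
    exact le_of_eq (by ring)
  have h1 := c_block (fun n => ee (β * n)) (2 * Real.pi * |β|) (by positivity) hf d (M / d)
  have hle : d * (M / d) ≤ M := Nat.mul_div_le M d
  have e1 : ∑ n ∈ Icc 1 M, ee (β * n) = ∑ n ∈ Ioc 0 (d * (M / d)), ee (β * n) +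
      ∑ n ∈ Ioc (d * (M / d)) M, ee (β * n) := by
    have : Icc 1 M = Ioc 0 (d * (M / d)) ∪ Ioc (d * (M / d)) M := by
      rw [Finset.Ioc_union_Ioc_eq_Ioc (by omega) hle]
      ext x; simp [Finset.mem_Icc, Finset.mem_Ioc]; omega
    rw [this, Finset.sum_union]
    rw [Finset.disjoint_left]
    intro x hx hx'
    rw [Finset.mem_Ioc] at hx hx'
    omega
  have h2 : ‖∑ n ∈ Ioc (d * (M / d)) M, ee (β * n)‖ ≤ d := by
    refine (norm_sum_le _ _).trans ?_
    simp only [c_norm_ee, Finset.sum_const, Nat.card_Ioc, nsmul_eq_mul, mul_one]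
    have h3 := Nat.mod_lt M hd
    have h4 := Nat.div_add_mod M d
    have : M - d * (M / d) ≤ d := by omega
    exact_mod_cast this
  set S := ∑ m ∈ Icc 1 (M / d), ee (β * (d * m : ℕ)) with hS
  set T := ∑ n ∈ Icc 1 M, ee (β * n) with hT
  have e2 : S - (1 / (d : ℂ)) * T = -(1 / (d : ℂ)) *
      ((∑ n ∈ Ioc 0 (d * (M / d)), ee (β * n) - (d : ℂ) * S) +
        ∑ n ∈ Ioc (d * (M / d)) M, ee (β * n)) := by
    have hdc : (d : ℂ) ≠ 0 := by exact_mod_cast hd0.ne'
    rw [e1]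
    field_simp
    ring
  rw [e2, norm_mul, norm_neg, norm_div, norm_one, Complex.norm_natCast, one_div,
    inv_mul_le_iff₀ hd0]
  refine (norm_add_le _ _).trans ?_
  have h5 : ((M / d : ℕ) : ℝ) * d ≤ M := by
    have : M / d * d ≤ M := Nat.div_mul_le_self M d
    exact_mod_cast this
  have h6 : 0 ≤ 2 * Real.pi * |β| * d := by positivity
  nlinarith

lemma c_sum_multiples (g : ℕ → ℂ) (M d : ℕ) (hd : 1 ≤ d) :
    ∑ m ∈ (Icc 1 M).filter (fun m => d ∣ m), g m = ∑ m ∈ Icc 1 (M / d), g (d * m) := by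
  symm
  apply Finset.sum_bij (fun m _ => d * m)
  · intro m hm
    rw [Finset.mem_Icc] at hm
    rw [Finset.mem_filter, Finset.mem_Icc]
    refine ⟨⟨Nat.mul_pos hd hm.1, ?_⟩, Dvd.intro _ rfl⟩
    calc d * m ≤ d * (M / d) := Nat.mul_le_mul_left d hm.2
      _ ≤ M := Nat.mul_div_le M d
  · intro m _ n _ h
    exact Nat.eq_of_mul_eq_mul_left hd h
  · intro m hm
    rw [Finset.mem_filter, Finset.mem_Icc] at hm
    obtain ⟨⟨h1, h2⟩, n, rfl⟩ := hm
    refine ⟨n, ?_, rfl⟩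
    rw [Finset.mem_Icc]
    refine ⟨Nat.pos_of_ne_zero (by rintro rfl; simp at h1), ?_⟩
    rw [Nat.le_div_iff_mul_le hd, mul_comm]
    exact h2
  · intro m _
    rfl

lemma c_swap (D : Finset ℕ) (hD : ∀ d ∈ D, 1 ≤ d) (w : ℕ → ℝ) (θ : ℝ) (M : ℕ) :
    ∑ m ∈ Icc 1 M, ((∑ d ∈ D.filter (fun d => d ∣ m), w d : ℝ) : ℂ) * ee (θ * m) =
      ∑ d ∈ D, (w d : ℂ) * ∑ m ∈ Icc 1 (M / d), ee (θ * (d * m : ℕ)) := by
  have e1 : ∀ m ∈ Icc 1 M, ((∑ d ∈ D.filter (fun d => d ∣ m), w d : ℝ) : ℂ) * ee (θ * m) =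
      ∑ d ∈ D, if d ∣ m then (w d : ℂ) * ee (θ * m) else 0 := by
    intro m _
    rw [Complex.ofReal_sum, Finset.sum_mul, Finset.sum_filter]
  rw [Finset.sum_congr rfl e1, Finset.sum_comm]
  apply Finset.sum_congr rfl
  intro d hd
  rw [← Finset.sum_filter, ← Finset.mul_sum, c_sum_multiples _ _ _ (hD d hd)]

/-- `C^ω(q) ≤ K √q` -/
lemma c_omega (C : ℝ) (hC : 1 ≤ C) : ∃ K : ℝ, 1 ≤ K ∧ ∀ q : ℕ, 1 ≤ q →
    C ^ (q.primeFactors.card) ≤ K * Real.sqrt q := by
  refine ⟨C ^ ⌈C ^ 2⌉₊, one_le_pow₀ hC, fun q hq => ?_⟩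
  set F1 := q.primeFactors.filter (fun p : ℕ => (p : ℝ) < C ^ 2) with hF1
  set F2 := q.primeFactors.filter (fun p : ℕ => ¬ (p : ℝ) < C ^ 2) with hF2
  have hcard : q.primeFactors.card = F1.card + F2.card :=
    (Finset.card_filter_add_card_filter_not _).symm
  rw [hcard, pow_add]
  have h1 : F1.card ≤ ⌈C ^ 2⌉₊ := by
    have : F1 ⊆ Finset.range ⌈C ^ 2⌉₊ := by
      intro p hp
      rw [hF1, Finset.mem_filter] at hp
      rw [Finset.mem_range]
      have := hp.2.trans_le (Nat.le_ceil (C ^ 2))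
      exact_mod_cast this
    calc F1.card ≤ (Finset.range ⌈C ^ 2⌉₊).card := Finset.card_le_card this
      _ = _ := Finset.card_range _
  have h2 : C ^ F2.card ≤ Real.sqrt q := by
    have h3 : C ^ F2.card ≤ ∏ p ∈ F2, Real.sqrt p := by
      rw [← Finset.prod_const]
      apply Finset.prod_le_prod
      · intro _ _; linarith
      · intro p hp
        rw [hF2, Finset.mem_filter, not_lt] at hp
        exact Real.le_sqrt_of_sq_le hp.2
    have h4 : ∏ p ∈ F2, Real.sqrt p = Real.sqrt (∏ p ∈ F2, (p : ℝ)) := by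
      rw [Real.sqrt_prod]
      intro i _; positivity
    have h5 : (∏ p ∈ F2, (p : ℝ)) ≤ q := by
      have h6 : ∏ p ∈ F2, p ∣ q := by
        refine dvd_trans ?_ (Nat.prod_primeFactors_dvd q)
        exact Finset.prod_dvd_prod_of_subset _ _ _ (Finset.filter_subset _ _)
      have h7 := Nat.le_of_dvd hq h6
      calc (∏ p ∈ F2, (p : ℝ)) = ((∏ p ∈ F2, p : ℕ) : ℝ) := by rw [Nat.cast_prod]
        _ ≤ q := by exact_mod_cast h7
    calc C ^ F2.card ≤ ∏ p ∈ F2, Real.sqrt p := h3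
      _ = Real.sqrt (∏ p ∈ F2, (p : ℝ)) := h4
      _ ≤ _ := Real.sqrt_le_sqrt h5
  exact mul_le_mul (pow_le_pow_right₀ hC h1) h2 (by positivity) (by positivity)


lemma c_core (θ : ℝ) (M L : ℕ) (hL1 : 1 ≤ L) (hL : (2 * L) ^ 2 ≤ M) (D : Finset ℕ) (w : ℕ → ℝ)
    (hD : ∀ d ∈ D, 1 ≤ d ∧ d ≤ L ∧ |w d| ≤ 1) :
    ∃ (q : ℕ) (a : ℤ), 1 ≤ q ∧ |θ - a / q| ≤ 1 / Real.sqrt M ∧
      ‖∑ d ∈ D, (w d : ℂ) * ∑ m ∈ Icc 1 (M / d), ee (θ * (d * m : ℕ))‖ ≤
        |∑ d ∈ D.filter (fun d => q ∣ d), w d / d| * ‖∑ n ∈ Icc 1 M, ee ((θ - a / q) * n)‖ +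
          9 * L * Real.sqrt M := by
  set R := Nat.sqrt M with hR
  have hR1 : 2 * L ≤ R := by
    rw [hR]; exact Nat.le_sqrt'.2 hL
  have hRM : (R : ℝ) ≤ Real.sqrt M := by
    apply Real.le_sqrt_of_sq_le
    exact_mod_cast Nat.sqrt_le' M
  have hRM' : Real.sqrt M ≤ (R : ℝ) + 1 := by
    rw [Real.sqrt_le_left (by positivity)]
    have := (Nat.lt_succ_sqrt' M).le
    exact_mod_cast this
  have hs0 : 1 ≤ Real.sqrt M := by
    have : (1 : ℝ) ≤ R := by exact_mod_cast (by omega : 1 ≤ R)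
    linarith
  obtain ⟨r, hr1, hr2⟩ := Real.exists_rat_abs_sub_le_and_den_le θ (show 0 < R by omega)
  set q := r.den with hq
  have hq1 : 1 ≤ q := r.den_pos
  have hq0 : (0 : ℝ) < q := by exact_mod_cast hq1
  have hrq : (r : ℝ) = (r.num : ℝ) / q := by
    rw [hq]; exact_mod_cast (Rat.num_div_den r).symm
  rw [hrq] at hr1
  set β : ℝ := θ - (r.num : ℝ) / q with hβ
  have hR0 : (0 : ℝ) < (R : ℝ) + 1 := by positivity
  have hβ1 : |β| ≤ 1 / ((R : ℝ) + 1) := by
    refine hr1.trans ?_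
    apply one_div_le_one_div_of_le hR0
    have : (1 : ℝ) ≤ q := by exact_mod_cast hq1
    nlinarith
  have hβ2 : |β| ≤ 1 / Real.sqrt M :=
    hβ1.trans (one_div_le_one_div_of_le (by linarith) hRM')
  have hβM : |β| * M ≤ Real.sqrt M := by
    have h1 : |β| * M ≤ 1 / Real.sqrt M * M := mul_le_mul_of_nonneg_right hβ2 (by positivity)
    have h2 : 1 / Real.sqrt M * M = Real.sqrt M := by
      have h3 : Real.sqrt M * Real.sqrt M = M := Real.mul_self_sqrt (by positivity)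
      rw [one_div, inv_mul_eq_iff_eq_mul₀ (by linarith)]
      exact h3.symm
    linarith
  refine ⟨q, r.num, hq1, hβ2, ?_⟩
  set T := ∑ n ∈ Icc 1 M, ee (β * n) with hT
  set S : ℕ → ℂ := fun d => ∑ m ∈ Icc 1 (M / d), ee (θ * (d * m : ℕ)) with hS
  have hsplit : ∑ d ∈ D, (w d : ℂ) * S d = ∑ d ∈ D.filter (fun d => q ∣ d), (w d : ℂ) * S d +
      ∑ d ∈ D.filter (fun d => ¬ q ∣ d), (w d : ℂ) * S d :=
    (Finset.sum_filter_add_sum_filter_not _ _ _).symm
  have hcardD : D.card ≤ L := by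
    have : D ⊆ Icc 1 L := fun d hd => Finset.mem_Icc.2 ⟨(hD d hd).1, (hD d hd).2.1⟩
    calc D.card ≤ (Icc 1 L).card := Finset.card_le_card this
      _ = L := by simp
  -- q does not divide d
  have h2 : ∀ d ∈ D.filter (fun d => ¬ q ∣ d), ‖(w d : ℂ) * S d‖ ≤ Real.sqrt M := by
    intro d hd
    rw [Finset.mem_filter] at hd
    obtain ⟨hdD, hqd⟩ := hd
    obtain ⟨hd1, hdL, hw⟩ := hD d hdD
    have hdist : ∀ k : ℤ, 1 / (2 * (q : ℝ)) ≤ |θ * d - k| := by
      intro k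
      have h3 : (1 : ℝ) / q ≤ |(r.num : ℝ) / q * d - k| := by
        have h4 : (r.num * d - k * q : ℤ) ≠ 0 := by
          intro h0
          have h5 : (q : ℤ) ∣ r.num * d := ⟨k, by linarith⟩
          have h6 : IsCoprime (q : ℤ) r.num := by
            rw [Int.isCoprime_iff_gcd_eq_one, Int.gcd_comm]
            have := r.reduced
            rw [Int.gcd_eq_natAbs]
            simpa [hq] using this
          have h7 : (q : ℤ) ∣ d := h6.dvd_of_dvd_mul_left h5
          exact hqd (by exact_mod_cast h7)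
        have h5 : (1 : ℝ) ≤ |((r.num * d - k * q : ℤ) : ℝ)| := by
          have := Int.one_le_abs h4
          exact_mod_cast this
        have h6 : (r.num : ℝ) / q * d - k = ((r.num * d - k * q : ℤ) : ℝ) / q := by
          push_cast
          field_simp
        rw [h6, abs_div, abs_of_pos hq0]
        exact div_le_div_of_nonneg_right h5 hq0.le
      have h4 : |β| * d ≤ 1 / (2 * (q : ℝ)) := by
        have h5 : |β| * d ≤ 1 / (((R : ℝ) + 1) * q) * d :=
          mul_le_mul_of_nonneg_right hr1 (by positivity)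
        refine h5.trans ?_
        rw [div_mul_eq_mul_div, one_mul, div_le_div_iff₀ (by positivity) (by positivity)]
        have h6 : (2 : ℝ) * d ≤ R + 1 := by
          have : 2 * d ≤ R + 1 := by omega
          exact_mod_cast this
        nlinarith
      have h5 : θ * d - k = ((r.num : ℝ) / q * d - k) + β * d := by rw [hβ]; ring
      have h6 : |(r.num : ℝ) / q * d - k| ≤ |θ * d - k| + |β * d| := by
        have : (r.num : ℝ) / q * d - k = (θ * d - k) - β * d := by rw [h5]; ring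
        rw [this]
        exact abs_sub _ _
      rw [abs_mul, Nat.abs_cast] at h6
      have h7 : (1 : ℝ) / q = 1 / (2 * (q : ℝ)) + 1 / (2 * (q : ℝ)) := by field_simp; norm_num
      linarith
    have h3 := c_geo_bound (θ * d) (1 / (2 * (q : ℝ))) (by positivity) hdist (M / d)
    have h4 : S d = ∑ m ∈ Icc 1 (M / d), ee (θ * d * m) := by
      simp only [hS]
      apply Finset.sum_congr rfl
      intro m _
      push_cast
      congr 1
      ring
    rw [norm_mul, Complex.norm_real, Real.norm_eq_abs, h4]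
    have h5 : 1 / (2 * (1 / (2 * (q : ℝ)))) = q := by field_simp
    rw [h5] at h3
    have h6 : (q : ℝ) ≤ R := by exact_mod_cast hr2
    calc |w d| * ‖∑ m ∈ Icc 1 (M / d), ee (θ * d * m)‖ ≤ 1 * q :=
          mul_le_mul hw h3 (norm_nonneg _) (by norm_num)
      _ ≤ _ := by linarith
  -- q divides d
  have h1 : ∀ d ∈ D.filter (fun d => q ∣ d),
      ‖(w d : ℂ) * S d - ((w d / d : ℝ) : ℂ) * T‖ ≤ 8 * Real.sqrt M := by
    intro d hd
    rw [Finset.mem_filter] at hd
    obtain ⟨hdD, hqd⟩ := hd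
    obtain ⟨hd1, hdL, hw⟩ := hD d hdD
    have h4 : S d = ∑ m ∈ Icc 1 (M / d), ee (β * (d * m : ℕ)) := by
      simp only [hS]
      apply Finset.sum_congr rfl
      intro m _
      obtain ⟨c, rfl⟩ := hqd
      have : θ * ((q * c * m : ℕ) : ℝ) = β * ((q * c * m : ℕ) : ℝ) + ((r.num * c * m : ℤ) : ℝ) := by
        rw [hβ]
        push_cast
        field_simp
        ring
      rw [this, c_ee_add, c_ee_int, mul_one]
    have h5 := c_compare β M d hd1
    rw [← h4, ← hT] at h5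
    have h6 : (w d : ℂ) * S d - ((w d / d : ℝ) : ℂ) * T = (w d : ℂ) * (S d - (1 / (d : ℂ)) * T) := by
      push_cast
      ring
    rw [h6, norm_mul, Complex.norm_real, Real.norm_eq_abs]
    have h7 : 2 * Real.pi * |β| * M + 1 ≤ 8 * Real.sqrt M := by
      have h8 : 2 * Real.pi * |β| * M ≤ 7 * Real.sqrt M := by
        have h9 : 2 * Real.pi ≤ 7 := by linarith [Real.pi_lt_d2]
        calc 2 * Real.pi * |β| * M = 2 * Real.pi * (|β| * M) := by ring
          _ ≤ 7 * Real.sqrt M := mul_le_mul h9 hβM (by positivity) (by norm_num)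
      linarith
    calc |w d| * ‖S d - 1 / (d : ℂ) * T‖ ≤ 1 * (2 * Real.pi * |β| * M + 1) :=
          mul_le_mul hw h5 (norm_nonneg _) (by norm_num)
      _ ≤ _ := by linarith
  have h3 : ‖∑ d ∈ D.filter (fun d => ¬ q ∣ d), (w d : ℂ) * S d‖ ≤
      ((D.filter (fun d => ¬ q ∣ d)).card : ℝ) * Real.sqrt M := by
    refine (norm_sum_le _ _).trans ((Finset.sum_le_sum h2).trans ?_)
    rw [Finset.sum_const, nsmul_eq_mul]
  have h4 : ‖∑ d ∈ D.filter (fun d => q ∣ d), (w d : ℂ) * S d -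
      ((∑ d ∈ D.filter (fun d => q ∣ d), w d / d : ℝ) : ℂ) * T‖ ≤
      ((D.filter (fun d => q ∣ d)).card : ℝ) * (8 * Real.sqrt M) := by
    have e : ∑ d ∈ D.filter (fun d => q ∣ d), (w d : ℂ) * S d -
      ((∑ d ∈ D.filter (fun d => q ∣ d), w d / d : ℝ) : ℂ) * T =
      ∑ d ∈ D.filter (fun d => q ∣ d), ((w d : ℂ) * S d - ((w d / d : ℝ) : ℂ) * T) := by
      rw [Finset.sum_sub_distrib, Complex.ofReal_sum, Finset.sum_mul]
    rw [e]
    refine (norm_sum_le _ _).trans ((Finset.sum_le_sum h1).trans ?_)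
    rw [Finset.sum_const, nsmul_eq_mul]
  have h5 : ‖∑ d ∈ D.filter (fun d => q ∣ d), (w d : ℂ) * S d‖ ≤
      |∑ d ∈ D.filter (fun d => q ∣ d), w d / d| * ‖T‖ +
      ((D.filter (fun d => q ∣ d)).card : ℝ) * (8 * Real.sqrt M) := by
    have h6 := norm_add_le (∑ d ∈ D.filter (fun d => q ∣ d), (w d : ℂ) * S d -
      ((∑ d ∈ D.filter (fun d => q ∣ d), w d / d : ℝ) : ℂ) * T)
      (((∑ d ∈ D.filter (fun d => q ∣ d), w d / d : ℝ) : ℂ) * T)
    rw [sub_add_cancel, norm_mul, Complex.norm_real, Real.norm_eq_abs] at h6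
    linarith
  have hc1 : ((D.filter (fun d => q ∣ d)).card : ℝ) ≤ L := by
    have := (Finset.card_filter_le D (fun d => q ∣ d)).trans hcardD
    exact_mod_cast this
  have hc2 : ((D.filter (fun d => ¬ q ∣ d)).card : ℝ) ≤ L := by
    have := (Finset.card_filter_le D (fun d => ¬ q ∣ d)).trans hcardD
    exact_mod_cast this
  rw [hsplit]
  refine (norm_add_le _ _).trans ?_
  have t1 : ((D.filter (fun d => q ∣ d)).card : ℝ) * (8 * Real.sqrt M) ≤ L * (8 * Real.sqrt M) :=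
    mul_le_mul_of_nonneg_right hc1 (by positivity)
  have t2 : ((D.filter (fun d => ¬ q ∣ d)).card : ℝ) * Real.sqrt M ≤ L * Real.sqrt M :=
    mul_le_mul_of_nonneg_right hc2 (by positivity)
  linarith


lemma c_T_bound (β : ℝ) (hβ : |β| ≤ 1 / 2) (hβ0 : β ≠ 0) (M : ℕ) :
    ‖∑ n ∈ Icc 1 M, ee (β * n)‖ ≤ 1 / (2 * |β|) := by
  apply c_geo_bound β |β| (abs_pos.2 hβ0)
  intro k
  by_cases hk : k = 0
  · subst hk; simp
  · have h1 : (1 : ℝ) ≤ |(k : ℝ)| := by
      have := Int.one_le_abs hk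
      exact_mod_cast this
    have h2 : |(k : ℝ)| ≤ |β - k| + |β| := by
      have : (k : ℝ) = β - (β - k) := by ring
      conv_lhs => rw [this]
      rw [add_comm]
      exact abs_sub _ _
    linarith

lemma c_T_triv (β : ℝ) (M : ℕ) : ‖∑ n ∈ Icc 1 M, ee (β * n)‖ ≤ M := by
  refine (norm_sum_le _ _).trans ?_
  simp [c_norm_ee]

lemma c_choose_b (C : ℝ) (hC : 1 ≤ C) (b0 : ℕ) (ε : ℝ) (hε : 0 < ε) :
    ∃ b, b0 ≤ b ∧ C ^ b / (b.factorial : ℝ) ≤ ε / (8 * ((16 * b + 40 : ℕ) : ℝ)) := by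
  have h := FloorSemiring.tendsto_pow_div_factorial_atTop (2 * C)
  have h1 := (h.eventually (gt_mem_nhds (show (0 : ℝ) < ε / 320 by positivity))).and
    (Filter.eventually_ge_atTop b0)
  obtain ⟨b, hb1, hb2⟩ := h1.exists
  refine ⟨b, hb2, ?_⟩
  rw [le_div_iff₀ (by positivity)]
  have h2 : (b : ℝ) + 1 ≤ 2 ^ b := by
    have : b + 1 ≤ 2 ^ b := Nat.lt_two_pow_self
    exact_mod_cast this
  have h3 : (8 : ℝ) * ((16 * b + 40 : ℕ) : ℝ) ≤ 320 * 2 ^ b := by
    push_cast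
    nlinarith [(Nat.cast_nonneg b : (0 : ℝ) ≤ b)]
  have h4 : 0 ≤ C ^ b / (b.factorial : ℝ) := by positivity
  calc C ^ b / (b.factorial : ℝ) * (8 * ((16 * b + 40 : ℕ) : ℝ))
      ≤ C ^ b / (b.factorial : ℝ) * (320 * 2 ^ b) := mul_le_mul_of_nonneg_left h3 h4
    _ = 320 * ((2 * C) ^ b / (b.factorial : ℝ)) := by rw [mul_pow]; ring
    _ ≤ 320 * (ε / 320) := by linarith
    _ = ε := by ring

set_option maxHeartbeats 4000000 in
theorem J1c (h : J1bStmt) : J1Stmt := by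
  classical
  obtain ⟨C, hC, b0, hb0⟩ := h
  obtain ⟨K0, hK0, hK⟩ := c_omega C hC
  intro ε hε
  obtain ⟨b, hbb, hb⟩ := c_choose_b C hC b0 ε hε
  set A : ℕ := 16 * b + 40 with hA
  have hA0 : (0 : ℝ) < A := by positivity
  have hA1 : (1 : ℝ) ≤ A := by
    have : 1 ≤ A := by omega
    exact_mod_cast this
  have hC0 : (0 : ℝ) < C := by linarith
  set Q : ℝ := max 1 ((8 * A * C * K0 / ε) ^ 2) with hQ
  have hQ1 : 1 ≤ Q := le_max_left _ _
  have hQs : 8 * A * C * K0 / ε ≤ Real.sqrt Q := by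
    apply Real.le_sqrt_of_sq_le
    exact le_max_right _ _
  have hQs1 : 1 ≤ Real.sqrt Q := by
    rw [Real.one_le_sqrt]; exact hQ1
  have hCK : C * K0 / Real.sqrt Q ≤ ε / (8 * A) := by
    rw [div_le_div_iff₀ (by linarith) (by positivity)]
    rw [div_le_iff₀ hε] at hQs
    linarith
  refine ⟨A, by omega, Q, hQ1, ⌈2 * A * (C + 9) / ε⌉₊ + 2, by omega, ?_⟩
  intro y M hy hM θ hθ
  have hy2 : 2 ≤ y := by omega
  have hyr2 : (2 : ℝ) ≤ y := by exact_mod_cast hy2
  have hyε : 2 * A * (C + 9) / ε ≤ y := by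
    have h1 := Nat.le_ceil (2 * A * (C + 9) / ε)
    have h2 : ((⌈2 * A * (C + 9) / ε⌉₊ : ℕ) : ℝ) ≤ y := by
      have : ⌈2 * A * (C + 9) / ε⌉₊ ≤ y := by omega
      exact_mod_cast this
    linarith
  have hlog : 0 < Real.log y := Real.log_pos (by linarith)
  have hlogy : Real.log y ≤ y := (Real.log_le_sub_one_of_pos (by linarith)).trans (by linarith)
  obtain ⟨D, w, hD, hDq, hDM⟩ := hb0 b hbb y hy2
  have hM' := hDM M
  set L := y ^ (4 * b + 5) with hL
  have hL1 : 1 ≤ L := Nat.one_le_pow _ _ (by omega)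
  have hyA : y ^ A ≤ M := hM
  have hM1 : 1 ≤ M := le_trans (Nat.one_le_pow _ _ (by omega)) hyA
  have hMr : (1 : ℝ) ≤ M := by exact_mod_cast hM1
  have hLM : (2 * L) ^ 2 ≤ M := by
    calc (2 * L) ^ 2 = 2 ^ 2 * (y ^ (4 * b + 5)) ^ 2 := by rw [mul_pow]
      _ ≤ y ^ 2 * (y ^ (4 * b + 5)) ^ 2 := Nat.mul_le_mul_right _ (Nat.pow_le_pow_left hy2 2)
      _ = y ^ (8 * b + 12) := by rw [← pow_mul, ← pow_add]; congr 1; ring
      _ ≤ y ^ A := Nat.pow_le_pow_right (by omega) (by omega)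
      _ ≤ M := hyA
  obtain ⟨q, a, hq1, hβ1, hcore⟩ := c_core θ M L hL1 hLM D w hD
  set β : ℝ := θ - a / q with hβ
  set T := ∑ n ∈ Icc 1 M, ee (β * n) with hT
  -- the square root of M
  set s : ℝ := Real.sqrt M with hs
  have hs2 : s * s = M := Real.mul_self_sqrt (by positivity)
  have hsy : (y : ℝ) ^ (8 * b + 20) ≤ s := by
    apply Real.le_sqrt_of_sq_le
    rw [← pow_mul]
    have : y ^ ((8 * b + 20) * 2) ≤ M := by
      have e : (8 * b + 20) * 2 = A := by rw [hA]; ring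
      rw [e]; exact hyA
    exact_mod_cast this
  have hy1 : (1 : ℝ) ≤ y := by linarith
  have hs1 : 1 ≤ s := le_trans (one_le_pow₀ hy1) hsy
  have hs2' : 2 ≤ s := by
    refine le_trans ?_ hsy
    calc (2 : ℝ) ≤ y := hyr2
      _ = (y : ℝ) ^ 1 := (pow_one _).symm
      _ ≤ _ := pow_le_pow_right₀ hy1 (by omega)
  have hβ12 : |β| ≤ 1 / 2 := hβ1.trans (one_div_le_one_div_of_le (by norm_num) hs2')
  set X : ℝ := M / Real.log y with hX
  have hX0 : 0 < X := by positivity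
  -- decomposition
  set F : ℕ → ℝ := fun m => if Rough y m then (1 : ℝ) else 0 with hF
  set G : ℕ → ℝ := fun m => ∑ d ∈ D.filter (fun d => d ∣ m), w d with hG
  have hsum : ∑ m ∈ rgh y M, ee (θ * m) =
      ∑ m ∈ Icc 1 M, ((F m - G m : ℝ) : ℂ) * ee (θ * m) + ∑ m ∈ Icc 1 M, (G m : ℂ) * ee (θ * m) := by
    rw [← Finset.sum_add_distrib]
    unfold rgh
    rw [Finset.sum_filter]
    apply Finset.sum_congr rfl
    intro m _
    rw [← add_mul, Complex.ofReal_sub, sub_add_cancel]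
    simp only [hF]
    split_ifs <;> simp
  have hdiff : ‖∑ m ∈ Icc 1 M, ((F m - G m : ℝ) : ℂ) * ee (θ * m)‖ ≤
      (C ^ b / (b.factorial : ℝ)) * M / Real.log y + C * (y : ℝ) ^ (4 * b + 6) := by
    refine (norm_sum_le _ _).trans (le_trans (le_of_eq ?_) hM')
    apply Finset.sum_congr rfl
    intro m _
    rw [norm_mul, c_norm_ee, mul_one, Complex.norm_real, Real.norm_eq_abs]
  have hswap := c_swap D (fun d hd => (hD d hd).1) w θ M
  rw [hsum]
  refine (norm_add_le _ _).trans ?_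
  simp only [hG]
  rw [hswap]
  -- bounds of the pieces
  have e1 : (C ^ b / (b.factorial : ℝ)) * M / Real.log y ≤ ε / (8 * A) * X := by
    rw [mul_div_assoc]
    exact mul_le_mul_of_nonneg_right hb hX0.le
  have e2 : C * (y : ℝ) ^ (4 * b + 6) + 9 * L * s ≤ ε / (2 * A) * X := by
    have f1 : (L : ℝ) ≤ (y : ℝ) ^ (4 * b + 6) := by
      rw [hL]; push_cast
      exact pow_le_pow_right₀ hy1 (by omega)
    have f0 : 0 ≤ (y : ℝ) ^ (4 * b + 6) := by positivity
    have f2 : C * (y : ℝ) ^ (4 * b + 6) + 9 * L * s ≤ (C + 9) * ((y : ℝ) ^ (4 * b + 6) * s) := by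
      have g1 : C * (y : ℝ) ^ (4 * b + 6) ≤ C * ((y : ℝ) ^ (4 * b + 6) * s) :=
        mul_le_mul_of_nonneg_left (le_mul_of_one_le_right f0 hs1) hC0.le
      have g2 : (L : ℝ) * s ≤ (y : ℝ) ^ (4 * b + 6) * s :=
        mul_le_mul_of_nonneg_right f1 (by linarith)
      linarith
    have f3 : (y : ℝ) ^ (4 * b + 6) * y ^ 2 ≤ s := by
      refine le_trans ?_ hsy
      rw [← pow_add]
      exact pow_le_pow_right₀ hy1 (by omega)
    have f4 : (y : ℝ) ^ (4 * b + 6) * s ≤ M / (y : ℝ) ^ 2 := by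
      rw [le_div_iff₀ (by positivity)]
      calc (y : ℝ) ^ (4 * b + 6) * s * y ^ 2 = (y : ℝ) ^ (4 * b + 6) * y ^ 2 * s := by ring
        _ ≤ s * s := mul_le_mul_of_nonneg_right f3 (by linarith)
        _ = M := hs2
    have f5 : (M : ℝ) / (y : ℝ) ^ 2 ≤ X / y := by
      rw [hX, div_div]
      apply div_le_div_of_nonneg_left (by positivity) (by positivity)
      rw [sq]
      exact mul_le_mul_of_nonneg_right hlogy (by linarith)
    have f6 : (C + 9) * (X / y) ≤ ε / (2 * A) * X := by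
      have g1 : (C + 9) / y ≤ ε / (2 * A) := by
        rw [div_le_div_iff₀ (by linarith) (by positivity)]
        rw [div_le_iff₀ hε] at hyε
        linarith
      calc (C + 9) * (X / y) = (C + 9) / y * X := by ring
        _ ≤ _ := mul_le_mul_of_nonneg_right g1 hX0.le
    calc C * (y : ℝ) ^ (4 * b + 6) + 9 * L * s ≤ (C + 9) * ((y : ℝ) ^ (4 * b + 6) * s) := f2
      _ ≤ (C + 9) * (M / (y : ℝ) ^ 2) := mul_le_mul_of_nonneg_left f4 (by linarith)
      _ ≤ (C + 9) * (X / y) := mul_le_mul_of_nonneg_left f5 (by linarith)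
      _ ≤ _ := f6
  have e3 : |∑ d ∈ D.filter (fun d => q ∣ d), w d / d| * ‖T‖ ≤ ε / (8 * A) * X := by
    have hq0 : (0 : ℝ) < q := by exact_mod_cast hq1
    have hqr1 : (1 : ℝ) ≤ q := by exact_mod_cast hq1
    have hsq : 0 < Real.sqrt q := Real.sqrt_pos.2 hq0
    have hsq1 : 1 ≤ Real.sqrt q := by rw [Real.one_le_sqrt]; exact hqr1
    have g1 : |∑ d ∈ D.filter (fun d => q ∣ d), w d / d| ≤ C * K0 / Real.sqrt q / Real.log y := by
      refine (hDq q hq1).trans ?_
      have g2 := hK q hq1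
      rw [div_div]
      rw [div_le_div_iff₀ (by positivity) (by positivity)]
      have g3 : C ^ q.primeFactors.card * Real.sqrt q ≤ K0 * q := by
        calc C ^ q.primeFactors.card * Real.sqrt q ≤ K0 * Real.sqrt q * Real.sqrt q :=
              mul_le_mul_of_nonneg_right g2 hsq.le
          _ = K0 * q := by rw [mul_assoc, Real.mul_self_sqrt hq0.le]
      calc C * C ^ q.primeFactors.card * (Real.sqrt q * Real.log y) =
            C * Real.log y * (C ^ q.primeFactors.card * Real.sqrt q) := by ring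
        _ ≤ C * Real.log y * (K0 * q) := mul_le_mul_of_nonneg_left g3 (by positivity)
        _ = C * K0 * (q * Real.log y) := by ring
    have g0 : 0 ≤ C * K0 / Real.sqrt q / Real.log y := by positivity
    have g4 : |∑ d ∈ D.filter (fun d => q ∣ d), w d / d| * ‖T‖ ≤
        C * K0 / Real.sqrt Q / Real.log y * M := by
      by_cases hqQ : (q : ℝ) ≤ Q
      · -- major denominator, β is large
        have hβbig : Q / M < |β| := by
          by_contra hcon
          push Not at hcon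
          exact hθ ⟨q, hq1, hqQ, a, hcon⟩
        have hβ0 : β ≠ 0 := by
          intro h0
          rw [h0, abs_zero] at hβbig
          have : 0 ≤ Q / M := by positivity
          linarith
        have hT1 : ‖T‖ ≤ M / Real.sqrt Q := by
          refine (c_T_bound β hβ12 hβ0 M).trans ?_
          have h1 : 1 / (2 * |β|) ≤ 1 / (2 * (Q / M)) :=
            one_div_le_one_div_of_le (by positivity) (by linarith)
          refine h1.trans ?_
          have h2 : 1 / (2 * (Q / M)) = M / (2 * Q) := by field_simp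
          rw [h2]
          apply div_le_div_of_nonneg_left (by positivity) (by linarith)
          have h3 : Real.sqrt Q * Real.sqrt Q = Q := Real.mul_self_sqrt (by linarith)
          nlinarith
        calc |∑ d ∈ D.filter (fun d => q ∣ d), w d / d| * ‖T‖
            ≤ (C * K0 / Real.sqrt q / Real.log y) * (M / Real.sqrt Q) :=
              mul_le_mul g1 hT1 (norm_nonneg _) g0
          _ ≤ (C * K0 / 1 / Real.log y) * (M / Real.sqrt Q) := by gcongr
          _ = _ := by ring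
      · push Not at hqQ
        calc |∑ d ∈ D.filter (fun d => q ∣ d), w d / d| * ‖T‖
            ≤ (C * K0 / Real.sqrt q / Real.log y) * M :=
              mul_le_mul g1 (c_T_triv β M) (norm_nonneg _) g0
          _ ≤ (C * K0 / Real.sqrt Q / Real.log y) * M := by gcongr
    refine g4.trans ?_
    calc C * K0 / Real.sqrt Q / Real.log y * M = C * K0 / Real.sqrt Q * X := by rw [hX]; ring
      _ ≤ _ := mul_le_mul_of_nonneg_right hCK hX0.le
  have e4 : ε * M / (A * Real.log y) = ε / A * X := by rw [hX]; field_simp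
  rw [e4]
  have e5 : ε / (8 * A) * X + ε / (2 * A) * X + ε / (8 * A) * X ≤ ε / A * X := by
    have h1 : 0 ≤ ε / A * X := by positivity
    have h2 : ε / (8 * A) * X + ε / (2 * A) * X + ε / (8 * A) * X = 3 / 4 * (ε / A * X) := by
      field_simp; norm_num
    rw [h2]; linarith
  linarith

end Pool.Agent.Helper602.MK.N_J1c

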