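import Mathlib
import Pool.Agent.Helper602.MK.Defs

set_option autoImplicit false

section Vend1

open Finset Nat ArithmeticFunction BoundingSieve
open scoped ArithmeticFunction.Moebius

namespace Pool.Agent.Helper602.MK.V_J2.Helper601

section Selberg

variable (s : BoundingSieve) (R : ℝ)

/-- The Selberg sum. -/
noncomputable def selS : ℝ :=
  ∑ l ∈ (divisors s.prodPrimes).filter (fun l : ℕ => (l : ℝ) ≤ R), s.selbergTerms l

/-- The Selberg weights. -/
noncomputable def selW (d : ℕ) : ℝ :=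
  (s.nu d)⁻¹ * (μ d : ℝ) * (selS s R)⁻¹ *
    ∑ l ∈ (divisors s.prodPrimes).filter (fun l : ℕ => d ∣ l ∧ (l : ℝ) ≤ R), s.selbergTerms l

/-- Moebius sum over an interval of the divisor lattice. -/
theorem sum_moebius_between {P l m : ℕ} (hP : Squarefree P) (hl : l ∣ P) (hm : m ∣ P) :
    (∑ d ∈ (divisors P).filter (fun d : ℕ => l ∣ d ∧ d ∣ m), (μ d : ℝ)) =
      if l = m then (μ l : ℝ) else 0 := by
  have hP0 : P ≠ 0 := hP.ne_zero
  by_cases hlm : l ∣ m
  · obtain ⟨k, rfl⟩ := hlm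
    have hsq : Squarefree (l * k) := hP.squarefree_of_dvd hm
    have hcop : Nat.Coprime l k := coprime_of_squarefree_mul hsq
    have hl0 : l ≠ 0 := by rintro rfl; simp at hsq
    have hk0 : k ≠ 0 := by rintro rfl; simp at hsq
    have himg : (divisors P).filter (fun d : ℕ => l ∣ d ∧ d ∣ l * k) =
        (divisors k).image (fun e => l * e) := by
      ext d
      simp only [Finset.mem_filter, Nat.mem_divisors, Finset.mem_image]
      constructor
      · rintro ⟨⟨_, _⟩, ⟨e, rfl⟩, h2⟩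
        exact ⟨e, ⟨Nat.dvd_of_mul_dvd_mul_left (Nat.pos_of_ne_zero hl0) h2, hk0⟩, rfl⟩
      · rintro ⟨e, ⟨he, _⟩, rfl⟩
        have : l * e ∣ l * k := Nat.mul_dvd_mul_left l he
        exact ⟨⟨this.trans hm, hP0⟩, Dvd.intro _ rfl, this⟩
    rw [himg, Finset.sum_image (by
      intro a _ b _ hab
      exact Nat.eq_of_mul_eq_mul_left (Nat.pos_of_ne_zero hl0) hab)]
    have h1 : ∀ e ∈ divisors k, ((μ (l * e) : ℤ) : ℝ) = (μ l : ℝ) * (μ e : ℝ) := by
      intro e he
      have hce : Nat.Coprime l e := Nat.Coprime.coprime_dvd_right (Nat.dvd_of_mem_divisors he) hcop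
      rw [ArithmeticFunction.isMultiplicative_moebius.map_mul_of_coprime hce]
      push_cast; ring
    rw [Finset.sum_congr rfl h1, ← Finset.mul_sum]
    have h2 : (∑ e ∈ divisors k, (μ e : ℤ)) = if k = 1 then 1 else 0 := by
      rw [← coe_mul_zeta_apply, moebius_mul_coe_zeta, one_apply]
    have h3 : (∑ e ∈ divisors k, (μ e : ℝ)) = if k = 1 then 1 else 0 := by
      have := congrArg (fun z : ℤ => (z : ℝ)) h2
      simp only [Int.cast_sum] at this
      rw [this]; split_ifs <;> simp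
    rw [h3]
    by_cases hk : k = 1
    · subst hk; simp
    · rw [if_neg hk, if_neg, mul_zero]
      intro h
      apply hk
      have : l * 1 = l * k := by rw [mul_one]; exact h
      exact (Nat.eq_of_mul_eq_mul_left (Nat.pos_of_ne_zero hl0) this).symm
  · rw [if_neg (by rintro rfl; exact hlm dvd_rfl)]
    apply Finset.sum_eq_zero
    intro d hd
    rw [Finset.mem_filter] at hd
    exact absurd (hd.2.1.trans hd.2.2) hlm

theorem selS_pos (hR : 1 ≤ R) : 0 < selS s R := by
  unfold selS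
  apply Finset.sum_pos'
  · intro l hl
    rw [Finset.mem_filter, Nat.mem_divisors] at hl
    exact (selbergTerms_pos hl.1.1).le
  · refine ⟨1, ?_, ?_⟩
    · rw [Finset.mem_filter, Nat.mem_divisors]
      exact ⟨⟨one_dvd _, prodPrimes_ne_zero⟩, by simpa using hR⟩
    · exact selbergTerms_pos (one_dvd _)

theorem selW_one (hR : 1 ≤ R) : selW s R 1 = 1 := by
  unfold selW
  have h : (divisors s.prodPrimes).filter (fun l : ℕ => 1 ∣ l ∧ (l : ℝ) ≤ R) =
      (divisors s.prodPrimes).filter (fun l : ℕ => (l : ℝ) ≤ R) := by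
    ext l; simp
  rw [h]
  have := (selS_pos s R hR).ne'
  simp only [s.nu_mult.map_one, inv_one, moebius_apply_one, Int.cast_one, one_mul, mul_one]
  exact inv_mul_cancel₀ this

theorem selW_diag (hR : 1 ≤ R) {l : ℕ} (hl : l ∣ s.prodPrimes) :
    (∑ d ∈ divisors s.prodPrimes, if l ∣ d then s.nu d * selW s R d else 0) =
      if (l : ℝ) ≤ R then (selS s R)⁻¹ * (μ l : ℝ) * s.selbergTerms l else 0 := by
  have hP := s.prodPrimes_squarefree
  have step1 : ∀ d ∈ divisors s.prodPrimes, (if l ∣ d then s.nu d * selW s R d else 0) =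
      ∑ m ∈ (divisors s.prodPrimes).filter (fun m : ℕ => (m : ℝ) ≤ R),
        if l ∣ d ∧ d ∣ m then (selS s R)⁻¹ * s.selbergTerms m * (μ d : ℝ) else 0 := by
    intro d hd
    have hnu : s.nu d ≠ 0 := nu_ne_zero (Nat.dvd_of_mem_divisors hd)
    by_cases hld : l ∣ d
    · rw [if_pos hld]
      unfold selW
      have : s.nu d * ((s.nu d)⁻¹ * (μ d : ℝ) * (selS s R)⁻¹ *
          ∑ l ∈ (divisors s.prodPrimes).filter (fun l : ℕ => d ∣ l ∧ (l : ℝ) ≤ R), s.selbergTerms l) =
          (selS s R)⁻¹ * (μ d : ℝ) *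
          ∑ l ∈ (divisors s.prodPrimes).filter (fun l : ℕ => d ∣ l ∧ (l : ℝ) ≤ R), s.selbergTerms l := by
        field_simp
      rw [this, Finset.mul_sum, Finset.sum_filter, Finset.sum_filter]
      apply Finset.sum_congr rfl
      intro m _
      by_cases h1 : (m : ℝ) ≤ R <;> by_cases h2 : d ∣ m <;> simp [h1, h2, hld]
      ring
    · rw [if_neg hld]
      symm
      apply Finset.sum_eq_zero
      intro m _
      rw [if_neg]
      rintro ⟨h, _⟩
      exact hld h
  rw [Finset.sum_congr rfl step1, Finset.sum_comm]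
  have step2 : ∀ m ∈ (divisors s.prodPrimes).filter (fun m : ℕ => (m : ℝ) ≤ R),
      (∑ d ∈ divisors s.prodPrimes,
        if l ∣ d ∧ d ∣ m then (selS s R)⁻¹ * s.selbergTerms m * (μ d : ℝ) else 0) =
      if l = m then (selS s R)⁻¹ * s.selbergTerms m * (μ l : ℝ) else 0 := by
    intro m hm
    rw [Finset.mem_filter] at hm
    rw [← Finset.sum_filter, ← Finset.mul_sum,
      sum_moebius_between hP hl (Nat.dvd_of_mem_divisors hm.1)]
    split_ifs <;> simp
  rw [Finset.sum_congr rfl step2, Finset.sum_ite_eq]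
  by_cases hlR : (l : ℝ) ≤ R
  · rw [if_pos, if_pos hlR]
    · ring
    · rw [Finset.mem_filter, Nat.mem_divisors]
      exact ⟨⟨hl, prodPrimes_ne_zero⟩, hlR⟩
  · rw [if_neg, if_neg hlR]
    rw [Finset.mem_filter]
    rintro ⟨_, h⟩
    exact hlR h

theorem mainSum_selW (hR : 1 ≤ R) :
    s.mainSum (lambdaSquared (selW s R)) = (selS s R)⁻¹ := by
  rw [mainSum_lambdaSquared_eq_sum_mul_sum_sq]
  have hS := (selS_pos s R hR).ne'
  have h1 : ∀ l ∈ divisors s.prodPrimes, (s.selbergTerms l)⁻¹ *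
      (∑ d ∈ divisors s.prodPrimes, if l ∣ d then s.nu d * selW s R d else 0) ^ 2 =
      if (l : ℝ) ≤ R then (selS s R)⁻¹ ^ 2 * s.selbergTerms l else 0 := by
    intro l hl
    rw [selW_diag s R hR (Nat.dvd_of_mem_divisors hl)]
    split_ifs with h
    · have hg := (selbergTerms_pos (s := s) (Nat.dvd_of_mem_divisors hl)).ne'
      have hμ : ((μ l : ℤ) : ℝ) ^ 2 = 1 := by
        have : (μ l) ^ 2 = 1 := moebius_sq_eq_one_of_squarefree
          (squarefree_of_mem_divisors_prodPrimes hl)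
        exact_mod_cast this
      calc (s.selbergTerms l)⁻¹ * ((selS s R)⁻¹ * (μ l : ℝ) * s.selbergTerms l) ^ 2
          = (selS s R)⁻¹ ^ 2 * ((μ l : ℝ) ^ 2) * ((s.selbergTerms l)⁻¹ * s.selbergTerms l)
              * s.selbergTerms l := by ring
        _ = (selS s R)⁻¹ ^ 2 * s.selbergTerms l := by
          rw [hμ, inv_mul_cancel₀ hg]; ring
    · simp
  rw [Finset.sum_congr rfl h1, ← Finset.sum_filter, ← Finset.mul_sum]
  change (selS s R)⁻¹ ^ 2 * selS s R = (selS s R)⁻¹
  field_simp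

theorem selW_eq_zero {d : ℕ} (hd : R < d) : selW s R d = 0 := by
  unfold selW
  rw [Finset.sum_eq_zero, mul_zero]
  intro l hl
  rw [Finset.mem_filter, Nat.mem_divisors] at hl
  exfalso
  have hl0 : 0 < l := Nat.pos_of_ne_zero (fun h => by
    rw [h] at hl; exact hl.1.2 (Nat.eq_zero_of_zero_dvd hl.1.1))
  have : d ≤ l := Nat.le_of_dvd hl0 hl.2.1
  have : (d : ℝ) ≤ l := by exact_mod_cast this
  linarith [hl.2.2]

theorem abs_selW_le (hR : 1 ≤ R) {d : ℕ} (hd : d ∣ s.prodPrimes) :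
    |selW s R d| ≤ (s.nu d)⁻¹ := by
  unfold selW
  have hnu : 0 < s.nu d := nu_pos_of_dvd_prodPrimes hd
  have hS := selS_pos s R hR
  have h1 : (∑ l ∈ (divisors s.prodPrimes).filter (fun l : ℕ => d ∣ l ∧ (l : ℝ) ≤ R),
      s.selbergTerms l) ≤ selS s R := by
    unfold selS
    apply Finset.sum_le_sum_of_subset_of_nonneg
    · intro l; simp only [Finset.mem_filter]; tauto
    · intro l hl _
      rw [Finset.mem_filter, Nat.mem_divisors] at hl
      exact (selbergTerms_pos hl.1.1).le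
  have h0 : 0 ≤ (∑ l ∈ (divisors s.prodPrimes).filter (fun l : ℕ => d ∣ l ∧ (l : ℝ) ≤ R),
      s.selbergTerms l) := by
    apply Finset.sum_nonneg
    intro l hl
    rw [Finset.mem_filter, Nat.mem_divisors] at hl
    exact (selbergTerms_pos hl.1.1).le
  have hμ : |((μ d : ℤ) : ℝ)| ≤ 1 := by
    have : |μ d| ≤ 1 := abs_moebius_le_one
    exact_mod_cast this
  rw [abs_mul, abs_mul, abs_mul, abs_of_nonneg h0, abs_of_pos (inv_pos.mpr hnu),
    abs_of_pos (inv_pos.mpr hS)]
  calc (s.nu d)⁻¹ * |((μ d : ℤ) : ℝ)| * (selS s R)⁻¹ *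
      ∑ l ∈ (divisors s.prodPrimes).filter (fun l : ℕ => d ∣ l ∧ (l : ℝ) ≤ R), s.selbergTerms l
      ≤ (s.nu d)⁻¹ * 1 * (selS s R)⁻¹ * selS s R := by gcongr
    _ = (s.nu d)⁻¹ := by field_simp

/-- Selberg's sieve with the crude bound for the weights. -/
theorem siftedSum_le_selberg (hR : 1 ≤ R) (E : ℝ) (hE : 0 ≤ E)
    (hrem : ∀ d, d ∣ s.prodPrimes → |s.rem d| ≤ E) :
    s.siftedSum ≤ s.totalMass / selS s R +
      E * (∑ d ∈ (divisors s.prodPrimes).filter (fun d : ℕ => (d : ℝ) ≤ R), (s.nu d)⁻¹) ^ 2 := by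
  have h := siftedSum_le_mainSum_errSum_of_upperMoebius (s := s)
    (lambdaSquared (selW s R)) (upperMoebius_lambdaSquared _ (selW_one s R hR))
  rw [mainSum_selW s R hR] at h
  refine h.trans ?_
  rw [div_eq_mul_inv]
  gcongr
  unfold errSum
  have h1 : ∀ d ∈ divisors s.prodPrimes, |lambdaSquared (selW s R) d| * |s.rem d| ≤
      ∑ d1 ∈ divisors s.prodPrimes, ∑ d2 ∈ divisors s.prodPrimes,
        if d = Nat.lcm d1 d2 then E * (|selW s R d1| * |selW s R d2|) else 0 := by
    intro d hd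
    have hdP := Nat.dvd_of_mem_divisors hd
    have h2 : |lambdaSquared (selW s R) d| ≤ ∑ d1 ∈ divisors s.prodPrimes,
        ∑ d2 ∈ divisors s.prodPrimes,
        if d = Nat.lcm d1 d2 then (|selW s R d1| * |selW s R d2|) else 0 := by
      unfold lambdaSquared
      refine (Finset.abs_sum_le_sum_abs _ _).trans ?_
      calc ∑ d1 ∈ d.divisors, |∑ d2 ∈ d.divisors,
            if d = Nat.lcm d1 d2 then selW s R d1 * selW s R d2 else 0|
          ≤ ∑ d1 ∈ d.divisors, ∑ d2 ∈ d.divisors,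
            if d = Nat.lcm d1 d2 then |selW s R d1| * |selW s R d2| else 0 := by
            apply Finset.sum_le_sum
            intro d1 _
            refine (Finset.abs_sum_le_sum_abs _ _).trans ?_
            apply Finset.sum_le_sum
            intro d2 _
            split_ifs
            · rw [abs_mul]
            · simp
        _ ≤ ∑ d1 ∈ d.divisors, ∑ d2 ∈ divisors s.prodPrimes,
            if d = Nat.lcm d1 d2 then |selW s R d1| * |selW s R d2| else 0 := by
            apply Finset.sum_le_sum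
            intro d1 _
            apply Finset.sum_le_sum_of_subset_of_nonneg
            · exact Nat.divisors_subset_of_dvd prodPrimes_ne_zero hdP
            · intro d2 _ _; split_ifs <;> positivity
        _ ≤ _ := by
            apply Finset.sum_le_sum_of_subset_of_nonneg
            · exact Nat.divisors_subset_of_dvd prodPrimes_ne_zero hdP
            · intro d1 _ _
              apply Finset.sum_nonneg
              intro d2 _; split_ifs <;> positivity
    calc |lambdaSquared (selW s R) d| * |s.rem d|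
        ≤ (∑ d1 ∈ divisors s.prodPrimes, ∑ d2 ∈ divisors s.prodPrimes,
        if d = Nat.lcm d1 d2 then (|selW s R d1| * |selW s R d2|) else 0) * E := by
          apply mul_le_mul h2 (hrem d hdP) (abs_nonneg _)
          apply Finset.sum_nonneg
          intro d1 _
          apply Finset.sum_nonneg
          intro d2 _
          split_ifs <;> positivity
      _ = _ := by
          rw [Finset.sum_mul]
          apply Finset.sum_congr rfl
          intro d1 _
          rw [Finset.sum_mul]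
          apply Finset.sum_congr rfl
          intro d2 _
          split_ifs
          · ring
          · simp
  refine (Finset.sum_le_sum h1).trans ?_
  rw [Finset.sum_comm]
  have h3 : ∀ d1 ∈ divisors s.prodPrimes, (∑ d ∈ divisors s.prodPrimes,
      ∑ d2 ∈ divisors s.prodPrimes,
        if d = Nat.lcm d1 d2 then E * (|selW s R d1| * |selW s R d2|) else 0) ≤
      ∑ d2 ∈ divisors s.prodPrimes, E * (|selW s R d1| * |selW s R d2|) := by
    intro d1 _
    rw [Finset.sum_comm]
    apply Finset.sum_le_sum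
    intro d2 _
    rw [Finset.sum_ite_eq']
    split_ifs
    · exact le_refl _
    · positivity
  refine (Finset.sum_le_sum h3).trans ?_
  have h4 : (∑ d1 ∈ divisors s.prodPrimes, ∑ d2 ∈ divisors s.prodPrimes,
      E * (|selW s R d1| * |selW s R d2|)) = E * (∑ d ∈ divisors s.prodPrimes, |selW s R d|) ^ 2 := by
    rw [sq, Finset.sum_mul_sum, Finset.mul_sum]
    apply Finset.sum_congr rfl
    intro d1 _
    rw [Finset.mul_sum]
  rw [h4]
  have h5 : (∑ d ∈ divisors s.prodPrimes, |selW s R d|) ≤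
      ∑ d ∈ (divisors s.prodPrimes).filter (fun d : ℕ => (d : ℝ) ≤ R), (s.nu d)⁻¹ := by
    rw [Finset.sum_filter]
    apply Finset.sum_le_sum
    intro d hd
    split_ifs with h
    · exact abs_selW_le s R hR (Nat.dvd_of_mem_divisors hd)
    · rw [selW_eq_zero s R (not_le.mp h), abs_zero]
  have h6 : 0 ≤ (∑ d ∈ divisors s.prodPrimes, |selW s R d|) :=
    Finset.sum_nonneg (fun _ _ => abs_nonneg _)
  gcongr

end Selberg

end Pool.Agent.Helper602.MK.V_J2.Helper601

end Vend1

section Vend2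

open Finset Nat ArithmeticFunction BoundingSieve

namespace Pool.Agent.Helper602.MK.V_J2.Helper601

/-- Product of the primes up to `R` that do not divide `q`. -/
def PP (q R : ℕ) : ℕ := ∏ p ∈ (Finset.Icc 1 R).filter (fun p => p.Prime ∧ ¬ p ∣ q), p

theorem PP_squarefree (q R : ℕ) : Squarefree (PP q R) := by
  unfold PP
  refine Finset.squarefree_prod_of_pairwise_isCoprime (fun p hp r hr hpr ↦ ?_) fun p hp ↦ ?_
  · have h1 := (Finset.mem_filter.mp hp).2.1
    have h2 := (Finset.mem_filter.mp hr).2.1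
    simp only [← coprime_iff_isRelPrime]
    exact (coprime_primes h1 h2).mpr hpr
  · exact (Finset.mem_filter.mp hp).2.1.squarefree

theorem prime_dvd_PP {q R p : ℕ} (hp : p.Prime) : p ∣ PP q R ↔ p ≤ R ∧ ¬ p ∣ q := by
  unfold PP
  rw [Prime.dvd_finsetProd_iff hp.prime]
  constructor
  · rintro ⟨r, hr, hpr⟩
    rw [Finset.mem_filter, Finset.mem_Icc] at hr
    have : p = r := (Nat.prime_dvd_prime_iff_eq hp hr.2.1).mp hpr
    subst this
    exact ⟨hr.1.2, hr.2.2⟩
  · rintro ⟨h1, h2⟩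
    refine ⟨p, ?_, dvd_rfl⟩
    rw [Finset.mem_filter, Finset.mem_Icc]
    exact ⟨⟨hp.one_lt.le, h1⟩, hp, h2⟩

theorem dvd_PP_of_squarefree {q R l : ℕ} (hl : Squarefree l) (hlR : l ≤ R)
    (hlq : Nat.Coprime l q) : l ∣ PP q R := by
  have hl0 : l ≠ 0 := hl.ne_zero
  rw [← Nat.prod_primeFactors_of_squarefree hl]
  unfold PP
  apply Finset.prod_dvd_prod_of_subset
  intro p hp
  rw [Nat.mem_primeFactors] at hp
  rw [Finset.mem_filter, Finset.mem_Icc]
  refine ⟨⟨hp.1.one_lt.le, (Nat.le_of_dvd (Nat.pos_of_ne_zero hl0) hp.2.1).trans hlR⟩, hp.1, ?_⟩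
  intro hpq
  have := Nat.dvd_gcd hp.2.1 hpq
  rw [hlq] at this
  exact hp.1.one_lt.ne' (Nat.dvd_one.mp this)

theorem coprime_of_dvd_PP {q R l : ℕ} (h : l ∣ PP q R) : Nat.Coprime l q := by
  rw [Nat.coprime_iff_gcd_eq_one]
  by_contra hne
  obtain ⟨p, hp, hpd⟩ := Nat.exists_prime_and_dvd hne
  have h1 : p ∣ l := hpd.trans (Nat.gcd_dvd_left _ _)
  have h2 : p ∣ q := hpd.trans (Nat.gcd_dvd_right _ _)
  exact ((prime_dvd_PP hp).mp (h1.trans h)).2 h2

/-- reciprocal as an arithmetic function -/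
noncomputable def invAF : ArithmeticFunction ℝ where
  toFun n := (n : ℝ)⁻¹
  map_zero' := by simp

theorem invAF_apply (n : ℕ) : invAF n = (n : ℝ)⁻¹ := rfl

theorem invAF_mult : invAF.IsMultiplicative := by
  refine ⟨by simp [invAF_apply], ?_⟩
  intro m n _
  simp [invAF_apply, mul_comm]

/-- count of solutions of a congruence -/
theorem count_dvd_AP {a q d N : ℕ} (hd : 0 < d) (hdq : Nat.Coprime d q) :
    |((((Finset.range N).filter (fun k => d ∣ a + k * q)).card : ℕ) : ℝ) - (N : ℝ) / d| ≤ 1 := by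
  -- find a residue
  obtain ⟨r, hr⟩ : ∃ r : ℕ, ∀ k : ℕ, d ∣ a + k * q ↔ k ≡ r [MOD d] := by
    -- choose r with a + r q ≡ 0 mod d
    obtain ⟨r, hr⟩ : ∃ r : ℕ, d ∣ a + r * q := by
      have : NeZero d := ⟨hd.ne'⟩
      refine ⟨((-(a : ZMod d)) * (q : ZMod d)⁻¹).val, ?_⟩
      rw [← ZMod.natCast_eq_zero_iff]
      push_cast
      rw [ZMod.natCast_zmod_val, mul_assoc, mul_comm ((q : ZMod d)⁻¹),
        ZMod.coe_mul_inv_eq_one q hdq.symm]
      ring
    refine ⟨r, fun k => ?_⟩
    constructor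
    · intro h
      have h1 : a + k * q ≡ a + r * q [MOD d] :=
        ((Nat.modEq_zero_iff_dvd.mpr h).trans (Nat.modEq_zero_iff_dvd.mpr hr).symm)
      have h2 : k * q ≡ r * q [MOD d] := Nat.ModEq.add_left_cancel' a h1
      exact Nat.ModEq.cancel_right_of_coprime hdq h2
    · intro h
      have h1 : a + k * q ≡ a + r * q [MOD d] := (h.mul_right q).add_left a
      exact Nat.modEq_zero_iff_dvd.mp (h1.trans (Nat.modEq_zero_iff_dvd.mpr hr))
  have hc : (((Finset.range N).filter (fun k => d ∣ a + k * q)).card) =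
      N / d + if r % d < N % d then 1 else 0 := by
    rw [← Nat.count_modEq_card N hd r, Nat.count_eq_card_filter_range]
    congr 1
    ext k
    simp [hr]
  rw [hc]
  have hd' : (0 : ℝ) < d := by exact_mod_cast hd
  have hN : (N : ℝ) / d = ((N / d : ℕ) : ℝ) + ((N % d : ℕ) : ℝ) / d := by
    have : (N : ℝ) = d * ((N / d : ℕ) : ℝ) + ((N % d : ℕ) : ℝ) := by
      exact_mod_cast (Nat.div_add_mod N d).symm
    rw [this]
    field_simp
  rw [hN]
  have h1 : 0 ≤ ((N % d : ℕ) : ℝ) / d := by positivity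
  have h2 : ((N % d : ℕ) : ℝ) / d ≤ 1 := by
    rw [div_le_one hd']
    exact_mod_cast (Nat.mod_lt _ hd).le
  rw [abs_le]
  split_ifs <;> push_cast <;> constructor <;> linarith

/-- The sieve for an arithmetic progression. -/
noncomputable def apSieve (a q N R : ℕ) : BoundingSieve where
  support := (Finset.range N).image (fun k => a + k * q)
  prodPrimes := PP q R
  prodPrimes_squarefree := PP_squarefree q R
  weights := fun _ => 1
  weights_nonneg := fun _ => zero_le_one
  totalMass := N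
  nu := invAF
  nu_mult := invAF_mult
  nu_pos_of_prime := by
    intro p hp _
    rw [invAF_apply]
    have : (0 : ℝ) < p := by exact_mod_cast hp.pos
    positivity
  nu_lt_one_of_prime := by
    intro p hp _
    rw [invAF_apply]
    have : (1 : ℝ) < p := by exact_mod_cast hp.one_lt
    exact inv_lt_one_of_one_lt₀ this

theorem apSieve_rem {a q N R d : ℕ} (hq : 0 < q) (hd : d ∣ PP q R) :
    |(apSieve a q N R).rem d| ≤ 1 := by
  have hd0 : 0 < d := Nat.pos_of_ne_zero (ne_zero_of_dvd_ne_zero (PP_squarefree q R).ne_zero hd)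
  have h := count_dvd_AP (a := a) (N := N) hd0 (coprime_of_dvd_PP hd)
  simp only [BoundingSieve.rem, BoundingSieve.multSum, apSieve]
  rw [Finset.sum_image (by
    intro x _ y _ hxy
    simp only at hxy
    exact Nat.eq_of_mul_eq_mul_right hq (by omega))]
  rw [← Finset.sum_filter, Finset.sum_const, nsmul_eq_mul, mul_one, invAF_apply]
  convert h using 2
  ring

theorem selS_ge (a q N R : ℕ) :
    (∑ l ∈ (Finset.Icc 1 R).filter (fun l => Squarefree l ∧ Nat.Coprime l q), (l : ℝ)⁻¹) ≤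
      selS (apSieve a q N R) R := by
  unfold selS
  have h1 : ∀ l ∈ (Finset.Icc 1 R).filter (fun l => Squarefree l ∧ Nat.Coprime l q),
      (l : ℝ)⁻¹ ≤ (apSieve a q N R).selbergTerms l := by
    intro l hl
    rw [Finset.mem_filter, Finset.mem_Icc] at hl
    rw [selbergTerms_apply]
    change (l : ℝ)⁻¹ ≤ (l : ℝ)⁻¹ * _
    have hl0 : (0 : ℝ) < l := by exact_mod_cast hl.1.1
    have : (1 : ℝ) ≤ ∏ p ∈ l.primeFactors, (1 - (apSieve a q N R).nu p)⁻¹ := by
      have h0 : (∏ _p ∈ l.primeFactors, (1 : ℝ)) ≤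
          ∏ p ∈ l.primeFactors, (1 - (apSieve a q N R).nu p)⁻¹ := by
        apply Finset.prod_le_prod (fun _ _ => zero_le_one)
        intro p hp
        have hpp := (Nat.mem_primeFactors.mp hp).1
        have hp1 : (1 : ℝ) < p := by exact_mod_cast hpp.one_lt
        change (1 : ℝ) ≤ (1 - (p : ℝ)⁻¹)⁻¹
        rw [one_le_inv₀]
        · have : 0 < (p : ℝ)⁻¹ := by positivity
          linarith
        · have : (p : ℝ)⁻¹ < 1 := inv_lt_one_of_one_lt₀ hp1
          linarith
      rwa [Finset.prod_const_one] at h0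
    exact le_mul_of_one_le_right (by positivity) this
  refine (Finset.sum_le_sum h1).trans ?_
  apply Finset.sum_le_sum_of_subset_of_nonneg
  · intro l hl
    rw [Finset.mem_filter, Finset.mem_Icc] at hl
    rw [Finset.mem_filter, Nat.mem_divisors]
    exact ⟨⟨dvd_PP_of_squarefree hl.2.1 hl.1.2 hl.2.2, (PP_squarefree q R).ne_zero⟩,
      by exact_mod_cast hl.1.2⟩
  · intro l hl _
    rw [Finset.mem_filter, Nat.mem_divisors] at hl
    exact (selbergTerms_pos (s := apSieve a q N R) hl.1.1).le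

theorem sum_inv_sq_le (R : ℕ) : (∑ k ∈ Finset.Icc 1 R, ((k : ℝ) ^ 2)⁻¹) ≤ 2 := by
  have : ∀ n : ℕ, (∑ k ∈ Finset.Icc 1 (n + 1), ((k : ℝ) ^ 2)⁻¹) ≤ 2 - 1 / ((n : ℝ) + 1) := by
    intro n
    induction n with
    | zero => norm_num
    | succ n ih =>
      rw [Finset.sum_Icc_succ_top (by omega)]
      have h1 : (0 : ℝ) < (n : ℝ) + 1 := by positivity
      have h2 : (0 : ℝ) < (n : ℝ) + 1 + 1 := by positivity
      have h3 : (((n : ℝ) + 1 + 1) ^ 2)⁻¹ ≤ 1 / ((n : ℝ) + 1) - 1 / ((n : ℝ) + 1 + 1) := by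
        rw [div_sub_div _ _ h1.ne' h2.ne', inv_eq_one_div, div_le_div_iff₀ (by positivity) (by positivity)]
        nlinarith
      push_cast
      linarith
  rcases R with _ | n
  · simp
  · have h := this n
    have : 0 ≤ 1 / ((n : ℝ) + 1) := by positivity
    linarith

theorem sum_inv_le_two_mul (q R : ℕ) :
    (∑ n ∈ (Finset.Icc 1 R).filter (fun n => Nat.Coprime n q), (n : ℝ)⁻¹) ≤
    2 * (∑ l ∈ (Finset.Icc 1 R).filter (fun l => Squarefree l ∧ Nat.Coprime l q), (l : ℝ)⁻¹) := by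
  classical
  have key : ∀ n : ℕ, 0 < n → ∃ a b : ℕ, 0 < a ∧ 0 < b ∧ b ^ 2 * a = n ∧ Squarefree a :=
    fun n hn => Nat.sq_mul_squarefree_of_pos hn
  choose! fa fb hfa hfb hmul hsq using key
  set A := (Finset.Icc 1 R).filter (fun l => Squarefree l ∧ Nat.Coprime l q) with hA
  set S := (Finset.Icc 1 R).filter (fun n => Nat.Coprime n q) with hS
  have hSpos : ∀ n ∈ S, 0 < n := by
    intro n hn
    rw [hS, Finset.mem_filter, Finset.mem_Icc] at hn
    omega
  have h1 : (∑ n ∈ S, (n : ℝ)⁻¹) =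
      ∑ x ∈ S.image (fun n => (fa n, fb n)), ((x.1 : ℝ)⁻¹ * ((x.2 : ℝ) ^ 2)⁻¹) := by
    rw [Finset.sum_image]
    · apply Finset.sum_congr rfl
      intro n hn
      have := hmul n (hSpos n hn)
      rw [← mul_inv]
      congr 1
      have h2 : ((fb n ^ 2 * fa n : ℕ) : ℝ) = n := by rw [this]
      push_cast at h2
      simp only
      rw [← h2]; ring
    · intro n hn m hm hnm
      simp only [Prod.mk.injEq] at hnm
      rw [← hmul n (hSpos n hn), ← hmul m (hSpos m hm), hnm.1, hnm.2]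
  rw [h1]
  have h2 : S.image (fun n => (fa n, fb n)) ⊆ A ×ˢ (Finset.Icc 1 R) := by
    intro x hx
    rw [Finset.mem_image] at hx
    obtain ⟨n, hn, rfl⟩ := hx
    have hpos := hSpos n hn
    rw [hS, Finset.mem_filter, Finset.mem_Icc] at hn
    have hm := hmul n hpos
    have hfapos := hfa n hpos
    have hfbpos := hfb n hpos
    rw [Finset.mem_product, hA, Finset.mem_filter, Finset.mem_Icc, Finset.mem_Icc]
    have hdvd : fa n ∣ n := ⟨fb n ^ 2, by rw [mul_comm]; exact hm.symm⟩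
    have hdvd2 : fb n ∣ n := ⟨fb n * fa n, by rw [← mul_assoc, ← sq]; exact hm.symm⟩
    refine ⟨⟨⟨hfapos, (Nat.le_of_dvd hpos hdvd).trans hn.1.2⟩, hsq n hpos,
      Nat.Coprime.coprime_dvd_left hdvd hn.2⟩, hfbpos, (Nat.le_of_dvd hpos hdvd2).trans hn.1.2⟩
  refine (Finset.sum_le_sum_of_subset_of_nonneg h2 (fun _ _ _ => by positivity)).trans ?_
  rw [Finset.sum_product]
  have h3 : ∀ l ∈ A, (∑ k ∈ Finset.Icc 1 R, ((l : ℝ)⁻¹ * ((k : ℝ) ^ 2)⁻¹)) ≤ (l : ℝ)⁻¹ * 2 := by
    intro l _
    rw [← Finset.mul_sum]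
    have := sum_inv_sq_le R
    gcongr
  refine (Finset.sum_le_sum h3).trans ?_
  rw [← Finset.sum_mul, mul_comm]

end Pool.Agent.Helper602.MK.V_J2.Helper601

end Vend2

section Vend3

open Finset Nat ArithmeticFunction BoundingSieve

namespace Pool.Agent.Helper602.MK.V_J2.Helper601.HK

open Pool.Agent.Helper602.MK.V_J2.Helper601

/-- count of multiples in an interval -/
theorem count_dvd_Ioc {a u d : ℕ} (hd : 0 < d) :
    |((((Finset.Ioc a (a + u)).filter (fun n => d ∣ n)).card : ℕ) : ℝ) - (u : ℝ) / d| ≤ 1 := by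
  have h := count_dvd_AP (a := a + 1) (q := 1) (d := d) (N := u) hd (Nat.coprime_one_right d)
  have e : ((Finset.Ioc a (a + u)).filter (fun n => d ∣ n)).card =
      ((Finset.range u).filter (fun k => d ∣ a + 1 + k * 1)).card := by
    symm
    apply Finset.card_bij (fun k _ => a + 1 + k)
    · intro k hk
      rw [Finset.mem_filter, Finset.mem_range] at hk
      rw [Finset.mem_filter, Finset.mem_Ioc]
      refine ⟨⟨by omega, by omega⟩, ?_⟩
      simpa using hk.2
    · intro x _ y _ hxy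
      omega
    · intro n hn
      rw [Finset.mem_filter, Finset.mem_Ioc] at hn
      refine ⟨n - (a + 1), ?_, by omega⟩
      rw [Finset.mem_filter, Finset.mem_range]
      refine ⟨by omega, ?_⟩
      have : a + 1 + (n - (a + 1)) * 1 = n := by omega
      rw [this]; exact hn.2
  rw [e]; exact h

/-- The sieve for an interval by the primes up to `R` not dividing `q`. -/
noncomputable def ivSieve (a u q R : ℕ) : BoundingSieve where
  support := Finset.Ioc a (a + u)
  prodPrimes := PP q R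
  prodPrimes_squarefree := PP_squarefree q R
  weights := fun _ => 1
  weights_nonneg := fun _ => zero_le_one
  totalMass := u
  nu := invAF
  nu_mult := invAF_mult
  nu_pos_of_prime := by
    intro p hp _
    rw [invAF_apply]
    have : (0 : ℝ) < p := by exact_mod_cast hp.pos
    positivity
  nu_lt_one_of_prime := by
    intro p hp _
    rw [invAF_apply]
    have : (1 : ℝ) < p := by exact_mod_cast hp.one_lt
    exact inv_lt_one_of_one_lt₀ this

theorem ivSieve_rem {a u q R d : ℕ} (hd : d ∣ PP q R) :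
    |(ivSieve a u q R).rem d| ≤ 1 := by
  have hd0 : 0 < d := Nat.pos_of_ne_zero (ne_zero_of_dvd_ne_zero (PP_squarefree q R).ne_zero hd)
  have h := count_dvd_Ioc (a := a) (u := u) hd0
  simp only [BoundingSieve.rem, BoundingSieve.multSum, ivSieve]
  rw [← Finset.sum_filter, Finset.sum_const, nsmul_eq_mul, mul_one, invAF_apply]
  convert h using 2
  ring

theorem ivSelS_ge (a u q R : ℕ) :
    (∑ l ∈ (Finset.Icc 1 R).filter (fun l => Squarefree l ∧ Nat.Coprime l q), (l : ℝ)⁻¹) ≤
      selS (ivSieve a u q R) R := by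
  unfold selS
  have h1 : ∀ l ∈ (Finset.Icc 1 R).filter (fun l => Squarefree l ∧ Nat.Coprime l q),
      (l : ℝ)⁻¹ ≤ (ivSieve a u q R).selbergTerms l := by
    intro l hl
    rw [Finset.mem_filter, Finset.mem_Icc] at hl
    rw [selbergTerms_apply]
    change (l : ℝ)⁻¹ ≤ (l : ℝ)⁻¹ * _
    have hl0 : (0 : ℝ) < l := by exact_mod_cast hl.1.1
    have : (1 : ℝ) ≤ ∏ p ∈ l.primeFactors, (1 - (ivSieve a u q R).nu p)⁻¹ := by
      have h0 : (∏ _p ∈ l.primeFactors, (1 : ℝ)) ≤
          ∏ p ∈ l.primeFactors, (1 - (ivSieve a u q R).nu p)⁻¹ := by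
        apply Finset.prod_le_prod (fun _ _ => zero_le_one)
        intro p hp
        have hpp := (Nat.mem_primeFactors.mp hp).1
        have hp1 : (1 : ℝ) < p := by exact_mod_cast hpp.one_lt
        change (1 : ℝ) ≤ (1 - (p : ℝ)⁻¹)⁻¹
        rw [one_le_inv₀]
        · have : 0 < (p : ℝ)⁻¹ := by positivity
          linarith
        · have : (p : ℝ)⁻¹ < 1 := inv_lt_one_of_one_lt₀ hp1
          linarith
      rwa [Finset.prod_const_one] at h0
    exact le_mul_of_one_le_right (by positivity) this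
  refine (Finset.sum_le_sum h1).trans ?_
  apply Finset.sum_le_sum_of_subset_of_nonneg
  · intro l hl
    rw [Finset.mem_filter, Finset.mem_Icc] at hl
    rw [Finset.mem_filter, Nat.mem_divisors]
    exact ⟨⟨dvd_PP_of_squarefree hl.2.1 hl.1.2 hl.2.2, (PP_squarefree q R).ne_zero⟩,
      by exact_mod_cast hl.1.2⟩
  · intro l hl _
    rw [Finset.mem_filter, Nat.mem_divisors] at hl
    exact (selbergTerms_pos (s := ivSieve a u q R) hl.1.1).le

open Classical in
/-- sum over smooth numbers, inverse form -/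
theorem sum_factored (S : Finset ℕ) (N : ℕ) :
    (∑ d ∈ (Finset.Icc 1 N).filter (fun d => ∀ l : ℕ, l.Prime → l ∣ d → l ∈ S), (d : ℝ)⁻¹) ≤
      Real.exp (∑ q ∈ S.filter Nat.Prime, 2 / (q : ℝ)) := by
  let f : ℕ →* ℝ :=
    { toFun := fun n => (n : ℝ)⁻¹
      map_one' := by simp
      map_mul' := by intro x y; push_cast; rw [mul_inv] }
  have hf : ∀ {p : ℕ}, p.Prime → ‖f p‖ < 1 := by
    intro p hp
    change ‖(p : ℝ)⁻¹‖ < 1
    rw [norm_inv, RCLike.norm_natCast]
    exact inv_lt_one_of_one_lt₀ (by exact_mod_cast hp.one_lt)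
  have h := EulerProduct.summable_and_hasSum_factoredNumbers_prod_filter_prime_geometric
    (f := f) (fun {p} hp => hf hp) S
  have hsum := h.2
  have h1 : (∑ d ∈ (Finset.Icc 1 N).filter (fun d => ∀ l : ℕ, l.Prime → l ∣ d → l ∈ S),
      (d : ℝ)⁻¹) ≤ ∏ p ∈ S.filter Nat.Prime, (1 - f p)⁻¹ := by
    set G := (Finset.Icc 1 N).filter (fun d => ∀ l : ℕ, l.Prime → l ∣ d → l ∈ S) with hG
    have hmem : ∀ d ∈ G, d ∈ Nat.factoredNumbers S := by
      intro d hd
      rw [hG, Finset.mem_filter, Finset.mem_Icc] at hd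
      rw [Nat.mem_factoredNumbers']
      exact fun p hp hpd => hd.2 p hp hpd
    let e : {x // x ∈ G} ↪ (Nat.factoredNumbers S : Set ℕ) :=
      ⟨fun d => ⟨d.1, hmem d.1 d.2⟩, by
        intro x y hxy
        have := congrArg Subtype.val hxy
        exact Subtype.ext this⟩
    have : (∑ d ∈ G, (d : ℝ)⁻¹) = ∑ m ∈ G.attach.map e, f m := by
      rw [← Finset.sum_attach, Finset.sum_map]
      rfl
    rw [this]
    exact sum_le_hasSum _ (fun i _ => by
      change 0 ≤ ((i : ℕ) : ℝ)⁻¹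
      positivity) hsum
  refine h1.trans ?_
  rw [Real.exp_sum]
  apply Finset.prod_le_prod
  · intro q hq
    have hp := (Finset.mem_filter.mp hq).2
    change 0 ≤ (1 - (q : ℝ)⁻¹)⁻¹
    have : (q : ℝ)⁻¹ < 1 := inv_lt_one_of_one_lt₀ (by exact_mod_cast hp.one_lt)
    apply inv_nonneg.mpr; linarith
  · intro q hq
    have hp := (Finset.mem_filter.mp hq).2
    have hq2 : (2 : ℝ) ≤ q := by exact_mod_cast hp.two_le
    change (1 - (q : ℝ)⁻¹)⁻¹ ≤ _
    have hx : (q : ℝ)⁻¹ ≤ 1 / 2 := by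
      rw [inv_eq_one_div]; exact one_div_le_one_div_of_le (by norm_num) hq2
    have hx0 : 0 < (q : ℝ)⁻¹ := by positivity
    set x := (q : ℝ)⁻¹
    have e : 2 / (q : ℝ) = 2 * x := by rw [div_eq_mul_inv]
    rw [e, inv_le_comm₀ (by linarith) (Real.exp_pos _), ← Real.exp_neg]
    have h2 := Real.exp_bound' (x := 2 * x) (by linarith) (by linarith) (n := 2) (by norm_num)
    -- exp(-2x) ≤ 1 - x
    have h3 : 1 + 2 * x ≤ Real.exp (2 * x) := by linarith [Real.add_one_le_exp (2 * x)]
    have h4 : Real.exp (-(2 * x)) ≤ 1 / (1 + 2 * x) := by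
      rw [Real.exp_neg, inv_eq_one_div]
      exact one_div_le_one_div_of_le (by linarith) h3
    refine h4.trans ?_
    rw [div_le_iff₀ (by linarith)]
    nlinarith

open Classical in
/-- harmonic sum is bounded by coprime sum times smooth sum -/
theorem harmonic_le_mul (S : Finset ℕ) (q R : ℕ)
    (hq : ∀ l : ℕ, l.Prime → l ≤ R → (l ∣ q ↔ l ∈ S)) :
    (∑ n ∈ Finset.Icc 1 R, (n : ℝ)⁻¹) ≤
      (∑ n ∈ (Finset.Icc 1 R).filter (fun n => Nat.Coprime n q), (n : ℝ)⁻¹) *
        (∑ d ∈ (Finset.Icc 1 R).filter (fun d => ∀ l : ℕ, l.Prime → l ∣ d → l ∈ S), (d : ℝ)⁻¹) := by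
  -- each n = m * d, m coprime to q, d smooth
  have key : ∀ n : ℕ, 1 ≤ n → n ≤ R → ∃ m d : ℕ, m * d = n ∧ Nat.Coprime m q ∧
      ∀ l : ℕ, l.Prime → l ∣ d → l ∈ S := by
    intro n
    induction n using Nat.strong_induction_on with
    | _ n ih =>
      intro h1 hR
      by_cases hc : Nat.Coprime n q
      · refine ⟨n, 1, by ring, hc, ?_⟩
        intro l hl hld
        exact absurd (Nat.dvd_one.mp hld) hl.one_lt.ne'
      · obtain ⟨l, hl, hlg⟩ := Nat.exists_prime_and_dvd hc
        have hln : l ∣ n := hlg.trans (Nat.gcd_dvd_left _ _)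
        have hlq : l ∣ q := hlg.trans (Nat.gcd_dvd_right _ _)
        obtain ⟨c, rfl⟩ := hln
        have hc0 : 0 < c := by
          rcases Nat.eq_zero_or_pos c with h | h
          · subst h; omega
          · exact h
        have hlt : c < l * c := by
          have := hl.two_le
          nlinarith
        obtain ⟨m, d, hmd, hm, hd⟩ := ih c hlt hc0 (by omega)
        refine ⟨m, l * d, by rw [← hmd]; ring, hm, ?_⟩
        intro r hr hrd
        rcases (Nat.Prime.dvd_mul hr).mp hrd with h | h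
        · have : r = l := (Nat.prime_dvd_prime_iff_eq hr hl).mp h
          subst this
          refine (hq r hr ?_).mp hlq
          exact (Nat.le_mul_of_pos_right r hc0).trans hR
        · exact hd r hr h
  choose! fm fd hmul hcop hsm using key
  rw [Finset.sum_mul_sum, ← Finset.sum_product']
  have h1 : (∑ n ∈ Finset.Icc 1 R, (n : ℝ)⁻¹) =
      ∑ x ∈ (Finset.Icc 1 R).image (fun n => (fm n, fd n)), ((x.1 : ℝ)⁻¹ * (x.2 : ℝ)⁻¹) := by
    rw [Finset.sum_image]
    · apply Finset.sum_congr rfl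
      intro n hn
      rw [Finset.mem_Icc] at hn
      have := hmul n hn.1 hn.2
      rw [← mul_inv]
      congr 1
      exact_mod_cast this.symm
    · intro n hn m hm hnm
      rw [Finset.mem_coe, Finset.mem_Icc] at hn hm
      simp only [Prod.mk.injEq] at hnm
      rw [← hmul n hn.1 hn.2, ← hmul m hm.1 hm.2, hnm.1, hnm.2]
  rw [h1]
  apply Finset.sum_le_sum_of_subset_of_nonneg
  · intro x hx
    rw [Finset.mem_image] at hx
    obtain ⟨n, hn, rfl⟩ := hx
    rw [Finset.mem_Icc] at hn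
    have hm := hmul n hn.1 hn.2
    have hpos1 : 0 < fm n := by
      rcases Nat.eq_zero_or_pos (fm n) with h | h
      · rw [h] at hm; omega
      · exact h
    have hpos2 : 0 < fd n := by
      rcases Nat.eq_zero_or_pos (fd n) with h | h
      · rw [h] at hm; omega
      · exact h
    rw [Finset.mem_product, Finset.mem_filter, Finset.mem_filter, Finset.mem_Icc, Finset.mem_Icc]
    refine ⟨⟨⟨hpos1, ?_⟩, hcop n hn.1 hn.2⟩, ⟨hpos2, ?_⟩, hsm n hn.1 hn.2⟩
    · exact le_trans (Nat.le_mul_of_pos_right _ hpos2) (by rw [hm]; exact hn.2)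
    · exact le_trans (Nat.le_mul_of_pos_left _ hpos1) (by rw [hm]; exact hn.2)
  · intro x _ _
    positivity

theorem ivSelS_ge_log (S : Finset ℕ) (a u R : ℕ) (q : ℕ)
    (hq : ∀ l : ℕ, l.Prime → l ≤ R → (l ∣ q ↔ l ∈ S)) :
    Real.log ((R : ℝ) + 1) / (2 * Real.exp (∑ q ∈ S.filter Nat.Prime, 2 / (q : ℝ))) ≤
      selS (ivSieve a u q R) R := by
  have h1 := ivSelS_ge a u q R
  have h2 := sum_inv_le_two_mul q R
  have h3 := harmonic_le_mul S q R hq
  have h4 := log_add_one_le_harmonic R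
  have h5 := sum_factored S R
  rw [harmonic_eq_sum_Icc] at h4
  push_cast at h4
  set A := ∑ n ∈ (Finset.Icc 1 R).filter (fun n => Nat.Coprime n q), (n : ℝ)⁻¹ with hA
  set E := Real.exp (∑ q ∈ S.filter Nat.Prime, 2 / (q : ℝ)) with hE
  have hE0 : 0 < E := Real.exp_pos _
  have hA0 : 0 ≤ A := Finset.sum_nonneg (fun _ _ => by positivity)
  have h6 : Real.log ((R : ℝ) + 1) ≤ A * E := by
    calc Real.log ((R : ℝ) + 1) ≤ ∑ n ∈ Finset.Icc 1 R, (n : ℝ)⁻¹ := h4
      _ ≤ _ := h3
      _ ≤ A * E := mul_le_mul_of_nonneg_left h5 hA0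
  rw [div_le_iff₀ (by positivity)]
  calc Real.log ((R : ℝ) + 1) ≤ A * E := h6
    _ ≤ (2 * selS (ivSieve a u q R) R) * E := by
        apply mul_le_mul_of_nonneg_right _ hE0.le
        linarith
    _ = _ := by ring

open Classical in
/-- Selberg bound with an explicit level. -/
theorem sieve_aux (S : Finset ℕ) (a u R : ℕ) (hR : 1 ≤ R) (hS : ∀ q ∈ S, q.Prime ∧ q ≤ R) :
    (((Finset.Ioc a (a + u)).filter
      (fun n => ∀ l : ℕ, l.Prime → l ≤ R → l ∣ n → l ∈ S)).card : ℝ) ≤
      2 * u / Real.log ((R : ℝ) + 1) * Real.exp (∑ q ∈ S, 2 / (q : ℝ)) + (R : ℝ) ^ 4 := by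
  set q : ℕ := ∏ s ∈ S, s with hqdef
  have hq : ∀ l : ℕ, l.Prime → l ≤ R → (l ∣ q ↔ l ∈ S) := by
    intro l hl _
    rw [hqdef, Prime.dvd_finsetProd_iff hl.prime]
    constructor
    · rintro ⟨s, hs, hls⟩
      have : l = s := (Nat.prime_dvd_prime_iff_eq hl (hS s hs).1).mp hls
      rw [this]; exact hs
    · intro h; exact ⟨l, h, dvd_rfl⟩
  have hSf : S.filter Nat.Prime = S := Finset.filter_true_of_mem (fun s hs => (hS s hs).1)
  have hR' : (1 : ℝ) ≤ R := by exact_mod_cast hR
  have e : (((Finset.Ioc a (a + u)).filter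
      (fun n => ∀ l : ℕ, l.Prime → l ≤ R → l ∣ n → l ∈ S)).card : ℝ) ≤
      (ivSieve a u q R).siftedSum := by
    unfold BoundingSieve.siftedSum
    have h0 : (ivSieve a u q R).support = Finset.Ioc a (a + u) := rfl
    have h' : ∀ n, (ivSieve a u q R).weights n = 1 := fun _ => rfl
    have h'' : (ivSieve a u q R).prodPrimes = PP q R := rfl
    rw [h0]
    simp only [h', h'']
    rw [← Finset.sum_filter, Finset.sum_const, nsmul_eq_mul, mul_one]
    have : ((Finset.Ioc a (a + u)).filter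
      (fun n => ∀ l : ℕ, l.Prime → l ≤ R → l ∣ n → l ∈ S)).card ≤
      ((Finset.Ioc a (a + u)).filter (fun n => Nat.Coprime (PP q R) n)).card := by
      apply Finset.card_le_card
      intro n hn
      rw [Finset.mem_filter] at hn ⊢
      refine ⟨hn.1, ?_⟩
      by_contra hc
      obtain ⟨l, hl, hlg⟩ := Nat.exists_prime_and_dvd hc
      have h1 : l ∣ PP q R := hlg.trans (Nat.gcd_dvd_left _ _)
      have h2 : l ∣ n := hlg.trans (Nat.gcd_dvd_right _ _)
      have h3 := (prime_dvd_PP hl).mp h1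
      exact h3.2 ((hq l hl h3.1).mpr (hn.2 l hl h3.1 h2))
    exact_mod_cast this
  have h2 := siftedSum_le_selberg (ivSieve a u q R) (R : ℝ) hR' 1 zero_le_one
    (fun d hd => ivSieve_rem hd)
  have h3 := ivSelS_ge_log S a u R q hq
  rw [hSf] at h3
  set E := Real.exp (∑ q ∈ S, 2 / (q : ℝ)) with hE
  have hE0 : 0 < E := Real.exp_pos _
  have hlog : 0 < Real.log ((R : ℝ) + 1) := Real.log_pos (by linarith)
  have h4 : (ivSieve a u q R).totalMass / selS (ivSieve a u q R) R ≤
      2 * u / Real.log ((R : ℝ) + 1) * E := by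
    change (u : ℝ) / _ ≤ _
    have : (u : ℝ) / selS (ivSieve a u q R) R ≤ (u : ℝ) / (Real.log ((R : ℝ) + 1) / (2 * E)) := by
      apply div_le_div_of_nonneg_left (by positivity) (by positivity) h3
    refine this.trans (le_of_eq ?_)
    field_simp
  have h5 : (∑ d ∈ (divisors (ivSieve a u q R).prodPrimes).filter (fun d : ℕ => (d : ℝ) ≤ R),
      ((ivSieve a u q R).nu d)⁻¹) ≤ (R : ℝ) ^ 2 := by
    have h6 : (divisors (ivSieve a u q R).prodPrimes).filter (fun d : ℕ => (d : ℝ) ≤ R) ⊆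
        Finset.Icc 1 R := by
      intro d hd
      rw [Finset.mem_filter, Nat.mem_divisors] at hd
      rw [Finset.mem_Icc]
      refine ⟨Nat.pos_of_ne_zero (ne_zero_of_dvd_ne_zero hd.1.2 hd.1.1), by exact_mod_cast hd.2⟩
    calc (∑ d ∈ (divisors (ivSieve a u q R).prodPrimes).filter (fun d : ℕ => (d : ℝ) ≤ R),
          ((ivSieve a u q R).nu d)⁻¹)
        = ∑ d ∈ (divisors (ivSieve a u q R).prodPrimes).filter (fun d : ℕ => (d : ℝ) ≤ R),
          (d : ℝ) := by
          apply Finset.sum_congr rfl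
          intro d _
          change ((d : ℝ)⁻¹)⁻¹ = d
          rw [inv_inv]
      _ ≤ ∑ d ∈ Finset.Icc 1 R, (d : ℝ) :=
          Finset.sum_le_sum_of_subset_of_nonneg h6 (fun _ _ _ => by positivity)
      _ ≤ ∑ d ∈ Finset.Icc 1 R, (R : ℝ) := by
          apply Finset.sum_le_sum
          intro d hd
          exact_mod_cast (Finset.mem_Icc.mp hd).2
      _ = (R : ℝ) ^ 2 := by simp; ring
  have h7 : 0 ≤ (∑ d ∈ (divisors (ivSieve a u q R).prodPrimes).filter (fun d : ℕ => (d : ℝ) ≤ R),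
      ((ivSieve a u q R).nu d)⁻¹) := by
    apply Finset.sum_nonneg
    intro d _
    change 0 ≤ ((d : ℝ)⁻¹)⁻¹
    positivity
  have h8 : (∑ d ∈ (divisors (ivSieve a u q R).prodPrimes).filter (fun d : ℕ => (d : ℝ) ≤ R),
      ((ivSieve a u q R).nu d)⁻¹) ^ 2 ≤ (R : ℝ) ^ 4 := by
    calc _ ≤ ((R : ℝ) ^ 2) ^ 2 := by gcongr
      _ = (R : ℝ) ^ 4 := by ring
  linarith

open Classical in
theorem sieve_smooth : ∃ C : ℝ, 1 ≤ C ∧ ∀ (S : Finset ℕ) (a u : ℕ), 2 ≤ u →
    (((Finset.Ioc a (a + u)).filter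
      (fun n => ∀ l : ℕ, l.Prime → l ≤ u → l ∣ n → l ∈ S)).card : ℝ)
      ≤ C * u / Real.log u * Real.exp (∑ q ∈ S.filter (fun q => q.Prime ∧ q ≤ u), 2 / (q : ℝ)) := by
  refine ⟨18, by norm_num, ?_⟩
  intro S a u hu
  have hN' : (2 : ℝ) ≤ u := by exact_mod_cast hu
  have hN0 : (0 : ℝ) < u := by linarith
  have hlogN : 0 < Real.log u := Real.log_pos (by linarith)
  set x : ℝ := (u : ℝ) ^ ((1 : ℝ) / 8) with hx
  have hx1 : 1 ≤ x := Real.one_le_rpow (by linarith) (by norm_num)
  have hR : 1 ≤ ⌊x⌋₊ := Nat.floor_pos.mpr hx1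
  have hfl : (⌊x⌋₊ : ℝ) ≤ x := Nat.floor_le (by linarith)
  have hxu : x ≤ u := by
    calc x ≤ (u : ℝ) ^ (1 : ℝ) := Real.rpow_le_rpow_of_exponent_le (by linarith) (by norm_num)
      _ = u := Real.rpow_one _
  have hRu : ⌊x⌋₊ ≤ u := by exact_mod_cast hfl.trans hxu
  have h := sieve_aux (S.filter (fun q => q.Prime ∧ q ≤ ⌊x⌋₊)) a u ⌊x⌋₊ hR (by
    intro q hq; exact (Finset.mem_filter.mp hq).2)
  have h0 : ((Finset.Ioc a (a + u)).filter
      (fun n => ∀ l : ℕ, l.Prime → l ≤ u → l ∣ n → l ∈ S)).card ≤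
      ((Finset.Ioc a (a + u)).filter
      (fun n => ∀ l : ℕ, l.Prime → l ≤ ⌊x⌋₊ → l ∣ n →
        l ∈ S.filter (fun q => q.Prime ∧ q ≤ ⌊x⌋₊))).card := by
    apply Finset.card_le_card
    intro n hn
    rw [Finset.mem_filter] at hn ⊢
    refine ⟨hn.1, fun l hl hlR hln => ?_⟩
    rw [Finset.mem_filter]
    exact ⟨hn.2 l hl (hlR.trans hRu) hln, hl, hlR⟩
  have hfl2 : x < (⌊x⌋₊ : ℝ) + 1 := Nat.lt_floor_add_one x
  have hlogx : Real.log x = Real.log u / 8 := by
    rw [hx, Real.log_rpow hN0]; ring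
  have hlog2 : Real.log u / 8 ≤ Real.log ((⌊x⌋₊ : ℝ) + 1) := by
    rw [← hlogx]
    exact Real.log_le_log (by linarith) hfl2.le
  have hx4 : x ^ 4 = Real.sqrt u := by
    rw [hx, ← Real.rpow_natCast, ← Real.rpow_mul hN0.le, Real.sqrt_eq_rpow]
    norm_num
  have hsq : 0 < Real.sqrt u := Real.sqrt_pos.mpr hN0
  have hsq2 : Real.sqrt u * Real.sqrt u = u := Real.mul_self_sqrt hN0.le
  have hlogsq : Real.log u ≤ 2 * Real.sqrt u := by
    have h1 : Real.log (Real.sqrt u) ≤ Real.sqrt u - 1 := Real.log_le_sub_one_of_pos hsq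
    rw [Real.log_sqrt hN0.le] at h1
    linarith
  set E1 := Real.exp (∑ q ∈ S.filter (fun q => q.Prime ∧ q ≤ ⌊x⌋₊), 2 / (q : ℝ)) with hE1
  set E := Real.exp (∑ q ∈ S.filter (fun q => q.Prime ∧ q ≤ u), 2 / (q : ℝ)) with hE
  have hE1E : E1 ≤ E := by
    apply Real.exp_le_exp.mpr
    apply Finset.sum_le_sum_of_subset_of_nonneg
    · intro q hq
      rw [Finset.mem_filter] at hq ⊢
      exact ⟨hq.1, hq.2.1, hq.2.2.trans hRu⟩
    · intro _ _ _; positivity
  have hE1' : 1 ≤ E := Real.one_le_exp (Finset.sum_nonneg (fun _ _ => by positivity))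
  have h1 : 2 * (u : ℝ) / Real.log ((⌊x⌋₊ : ℝ) + 1) * E1 ≤ 16 * u / Real.log u * E := by
    have h2 : 2 * (u : ℝ) / Real.log ((⌊x⌋₊ : ℝ) + 1) ≤ 2 * (u : ℝ) / (Real.log u / 8) := by
      apply div_le_div_of_nonneg_left (by positivity) (by positivity) hlog2
    have h3 : 2 * (u : ℝ) / (Real.log u / 8) = 16 * u / Real.log u := by
      field_simp; norm_num
    rw [h3] at h2
    exact mul_le_mul h2 hE1E (Real.exp_pos _).le (by positivity)
  have h2 : (⌊x⌋₊ : ℝ) ^ 4 ≤ Real.sqrt u := by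
    rw [← hx4]; gcongr
  have h4 : Real.sqrt u ≤ 2 * u / Real.log u := by
    rw [le_div_iff₀ hlogN]
    nlinarith
  have h5 : 2 * (u : ℝ) / Real.log u ≤ 2 * u / Real.log u * E :=
    le_mul_of_one_le_right (by positivity) hE1'
  have h6 : 18 * (u : ℝ) / Real.log u * E = 16 * u / Real.log u * E + 2 * u / Real.log u * E := by
    ring
  rw [h6]
  have h7 : (((Finset.Ioc a (a + u)).filter
      (fun n => ∀ l : ℕ, l.Prime → l ≤ u → l ∣ n → l ∈ S)).card : ℝ) ≤
      (((Finset.Ioc a (a + u)).filter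
      (fun n => ∀ l : ℕ, l.Prime → l ≤ ⌊x⌋₊ → l ∣ n →
        l ∈ S.filter (fun q => q.Prime ∧ q ≤ ⌊x⌋₊))).card : ℝ) := by exact_mod_cast h0
  refine h7.trans ?_
  have h8 := h
  refine le_trans (le_of_eq ?_) (h8.trans ?_)
  · congr!
  · linarith

end Pool.Agent.Helper602.MK.V_J2.Helper601.HK

end Vend3

namespace Pool.Agent.Helper602.MK.N_J2

open Finset


theorem J2 : J2Stmt := by
  classical
  obtain ⟨C, hC1, hC⟩ := Pool.Agent.Helper602.MK.V_J2.Helper601.HK.sieve_smooth
  refine ⟨4 * C, by linarith, ?_⟩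
  intro y hy X Y hyY
  have hsub : ((rgh y (X + Y)).filter (fun m => X < m)) ⊆
      (Ioc X (X + Y)).filter (fun m => Rough y m) := by
    intro m hm
    unfold rgh at hm
    rw [mem_filter, mem_filter, mem_Icc] at hm
    rw [mem_filter, mem_Ioc]
    exact ⟨⟨hm.2, hm.1.1.2⟩, hm.1.2⟩
  have hy2 : (2 : ℝ) ≤ y := by exact_mod_cast hy
  have hlogy : 0 < Real.log y := Real.log_pos (by linarith)
  have hYr : (y : ℝ) ≤ Y := by exact_mod_cast hyY
  rcases Nat.eq_or_lt_of_le hy with h2 | h3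
  · subst h2
    have h1 : (((rgh 2 (X + Y)).filter (fun m => X < m)).card : ℝ) ≤ Y := by
      have := (card_le_card hsub).trans (card_filter_le _ _)
      rw [Nat.card_Ioc] at this
      have h4 : X + Y - X = Y := by omega
      rw [h4] at this
      exact_mod_cast this
    refine h1.trans ?_
    have h5 : Real.log ((2 : ℕ) : ℝ) ≤ 1 := by
      have := Real.log_le_sub_one_of_pos (x := ((2 : ℕ) : ℝ)) (by norm_num)
      refine this.trans ?_
      norm_num
    rw [le_div_iff₀ hlogy]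
    have hY0 : (0 : ℝ) ≤ Y := by positivity
    nlinarith
  · obtain ⟨u, hu⟩ : ∃ u, y = u + 1 := ⟨y - 1, by omega⟩
    have hu2 : 2 ≤ u := by omega
    have hu2' : (2 : ℝ) ≤ u := by exact_mod_cast hu2
    have hlogu : 0 < Real.log u := Real.log_pos (by linarith)
    have hcov : ((rgh y (X + Y)).filter (fun m => X < m)) ⊆
        (range (Y / u + 1)).biUnion (fun i => (Ioc (X + i * u) (X + i * u + u)).filter
          (fun n => ∀ l : ℕ, l.Prime → l ≤ u → l ∣ n → l ∈ (∅ : Finset ℕ))) := by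
      intro m hm
      have h1 := hsub hm
      rw [mem_filter, mem_Ioc] at h1
      obtain ⟨⟨h1a, h1b⟩, h1c⟩ := h1
      rw [mem_biUnion]
      refine ⟨(m - X - 1) / u, ?_, ?_⟩
      · rw [mem_range]
        exact Nat.lt_succ_of_le (Nat.div_le_div_right (by omega))
      · rw [mem_filter, mem_Ioc]
        have h4 := Nat.div_add_mod (m - X - 1) u
        have h5 := Nat.mod_lt (m - X - 1) (show u > 0 by omega)
        rw [mul_comm] at h4
        refine ⟨⟨by omega, by omega⟩, ?_⟩
        intro l hl hlu hlm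
        have := h1c l hl hlm
        omega
    have hcard : (((rgh y (X + Y)).filter (fun m => X < m)).card : ℝ) ≤
        ((Y / u + 1 : ℕ) : ℝ) * (C * u / Real.log u) := by
      have h1 := (card_le_card hcov).trans card_biUnion_le
      have h2 : ((((rgh y (X + Y)).filter (fun m => X < m)).card : ℕ) : ℝ) ≤
          ∑ i ∈ range (Y / u + 1), ((((Ioc (X + i * u) (X + i * u + u)).filter
          (fun n => ∀ l : ℕ, l.Prime → l ≤ u → l ∣ n → l ∈ (∅ : Finset ℕ))).card : ℕ) : ℝ) := by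
        exact_mod_cast h1
      refine h2.trans ?_
      have h3 : ∀ i ∈ range (Y / u + 1), ((((Ioc (X + i * u) (X + i * u + u)).filter
          (fun n => ∀ l : ℕ, l.Prime → l ≤ u → l ∣ n → l ∈ (∅ : Finset ℕ))).card : ℕ) : ℝ) ≤
          C * u / Real.log u := by
        intro i _
        have h4 := hC ∅ (X + i * u) u hu2
        simp only [filter_empty, sum_empty, Real.exp_zero, mul_one] at h4
        refine le_trans (le_of_eq ?_) h4
        congr!
      refine (sum_le_sum h3).trans (le_of_eq ?_)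
      rw [sum_const, card_range, nsmul_eq_mul]
    refine hcard.trans ?_
    have hku : ((Y / u + 1 : ℕ) : ℝ) * u ≤ 2 * Y := by
      have h1 : (Y / u + 1) * u ≤ 2 * Y := by
        have := Nat.div_mul_le_self Y u
        rw [add_mul, one_mul]
        omega
      exact_mod_cast h1
    have hlog : Real.log y ≤ 2 * Real.log u := by
      have h1 : Real.log y ≤ Real.log ((u : ℝ) ^ 2) := by
        apply Real.log_le_log (by linarith)
        rw [hu]; push_cast; nlinarith
      rw [Real.log_pow] at h1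
      exact_mod_cast h1
    have e1 : ((Y / u + 1 : ℕ) : ℝ) * (C * u / Real.log u) =
        C * (((Y / u + 1 : ℕ) : ℝ) * u) / Real.log u := by ring
    rw [e1, div_le_div_iff₀ hlogu hlogy]
    have hY0 : (0 : ℝ) ≤ Y := by positivity
    calc C * (((Y / u + 1 : ℕ) : ℝ) * u) * Real.log y ≤ C * (2 * Y) * (2 * Real.log u) := by
          gcongr
      _ = 4 * C * Y * Real.log u := by ring

end Pool.Agent.Helper602.MK.N_J2

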