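import Mathlib
import Pool.Agent.Helper602.MK.Defs

set_option autoImplicit false

namespace Pool.Agent.Helper602.MK.N_J4a

open Finset


theorem h170_tot (n : ℕ) : n ≤ 2 * (Nat.totient n) ^ 2 ∧ (¬ 2 ∣ n → n ≤ (Nat.totient n) ^ 2) := by
  induction n using Nat.recOnPosPrimePosCoprime with
  | prime_pow p n hp hn =>
    obtain ⟨k, rfl⟩ : ∃ k, n = k + 1 := ⟨n - 1, by omega⟩
    rw [Nat.totient_prime_pow_succ hp]
    rcases hp.eq_two_or_odd with h2 | hodd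
    · subst h2
      refine ⟨?_, ?_⟩
      · have h1 : 1 ≤ 2 ^ k := Nat.one_le_two_pow
        have : (2 - 1 : ℕ) = 1 := rfl
        rw [this, mul_one, pow_succ]
        nlinarith
      · intro h
        exact absurd (dvd_pow_self 2 (by omega)) h
    · have h3 : 3 ≤ p := by
        have := hp.two_le
        omega
      obtain ⟨r, rfl⟩ : ∃ r, p = r + 1 := ⟨p - 1, by omega⟩
      have hr : 2 ≤ r := by omega
      have h1 : 1 ≤ (r + 1) ^ k := Nat.one_le_pow _ _ (by omega)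
      have h4 : (r + 1) ^ (k + 1) ≤ ((r + 1) ^ k * (r + 1 - 1)) ^ 2 := by
        have : r + 1 - 1 = r := by omega
        rw [this, mul_pow, pow_succ]
        have h5 : r + 1 ≤ r ^ 2 := by nlinarith
        have h6 : (r + 1) ^ k ≤ ((r + 1) ^ k) ^ 2 := by nlinarith
        exact Nat.mul_le_mul h6 h5
      exact ⟨by omega, fun _ => h4⟩
  | zero => simp
  | one => simp
  | coprime a b ha hb hab iha ihb =>
    rw [Nat.totient_mul hab, mul_pow]
    refine ⟨?_, ?_⟩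
    · by_cases h2 : 2 ∣ a
      · have h3 : ¬ 2 ∣ b := by
          intro h
          have := Nat.dvd_gcd h2 h
          rw [hab] at this
          omega
        have := Nat.mul_le_mul iha.1 (ihb.2 h3)
        calc a * b ≤ _ := this
          _ = _ := by ring
      · have := Nat.mul_le_mul (iha.2 h2) ihb.1
        calc a * b ≤ _ := this
          _ = _ := by ring
    · intro h
      have h1 : ¬ 2 ∣ a := fun h' => h (h'.mul_right b)
      have h2 : ¬ 2 ∣ b := fun h' => h (h'.mul_left a)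
      exact Nat.mul_le_mul (iha.2 h1) (ihb.2 h2)

/-- fibre count -/
theorem h170_fib (B : Finset (ℕ × ℕ)) (T : Finset ℕ) (K : ℝ)
    (hT : ∀ x ∈ B, x.1 ∈ T)
    (hK : ∀ p ∈ T, ∀ S : Finset ℕ, (∀ y ∈ S, (p, y) ∈ B) → (S.card : ℝ) ≤ K) :
    (B.card : ℝ) ≤ T.card * K := by
  rw [Finset.card_eq_sum_card_fiberwise (f := Prod.fst) (t := T) (fun x hx => hT x hx)]
  push_cast
  rw [← nsmul_eq_mul]
  refine Finset.sum_le_card_nsmul _ _ _ (fun p hp => ?_)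
  have h1 : (B.filter (fun x => x.1 = p)).card = ((B.filter (fun x => x.1 = p)).image Prod.snd).card := by
    rw [Finset.card_image_of_injOn]
    intro x hx y hy hxy
    simp only [Finset.coe_filter, Set.mem_ofPred_eq] at hx hy
    exact Prod.ext (hx.2.trans hy.2.symm) hxy
  rw [h1]
  refine hK p hp _ (fun y hy => ?_)
  obtain ⟨x, hx, rfl⟩ := Finset.mem_image.1 hy
  obtain ⟨hx1, hx2⟩ := Finset.mem_filter.1 hx
  rw [← hx2]
  exact hx1

/-- Brun-Titchmarsh for sets -/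
theorem h170_bt (C : ℝ) (hC : 1 ≤ C) (h : ∀ a q N : ℕ, 1 ≤ q → 2 ≤ N →
    (((range N).filter (fun t => (a + t * q).Prime)).card : ℝ) ≤
    C * ((q : ℝ) / (Nat.totient q : ℝ)) * N / Real.log N)
    (S : Finset ℕ) (q ℓ : ℕ) (hq : 1 ≤ q) (hS : ∀ x ∈ S, x.Prime)
    (hS2 : ∀ x ∈ S, ∀ y ∈ S, x ≤ y + ℓ) (hS3 : ∀ x ∈ S, ∀ y ∈ S, (q : ℤ) ∣ (x : ℤ) - y) :
    (S.card : ℝ) ≤ C * ((q : ℝ) / (Nat.totient q : ℝ)) * ((ℓ / q + 2 : ℕ) : ℝ) /
      Real.log ((ℓ / q + 2 : ℕ) : ℝ) := by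
  rcases S.eq_empty_or_nonempty with rfl | hne
  · simp only [Finset.card_empty, Nat.cast_zero]
    have : 0 ≤ Real.log ((ℓ / q + 2 : ℕ) : ℝ) := Real.log_natCast_nonneg _
    positivity
  · set a := S.min' hne with ha
    have haS : a ∈ S := S.min'_mem hne
    refine le_trans ?_ (h a q (ℓ / q + 2) hq (Nat.le_add_left 2 _))
    have key : ∀ x ∈ S, x = a + (x - a) / q * q := by
      intro x hx
      have h1 : a ≤ x := S.min'_le x hx
      have h2 := hS3 x hx a haS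
      have h3 : q ∣ x - a := by
        have : ((x - a : ℕ) : ℤ) = (x : ℤ) - a := by push_cast [h1]; ring
        rw [← this] at h2
        exact_mod_cast h2
      have h4 := Nat.div_mul_cancel h3
      omega
    norm_cast
    refine Finset.card_le_card_of_injOn (fun x => (x - a) / q) ?_ ?_
    · intro x hx
      have hx' : x ∈ S := hx
      have h1 : x ≤ a + ℓ := hS2 x hx' a haS
      have h2 : (x - a) / q ≤ ℓ / q := Nat.div_le_div_right (by omega)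
      simp only [Finset.coe_filter, Finset.mem_range, Set.mem_ofPred_eq]
      refine ⟨by omega, ?_⟩
      rw [← key x hx']
      exact hS x hx'
    · intro x hx y hy hxy
      have hx' := key x hx
      have hy' := key y hy
      simp only at hxy
      rw [hx', hy', hxy]

theorem h170_P1 (C : ℝ) (hC : 1 ≤ C) (P : ℕ) (hP : 2 ≤ P) (S : Finset ℕ)
    (h : (S.card : ℝ) ≤ C * (((1:ℕ) : ℝ) / (Nat.totient 1 : ℝ)) * ((P / 1 + 2 : ℕ) : ℝ) /
      Real.log ((P / 1 + 2 : ℕ) : ℝ)) : (S.card : ℝ) ≤ 2 * C * (P / Real.log P) := by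
  refine h.trans ?_
  have hP' : (2:ℝ) ≤ P := by exact_mod_cast hP
  have hl : 0 < Real.log P := Real.log_pos (by linarith)
  rw [Nat.div_one]
  push_cast
  have hl2 : Real.log P ≤ Real.log (P + 2) := Real.log_le_log (by linarith) (by linarith)
  simp only [Nat.totient_one, Nat.cast_one, div_one, mul_one]
  rw [mul_div_assoc]
  have h1 : ((P:ℝ) + 2) / Real.log (P + 2) ≤ (2 * P) / Real.log P := by
    refine div_le_div₀ (by linarith) (by linarith) hl hl2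
  calc C * (((P:ℝ) + 2) / Real.log (P + 2)) ≤ C * ((2 * P) / Real.log P) :=
        mul_le_mul_of_nonneg_left h1 (by linarith)
    _ = _ := by ring

/-- case 1 fibre -/
theorem h170_c1 (P q : ℕ) (b : ℤ) (hq : 1 ≤ q) (hqP : q ≤ 2 * P) (hbq : IsCoprime (q : ℤ) b)
    (γ ε : ℝ) (hβ : |γ - b / q| ≤ 1 / ((2 * P + 1) * q)) (h1 : 1 ≤ 2 * q * ε)
    (p : ℕ) (hp1 : P ≤ p) (hp2 : p ≤ 2 * P) (S : Finset ℕ)
    (hS : ∀ y ∈ S, P ≤ y ∧ y ≤ 2 * P ∧ ∃ a : ℤ, |γ * ((p : ℝ) - y) - a| ≤ ε) :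
    (S.card : ℝ) ≤ 18 * ε * P := by
  have hq' : (0:ℝ) < q := by exact_mod_cast hq
  have hε : 0 < ε := by
    by_contra hneg
    push Not at hneg
    nlinarith
  have hP0 : (0:ℝ) < P := by
    have : (q:ℝ) ≤ 2 * P := by exact_mod_cast hqP
    linarith
  choose! a ha using fun y hy => (hS y hy).2.2
  have habs : ∀ y ∈ S, |(p : ℝ) - y| ≤ P := by
    intro y hy
    obtain ⟨h2, h3, -⟩ := hS y hy
    have e1 : (P:ℝ) ≤ p := by exact_mod_cast hp1
    have e2 : (p:ℝ) ≤ 2 * P := by exact_mod_cast hp2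
    have e3 : (P:ℝ) ≤ y := by exact_mod_cast h2
    have e4 : (y:ℝ) ≤ 2 * P := by exact_mod_cast h3
    rw [abs_le]; constructor <;> linarith
  have hr : ∀ y ∈ S, |((b * ((p : ℤ) - y) - a y * q : ℤ) : ℝ)| ≤ 2 * q * ε := by
    intro y hy
    have e1 : ((b * ((p : ℤ) - y) - a y * q : ℤ) : ℝ) =
        q * ((γ * ((p : ℝ) - y) - a y) - (γ - b / q) * ((p : ℝ) - y)) := by
      push_cast
      field_simp
      ring
    rw [e1, abs_mul, abs_of_pos hq']
    have e2 : |(γ * ((p : ℝ) - y) - a y) - (γ - b / q) * ((p : ℝ) - y)| ≤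
        ε + 1 / ((2 * P + 1) * q) * P := by
      refine (abs_sub _ _).trans (add_le_add (ha y hy) ?_)
      rw [abs_mul]
      exact mul_le_mul hβ (habs y hy) (abs_nonneg _) (by positivity)
    have e3 : (q:ℝ) * (1 / ((2 * P + 1) * q) * P) ≤ 1 / 2 := by
      have : (q:ℝ) * (1 / ((2 * P + 1) * q) * P) = P / (2 * P + 1) := by field_simp
      rw [this, div_le_iff₀ (by positivity)]
      linarith
    calc (q:ℝ) * _ ≤ q * (ε + 1 / ((2 * P + 1) * q) * P) := mul_le_mul_of_nonneg_left e2 hq'.le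
      _ = q * ε + q * (1 / ((2 * P + 1) * q) * P) := by ring
      _ ≤ q * ε + 1 / 2 := by linarith
      _ ≤ _ := by linarith
  set R : ℕ := ⌊2 * q * ε⌋₊ with hR
  have hcard : S.card ≤ ((Finset.Icc (-(R:ℤ)) R) ×ˢ (range (P / q + 1))).card := by
    refine Finset.card_le_card_of_injOn (fun y => (b * ((p : ℤ) - y) - a y * q, (y - P) / q)) ?_ ?_
    · intro y hy
      have hy' : y ∈ S := hy
      simp only [Finset.coe_product, Set.mem_prod, Finset.mem_coe, Finset.mem_Icc, Finset.mem_range]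
      have e1 := hr y hy'
      have e2 : |(b * ((p : ℤ) - y) - a y * q)| ≤ (R:ℤ) := by
        have e3 : ((|(b * ((p : ℤ) - y) - a y * q)| : ℤ) : ℝ) ≤ 2 * q * ε := by
          rw [Int.cast_abs]; exact e1
        have e4 : (|(b * ((p : ℤ) - y) - a y * q)|).toNat ≤ R := by
          rw [hR]
          apply Nat.le_floor
          have e5 : ((|(b * ((p : ℤ) - y) - a y * q)|).toNat : ℤ) = |(b * ((p : ℤ) - y) - a y * q)| :=
            Int.toNat_of_nonneg (abs_nonneg _)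
          have e6 : (((|(b * ((p : ℤ) - y) - a y * q)|).toNat : ℤ) : ℝ) ≤ 2 * q * ε := by
            rw [e5]; exact e3
          exact_mod_cast e6
        have e5 := Int.toNat_of_nonneg (abs_nonneg (b * ((p : ℤ) - y) - a y * q))
        rw [← e5]
        exact_mod_cast e4
      rw [abs_le] at e2
      refine ⟨e2, ?_⟩
      have h2 : (y - P) / q ≤ P / q := Nat.div_le_div_right (by have := (hS y hy').2.1; omega)
      omega
    · intro y hy z hz hyz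
      have hy' : y ∈ S := hy
      have hz' : z ∈ S := hz
      simp only [Prod.mk.injEq] at hyz
      obtain ⟨h2, h3⟩ := hyz
      have h4 : (q : ℤ) ∣ b * ((y:ℤ) - z) := ⟨a z - a y, by linear_combination -h2⟩
      have h5 : (q : ℤ) ∣ (y:ℤ) - z := hbq.dvd_of_dvd_mul_left h4
      have hyP := (hS y hy').1
      have hzP := (hS z hz').1
      have h6 : (q : ℤ) ∣ ((y - P : ℕ) : ℤ) - ((z - P : ℕ) : ℤ) := by
        rw [Nat.cast_sub hyP, Nat.cast_sub hzP]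
        have : (y:ℤ) - P - (z - P) = y - z := by ring
        rw [this]; exact h5
      have h7 : (y - P) % q = (z - P) % q := by
        have := (Nat.modEq_iff_dvd (n := q) (a := z - P) (b := y - P)).2 (by exact_mod_cast h6)
        exact this.symm
      have h8 := Nat.div_add_mod (y - P) q
      have h9 := Nat.div_add_mod (z - P) q
      rw [h3, h7] at h8
      omega
  have hcard2 : ((Finset.Icc (-(R:ℤ)) R) ×ˢ (range (P / q + 1))).card = (2 * R + 1) * (P / q + 1) := by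
    rw [Finset.card_product, Finset.card_range, Int.card_Icc]
    congr 1
    omega
  rw [hcard2] at hcard
  have hRle : (R:ℝ) ≤ 2 * q * ε := Nat.floor_le (by positivity)
  have hPq : ((P / q : ℕ) : ℝ) ≤ (P:ℝ) / q := Nat.cast_div_le
  have e1 : (S.card : ℝ) ≤ (2 * R + 1) * ((P / q : ℕ) + 1) := by exact_mod_cast hcard
  have e2 : ((2:ℝ) * R + 1) * ((P / q : ℕ) + 1) ≤ (6 * q * ε) * (P / q + 1) := by
    refine mul_le_mul ?_ ?_ (by positivity) (by positivity)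
    · linarith
    · linarith
  have e3 : (6 * q * ε) * ((P:ℝ) / q + 1) = 6 * ε * (P + q) := by
    field_simp
  have e4 : (q:ℝ) ≤ 2 * P := by exact_mod_cast hqP
  nlinarith [mul_le_mul_of_nonneg_left e4 hε.le]

/-- case 2 -/
theorem h170_c2 (P q : ℕ) (b : ℤ) (hq : 1 ≤ q) (hbq : IsCoprime (q : ℤ) b)
    (γ ε : ℝ) (hβ : |γ - b / q| ≤ 1 / ((2 * P + 1) * q)) (h1 : 2 * q * ε < 1)
    (p y : ℕ) (hp1 : P ≤ p) (hp2 : p ≤ 2 * P) (hy1 : P ≤ y) (hy2 : y ≤ 2 * P)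
    (a : ℤ) (ha : |γ * ((p : ℝ) - y) - a| ≤ ε) :
    (q : ℤ) ∣ (p : ℤ) - y ∧ |γ - b / q| * |(p : ℝ) - y| ≤ ε := by
  have hq' : (0:ℝ) < q := by exact_mod_cast hq
  have habs : |(p : ℝ) - y| ≤ P := by
    have e1 : (P:ℝ) ≤ p := by exact_mod_cast hp1
    have e2 : (p:ℝ) ≤ 2 * P := by exact_mod_cast hp2
    have e3 : (P:ℝ) ≤ y := by exact_mod_cast hy1
    have e4 : (y:ℝ) ≤ 2 * P := by exact_mod_cast hy2
    rw [abs_le]; constructor <;> linarith
  have e1 : ((b * ((p : ℤ) - y) - a * q : ℤ) : ℝ) =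
      q * ((γ * ((p : ℝ) - y) - a) - (γ - b / q) * ((p : ℝ) - y)) := by
    push_cast
    field_simp
    ring
  have e2 : |(γ * ((p : ℝ) - y) - a) - (γ - b / q) * ((p : ℝ) - y)| ≤
      ε + 1 / ((2 * P + 1) * q) * P := by
    refine (abs_sub _ _).trans (add_le_add ha ?_)
    rw [abs_mul]
    exact mul_le_mul hβ habs (abs_nonneg _) (by positivity)
  have e3 : (q:ℝ) * (1 / ((2 * P + 1) * q) * P) ≤ 1 / 2 := by
    have : (q:ℝ) * (1 / ((2 * P + 1) * q) * P) = P / (2 * P + 1) := by field_simp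
    rw [this, div_le_iff₀ (by positivity)]
    linarith
  have e4 : |((b * ((p : ℤ) - y) - a * q : ℤ) : ℝ)| < 1 := by
    rw [e1, abs_mul, abs_of_pos hq']
    calc (q:ℝ) * _ ≤ q * (ε + 1 / ((2 * P + 1) * q) * P) := mul_le_mul_of_nonneg_left e2 hq'.le
      _ = q * ε + q * (1 / ((2 * P + 1) * q) * P) := by ring
      _ ≤ q * ε + 1 / 2 := by linarith
      _ < _ := by linarith
  have e5 : b * ((p : ℤ) - y) - a * q = 0 := by
    rw [← Int.cast_abs] at e4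
    have : |b * ((p : ℤ) - y) - a * q| < 1 := by exact_mod_cast e4
    exact Int.abs_lt_one_iff.1 this
  refine ⟨?_, ?_⟩
  · have h4 : (q : ℤ) ∣ b * ((p:ℤ) - y) := ⟨a, by linear_combination e5⟩
    exact hbq.dvd_of_dvd_mul_left h4
  · have e6 : (γ - b / q) * ((p : ℝ) - y) = γ * ((p : ℝ) - y) - a := by
      have e7 : ((b * ((p : ℤ) - y) - a * q : ℤ) : ℝ) = 0 := by rw [e5]; simp
      rw [e1] at e7
      have := (mul_eq_zero.1 e7).resolve_left hq'.ne'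
      linarith
    rw [← abs_mul, e6]
    exact ha

theorem h170_A1 (K : ℝ) : ∃ M0 : ℕ, ∀ M : ℕ, M0 ≤ M → K * Real.log M ^ 2 ≤ M := by
  have h1 : (fun x : ℝ => Real.log x ^ 2) =o[Filter.atTop] id := Real.isLittleO_pow_log_id_atTop
  have h2 : (fun n : ℕ => Real.log (n : ℝ) ^ 2) =o[Filter.atTop] (fun n : ℕ => (n : ℝ)) :=
    h1.comp_tendsto tendsto_natCast_atTop_atTop
  have h3 := h2.def (c := 1 / (|K| + 1)) (by positivity)
  obtain ⟨M0, hM0⟩ := Filter.eventually_atTop.1 h3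
  refine ⟨M0, fun M hM => ?_⟩
  have h4 := hM0 M hM
  rw [Real.norm_of_nonneg (by positivity), Real.norm_of_nonneg (by positivity)] at h4
  have h5 : K * Real.log M ^ 2 ≤ (|K| + 1) * Real.log M ^ 2 :=
    mul_le_mul_of_nonneg_right (by linarith [le_abs_self K]) (by positivity)
  have h6 : (|K| + 1) * Real.log M ^ 2 ≤ (|K| + 1) * (1 / (|K| + 1) * M) :=
    mul_le_mul_of_nonneg_left h4 (by positivity)
  have h7 : (|K| + 1) * (1 / (|K| + 1) * (M : ℝ)) = M := by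
    field_simp
  linarith

/-- lower bound for log when z ^ 2 ≥ P -/
theorem h170_log (z P : ℝ) (hP : 0 < P) (hz : 0 < z) (h : P ≤ z ^ 2) : Real.log P / 2 ≤ Real.log z := by
  have h1 := Real.log_le_log hP h
  rw [Real.log_pow] at h1
  push_cast at h1
  linarith

theorem h170_r1 (C φ : ℝ) (P q : ℕ) (hC : 1 ≤ C) (hφ : 0 < φ) (hq : 1 ≤ q) (hP : 2 ≤ P) (hqP : q * q ≤ P) :
    C * ((q:ℝ) / φ) * ((P / q + 2 : ℕ) : ℝ) / Real.log ((P / q + 2 : ℕ) : ℝ) ≤
      6 * C / φ * (P / Real.log P) := by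
  have hq' : (1:ℝ) ≤ q := by exact_mod_cast hq
  have hq0 : (0:ℝ) < q := by linarith
  have hP' : (2:ℝ) ≤ P := by exact_mod_cast hP
  have hqP' : (q:ℝ) * q ≤ P := by exact_mod_cast hqP
  have hl : 0 < Real.log P := Real.log_pos (by linarith)
  have h1 : ((P / q + 2 : ℕ) : ℝ) ≤ 3 * P / q := by
    have : ((P / q : ℕ) : ℝ) ≤ (P:ℝ) / q := Nat.cast_div_le
    push_cast
    have h2 : (1:ℝ) ≤ P / q := by
      rw [le_div_iff₀ hq0]
      nlinarith
    calc ((P / q : ℕ) : ℝ) + 2 ≤ P / q + 2 * (P / q) := by linarith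
      _ = _ := by ring
  have h2 : (P:ℝ) / q ≤ ((P / q + 2 : ℕ) : ℝ) := by
    have := Nat.lt_div_mul_add (a := P) (b := q) hq
    rw [div_le_iff₀ hq0]
    have h3 : P ≤ (P / q + 2) * q := by nlinarith
    exact_mod_cast h3
  have h3 : (P:ℝ) ≤ (((P / q + 2 : ℕ) : ℝ)) ^ 2 := by
    have h4 : (P:ℝ) ≤ ((P:ℝ) / q) ^ 2 := by
      rw [div_pow, le_div_iff₀ (by positivity)]
      nlinarith
    exact h4.trans (pow_le_pow_left₀ (by positivity) h2 2)
  have h5 := h170_log _ _ (by linarith) (by positivity) h3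
  calc C * ((q:ℝ) / φ) * ((P / q + 2 : ℕ) : ℝ) / Real.log ((P / q + 2 : ℕ) : ℝ)
      ≤ C * ((q:ℝ) / φ) * (3 * P / q) / (Real.log P / 2) := by
        refine div_le_div₀ (by positivity) ?_ (by positivity) h5
        exact mul_le_mul_of_nonneg_left h1 (by positivity)
    _ = _ := by field_simp; ring

theorem h170_r2 (C x : ℝ) (P : ℕ) (hC : 1 ≤ C) (hP : 2 ≤ P) (hx : 2 ≤ x) (hx2 : (P:ℝ) ≤ (2 * x) ^ 2) :
    C * (((1:ℕ):ℝ) / (Nat.totient 1 : ℝ)) * ((⌊2 * x⌋₊ / 1 + 2 : ℕ) : ℝ) / Real.log ((⌊2 * x⌋₊ / 1 + 2 : ℕ) : ℝ) ≤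
      6 * C * (x / Real.log P) := by
  have hP' : (2:ℝ) ≤ P := by exact_mod_cast hP
  have hl : 0 < Real.log P := Real.log_pos (by linarith)
  simp only [Nat.totient_one, Nat.cast_one, div_one, mul_one, Nat.div_one]
  have h1 : ((⌊2 * x⌋₊ + 2 : ℕ) : ℝ) ≤ 3 * x := by
    have : ((⌊2 * x⌋₊ : ℕ) : ℝ) ≤ 2 * x := Nat.floor_le (by linarith)
    push_cast
    linarith
  have h2 : 2 * x ≤ ((⌊2 * x⌋₊ + 2 : ℕ) : ℝ) := by
    have := (Nat.lt_floor_add_one (2 * x)).le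
    push_cast
    linarith
  have h3 : (P:ℝ) ≤ (((⌊2 * x⌋₊ + 2 : ℕ) : ℝ)) ^ 2 :=
    hx2.trans (pow_le_pow_left₀ (by positivity) h2 2)
  have h5 := h170_log _ _ (by linarith) (by positivity) h3
  calc C * ((⌊2 * x⌋₊ + 2 : ℕ) : ℝ) / Real.log ((⌊2 * x⌋₊ + 2 : ℕ) : ℝ)
      ≤ C * (3 * x) / (Real.log P / 2) := by
        refine div_le_div₀ (by positivity) ?_ (by positivity) h5
        exact mul_le_mul_of_nonneg_left h1 (by positivity)
    _ = _ := by field_simp; ring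

theorem h170_triv (P q : ℕ) (hq : 1 ≤ q) (S : Finset ℕ) (hS : ∀ y ∈ S, P ≤ y ∧ y ≤ 2 * P)
    (hS2 : ∀ x ∈ S, ∀ y ∈ S, (q : ℤ) ∣ (x : ℤ) - y) (hqP : P < q * q) :
    (S.card : ℝ) ≤ Real.sqrt P + 1 := by
  have hq0 : (0:ℝ) < q := by exact_mod_cast hq
  have h1 : S.card ≤ (range (P / q + 1)).card := by
    refine Finset.card_le_card_of_injOn (fun y => (y - P) / q) ?_ ?_
    · intro y hy
      have hy' : y ∈ S := hy
      simp only [Finset.coe_range, Set.mem_Iio]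
      have h2 : (y - P) / q ≤ P / q := Nat.div_le_div_right (by have := (hS y hy').2; omega)
      omega
    · intro y hy z hz hyz
      have hy' : y ∈ S := hy
      have hz' : z ∈ S := hz
      simp only at hyz
      have hyP := (hS y hy').1
      have hzP := (hS z hz').1
      have h5 := hS2 y hy' z hz'
      have h6 : (q : ℤ) ∣ ((y - P : ℕ) : ℤ) - ((z - P : ℕ) : ℤ) := by
        rw [Nat.cast_sub hyP, Nat.cast_sub hzP]
        have : (y:ℤ) - P - (z - P) = y - z := by ring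
        rw [this]; exact h5
      have h7 : (y - P) % q = (z - P) % q := by
        have := (Nat.modEq_iff_dvd (n := q) (a := z - P) (b := y - P)).2 (by exact_mod_cast h6)
        exact this.symm
      have h8 := Nat.div_add_mod (y - P) q
      have h9 := Nat.div_add_mod (z - P) q
      rw [hyz, h7] at h8
      omega
  rw [Finset.card_range] at h1
  have h2 : (S.card : ℝ) ≤ ((P / q : ℕ) : ℝ) + 1 := by exact_mod_cast h1
  have h3 : ((P / q : ℕ) : ℝ) ≤ (P:ℝ) / q := Nat.cast_div_le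
  have h4 : (P:ℝ) / q ≤ Real.sqrt P := by
    apply Real.le_sqrt_of_sq_le
    rw [div_pow, div_le_iff₀ (by positivity)]
    have h5 : (P:ℝ) ≤ q * q := by exact_mod_cast hqP.le
    have h6 : (0:ℝ) ≤ P := Nat.cast_nonneg _
    nlinarith
  linarith

theorem h170_e1 (Q1 κ M P L : ℝ) (hQ1 : 1 ≤ Q1) (hM : 0 < M) (hP : 0 < P) (hL : 0 < L)
    (h : 36 * Q1 ^ 3 * L ^ 2 ≤ κ * M) : 2 * P * (18 * (Q1 ^ 2 / M) * P) ≤ κ / Q1 * (P / L) ^ 2 := by
  have hQ0 : 0 < Q1 := by linarith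
  have e1 : 2 * P * (18 * (Q1 ^ 2 / M) * P) = P ^ 2 * (36 * Q1 ^ 3 * L ^ 2) / (M * Q1 * L ^ 2) := by
    field_simp
    ring
  have e2 : κ / Q1 * (P / L) ^ 2 = P ^ 2 * (κ * M) / (M * Q1 * L ^ 2) := by
    field_simp
  rw [e1, e2]
  exact div_le_div_of_nonneg_right (mul_le_mul_of_nonneg_left h (by positivity)) (by positivity)

theorem h170_e2 (C Q1 κ φ X : ℝ) (hQ1 : 1 ≤ Q1) (hC : 1 ≤ C) (hκ : 0 < κ) (hφ : 0 < φ)
    (h : 24 * C ^ 2 * Q1 ≤ κ * φ) : 2 * C * X * (6 * C / φ * X) ≤ κ / Q1 * X ^ 2 := by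
  have hQ0 : 0 < Q1 := by linarith
  have e1 : 2 * C * X * (6 * C / φ * X) = X ^ 2 * (12 * C ^ 2 * Q1) / (φ * Q1) := by
    field_simp
    ring
  have e2 : κ / Q1 * X ^ 2 = X ^ 2 * (κ * φ) / (φ * Q1) := by
    field_simp
  rw [e1, e2]
  refine div_le_div_of_nonneg_right (mul_le_mul_of_nonneg_left ?_ (by positivity)) (by positivity)
  have : 0 ≤ C ^ 2 * Q1 := by positivity
  linarith

theorem h170_e3 (C Q1 κ P L s : ℝ) (hQ1 : 1 ≤ Q1) (hL : 0 < L) (hP : 0 < P)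
    (h : 2 * C * Q1 * (s + 1) * L ≤ κ * P) : 2 * C * (P / L) * (s + 1) ≤ κ / Q1 * (P / L) ^ 2 := by
  have hQ0 : 0 < Q1 := by linarith
  have e1 : 2 * C * (P / L) * (s + 1) = P * (2 * C * Q1 * (s + 1) * L) / (Q1 * L ^ 2) := by
    field_simp
  have e2 : κ / Q1 * (P / L) ^ 2 = P * (κ * P) / (Q1 * L ^ 2) := by
    field_simp
  rw [e1, e2]
  exact div_le_div_of_nonneg_right (mul_le_mul_of_nonneg_left h hP.le) (by positivity)

theorem h170_e4 (C Q1 κ Q0 P L : ℝ) (hQ1 : 1 ≤ Q1) (hQ0 : 0 < Q0) (hL : 0 < L)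
    (h : 24 * C ^ 2 * Q1 ^ 3 ≤ κ * Q0) :
    2 * C * (P / L) * (6 * C * (2 * Q1 ^ 2 / Q0 * P / L)) ≤ κ / Q1 * (P / L) ^ 2 := by
  have hQ1' : 0 < Q1 := by linarith
  have e1 : 2 * C * (P / L) * (6 * C * (2 * Q1 ^ 2 / Q0 * P / L)) =
      P ^ 2 * (24 * C ^ 2 * Q1 ^ 3) / (Q0 * Q1 * L ^ 2) := by
    field_simp
    ring
  have e2 : κ / Q1 * (P / L) ^ 2 = P ^ 2 * (κ * Q0) / (Q0 * Q1 * L ^ 2) := by
    field_simp
  rw [e1, e2]
  exact div_le_div_of_nonneg_right (mul_le_mul_of_nonneg_left h (by positivity)) (by positivity)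

theorem h170_main (C : ℝ) (hC : 1 ≤ C) (h : ∀ a q N : ℕ, 1 ≤ q → 2 ≤ N →
    (((range N).filter (fun t => (a + t * q).Prime)).card : ℝ) ≤
    C * ((q : ℝ) / (Nat.totient q : ℝ)) * N / Real.log N)
    (Q1 κ Q0 : ℝ) (hQ1 : 1 ≤ Q1) (hκ : 0 < κ) (hQ0 : 0 < Q0) (Q2 : ℕ)
    (hQ0a : Q1 * Q2 ≤ Q0) (hQ0b : 24 * C ^ 2 * Q1 ^ 3 ≤ κ * Q0)
    (hQ2 : ∀ q : ℕ, Q2 < q → 24 * C ^ 2 * Q1 ≤ κ * (Nat.totient q : ℝ))
    (P M N : ℕ) (hP : 2 ≤ P) (hM : 1 ≤ M) (hN : 1 ≤ N) (hNMP : N ≤ 2 * M * P)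
    (hA1 : 36 * Q1 ^ 3 * Real.log P ^ 2 ≤ κ * M)
    (hA2 : 2 * C * Q1 * (Real.sqrt P + 1) * Real.log P ≤ κ * P)
    (hA3 : 2 ≤ 2 * Q1 ^ 2 / Q0 * P) (hA4 : (P:ℝ) ≤ (2 * (2 * Q1 ^ 2 / Q0 * P)) ^ 2)
    (α : ℝ) (hα : ¬ Major Q0 N α) (f : ℕ) (hf1 : 1 ≤ f) (hf2 : (f : ℝ) ≤ Q1)
    (B : Finset (ℕ × ℕ)) (hB : ∀ x ∈ B, x.1.Prime ∧ x.2.Prime ∧ P ≤ x.1 ∧ x.1 ≤ 2 * P ∧ P ≤ x.2 ∧
      x.2 ≤ 2 * P ∧ ∃ a : ℤ, |(f * α) * ((x.1 : ℝ) - x.2) - a| ≤ Q1 ^ 2 / M) :
    (B.card : ℝ) ≤ κ / Q1 * ((P : ℝ) / Real.log P) ^ 2 := by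
  have hP' : (2:ℝ) ≤ P := by exact_mod_cast hP
  have hP0 : (0:ℝ) < P := by linarith
  have hM' : (1:ℝ) ≤ M := by exact_mod_cast hM
  have hM0 : (0:ℝ) < M := by linarith
  have hN' : (1:ℝ) ≤ N := by exact_mod_cast hN
  have hN0 : (0:ℝ) < N := by linarith
  have hf1' : (1:ℝ) ≤ f := by exact_mod_cast hf1
  have hf0 : (0:ℝ) < f := by linarith
  have hl : 0 < Real.log P := Real.log_pos (by linarith)
  obtain ⟨r, hr1, hr2⟩ := Real.exists_rat_abs_sub_le_and_den_le (f * α) (n := 2 * P) (by omega)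
  set q : ℕ := r.den with hqdef
  set b : ℤ := r.num with hbdef
  have hq : 1 ≤ q := r.pos
  have hq0 : (0:ℝ) < q := by exact_mod_cast hq
  have hbq : IsCoprime (q : ℤ) b := by
    rw [Int.isCoprime_iff_gcd_eq_one, Int.gcd_comm]
    exact r.reduced
  have hβ : |f * α - b / q| ≤ 1 / ((2 * P + 1) * q) := by
    rw [Rat.cast_def] at hr1
    push_cast at hr1
    exact hr1
  set ε : ℝ := Q1 ^ 2 / M with hε
  have hε0 : 0 < ε := by
    rw [hε]; exact div_pos (by positivity) hM0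
  set T : Finset ℕ := (Icc P (2 * P)).filter Nat.Prime with hT
  have hBT : ∀ x ∈ B, x.1 ∈ T := by
    intro x hx
    obtain ⟨h1, -, h3, h4, -⟩ := hB x hx
    exact Finset.mem_filter.2 ⟨Finset.mem_Icc.2 ⟨h3, h4⟩, h1⟩
  have hTcard1 : (T.card : ℝ) ≤ 2 * P := by
    have h1 : T.card ≤ P + 1 := by
      refine (Finset.card_filter_le _ _).trans ?_
      rw [Nat.card_Icc]; omega
    have h2 : (T.card : ℝ) ≤ P + 1 := by exact_mod_cast h1
    linarith
  have hTcard2 : (T.card : ℝ) ≤ 2 * C * (P / Real.log P) := by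
    refine h170_P1 C hC P hP T (h170_bt C hC h T 1 P le_rfl ?_ ?_ ?_)
    · exact fun x hx => (Finset.mem_filter.1 hx).2
    · intro x hx y hy
      have h1 := Finset.mem_Icc.1 (Finset.mem_filter.1 hx).1
      have h2 := Finset.mem_Icc.1 (Finset.mem_filter.1 hy).1
      omega
    · intro x _ y _
      simp
  have hfib : ∀ K : ℝ, 0 ≤ K → (∀ p ∈ T, ∀ S : Finset ℕ, (∀ y ∈ S, (p, y) ∈ B) → (S.card : ℝ) ≤ K) →
      (B.card : ℝ) ≤ 2 * C * (P / Real.log P) * K := by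
    intro K hK0 hK
    exact (h170_fib B T K hBT hK).trans (mul_le_mul_of_nonneg_right hTcard2 hK0)
  have hpT : ∀ p ∈ T, P ≤ p ∧ p ≤ 2 * P ∧ p.Prime := by
    intro p hp
    have h1 := Finset.mem_filter.1 hp
    have h2 := Finset.mem_Icc.1 h1.1
    exact ⟨h2.1, h2.2, h1.2⟩
  by_cases hc1 : 1 ≤ 2 * q * ε
  · -- case 1
    have h1 := h170_fib B T (18 * ε * P) hBT (by
      intro p hp S hS
      refine h170_c1 P q b hq hr2 hbq (f * α) ε hβ hc1 p (hpT p hp).1 (hpT p hp).2.1 S ?_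
      intro y hy
      obtain ⟨-, -, -, -, h5, h6, h7⟩ := hB _ (hS y hy)
      exact ⟨h5, h6, h7⟩)
    refine h1.trans ((mul_le_mul_of_nonneg_right hTcard1 (by positivity)).trans ?_)
    exact h170_e1 Q1 κ M P (Real.log P) hQ1 hM0 hP0 hl hA1
  · push Not at hc1
    have hcase : ∀ p ∈ T, ∀ S : Finset ℕ, (∀ y ∈ S, (p, y) ∈ B) → ∀ y ∈ S,
        (q : ℤ) ∣ (p : ℤ) - y ∧ |f * α - b / q| * |(p : ℝ) - y| ≤ ε := by
      intro p hp S hS y hy
      obtain ⟨-, -, -, -, h5, h6, a, ha⟩ := hB _ (hS y hy)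
      exact h170_c2 P q b hq hbq (f * α) ε hβ hc1 p y (hpT p hp).1 (hpT p hp).2.1 h5 h6 a ha
    have hcong : ∀ p ∈ T, ∀ S : Finset ℕ, (∀ y ∈ S, (p, y) ∈ B) → ∀ x ∈ S, ∀ y ∈ S,
        (q : ℤ) ∣ (x : ℤ) - y := by
      intro p hp S hS x hx y hy
      have h1 := (hcase p hp S hS x hx).1
      have h2 := (hcase p hp S hS y hy).1
      have h3 : (x : ℤ) - y = (p - y) - (p - x) := by ring
      rw [h3]
      exact dvd_sub h2 h1
    by_cases hc2 : Q2 < q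
    · have hφ : (0:ℝ) < (Nat.totient q : ℝ) := by exact_mod_cast Nat.totient_pos.2 hq
      by_cases hc3 : q * q ≤ P
      · refine (hfib (6 * C / (Nat.totient q : ℝ) * (P / Real.log P)) (by positivity) ?_).trans
          (h170_e2 C Q1 κ _ _ hQ1 hC hκ hφ (hQ2 q hc2))
        intro p hp S hS
        refine (h170_bt C hC h S q P hq ?_ ?_ (hcong p hp S hS)).trans
          (h170_r1 C _ P q hC hφ hq hP hc3)
        · intro x hx
          exact (hB _ (hS x hx)).2.1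
        · intro x hx y hy
          obtain ⟨-, -, -, -, h5, h6, -⟩ := hB _ (hS x hx)
          obtain ⟨-, -, -, -, h5', h6', -⟩ := hB _ (hS y hy)
          simp only at h5 h6 h5' h6'
          omega
      · push Not at hc3
        refine (hfib (Real.sqrt P + 1) (by positivity) ?_).trans
          (h170_e3 C Q1 κ P (Real.log P) _ hQ1 hl hP0 hA2)
        intro p hp S hS
        refine h170_triv P q hq S ?_ (hcong p hp S hS) hc3
        intro y hy
        obtain ⟨-, -, -, -, h5, h6, -⟩ := hB _ (hS y hy)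
        exact ⟨h5, h6⟩
    · push Not at hc2
      have hq2 : (q:ℝ) ≤ Q2 := by exact_mod_cast hc2
      have hβ2 : Q0 / N < |f * α - b / q| := by
        have h1 : Q0 / N < |α - (b : ℝ) / ((f * q : ℕ) : ℝ)| := by
          by_contra hneg
          push Not at hneg
          refine hα ⟨f * q, Nat.mul_pos hf1 hq, ?_, b, hneg⟩
          push_cast
          refine le_trans ?_ hQ0a
          exact mul_le_mul hf2 hq2 hq0.le (by linarith)
        have h2 : (f : ℝ) * α - b / q = f * (α - (b : ℝ) / ((f * q : ℕ) : ℝ)) := by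
          push_cast
          field_simp
        rw [h2, abs_mul, abs_of_pos hf0]
        have h3 : 0 < |α - (b : ℝ) / ((f * q : ℕ) : ℝ)| := lt_trans (div_pos hQ0 hN0) h1
        nlinarith
      have hβ3 : Q0 / (2 * M * P) ≤ |f * α - b / q| := by
        refine le_trans ?_ hβ2.le
        have h1 : (N:ℝ) ≤ 2 * M * P := by exact_mod_cast hNMP
        exact div_le_div_of_nonneg_left hQ0.le hN0 h1
      refine (hfib (6 * C * (2 * Q1 ^ 2 / Q0 * P / Real.log P)) (by positivity) ?_).trans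
          (h170_e4 C Q1 κ Q0 P (Real.log P) hQ1 hQ0 hl hQ0b)
      intro p hp S hS
      have hclose : ∀ y ∈ S, |(p:ℝ) - y| ≤ 2 * Q1 ^ 2 / Q0 * P := by
        intro y hy
        have h1 := (hcase p hp S hS y hy).2
        have h2 : Q0 / (2 * M * P) * |(p : ℝ) - y| ≤ ε :=
          (mul_le_mul_of_nonneg_right hβ3 (abs_nonneg _)).trans h1
        have h3 : |(p : ℝ) - y| = (2 * M * P / Q0) * (Q0 / (2 * M * P) * |(p : ℝ) - y|) := by
          field_simp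
        rw [h3]
        have h4 : (2 * M * P / Q0) * ε = 2 * Q1 ^ 2 / Q0 * P := by
          rw [hε]; field_simp
        rw [← h4]
        exact mul_le_mul_of_nonneg_left h2 (by positivity)
      refine (h170_bt C hC h S 1 ⌊2 * (2 * Q1 ^ 2 / Q0 * P)⌋₊ le_rfl ?_ ?_ (by intro x _ y _; simp)).trans
          (h170_r2 C _ P hC hP hA3 hA4)
      · intro x hx
        exact (hB _ (hS x hx)).2.1
      · intro x hx y hy
        have h1 := abs_le.1 (hclose x hx)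
        have h2 := abs_le.1 (hclose y hy)
        have h3 : (x:ℝ) - y ≤ 2 * (2 * Q1 ^ 2 / Q0 * P) := by linarith
        rcases le_total x y with h4 | h4
        · omega
        · have h5 : x - y ≤ ⌊2 * (2 * Q1 ^ 2 / Q0 * P)⌋₊ := by
            apply Nat.le_floor
            rw [Nat.cast_sub h4]
            exact h3
          omega

theorem h170_absQ (Q1 M h α : ℝ) (hQ1 : 1 ≤ Q1) (hM : 0 < M) (f : ℕ) (hf : 1 ≤ f) (hf2 : (f:ℝ) ≤ Q1) (a : ℤ)
    (hx : |α * h - (a:ℝ) / f| ≤ Q1 / M) : |(f * α) * h - a| ≤ Q1 ^ 2 / M := by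
  have hf0 : (0:ℝ) < f := by exact_mod_cast hf
  have e1 : (f * α) * h - a = f * (α * h - (a:ℝ) / f) := by
    field_simp
  rw [e1, abs_mul, abs_of_pos hf0]
  calc (f:ℝ) * |α * h - (a:ℝ) / f| ≤ Q1 * (Q1 / M) :=
        mul_le_mul hf2 hx (abs_nonneg _) (by linarith)
    _ = _ := by ring

theorem h170_logMA (P M A : ℕ) (hP : 2 ≤ P) (h : P ≤ M ^ A) : Real.log P ^ 2 ≤ A ^ 2 * Real.log M ^ 2 := by
  have hP' : (2:ℝ) ≤ P := by exact_mod_cast hP
  have hl : 0 < Real.log P := Real.log_pos (by linarith)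
  have h1 : (P:ℝ) ≤ (M:ℝ) ^ A := by exact_mod_cast h
  have h2 := Real.log_le_log (by linarith) h1
  rw [Real.log_pow] at h2
  calc Real.log P ^ 2 ≤ (A * Real.log M) ^ 2 := pow_le_pow_left₀ hl.le h2 2
    _ = _ := by ring

theorem J4a (h3 : J3Stmt) : J4aStmt := by
  obtain ⟨C, hC, h⟩ := h3
  intro A Q1 κ hQ1 hκ
  have hC0 : 0 < C := by linarith
  have hQ10 : 0 < Q1 := by linarith
  -- Q2
  set K : ℝ := 24 * C ^ 2 * Q1 / κ with hK
  have hK0 : 0 < K := by positivity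
  set Q2 : ℕ := ⌈2 * K ^ 2⌉₊ with hQ2def
  have hQ2 : ∀ q : ℕ, Q2 < q → 24 * C ^ 2 * Q1 ≤ κ * (Nat.totient q : ℝ) := by
    intro q hq
    have h1 := (h170_tot q).1
    have h2 : (q:ℝ) ≤ 2 * (Nat.totient q : ℝ) ^ 2 := by exact_mod_cast h1
    have h4 : 2 * K ^ 2 < q := lt_of_le_of_lt (Nat.le_ceil _) (by exact_mod_cast hq)
    have h5 : K ^ 2 ≤ (Nat.totient q : ℝ) ^ 2 := by linarith
    have h6 : K ≤ (Nat.totient q : ℝ) := le_of_sq_le_sq h5 (Nat.cast_nonneg _)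
    rw [hK, div_le_iff₀ hκ] at h6
    linarith
  set Q0 : ℝ := Q1 * Q2 + 24 * C ^ 2 * Q1 ^ 3 / κ + 1 with hQ0def
  have hx1 : 0 ≤ Q1 * (Q2:ℝ) := by positivity
  have hx2 : 0 ≤ 24 * C ^ 2 * Q1 ^ 3 / κ := by positivity
  have hQ0 : 1 ≤ Q0 := by rw [hQ0def]; linarith
  have hQ00 : 0 < Q0 := by linarith
  have hQ0a : Q1 * Q2 ≤ Q0 := by rw [hQ0def]; linarith
  have hQ0b : 24 * C ^ 2 * Q1 ^ 3 ≤ κ * Q0 := by
    have e1 : 24 * C ^ 2 * Q1 ^ 3 / κ ≤ Q0 := by rw [hQ0def]; linarith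
    rw [div_le_iff₀ hκ] at e1
    linarith
  set θ : ℝ := 2 * Q1 ^ 2 / Q0 with hθ
  have hθ0 : 0 < θ := by positivity
  obtain ⟨M0, hM0⟩ := h170_A1 (36 * Q1 ^ 3 * A ^ 2 / κ)
  obtain ⟨P1, hP1⟩ := h170_A1 ((4 * C * Q1 / κ) ^ 2)
  refine ⟨Q0, hQ0, 2 + M0 ^ A + P1 + ⌈2 / θ⌉₊ + ⌈1 / (4 * θ ^ 2)⌉₊, by omega, ?_⟩
  intro P M N hPP0 hPM hN hNMP α hα B hB
  have hP : 2 ≤ P := by omega
  have hP' : (2:ℝ) ≤ P := by exact_mod_cast hP
  have hPpos : (0:ℝ) < P := by linarith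
  have hl : 0 < Real.log P := Real.log_pos (by linarith)
  have hMM : M0 ≤ M := by
    by_contra hneg
    push Not at hneg
    have := Nat.pow_le_pow_left hneg.le A
    omega
  have hM1 : 1 ≤ M := by
    rcases Nat.eq_zero_or_pos M with h0 | h0
    · subst h0
      rcases Nat.eq_zero_or_pos A with h1 | h1
      · subst h1; simp at hPM; omega
      · rw [zero_pow (by omega)] at hPM; omega
    · exact h0
  have hM1' : (0:ℝ) < M := by exact_mod_cast hM1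
  have hA1 : 36 * Q1 ^ 3 * Real.log P ^ 2 ≤ κ * M := by
    have e1 := hM0 M hMM
    have e2 := h170_logMA P M A hP hPM
    have e3 : 36 * Q1 ^ 3 * Real.log P ^ 2 ≤ 36 * Q1 ^ 3 * (A ^ 2 * Real.log M ^ 2) :=
      mul_le_mul_of_nonneg_left e2 (by positivity)
    have e4 : 36 * Q1 ^ 3 * (A ^ 2 * Real.log M ^ 2) = κ * (36 * Q1 ^ 3 * A ^ 2 / κ * Real.log M ^ 2) := by
      field_simp
    rw [e4] at e3
    exact e3.trans (mul_le_mul_of_nonneg_left e1 hκ.le)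
  have hA2 : 2 * C * Q1 * (Real.sqrt P + 1) * Real.log P ≤ κ * P := by
    have e1 := hP1 P (by omega)
    have e2 : 4 * C * Q1 / κ * Real.log P ≤ Real.sqrt P := by
      apply Real.le_sqrt_of_sq_le
      rw [mul_pow]
      exact e1
    have e3 : 1 ≤ Real.sqrt P := by
      rw [Real.one_le_sqrt]; linarith
    have e4 : 4 * C * Q1 * Real.log P ≤ κ * Real.sqrt P := by
      have e5 : 4 * C * Q1 * Real.log P = κ * (4 * C * Q1 / κ * Real.log P) := by field_simp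
      rw [e5]
      exact mul_le_mul_of_nonneg_left e2 hκ.le
    have e6 : Real.sqrt P * Real.sqrt P = P := Real.mul_self_sqrt hPpos.le
    calc 2 * C * Q1 * (Real.sqrt P + 1) * Real.log P ≤ 2 * C * Q1 * (2 * Real.sqrt P) * Real.log P := by
          refine mul_le_mul_of_nonneg_right (mul_le_mul_of_nonneg_left (by linarith) (by positivity)) hl.le
      _ = (4 * C * Q1 * Real.log P) * Real.sqrt P := by ring
      _ ≤ (κ * Real.sqrt P) * Real.sqrt P := mul_le_mul_of_nonneg_right e4 (Real.sqrt_nonneg _)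
      _ = κ * P := by rw [mul_assoc, e6]
  have hA3 : 2 ≤ θ * P := by
    have e1 : (⌈2 / θ⌉₊ : ℝ) ≤ P := by exact_mod_cast (by omega : ⌈2 / θ⌉₊ ≤ P)
    have e2 : 2 / θ ≤ P := (Nat.le_ceil _).trans e1
    rw [div_le_iff₀ hθ0] at e2
    linarith
  have hA4 : (P:ℝ) ≤ (2 * (θ * P)) ^ 2 := by
    have e1 : (⌈1 / (4 * θ ^ 2)⌉₊ : ℝ) ≤ P := by exact_mod_cast (by omega : ⌈1 / (4 * θ ^ 2)⌉₊ ≤ P)
    have e2 : 1 / (4 * θ ^ 2) ≤ P := (Nat.le_ceil _).trans e1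
    rw [div_le_iff₀ (by positivity)] at e2
    calc (P:ℝ) = P * 1 := (mul_one _).symm
      _ ≤ P * (P * (4 * θ ^ 2)) := mul_le_mul_of_nonneg_left e2 hPpos.le
      _ = _ := by ring
  -- cover B
  classical
  set F : ℕ → Finset (ℕ × ℕ) := fun f =>
    B.filter (fun x => ∃ a : ℤ, |(f * α) * ((x.1 : ℝ) - x.2) - a| ≤ Q1 ^ 2 / M) with hF
  have hsub : B ⊆ (Icc 1 ⌊Q1⌋₊).biUnion F := by
    intro x hx
    obtain ⟨-, -, -, -, -, -, f, hf1, hf2, a, ha⟩ := hB x hx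
    rw [Finset.mem_biUnion]
    refine ⟨f, Finset.mem_Icc.2 ⟨hf1, Nat.le_floor hf2⟩, Finset.mem_filter.2 ⟨hx, a, ?_⟩⟩
    exact h170_absQ Q1 M _ α hQ1 hM1' f hf1 hf2 a ha
  have hF1 : ∀ f ∈ Icc 1 ⌊Q1⌋₊, ((F f).card : ℝ) ≤ κ / Q1 * ((P : ℝ) / Real.log P) ^ 2 := by
    intro f hf
    obtain ⟨hf1, hf2⟩ := Finset.mem_Icc.1 hf
    have hf2' : (f:ℝ) ≤ Q1 := (Nat.le_floor_iff hQ10.le).1 hf2
    refine h170_main C hC h Q1 κ Q0 hQ1 hκ hQ00 Q2 hQ0a hQ0b hQ2 P M N hP hM1 hN hNMP hA1 hA2 hA3 hA4 α hα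
      f hf1 hf2' (F f) ?_
    intro x hx
    obtain ⟨hx1, hx2⟩ := Finset.mem_filter.1 hx
    obtain ⟨h1, h2, h3, h4, h5, h6, -⟩ := hB x hx1
    exact ⟨h1, h2, h3, h4, h5, h6, hx2⟩
  have hc : (B.card : ℝ) ≤ ∑ f ∈ Icc 1 ⌊Q1⌋₊, ((F f).card : ℝ) := by
    have e1 : B.card ≤ ∑ f ∈ Icc 1 ⌊Q1⌋₊, (F f).card := (Finset.card_le_card hsub).trans Finset.card_biUnion_le
    exact_mod_cast e1
  refine hc.trans ((Finset.sum_le_card_nsmul _ _ _ hF1).trans ?_)
  rw [nsmul_eq_mul, Nat.card_Icc, Nat.add_sub_cancel]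
  have e1 : (⌊Q1⌋₊ : ℝ) ≤ Q1 := Nat.floor_le hQ10.le
  calc (⌊Q1⌋₊ : ℝ) * (κ / Q1 * ((P : ℝ) / Real.log P) ^ 2) ≤ Q1 * (κ / Q1 * ((P : ℝ) / Real.log P) ^ 2) :=
        mul_le_mul_of_nonneg_right e1 (by positivity)
    _ = _ := by field_simp

end Pool.Agent.Helper602.MK.N_J4a
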