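import Mathlib
import Pool.Agent.Helper602.MK.Defs

set_option autoImplicit false

namespace Pool.Agent.Helper602.MK.N_J4b

open Finset


theorem mem_rgh' {y M m : ℕ} : m ∈ rgh y M ↔ (1 ≤ m ∧ m ≤ M) ∧ Rough y m := by
  classical
  unfold rgh
  simp only [Finset.mem_filter, Finset.mem_Icc]

theorem ee_mul_conj (x y : ℝ) : ee x * (starRingEnd ℂ) (ee y) = ee (x - y) := by
  unfold ee
  rw [← Complex.exp_conj, ← Complex.exp_add]
  congr 1
  simp only [map_mul, Complex.conj_ofReal, Complex.conj_I, map_ofNat]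
  push_cast
  ring

theorem norm_ee (x : ℝ) : ‖ee x‖ = 1 := by
  unfold ee
  have : 2 * (Real.pi : ℂ) * x * Complex.I = ((2 * Real.pi * x : ℝ) : ℂ) * Complex.I := by push_cast; ring
  rw [this, Complex.norm_exp_ofReal_mul_I]

theorem rgh_card_le {C : ℝ} (h : ∀ y : ℕ, 2 ≤ y → ∀ X Y : ℕ, y ≤ Y →
    (((rgh y (X + Y)).filter (fun m => X < m)).card : ℝ) ≤ C * Y / Real.log y) {y M : ℕ} (hy : 2 ≤ y) (hM : y ≤ M) :
    ((rgh y M).card : ℝ) ≤ C * M / Real.log y := by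
  have h1 := h y hy 0 M hM
  rw [Nat.zero_add] at h1
  have h2 : (rgh y M).filter (fun m => 0 < m) = rgh y M := by
    apply Finset.filter_true_of_mem
    intro m hm
    have := (mem_rgh'.mp hm).1.1
    omega
  rwa [h2] at h1

theorem primes_card_le {C : ℝ} (h : ∀ y : ℕ, 2 ≤ y → ∀ X Y : ℕ, y ≤ Y →
    (((rgh y (X + Y)).filter (fun m => X < m)).card : ℝ) ≤ C * Y / Real.log y) {P P' : ℕ} (hP : 2 ≤ P) (hP' : P' ≤ 2 * P) :
    (((Ico P P').filter Nat.Prime).card : ℝ) ≤ C * P / Real.log P := by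
  have h1 := h P hP (P - 1) P le_rfl
  refine le_trans ?_ h1
  have h2 : (Ico P P').filter Nat.Prime ⊆ (rgh P (P - 1 + P)).filter (fun m => P - 1 < m) := by
    intro p hp
    rw [Finset.mem_filter, Finset.mem_Ico] at hp
    rw [Finset.mem_filter, mem_rgh']
    refine ⟨⟨⟨by omega, by omega⟩, ?_⟩, by omega⟩
    intro q hq hqp
    have := (Nat.prime_dvd_prime_iff_eq hq hp.2).mp hqp
    omega
  exact_mod_cast Finset.card_le_card h2

theorem rgh_anti {y z M : ℕ} (h : y ≤ z) : rgh z M ⊆ rgh y M := by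
  intro m hm
  rw [mem_rgh'] at hm ⊢
  exact ⟨hm.1, fun p hp hpm => h.trans (hm.2 p hp hpm)⟩

/-- expanding the square -/
theorem sq_expand (R T : Finset ℕ) (α : ℝ) :
    ∑ m ∈ R, ‖∑ p ∈ T, ee (α * ((p : ℝ) * m))‖ ^ 2 ≤
      ∑ x ∈ T ×ˢ T, ‖∑ m ∈ R, ee (α * ((x.1 : ℝ) - x.2) * m)‖ := by
  have h1 : ((∑ m ∈ R, ‖∑ p ∈ T, ee (α * ((p : ℝ) * m))‖ ^ 2 : ℝ) : ℂ) =
      ∑ x ∈ T ×ˢ T, ∑ m ∈ R, ee (α * ((x.1 : ℝ) - x.2) * m) := by
    rw [Finset.sum_comm]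
    push_cast
    apply Finset.sum_congr rfl
    intro m _
    rw [← Complex.mul_conj', map_sum, Finset.sum_mul_sum, Finset.sum_product]
    apply Finset.sum_congr rfl
    intro p _
    apply Finset.sum_congr rfl
    intro p' _
    rw [ee_mul_conj]
    congr 1
    ring
  have h2 : ∑ m ∈ R, ‖∑ p ∈ T, ee (α * ((p : ℝ) * m))‖ ^ 2 =
      ‖((∑ m ∈ R, ‖∑ p ∈ T, ee (α * ((p : ℝ) * m))‖ ^ 2 : ℝ) : ℂ)‖ := by
    rw [Complex.norm_real, Real.norm_eq_abs, abs_of_nonneg (Finset.sum_nonneg (fun _ _ => sq_nonneg _))]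
  rw [h2, h1]
  exact norm_sum_le _ _

/-- the choice of the auxiliary sieving level -/
theorem exists_y {A z y0 : ℕ} (hA : 1 ≤ A) (hz : (y0 + 4) ^ A ≤ z) (hz2 : 2 ≤ z) :
    ∃ y : ℕ, y0 ≤ y ∧ 2 ≤ y ∧ y ^ A ≤ z ∧ y ≤ z ∧ Real.log z / (2 * A) ≤ Real.log y := by
  have hAr : (0:ℝ) < A := by exact_mod_cast hA
  have hzr : (0:ℝ) < z := by positivity
  have hw : (y0 : ℝ) + 4 ≤ (z : ℝ) ^ (1 / (A : ℝ)) := by
    have h1 : (((y0 : ℝ) + 4) ^ A) ≤ z := by exact_mod_cast hz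
    have h2 : (((y0 : ℝ) + 4) ^ A) ^ (1 / (A : ℝ)) ≤ (z : ℝ) ^ (1 / (A : ℝ)) :=
      Real.rpow_le_rpow (by positivity) h1 (by positivity)
    rwa [← Real.rpow_natCast, ← Real.rpow_mul (by positivity), mul_one_div_cancel hAr.ne', Real.rpow_one] at h2
  set w := (z : ℝ) ^ (1 / (A : ℝ)) with hwdef
  have hy0r : (0:ℝ) ≤ y0 := Nat.cast_nonneg _
  have hw0 : 0 < w := by linarith
  have hfl : (⌊w⌋₊ : ℝ) ≤ w := Nat.floor_le hw0.le
  have hfl2 : w < ⌊w⌋₊ + 1 := Nat.lt_floor_add_one w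
  have hy0 : y0 + 4 ≤ ⌊w⌋₊ := Nat.le_floor (by push_cast; exact hw)
  have hyA : ⌊w⌋₊ ^ A ≤ z := by
    have h1 : ((⌊w⌋₊ : ℝ)) ^ A ≤ w ^ A := pow_le_pow_left₀ (by positivity) hfl A
    have h2 : w ^ A = z := by
      rw [hwdef, ← Real.rpow_natCast, ← Real.rpow_mul hzr.le, one_div_mul_cancel hAr.ne', Real.rpow_one]
    rw [h2] at h1
    exact_mod_cast h1
  refine ⟨⌊w⌋₊, by omega, by omega, hyA, ?_, ?_⟩
  · refine le_trans ?_ hyA
    exact Nat.le_self_pow (by omega) _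
  · have h1 : w ^ (1 / 2 : ℝ) ≤ ⌊w⌋₊ := by
      have h2 : w ^ (1 / 2 : ℝ) ≤ w / 2 := by
        rw [← Real.sqrt_eq_rpow]
        apply Real.sqrt_le_iff.mpr
        constructor
        · positivity
        · nlinarith
      linarith
    have h3 : Real.log (w ^ (1 / 2 : ℝ)) ≤ Real.log ⌊w⌋₊ := Real.log_le_log (by positivity) h1
    rw [Real.log_rpow hw0, hwdef, Real.log_rpow hzr] at h3
    calc Real.log z / (2 * A) = 1 / 2 * (1 / (A : ℝ) * Real.log z) := by field_simp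
      _ ≤ _ := h3

theorem J4b (h1 : J1Stmt) (h2 : J2Stmt) (h4a : J4aStmt) : J4bStmt := by
  classical
  obtain ⟨C, hC1, hC⟩ := h2
  have hC0 : 0 < C := by linarith
  intro A κ hκ
  obtain ⟨A2, hA2, Q2, hQ2, y0, hy0, hJ1⟩ := h1 (κ ^ 2 / (4 * C ^ 3)) (by positivity)
  have hA2r : (0:ℝ) < A2 := by exact_mod_cast hA2
  obtain ⟨Q0, hQ0, P0, hP0, hJ4⟩ := h4a A Q2 (κ ^ 2 / (4 * A2 * C ^ 2)) hQ2 (by positivity)
  refine ⟨Q0, hQ0, max 2 (max P0 ((y0 + 4) ^ A2)), le_max_left _ _, ?_⟩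
  intro z P M N hz hzP hzM hPz hN1 hN2 α hα P' hP' c hc
  have hz2 : 2 ≤ z := le_trans (le_max_left _ _) hz
  have hzP0 : P0 ≤ z := le_trans (le_trans (le_max_left _ _) (le_max_right _ _)) hz
  have hzy : (y0 + 4) ^ A2 ≤ z := le_trans (le_trans (le_max_right _ _) (le_max_right _ _)) hz
  obtain ⟨y, hyy0, hy2, hyA, hyz, hylog⟩ := exists_y hA2 hzy hz2
  have hP2 : 2 ≤ P := hz2.trans hzP
  have hlogz : 0 < Real.log z := Real.log_pos (by exact_mod_cast (by omega : 1 < z))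
  have hlogP : 0 < Real.log P := Real.log_pos (by exact_mod_cast (by omega : 1 < P))
  have hlogy : 0 < Real.log y := Real.log_pos (by exact_mod_cast (by omega : 1 < y))
  have hMr : (0:ℝ) < M := by exact_mod_cast (by omega : 0 < M)
  have hPr : (0:ℝ) < P := by exact_mod_cast (by omega : 0 < P)
  set T := (Ico P P').filter Nat.Prime with hT
  set R := rgh y M with hR
  have hcardz : ((rgh z M).card : ℝ) ≤ C * M / Real.log z := rgh_card_le hC hz2 hzM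
  have hcardy : (R.card : ℝ) ≤ C * M / Real.log y := rgh_card_le hC hy2 (hyz.trans hzM)
  have hcardT : (T.card : ℝ) ≤ C * P / Real.log P := primes_card_le hC hP2 hP'
  have hinvy : 1 / Real.log y ≤ 2 * A2 / Real.log z := by
    rw [div_le_div_iff₀ hlogy hlogz]
    rw [div_le_iff₀ (by positivity)] at hylog
    linarith
  -- the bad pairs
  let B : Finset (ℕ × ℕ) := (T ×ˢ T).filter (fun x => Major Q2 M (α * ((x.1 : ℝ) - x.2)))
  have hBcard : (B.card : ℝ) ≤ κ ^ 2 / (4 * A2 * C ^ 2) * ((P : ℝ) / Real.log P) ^ 2 := by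
    apply hJ4 P M N (hzP0.trans hzP) (hPz.trans (Nat.pow_le_pow_left hzM A)) hN1 hN2 α hα B
    intro x hx
    rw [Finset.mem_filter, Finset.mem_product, hT, Finset.mem_filter, Finset.mem_filter, Finset.mem_Ico, Finset.mem_Ico] at hx
    obtain ⟨⟨⟨⟨a1, a2⟩, a3⟩, ⟨a4, a5⟩, a6⟩, a7⟩ := hx
    exact ⟨a3, a6, a1, by omega, a4, by omega, a7⟩
  -- estimate of every pair
  have hgood : ∀ x ∈ T ×ˢ T, x ∉ B → ‖∑ m ∈ R, ee (α * ((x.1 : ℝ) - x.2) * m)‖ ≤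
      2 * (κ ^ 2 / (4 * C ^ 3)) * M / Real.log z := by
    intro x hx hxB
    have hnM : ¬ Major Q2 M (α * ((x.1 : ℝ) - x.2)) := fun hmaj => hxB (Finset.mem_filter.mpr ⟨hx, hmaj⟩)
    refine (hJ1 y M hyy0 (hyA.trans hzM) _ hnM).trans ?_
    calc κ ^ 2 / (4 * C ^ 3) * M / (A2 * Real.log y) = (κ ^ 2 / (4 * C ^ 3) * M / A2) * (1 / Real.log y) := by
          field_simp
      _ ≤ (κ ^ 2 / (4 * C ^ 3) * M / A2) * (2 * A2 / Real.log z) := mul_le_mul_of_nonneg_left hinvy (by positivity)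
      _ = 2 * (κ ^ 2 / (4 * C ^ 3)) * M / Real.log z := by field_simp
  have htriv : ∀ x : ℕ × ℕ, ‖∑ m ∈ R, ee (α * ((x.1 : ℝ) - x.2) * m)‖ ≤ 2 * A2 * C * M / Real.log z := by
    intro x
    refine (norm_sum_le _ _).trans ?_
    simp only [norm_ee, Finset.sum_const, nsmul_eq_mul, mul_one]
    refine hcardy.trans ?_
    calc C * M / Real.log y = (C * M) * (1 / Real.log y) := by ring
      _ ≤ (C * M) * (2 * A2 / Real.log z) := mul_le_mul_of_nonneg_left hinvy (by positivity)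
      _ = _ := by ring
  have hpairs : ∑ x ∈ T ×ˢ T, ‖∑ m ∈ R, ee (α * ((x.1 : ℝ) - x.2) * m)‖ ≤
      (κ ^ 2 / C) * ((P : ℝ) / Real.log P) ^ 2 * (M / Real.log z) := by
    rw [← Finset.sum_filter_add_sum_filter_not (T ×ˢ T) (fun x => Major Q2 M (α * ((x.1 : ℝ) - x.2)))]
    have hb : ∑ x ∈ (T ×ˢ T).filter (fun x => Major Q2 M (α * ((x.1 : ℝ) - x.2))), ‖∑ m ∈ R, ee (α * ((x.1 : ℝ) - x.2) * m)‖ ≤
        (κ ^ 2 / (4 * A2 * C ^ 2) * ((P : ℝ) / Real.log P) ^ 2) * (2 * A2 * C * M / Real.log z) := by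
      refine (Finset.sum_le_sum (fun x _ => htriv x)).trans ?_
      rw [Finset.sum_const, nsmul_eq_mul]
      exact mul_le_mul_of_nonneg_right hBcard (by positivity)
    have hg : ∑ x ∈ (T ×ˢ T).filter (fun x => ¬ Major Q2 M (α * ((x.1 : ℝ) - x.2))), ‖∑ m ∈ R, ee (α * ((x.1 : ℝ) - x.2) * m)‖ ≤
        (C * P / Real.log P) ^ 2 * (2 * (κ ^ 2 / (4 * C ^ 3)) * M / Real.log z) := by
      refine (Finset.sum_le_sum (g := fun _ => 2 * (κ ^ 2 / (4 * C ^ 3)) * M / Real.log z) (fun x hx => ?_)).trans ?_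
      · rw [Finset.mem_filter] at hx
        exact hgood x hx.1 (fun hB => hx.2 (Finset.mem_filter.mp hB).2)
      · rw [Finset.sum_const, nsmul_eq_mul]
        apply mul_le_mul_of_nonneg_right _ (by positivity)
        have h3 : (((T ×ˢ T).filter (fun x => ¬ Major Q2 M (α * ((x.1 : ℝ) - x.2)))).card : ℝ) ≤ (T.card : ℝ) ^ 2 := by
          have h4 := Finset.card_filter_le (T ×ˢ T) (fun x => ¬ Major Q2 M (α * ((x.1 : ℝ) - x.2)))
          rw [Finset.card_product, ← sq] at h4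
          exact_mod_cast h4
        exact h3.trans (pow_le_pow_left₀ (Nat.cast_nonneg _) hcardT 2)
    refine (add_le_add hb hg).trans (le_of_eq ?_)
    field_simp
    ring
  have hSsq : ∑ m ∈ rgh z M, ‖∑ p ∈ T, ee (α * ((p : ℝ) * m))‖ ^ 2 ≤
      (κ ^ 2 / C) * ((P : ℝ) / Real.log P) ^ 2 * (M / Real.log z) := by
    refine le_trans ?_ ((sq_expand R T α).trans hpairs)
    exact Finset.sum_le_sum_of_subset_of_nonneg (rgh_anti hyz) (fun _ _ _ => sq_nonneg _)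
  have hlin : ‖∑ m ∈ rgh z M, c m * ∑ p ∈ T, ee (α * ((p : ℝ) * m))‖ ≤
      ∑ m ∈ rgh z M, ‖∑ p ∈ T, ee (α * ((p : ℝ) * m))‖ := by
    refine (norm_sum_le _ _).trans (Finset.sum_le_sum (fun m _ => ?_))
    rw [norm_mul]
    exact mul_le_of_le_one_left (norm_nonneg _) (hc m)
  have hCS : (∑ m ∈ rgh z M, ‖∑ p ∈ T, ee (α * ((p : ℝ) * m))‖) ^ 2 ≤
      (κ * M * P / (Real.log P * Real.log z)) ^ 2 := by
    refine (sq_sum_le_card_mul_sum_sq).trans ?_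
    calc ((rgh z M).card : ℝ) * ∑ m ∈ rgh z M, ‖∑ p ∈ T, ee (α * ((p : ℝ) * m))‖ ^ 2 ≤
        (C * M / Real.log z) * ((κ ^ 2 / C) * ((P : ℝ) / Real.log P) ^ 2 * (M / Real.log z)) :=
          mul_le_mul hcardz hSsq (Finset.sum_nonneg (fun _ _ => sq_nonneg _)) (by positivity)
      _ = _ := by field_simp
  refine hlin.trans ?_
  exact (abs_le_of_sq_le_sq' hCS (by positivity)).2

end Pool.Agent.Helper602.MK.N_J4b
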