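import Mathlib
import Pool.Agent.Helper602.MK.Defs

set_option autoImplicit false

namespace Pool.Agent.Helper602.MK.N_J4c

open Finset


theorem J53_ee (x : ℝ) : ‖ee x‖ = 1 := by
  unfold ee
  rw [show (2 * Real.pi * x * Complex.I : ℂ) = ((2 * Real.pi * x : ℝ) : ℂ) * Complex.I by
    push_cast; ring]
  exact Complex.norm_exp_ofReal_mul_I _

theorem J53_major {Q1 Q M θ : ℝ} (hQ : Q1 ≤ Q) (hM : 0 ≤ M) (h : Major Q1 M θ) : Major Q M θ := by
  obtain ⟨q, h1, h2, a, h3⟩ := h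
  exact ⟨q, h1, h2.trans hQ, a, h3.trans (div_le_div_of_nonneg_right hQ hM)⟩

noncomputable def J53_b (m : ℕ) : ℝ := 1 / ((m.primeFactors.card : ℝ) + 1)

noncomputable def J53_c (m : ℕ) : ℂ := if m = 1 then 0 else ((J53_b m : ℝ) : ℂ)

noncomputable def J53_T (n : ℕ) : ℝ := ∑ p ∈ n.primeFactors, J53_b (n / p)

theorem J53_b_pos (m : ℕ) : 0 < J53_b m := by unfold J53_b; positivity

theorem J53_b_le (m : ℕ) : J53_b m ≤ 1 := by
  unfold J53_b
  rw [div_le_one (by positivity)]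
  have : (0 : ℝ) ≤ (m.primeFactors.card : ℝ) := Nat.cast_nonneg _
  linarith

theorem J53_c_le (m : ℕ) : ‖J53_c m‖ ≤ 1 := by
  unfold J53_c
  split_ifs
  · simp
  · rw [Complex.norm_real, Real.norm_of_nonneg (J53_b_pos m).le]
    exact J53_b_le m

theorem J53_T_nonneg (n : ℕ) : 0 ≤ J53_T n :=
  Finset.sum_nonneg fun p _ => (J53_b_pos _).le

theorem J53_pf {n p : ℕ} (hp : p ∈ n.primeFactors) :
    n.primeFactors ⊆ insert p (n / p).primeFactors := by
  intro q hq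
  have hpp := Nat.prime_of_mem_primeFactors hp
  have hpd := Nat.dvd_of_mem_primeFactors hp
  have hn0 : n ≠ 0 := (Nat.mem_primeFactors.mp hp).2.2
  have hqp := Nat.prime_of_mem_primeFactors hq
  have hqd := Nat.dvd_of_mem_primeFactors hq
  rw [← Nat.mul_div_cancel' hpd] at hqd
  rcases (Nat.Prime.dvd_mul hqp).mp hqd with h | h
  · rw [(Nat.prime_dvd_prime_iff_eq hqp hpp).mp h]
    exact mem_insert_self _ _
  · refine mem_insert_of_mem (Nat.mem_primeFactors.mpr ⟨hqp, h, ?_⟩)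
    exact (Nat.div_pos (Nat.le_of_dvd (Nat.pos_of_ne_zero hn0) hpd) hpp.pos).ne'

theorem J53_T_le (n : ℕ) : J53_T n ≤ 1 := by
  unfold J53_T
  rcases Finset.eq_empty_or_nonempty n.primeFactors with h | h
  · rw [h, Finset.sum_empty]; exact zero_le_one
  · have hc : (0 : ℝ) < (n.primeFactors.card : ℝ) := by exact_mod_cast h.card_pos
    have h1 : ∀ p ∈ n.primeFactors, J53_b (n / p) ≤ 1 / (n.primeFactors.card : ℝ) := by
      intro p hp
      unfold J53_b
      apply one_div_le_one_div_of_le hc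
      have h2 := (card_le_card (J53_pf hp)).trans (card_insert_le _ _)
      exact_mod_cast h2
    calc ∑ p ∈ n.primeFactors, J53_b (n / p) ≤ ∑ p ∈ n.primeFactors, 1 / (n.primeFactors.card : ℝ) :=
          Finset.sum_le_sum h1
      _ = 1 := by
          rw [Finset.sum_const, nsmul_eq_mul]; field_simp

theorem J53_T_one {n : ℕ} (hsq : Squarefree n) (h1 : n ≠ 1) : J53_T n = 1 := by
  have hn0 : n ≠ 0 := hsq.ne_zero
  have hne : n.primeFactors.Nonempty := by
    obtain ⟨p, hp, hd⟩ := Nat.exists_prime_and_dvd h1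
    exact ⟨p, Nat.mem_primeFactors.mpr ⟨hp, hd, hn0⟩⟩
  have hc : (0 : ℝ) < (n.primeFactors.card : ℝ) := by exact_mod_cast hne.card_pos
  unfold J53_T
  have h2 : ∀ p ∈ n.primeFactors, J53_b (n / p) = 1 / (n.primeFactors.card : ℝ) := by
    intro p hp
    have hpp := Nat.prime_of_mem_primeFactors hp
    have hpd := Nat.dvd_of_mem_primeFactors hp
    have hnot : p ∉ (n / p).primeFactors := by
      intro hmem
      have hd := Nat.dvd_of_mem_primeFactors hmem
      have h3 : p * p ∣ n := by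
        have := Nat.mul_dvd_mul_left p hd
        rwa [Nat.mul_div_cancel' hpd] at this
      exact hpp.one_lt.ne' (Nat.isUnit_iff.mp (hsq p h3))
    have heq : n.primeFactors = insert p (n / p).primeFactors := by
      apply Finset.Subset.antisymm (J53_pf hp)
      intro q hq
      rcases Finset.mem_insert.mp hq with rfl | hq
      · exact hp
      · exact Nat.mem_primeFactors.mpr ⟨Nat.prime_of_mem_primeFactors hq,
          (Nat.dvd_of_mem_primeFactors hq).trans (Nat.div_dvd_of_dvd hpd), hn0⟩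
    unfold J53_b
    have hcard : n.primeFactors.card = (n / p).primeFactors.card + 1 := by
      conv_lhs => rw [heq]
      rw [card_insert_of_notMem hnot]
    rw [hcard]
    push_cast
    rfl
  rw [Finset.sum_congr rfl h2, Finset.sum_const, nsmul_eq_mul]
  field_simp

theorem J53_mem_rgh {z M m : ℕ} : m ∈ rgh z M ↔ 1 ≤ m ∧ m ≤ M ∧ Rough z m := by
  simp only [rgh, mem_filter, mem_Icc, and_assoc]

theorem J53_swap (z N : ℕ) (f : ℕ → ℕ → ℂ) :
    ∑ n ∈ rgh z N, ∑ p ∈ n.primeFactors, f p (n / p) =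
      ∑ p ∈ (Icc z N).filter Nat.Prime, ∑ m ∈ rgh z (N / p), f p m := by
  rw [Finset.sum_sigma', Finset.sum_sigma']
  refine Finset.sum_bij' (fun x _ => ⟨x.2, x.1 / x.2⟩) (fun x _ => ⟨x.1 * x.2, x.1⟩) ?_ ?_ ?_ ?_ ?_
  · rintro ⟨n, p⟩ h
    rw [mem_sigma] at h
    obtain ⟨hn, hp⟩ := h
    rw [J53_mem_rgh] at hn
    obtain ⟨hn1, hnN, hR⟩ := hn
    have hpp := Nat.prime_of_mem_primeFactors hp
    have hpd := Nat.dvd_of_mem_primeFactors hp
    rw [mem_sigma, mem_filter, mem_Icc, J53_mem_rgh]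
    refine ⟨⟨⟨hR p hpp hpd, (Nat.le_of_dvd hn1 hpd).trans hnN⟩, hpp⟩, ?_, ?_, ?_⟩
    · exact Nat.div_pos (Nat.le_of_dvd hn1 hpd) hpp.pos
    · exact Nat.div_le_div_right hnN
    · intro q hq hqd
      exact hR q hq (hqd.trans (Nat.div_dvd_of_dvd hpd))
  · rintro ⟨p, m⟩ h
    rw [mem_sigma, mem_filter, mem_Icc, J53_mem_rgh] at h
    obtain ⟨⟨⟨hzp, hpN⟩, hpp⟩, hm1, hmN, hR⟩ := h
    rw [mem_sigma, J53_mem_rgh]
    refine ⟨⟨Nat.mul_pos hpp.pos hm1, ?_, ?_⟩, ?_⟩
    · exact (Nat.mul_le_mul_left p hmN).trans (Nat.mul_div_le N p)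
    · intro q hq hqd
      rcases (Nat.Prime.dvd_mul hq).mp hqd with h | h
      · rw [(Nat.prime_dvd_prime_iff_eq hq hpp).mp h]; exact hzp
      · exact hR q hq h
    · exact Nat.mem_primeFactors.mpr ⟨hpp, dvd_mul_right _ _, (Nat.mul_pos hpp.pos hm1).ne'⟩
  · rintro ⟨n, p⟩ h
    rw [mem_sigma] at h
    have hpd := Nat.dvd_of_mem_primeFactors h.2
    show (⟨p * (n / p), p⟩ : Σ _ : ℕ, ℕ) = ⟨n, p⟩
    rw [Nat.mul_div_cancel' hpd]
  · rintro ⟨p, m⟩ h
    rw [mem_sigma, mem_filter] at h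
    show (⟨p, p * m / p⟩ : Σ _ : ℕ, ℕ) = ⟨p, m⟩
    rw [Nat.mul_div_cancel_left _ h.1.2.pos]
  · rintro ⟨n, p⟩ h
    rfl

/-- the inner sum without `m = 1` -/
noncomputable def J53_F (z N : ℕ) (α : ℝ) (p : ℕ) : ℂ :=
  ∑ m ∈ rgh z (N / p), J53_c m * ee (α * ((p : ℝ) * m))

theorem J53_ident (z N : ℕ) (α : ℝ) :
    ∑ n ∈ rgh z N, ((J53_T n : ℝ) : ℂ) * ee (α * n) =
      ∑ p ∈ (Icc z N).filter Nat.Prime, ee (α * p) +
      ∑ p ∈ (Icc z N).filter Nat.Prime, J53_F z N α p := by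
  have h1 : ∑ n ∈ rgh z N, ((J53_T n : ℝ) : ℂ) * ee (α * n) =
      ∑ n ∈ rgh z N, ∑ p ∈ n.primeFactors,
        (fun (p m : ℕ) => ((J53_b m : ℝ) : ℂ) * ee (α * ((p : ℝ) * m))) p (n / p) := by
    apply Finset.sum_congr rfl
    intro n _
    unfold J53_T
    push_cast
    rw [Finset.sum_mul]
    apply Finset.sum_congr rfl
    intro p hp
    have hpd := Nat.dvd_of_mem_primeFactors hp
    show _ = ((J53_b (n / p) : ℝ) : ℂ) * ee (α * ((p : ℝ) * ((n / p : ℕ) : ℝ)))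
    congr 3
    rw [← Nat.cast_mul, Nat.mul_div_cancel' hpd]
  rw [h1, J53_swap z N (fun (p m : ℕ) => ((J53_b m : ℝ) : ℂ) * ee (α * ((p : ℝ) * m))),
    ← Finset.sum_add_distrib]
  apply Finset.sum_congr rfl
  intro p hp
  rw [mem_filter, mem_Icc] at hp
  obtain ⟨⟨hzp, hpN⟩, hpp⟩ := hp
  have hmem : 1 ∈ rgh z (N / p) := by
    rw [J53_mem_rgh]
    refine ⟨le_rfl, Nat.div_pos hpN hpp.pos, ?_⟩
    intro q hq hqd
    exact absurd (Nat.dvd_one.mp hqd) hq.one_lt.ne'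
  unfold J53_F
  rw [← Finset.add_sum_erase _ _ hmem, ← Finset.add_sum_erase (rgh z (N / p)) (fun m =>
    J53_c m * ee (α * ((p : ℝ) * m))) hmem]
  have hb1 : J53_b 1 = 1 := by unfold J53_b; simp
  have hc1 : J53_c 1 = 0 := by unfold J53_c; simp
  rw [hb1, hc1]
  simp only [Nat.cast_one, mul_one, Complex.ofReal_one, one_mul, zero_mul, zero_add]
  congr 1
  apply Finset.sum_congr rfl
  intro m hm
  have : m ≠ 1 := (Finset.mem_erase.mp hm).1
  unfold J53_c
  rw [if_neg this]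

/-- non squarefree rough numbers -/
theorem J53_nonsq (z N : ℕ) (hz : 2 ≤ z) :
    (((rgh z N).filter (fun n => ¬ Squarefree n)).card : ℝ) ≤ 2 * N / z := by
  have hsub : (rgh z N).filter (fun n => ¬ Squarefree n) ⊆
      (Ioc (z - 1) (max (z - 1) N)).biUnion (fun d => (Ioc 0 N).filter (fun n => d ^ 2 ∣ n)) := by
    intro n hn
    rw [mem_filter, J53_mem_rgh] at hn
    obtain ⟨⟨hn1, hnN, hR⟩, hns⟩ := hn
    rw [Nat.squarefree_iff_prime_squarefree] at hns
    push Not at hns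
    obtain ⟨p, hp, hpd⟩ := hns
    rw [mem_biUnion]
    have hd2 : p ^ 2 ∣ n := by rw [sq]; exact hpd
    have hdn : p ∣ n := (Dvd.intro _ rfl).trans hpd
    refine ⟨p, ?_, ?_⟩
    · rw [mem_Ioc]
      have h1 := hR p hp hdn
      have h2 := Nat.le_of_dvd hn1 hdn
      omega
    · rw [mem_filter, mem_Ioc]
      exact ⟨⟨hn1, hnN⟩, hd2⟩
  have h1 : (((rgh z N).filter (fun n => ¬ Squarefree n)).card : ℝ) ≤
      ∑ d ∈ Ioc (z - 1) (max (z - 1) N), ((N / d ^ 2 : ℕ) : ℝ) := by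
    have h2 := (card_le_card hsub).trans card_biUnion_le
    have h3 : ∑ d ∈ Ioc (z - 1) (max (z - 1) N), ((Ioc 0 N).filter (fun n => d ^ 2 ∣ n)).card =
        ∑ d ∈ Ioc (z - 1) (max (z - 1) N), N / d ^ 2 :=
      Finset.sum_congr rfl fun d _ => Nat.Ioc_filter_dvd_card_eq_div N (d ^ 2)
    rw [h3] at h2
    exact_mod_cast h2
  have h2 : ∑ d ∈ Ioc (z - 1) (max (z - 1) N), ((N / d ^ 2 : ℕ) : ℝ) ≤
      N * ∑ d ∈ Ioc (z - 1) (max (z - 1) N), (((d : ℝ)) ^ 2)⁻¹ := by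
    rw [Finset.mul_sum]
    apply Finset.sum_le_sum
    intro d _
    have := Nat.cast_div_le (α := ℝ) (m := N) (n := d ^ 2)
    rw [div_eq_mul_inv] at this
    push_cast at this
    exact this
  have h3 := sum_Ioc_inv_sq_le_sub (α := ℝ) (k := z - 1) (n := max (z - 1) N) (by omega)
    (le_max_left _ _)
  have hz1 : (0 : ℝ) < ((z - 1 : ℕ) : ℝ) := by exact_mod_cast (by omega : 0 < z - 1)
  have h4 : (0 : ℝ) ≤ (((max (z - 1) N : ℕ) : ℝ))⁻¹ := by positivity
  have h5 : (((z - 1 : ℕ) : ℝ))⁻¹ ≤ 2 / z := by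
    have hz0 : (0 : ℝ) < z := by exact_mod_cast (by omega : 0 < z)
    rw [inv_eq_one_div, div_le_div_iff₀ hz1 hz0]
    have : z ≤ 2 * (z - 1) := by omega
    have : (z : ℝ) ≤ 2 * ((z - 1 : ℕ) : ℝ) := by exact_mod_cast this
    linarith
  have hN : (0 : ℝ) ≤ N := Nat.cast_nonneg _
  calc _ ≤ _ := h1
    _ ≤ _ := h2
    _ ≤ N * (2 / z) := mul_le_mul_of_nonneg_left (by linarith) hN
    _ = 2 * N / z := by ring

theorem J53_step1 (z N : ℕ) (hz : 2 ≤ z) (α : ℝ) :
    ‖∑ p ∈ (Icc 1 N).filter Nat.Prime, ee (α * p)‖ ≤ z + 1 + 2 * N / z +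
      ‖∑ n ∈ rgh z N, ee (α * n)‖ + ‖∑ p ∈ (Icc z N).filter Nat.Prime, J53_F z N α p‖ := by
  have hid := J53_ident z N α
  -- small primes
  have hsub : (Icc z N).filter Nat.Prime ⊆ (Icc 1 N).filter Nat.Prime := by
    intro p hp
    rw [mem_filter, mem_Icc] at hp ⊢
    exact ⟨⟨by omega, hp.1.2⟩, hp.2⟩
  have h1 : ∑ p ∈ (Icc 1 N).filter Nat.Prime, ee (α * p) =
      ∑ p ∈ (Icc 1 N).filter Nat.Prime \ (Icc z N).filter Nat.Prime, ee (α * p) +
      ∑ p ∈ (Icc z N).filter Nat.Prime, ee (α * p) := (Finset.sum_sdiff hsub).symm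
  have h2 : ‖∑ p ∈ (Icc 1 N).filter Nat.Prime \ (Icc z N).filter Nat.Prime, ee (α * p)‖ ≤ z := by
    refine (norm_sum_le _ _).trans ?_
    simp only [J53_ee, Finset.sum_const, nsmul_eq_mul, mul_one]
    have h3 : (Icc 1 N).filter Nat.Prime \ (Icc z N).filter Nat.Prime ⊆ range z := by
      intro p hp
      rw [mem_sdiff, mem_filter, mem_filter, mem_Icc, mem_Icc] at hp
      rw [mem_range]
      by_contra hcon
      exact hp.2 ⟨⟨by omega, hp.1.1.2⟩, hp.1.2⟩
    have h4 := card_le_card h3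
    rw [card_range] at h4
    exact_mod_cast h4
  have h5 : ‖∑ n ∈ rgh z N, ((J53_T n : ℝ) : ℂ) * ee (α * n) - ∑ n ∈ rgh z N, ee (α * n)‖ ≤
      1 + 2 * N / z := by
    rw [← Finset.sum_sub_distrib]
    refine (norm_sum_le _ _).trans ?_
    have h6 : ∀ n ∈ rgh z N, ‖((J53_T n : ℝ) : ℂ) * ee (α * n) - ee (α * n)‖ ≤
        (if n = 1 then 1 else 0) + (if ¬ Squarefree n then (1 : ℝ) else 0) := by
      intro n hn
      have e : ((J53_T n : ℝ) : ℂ) * ee (α * n) - ee (α * n) =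
          (((J53_T n - 1 : ℝ)) : ℂ) * ee (α * n) := by push_cast; ring
      rw [e, norm_mul, J53_ee, mul_one, Complex.norm_real, Real.norm_eq_abs]
      have hab : |J53_T n - 1| ≤ 1 := by
        rw [abs_le]; constructor <;> linarith [J53_T_nonneg n, J53_T_le n]
      by_cases hn1 : n = 1
      · rw [if_pos hn1]
        have : (0 : ℝ) ≤ (if ¬ Squarefree n then (1 : ℝ) else 0) := by split_ifs <;> norm_num
        linarith
      · rw [if_neg hn1]
        by_cases hs : Squarefree n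
        · rw [J53_T_one hs hn1, sub_self, abs_zero, if_neg (not_not.mpr hs), add_zero]
        · rw [if_pos hs, zero_add]; exact hab
    refine (Finset.sum_le_sum h6).trans ?_
    rw [Finset.sum_add_distrib]
    have h7 : ∑ n ∈ rgh z N, (if n = 1 then (1 : ℝ) else 0) ≤ 1 := by
      rw [Finset.sum_ite_eq']
      split_ifs <;> norm_num
    have h8 : ∑ n ∈ rgh z N, (if ¬ Squarefree n then (1 : ℝ) else 0) ≤ 2 * N / z := by
      rw [← Finset.sum_filter, Finset.sum_const, nsmul_eq_mul, mul_one]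
      exact J53_nonsq z N hz
    linarith
  set S1 := ∑ p ∈ (Icc 1 N).filter Nat.Prime, ee (α * p) with hS1
  set S0 := ∑ p ∈ (Icc 1 N).filter Nat.Prime \ (Icc z N).filter Nat.Prime, ee (α * p) with hS0
  set S2 := ∑ p ∈ (Icc z N).filter Nat.Prime, ee (α * p) with hS2
  set ST := ∑ n ∈ rgh z N, ((J53_T n : ℝ) : ℂ) * ee (α * n) with hST
  set SR := ∑ n ∈ rgh z N, ee (α * n) with hSR
  set SB := ∑ p ∈ (Icc z N).filter Nat.Prime, J53_F z N α p with hSB
  have hfin : S1 = S0 + ((ST - SR) + SR - SB) := by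
    rw [h1, hid]; ring
  rw [hfin]
  calc ‖S0 + ((ST - SR) + SR - SB)‖ ≤ ‖S0‖ + ‖(ST - SR) + SR - SB‖ := norm_add_le _ _
    _ ≤ ‖S0‖ + (‖(ST - SR) + SR‖ + ‖SB‖) := by gcongr; exact norm_sub_le _ _
    _ ≤ ‖S0‖ + ((‖ST - SR‖ + ‖SR‖) + ‖SB‖) := by gcongr; exact norm_add_le _ _
    _ ≤ _ := by linarith

theorem J53_rgh_mono {z M M' : ℕ} (h : M ≤ M') : rgh z M ⊆ rgh z M' := by
  intro m hm
  rw [J53_mem_rgh] at hm ⊢
  exact ⟨hm.1, hm.2.1.trans h, hm.2.2⟩

theorem J53_block {C κ δ : ℝ} {z yp N P : ℕ} {α : ℝ} (hC : 1 ≤ C) (hκ : 0 ≤ κ) (hδ : 0 < δ)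
    (hδ1 : δ ≤ 1)
    (hJ2 : ∀ y : ℕ, 2 ≤ y → ∀ X Y : ℕ, y ≤ Y →
      (((rgh y (X + Y)).filter (fun m => X < m)).card : ℝ) ≤ C * Y / Real.log y)
    (hyp : 2 ≤ yp) (hypz : yp ≤ z) (hypδ : (yp : ℝ) ≤ δ * z) (hδz : 2 ≤ δ * z)
    (hlog : Real.log z ≤ 3 * Real.log yp) (hzP : z ≤ P) (hPN : P * z ≤ N)
    (hbil : ∀ P' : ℕ, P' ≤ 2 * P →
      ‖∑ m ∈ rgh z (N / P), J53_c m * ∑ p ∈ (Ico P P').filter Nat.Prime, ee (α * ((p : ℝ) * m))‖ ≤
        κ * ((N / P : ℕ) : ℝ) * P / (Real.log P * Real.log z)) :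
    ‖∑ p ∈ (Ico P (P + ⌊δ * P⌋₊)).filter Nat.Prime, J53_F z N α p‖ ≤
      (κ + 18 * C ^ 2 * δ ^ 2) * N / (Real.log z) ^ 2 := by
  have hz2 : 2 ≤ z := hyp.trans hypz
  have hP0 : 0 < P := by omega
  have hzR : (2 : ℝ) ≤ z := by exact_mod_cast hz2
  have hPR : (z : ℝ) ≤ P := by exact_mod_cast hzP
  have hPpos : (0 : ℝ) < P := by linarith
  have hlogz : 0 < Real.log z := Real.log_pos (by linarith)
  have hlogyp : 0 < Real.log yp := Real.log_pos (by exact_mod_cast (by omega : 1 < yp))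
  have hlogP : Real.log z ≤ Real.log P := Real.log_le_log (by linarith) hPR
  set M := N / P with hM
  have hzM : z ≤ M := by
    rw [hM, Nat.le_div_iff_mul_le hP0]
    rw [mul_comm]; exact hPN
  have hzMR : (z : ℝ) ≤ M := by exact_mod_cast hzM
  have hMPN : M * P ≤ N := Nat.div_mul_le_self N P
  have hMPNR : (M : ℝ) * P ≤ N := by exact_mod_cast hMPN
  set P' := P + ⌊δ * P⌋₊ with hP'
  have hfl : ((⌊δ * P⌋₊ : ℕ) : ℝ) ≤ δ * P := Nat.floor_le (by positivity)
  have hP'2 : P' ≤ 2 * P := by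
    have h1 : ((⌊δ * P⌋₊ : ℕ) : ℝ) ≤ (P : ℝ) := hfl.trans (by nlinarith)
    have h2 : ⌊δ * P⌋₊ ≤ P := by exact_mod_cast h1
    omega
  have hP'R : (P' : ℝ) ≤ (1 + δ) * P := by
    rw [hP']; push_cast; linarith
  have hinv : 1 / Real.log yp ≤ 3 / Real.log z := by
    rw [div_le_div_iff₀ hlogyp hlogz]; linarith
  -- number of primes in the block
  have hK2 : (((Ico P P').filter Nat.Prime).card : ℝ) ≤ 3 * C * δ * P / Real.log z := by
    have hsub : (Ico P P').filter Nat.Prime ⊆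
        (rgh yp ((P - 1) + ⌊δ * P⌋₊)).filter (fun m => P - 1 < m) := by
      intro p hp
      rw [mem_filter, mem_Ico] at hp
      obtain ⟨⟨h1, h2⟩, hpp⟩ := hp
      rw [mem_filter, J53_mem_rgh]
      refine ⟨⟨by omega, by omega, ?_⟩, by omega⟩
      intro q hq hqd
      rw [(Nat.prime_dvd_prime_iff_eq hq hpp).mp hqd]
      omega
    have hyl : yp ≤ ⌊δ * P⌋₊ := Nat.le_floor (hypδ.trans (mul_le_mul_of_nonneg_left hPR hδ.le))
    have h1 := hJ2 yp hyp (P - 1) ⌊δ * P⌋₊ hyl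
    have h2 : (((Ico P P').filter Nat.Prime).card : ℝ) ≤ C * (⌊δ * P⌋₊ : ℕ) / Real.log yp :=
      le_trans (by exact_mod_cast card_le_card hsub) h1
    refine h2.trans ?_
    calc C * (⌊δ * P⌋₊ : ℕ) / Real.log yp = (C * (⌊δ * P⌋₊ : ℕ)) * (1 / Real.log yp) := by ring
      _ ≤ (C * (δ * P)) * (3 / Real.log z) := by
          apply mul_le_mul _ hinv (by positivity) (by positivity)
          exact mul_le_mul_of_nonneg_left hfl (by linarith)
      _ = _ := by ring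
  -- the difference
  set G : ℕ → ℂ := fun p => ∑ m ∈ rgh z M, J53_c m * ee (α * ((p : ℝ) * m)) with hG
  set X := N / P' with hX
  set Y := ⌊δ * M⌋₊ + 1 with hY
  have hXY : M ≤ X + Y := by
    have h1 : N < (X + 1) * P' := by
      have := Nat.lt_div_mul_add (a := N) (b := P') (by omega)
      rw [hX]; rw [add_mul, one_mul]; exact this
    have h2 : (N : ℝ) < ((X : ℝ) + 1) * P' := by exact_mod_cast h1
    have h3 : (M : ℝ) * P < ((X : ℝ) + 1) * ((1 + δ) * P) :=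
      lt_of_le_of_lt hMPNR (lt_of_lt_of_le h2 (mul_le_mul_of_nonneg_left hP'R (by positivity)))
    have h4 : (M : ℝ) < ((X : ℝ) + 1) * (1 + δ) := by
      have : (M : ℝ) * P < (((X : ℝ) + 1) * (1 + δ)) * P := by linarith
      exact lt_of_mul_lt_mul_right this hPpos.le
    have h5 : (M : ℝ) < X + 1 + δ * M := by
      have h6 : (1 - δ) * (M : ℝ) ≤ (1 - δ) * (((X : ℝ) + 1) * (1 + δ)) :=
        mul_le_mul_of_nonneg_left h4.le (by linarith)
      have h7 : (0 : ℝ) ≤ (X : ℝ) := Nat.cast_nonneg _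
      by_contra hcon
      push Not at hcon
      have h8 : (X : ℝ) + 1 ≤ (1 - δ) * M := by linarith
      have h9 : (X : ℝ) + 1 ≤ ((X : ℝ) + 1) * (1 - δ ^ 2) := by nlinarith
      have h10 : 0 < ((X : ℝ) + 1) * δ ^ 2 := by positivity
      nlinarith
    have h6 : δ * (M : ℝ) < (⌊δ * M⌋₊ : ℕ) + 1 := Nat.lt_floor_add_one _
    have h7 : (M : ℝ) < ((X + Y + 1 : ℕ) : ℝ) := by
      rw [hY]; push_cast; linarith
    have : M < X + Y + 1 := by exact_mod_cast h7
    omega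
  have hYR : (Y : ℝ) ≤ 2 * (δ * M) := by
    have h1 : ((⌊δ * M⌋₊ : ℕ) : ℝ) ≤ δ * M := Nat.floor_le (by positivity)
    have h2 : δ * z ≤ δ * M := mul_le_mul_of_nonneg_left hzMR hδ.le
    rw [hY]; push_cast; linarith
  have hypY : yp ≤ Y := by
    have h1 : (yp : ℝ) ≤ δ * M := hypδ.trans (mul_le_mul_of_nonneg_left hzMR hδ.le)
    have h2 := Nat.le_floor h1
    omega
  have hK1 : ∀ p ∈ (Ico P P').filter Nat.Prime, ‖J53_F z N α p - G p‖ ≤ 6 * C * δ * M / Real.log z := by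
    intro p hp
    rw [mem_filter, mem_Ico] at hp
    obtain ⟨⟨h1, h2⟩, hpp⟩ := hp
    have hsub : rgh z (N / p) ⊆ rgh z M := J53_rgh_mono (Nat.div_le_div_left h1 hP0)
    have h3 : G p - J53_F z N α p = ∑ m ∈ rgh z M \ rgh z (N / p), J53_c m * ee (α * ((p : ℝ) * m)) := by
      rw [hG, J53_F]
      show ∑ m ∈ rgh z M, J53_c m * ee (α * ((p : ℝ) * m)) - _ = _
      rw [← Finset.sum_sdiff hsub]; ring
    rw [norm_sub_rev, h3]
    refine (norm_sum_le _ _).trans ?_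
    have h4 : ∀ m ∈ rgh z M \ rgh z (N / p), ‖J53_c m * ee (α * ((p : ℝ) * m))‖ ≤ 1 := by
      intro m _
      rw [norm_mul, J53_ee, mul_one]
      exact J53_c_le m
    refine (Finset.sum_le_sum h4).trans ?_
    rw [Finset.sum_const, nsmul_eq_mul, mul_one]
    have hsub2 : rgh z M \ rgh z (N / p) ⊆ (rgh yp (X + Y)).filter (fun m => X < m) := by
      intro m hm
      rw [mem_sdiff, J53_mem_rgh, J53_mem_rgh] at hm
      obtain ⟨⟨hm1, hmM, hR⟩, hn⟩ := hm
      have h5 : N / p < m := by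
        by_contra hcon
        exact hn ⟨hm1, by omega, hR⟩
      have h6 : X ≤ N / p := Nat.div_le_div_left h2.le hpp.pos
      rw [mem_filter, J53_mem_rgh]
      refine ⟨⟨hm1, hmM.trans hXY, ?_⟩, by omega⟩
      intro q hq hqd
      exact hypz.trans (hR q hq hqd)
    have h5 := hJ2 yp hyp X Y hypY
    have h6 : ((rgh z M \ rgh z (N / p)).card : ℝ) ≤ C * Y / Real.log yp :=
      le_trans (by exact_mod_cast card_le_card hsub2) h5
    refine h6.trans ?_
    calc C * (Y : ℝ) / Real.log yp = (C * (Y : ℝ)) * (1 / Real.log yp) := by ring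
      _ ≤ (C * (2 * (δ * M))) * (3 / Real.log z) := by
          apply mul_le_mul _ hinv (by positivity) (by positivity)
          exact mul_le_mul_of_nonneg_left hYR (by linarith)
      _ = _ := by ring
  -- the main term
  have hmain : ‖∑ p ∈ (Ico P P').filter Nat.Prime, G p‖ ≤ κ * N / (Real.log z) ^ 2 := by
    have h1 : ∑ p ∈ (Ico P P').filter Nat.Prime, G p =
        ∑ m ∈ rgh z M, J53_c m * ∑ p ∈ (Ico P P').filter Nat.Prime, ee (α * ((p : ℝ) * m)) := by
      rw [hG]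
      simp only [Finset.mul_sum]
      rw [Finset.sum_comm]
    rw [h1]
    refine (hbil P' hP'2).trans ?_
    have h2 : Real.log z ^ 2 ≤ Real.log P * Real.log z := by
      rw [sq]; exact mul_le_mul_of_nonneg_right hlogP hlogz.le
    apply div_le_div₀ (by positivity) _ (by positivity) h2
    calc κ * (M : ℝ) * P = κ * ((M : ℝ) * P) := by ring
      _ ≤ κ * N := mul_le_mul_of_nonneg_left hMPNR hκ
  have hsplit : ∑ p ∈ (Ico P P').filter Nat.Prime, J53_F z N α p =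
      ∑ p ∈ (Ico P P').filter Nat.Prime, (J53_F z N α p - G p) +
      ∑ p ∈ (Ico P P').filter Nat.Prime, G p := by
    rw [← Finset.sum_add_distrib]
    apply Finset.sum_congr rfl
    intro p _; ring
  have hdiff : ‖∑ p ∈ (Ico P P').filter Nat.Prime, (J53_F z N α p - G p)‖ ≤
      18 * C ^ 2 * δ ^ 2 * N / (Real.log z) ^ 2 := by
    refine (norm_sum_le _ _).trans ?_
    refine (Finset.sum_le_sum hK1).trans ?_
    rw [Finset.sum_const, nsmul_eq_mul]
    calc (((Ico P P').filter Nat.Prime).card : ℝ) * (6 * C * δ * M / Real.log z)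
        ≤ (3 * C * δ * P / Real.log z) * (6 * C * δ * M / Real.log z) :=
          mul_le_mul_of_nonneg_right hK2 (by positivity)
      _ = (18 * C ^ 2 * δ ^ 2 * ((M : ℝ) * P)) / (Real.log z) ^ 2 := by
          field_simp; ring
      _ ≤ _ := by
          apply div_le_div_of_nonneg_right _ (by positivity)
          exact mul_le_mul_of_nonneg_left hMPNR (by positivity)
  rw [hsplit]
  refine (norm_add_le _ _).trans ?_
  calc _ ≤ 18 * C ^ 2 * δ ^ 2 * N / (Real.log z) ^ 2 + κ * N / (Real.log z) ^ 2 :=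
        add_le_add hdiff hmain
    _ = _ := by ring

noncomputable def J53_P (δ : ℝ) (z : ℕ) : ℕ → ℕ
  | 0 => z
  | i + 1 => J53_P δ z i + ⌊δ * J53_P δ z i⌋₊

theorem J53_P_grow {δ : ℝ} {z : ℕ} (hδ : 0 < δ) (hδz : 2 ≤ δ * z) (i : ℕ) :
    z ≤ J53_P δ z i ∧ (z : ℝ) * (1 + δ / 2) ^ i ≤ J53_P δ z i := by
  induction i with
  | zero => simp [J53_P]
  | succ i ih =>
    obtain ⟨h1, h2⟩ := ih
    have h1R : (z : ℝ) ≤ J53_P δ z i := by exact_mod_cast h1
    refine ⟨by rw [J53_P]; omega, ?_⟩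
    rw [J53_P, pow_succ]
    push_cast
    have h3 : δ * (J53_P δ z i : ℝ) - 1 < (⌊δ * (J53_P δ z i : ℝ)⌋₊ : ℝ) := Nat.sub_one_lt_floor _
    have h4 : δ * z ≤ δ * J53_P δ z i := mul_le_mul_of_nonneg_left h1R hδ.le
    calc (z : ℝ) * ((1 + δ / 2) ^ i * (1 + δ / 2)) = ((z : ℝ) * (1 + δ / 2) ^ i) * (1 + δ / 2) := by ring
      _ ≤ (J53_P δ z i : ℝ) * (1 + δ / 2) := mul_le_mul_of_nonneg_right h2 (by positivity)
      _ ≤ _ := by linarith

theorem J53_P_sum {δ : ℝ} {z : ℕ} (f : ℕ → ℂ) (hz : ∀ i, z ≤ J53_P δ z i) (I : ℕ) :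
    ∑ p ∈ (Ico z (J53_P δ z I)).filter Nat.Prime, f p =
      ∑ i ∈ range I, ∑ p ∈ (Ico (J53_P δ z i) (J53_P δ z i + ⌊δ * J53_P δ z i⌋₊)).filter Nat.Prime,
        f p := by
  induction I with
  | zero => simp [J53_P]
  | succ I ih =>
    rw [Finset.sum_range_succ, ← ih, J53_P]
    simp only [Finset.sum_filter]
    rw [Finset.sum_Ico_consecutive _ (hz I) (Nat.le_add_right _ _)]

theorem J53_F_zero {z N p P : ℕ} {α : ℝ} (hz : 2 ≤ z) (hP : N < P * z) (hPp : P ≤ p) (hP0 : 0 < P) :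
    J53_F z N α p = 0 := by
  unfold J53_F
  apply Finset.sum_eq_zero
  intro m hm
  rw [J53_mem_rgh] at hm
  obtain ⟨hm1, hmN, hR⟩ := hm
  by_cases h1 : m = 1
  · subst h1
    simp [J53_c]
  · exfalso
    obtain ⟨q, hq, hqd⟩ := Nat.exists_prime_and_dvd h1
    have h2 := hR q hq hqd
    have h3 := Nat.le_of_dvd hm1 hqd
    have h4 : N / p ≤ N / P := Nat.div_le_div_left hPp hP0
    have h5 : N / P < z := by
      rw [Nat.div_lt_iff_lt_mul hP0, mul_comm]; exact hP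
    omega

theorem J53_root (A N : ℕ) (hA : 1 ≤ A) : ∃ z : ℕ, z ^ A ≤ N ∧ N < (z + 1) ^ A := by
  classical
  have hex : ∃ n : ℕ, N < (n + 1) ^ A := by
    refine ⟨N, ?_⟩
    calc N < N + 1 := Nat.lt_succ_self N
      _ = (N + 1) ^ 1 := (pow_one _).symm
      _ ≤ (N + 1) ^ A := Nat.pow_le_pow_right (Nat.succ_pos N) hA
  refine ⟨Nat.find hex, ?_, Nat.find_spec hex⟩
  rcases Nat.eq_zero_or_pos (Nat.find hex) with h | h
  · rw [h, zero_pow (by omega)]; exact Nat.zero_le _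
  · have := Nat.find_min hex (m := Nat.find hex - 1) (by omega)
    push Not at this
    rwa [Nat.sub_add_cancel h] at this

theorem J53_total {C κ δ : ℝ} {z yp N A : ℕ} {α : ℝ} (hC : 1 ≤ C) (hκ : 0 ≤ κ) (hδ : 0 < δ)
    (hδ1 : δ ≤ 1)
    (hJ2 : ∀ y : ℕ, 2 ≤ y → ∀ X Y : ℕ, y ≤ Y →
      (((rgh y (X + Y)).filter (fun m => X < m)).card : ℝ) ≤ C * Y / Real.log y)
    (hyp : 2 ≤ yp) (hypz : yp ≤ z) (hypδ : (yp : ℝ) ≤ δ * z) (hδz : 2 ≤ δ * z)
    (hlog : Real.log z ≤ 3 * Real.log yp) (hN : 1 ≤ N) (hNz : N ≤ z ^ (A + 1))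
    (hbil : ∀ P M : ℕ, z ≤ P → z ≤ M → P ≤ z ^ (A + 1) → N ≤ 2 * M * P → ∀ P' : ℕ, P' ≤ 2 * P →
      ‖∑ m ∈ rgh z M, J53_c m * ∑ p ∈ (Ico P P').filter Nat.Prime, ee (α * ((p : ℝ) * m))‖ ≤
        κ * M * P / (Real.log P * Real.log z))
    (I : ℕ) (hI : N < J53_P δ z I) :
    ‖∑ p ∈ (Icc z N).filter Nat.Prime, J53_F z N α p‖ ≤
      I * ((κ + 18 * C ^ 2 * δ ^ 2) * N / (Real.log z) ^ 2) := by
  have hz2 : 2 ≤ z := hyp.trans hypz
  have hgrow := J53_P_grow hδ hδz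
  have hlogz : 0 < Real.log z := Real.log_pos (by exact_mod_cast (by omega : 1 < z))
  have hext : ∑ p ∈ (Icc z N).filter Nat.Prime, J53_F z N α p =
      ∑ p ∈ (Ico z (J53_P δ z I)).filter Nat.Prime, J53_F z N α p := by
    apply Finset.sum_subset
    · intro p hp
      rw [mem_filter, mem_Icc] at hp
      rw [mem_filter, mem_Ico]
      exact ⟨⟨hp.1.1, by omega⟩, hp.2⟩
    · intro p hp hnp
      rw [mem_filter, mem_Ico] at hp
      have h1 : N < p := by
        by_contra hcon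
        exact hnp (mem_filter.mpr ⟨mem_Icc.mpr ⟨hp.1.1, by omega⟩, hp.2⟩)
      exact J53_F_zero hz2 (P := p) (by nlinarith) le_rfl hp.2.pos
  rw [hext, J53_P_sum _ (fun i => (hgrow i).1)]
  refine (norm_sum_le _ _).trans ?_
  have hE : ∀ i ∈ range I,
      ‖∑ p ∈ (Ico (J53_P δ z i) (J53_P δ z i + ⌊δ * J53_P δ z i⌋₊)).filter Nat.Prime,
        J53_F z N α p‖ ≤ (κ + 18 * C ^ 2 * δ ^ 2) * N / (Real.log z) ^ 2 := by
    intro i _
    set P := J53_P δ z i with hP
    have hzP : z ≤ P := (hgrow i).1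
    have hP0 : 0 < P := by omega
    rcases Nat.lt_or_ge N (P * z) with h | h
    · have : ∑ p ∈ (Ico P (P + ⌊δ * P⌋₊)).filter Nat.Prime, J53_F z N α p = 0 := by
        apply Finset.sum_eq_zero
        intro p hp
        rw [mem_filter, mem_Ico] at hp
        exact J53_F_zero hz2 h hp.1.1 hP0
      rw [this, norm_zero]
      positivity
    · refine J53_block hC hκ hδ hδ1 hJ2 hyp hypz hypδ hδz hlog hzP h ?_
      intro P' hP'
      have hzM : z ≤ N / P := by
        rw [Nat.le_div_iff_mul_le hP0, mul_comm]; exact h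
      have hPN : P ≤ N := le_trans (Nat.le_mul_of_pos_right P (by omega)) h
      have h1 : N < (N / P + 1) * P := by
        have := Nat.lt_div_mul_add (a := N) (b := P) hP0
        rw [add_mul, one_mul]; exact this
      have h2 : N ≤ 2 * (N / P) * P := by
        have h3 : (N / P + 1) * P ≤ 2 * (N / P) * P := Nat.mul_le_mul_right P (by omega)
        omega
      exact hbil P (N / P) hzP hzM (hPN.trans hNz) h2 P' hP'
  refine (Finset.sum_le_sum hE).trans ?_
  rw [Finset.sum_const, card_range, nsmul_eq_mul]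

theorem J4c (h1 : J1Stmt) (h2 : J2Stmt) (h4b : J4bStmt) : J4Stmt := by
  intro η hη
  obtain ⟨C, hC, hJ2⟩ := h2
  obtain ⟨A1, hA1, Q1, hQ1, y0, hy0, hJ1⟩ := h1 (η / 32) (by positivity)
  set A := max A1 2 with hA
  have hA2 : 2 ≤ A := le_max_right _ _
  have hA1A : A1 ≤ A := le_max_left _ _
  have hA2A1 : A ≤ 2 * A1 := by omega
  have hAR : (0 : ℝ) < A := by exact_mod_cast (by omega : 0 < A)
  have hC0 : 0 < C := by linarith
  set δ : ℝ := min 1 (η / (3040 * (A : ℝ) ^ 2 * C ^ 2)) with hδdef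
  have hδ : 0 < δ := by
    rw [hδdef]
    exact lt_min one_pos (by positivity)
  have hδ1 : δ ≤ 1 := min_le_left _ _
  have hδη : δ * (3040 * (A : ℝ) ^ 2 * C ^ 2) ≤ η := by
    have h := min_le_right (1 : ℝ) (η / (3040 * (A : ℝ) ^ 2 * C ^ 2))
    rw [← hδdef, le_div_iff₀ (by positivity)] at h
    exact h
  obtain ⟨Q0, hQ0, z0, hz0, hJ4⟩ := h4b (A + 1) (δ ^ 2) (by positivity)
  refine ⟨max Q1 Q0, le_max_of_le_left hQ1, ?_⟩
  obtain ⟨s1, hs1⟩ := exists_nat_ge (1 / δ)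
  obtain ⟨s2, hs2⟩ := exists_nat_ge (192 * A / η)
  set s0 : ℕ := max 4 (max s1 (max s2 (max y0 (max z0 (2 ^ A))))) with hs0
  have hs0_4 : 4 ≤ s0 := le_max_left _ _
  have hs0_1 : s1 ≤ s0 := by omega
  have hs0_2 : s2 ≤ s0 := by omega
  have hs0_y : y0 ≤ s0 := by omega
  have hs0_z : z0 ≤ s0 := by omega
  have hs0_A : 2 ^ A ≤ s0 := by omega
  refine ⟨max 3 ((s0 ^ 2) ^ A), le_max_of_le_left (by norm_num), ?_⟩
  intro N hN α hmaj
  have hN3 : 3 ≤ N := (le_max_left _ _).trans hN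
  have hNs : (s0 ^ 2) ^ A ≤ N := (le_max_right _ _).trans hN
  obtain ⟨z, hzN, hNz⟩ := J53_root A N (by omega)
  have hzs : s0 ^ 2 ≤ z := by
    have h : (s0 ^ 2) ^ A < (z + 1) ^ A := lt_of_le_of_lt hNs hNz
    have := lt_of_pow_lt_pow_left₀ A (Nat.zero_le _) h
    omega
  set s := Nat.sqrt z with hs
  have hss : s0 ≤ s := Nat.le_sqrt'.mpr hzs
  have hsz : s ^ 2 ≤ z := Nat.sqrt_le' z
  have hzs1 : z < (s + 1) ^ 2 := Nat.lt_succ_sqrt' z
  have hs4 : 4 ≤ s := hs0_4.trans hss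
  have hslez : s ≤ z := Nat.sqrt_le_self z
  have hz2 : 2 ≤ z := by omega
  have hsR : (4 : ℝ) ≤ s := by exact_mod_cast hs4
  have hszR : (s : ℝ) ^ 2 ≤ z := by exact_mod_cast hsz
  have hzR : (2 : ℝ) ≤ z := by exact_mod_cast hz2
  have hNR : (3 : ℝ) ≤ N := by exact_mod_cast hN3
  have hlogz : 0 < Real.log z := Real.log_pos (by linarith)
  have hlogs : 0 < Real.log s := Real.log_pos (by linarith)
  have hlogN : 1 ≤ Real.log N := by
    rw [Real.le_log_iff_exp_le (by linarith)]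
    linarith [Real.exp_one_lt_d9]
  have hδs : 1 ≤ δ * s := by
    have h : 1 / δ ≤ s := hs1.trans (by exact_mod_cast hs0_1.trans hss)
    rw [div_le_iff₀ hδ] at h
    linarith
  have hsδz : (s : ℝ) ≤ δ * z := by
    calc (s : ℝ) = 1 * s := (one_mul _).symm
      _ ≤ (δ * s) * s := mul_le_mul_of_nonneg_right hδs (by linarith)
      _ = δ * s ^ 2 := by ring
      _ ≤ δ * z := mul_le_mul_of_nonneg_left hszR hδ.le
  have hδz2 : 2 ≤ δ * z := by linarith
  have hlog3 : Real.log z ≤ 3 * Real.log s := by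
    have h : (z : ℝ) ≤ (s : ℝ) ^ 3 := by
      have h1 : (z : ℝ) < ((s : ℝ) + 1) ^ 2 := by exact_mod_cast hzs1
      nlinarith
    calc Real.log z ≤ Real.log ((s : ℝ) ^ 3) := Real.log_le_log (by linarith) h
      _ = 3 * Real.log s := by rw [Real.log_pow]; norm_num
  have hlogNz : Real.log N ≤ 2 * A * Real.log z := by
    have h : (N : ℝ) ≤ ((z : ℝ) ^ 2) ^ A := by
      have h1 : (N : ℝ) < ((z : ℝ) + 1) ^ A := by exact_mod_cast hNz
      have h2 : (z : ℝ) + 1 ≤ (z : ℝ) ^ 2 := by nlinarith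
      exact h1.le.trans (pow_le_pow_left₀ (by positivity) h2 A)
    calc Real.log N ≤ Real.log (((z : ℝ) ^ 2) ^ A) := Real.log_le_log (by linarith) h
      _ = 2 * A * Real.log z := by
          rw [Real.log_pow, Real.log_pow]; push_cast; ring
  have hNzA : N ≤ z ^ (A + 1) := by
    have h1 : (z + 1) ^ A ≤ (2 * z) ^ A := Nat.pow_le_pow_left (by omega) A
    have h2 : (2 * z) ^ A = 2 ^ A * z ^ A := mul_pow _ _ _
    have h3 : 2 ^ A * z ^ A ≤ z * z ^ A := Nat.mul_le_mul_right _ (by omega)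
    have h4 : z * z ^ A = z ^ (A + 1) := by ring
    omega
  have hz2N : z ^ 2 ≤ N := (Nat.pow_le_pow_right (by omega) hA2).trans hzN
  have hz2NR : (z : ℝ) ^ 2 ≤ N := by exact_mod_cast hz2N
  have hmaj1 : ¬ Major Q1 N α := fun h => hmaj (J53_major (le_max_left _ _) (by positivity) h)
  have hmaj0 : ¬ Major Q0 N α := fun h => hmaj (J53_major (le_max_right _ _) (by positivity) h)
  -- the rough sum
  have hrough : ‖∑ n ∈ rgh z N, ee (α * n)‖ ≤ (η / 8) * N / Real.log N := by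
    have h := hJ1 z N (by omega) ((Nat.pow_le_pow_right (by omega) hA1A).trans hzN) α hmaj1
    refine h.trans ?_
    have hA1R : (0 : ℝ) < A1 := by exact_mod_cast (by omega : 0 < A1)
    rw [div_le_div_iff₀ (by positivity) (by linarith)]
    have h5 : (A : ℝ) ≤ 2 * A1 := by exact_mod_cast hA2A1
    have h6 : Real.log N ≤ 4 * (A1 * Real.log z) := by nlinarith
    have h7 : 0 ≤ η / 32 * N := by positivity
    calc η / 32 * N * Real.log N ≤ η / 32 * N * (4 * (A1 * Real.log z)) :=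
          mul_le_mul_of_nonneg_left h6 h7
      _ = _ := by ring
  -- the trivial errors
  have herr : (z : ℝ) + 1 + 2 * N / z ≤ (η / 8) * N / Real.log N := by
    have hzpos : (0 : ℝ) < z := by linarith
    have h1 : (z : ℝ) ≤ N / z := by
      rw [le_div_iff₀ hzpos]; nlinarith
    have h2 : (z : ℝ) + 1 + 2 * N / z ≤ 4 * N / z := by
      have e1 : 2 * (N : ℝ) / z = 2 * (N / z) := by ring
      have e2 : 4 * (N : ℝ) / z = 4 * (N / z) := by ring
      rw [e1, e2]; linarith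
    refine h2.trans ?_
    rw [div_le_div_iff₀ hzpos (by linarith)]
    have h3 : Real.log s ≤ s := (Real.log_le_sub_one_of_pos (by linarith)).trans (by linarith)
    have h4 : 192 * A ≤ η * s := by
      have h : 192 * A / η ≤ s := hs2.trans (by exact_mod_cast hs0_2.trans hss)
      rw [div_le_iff₀ hη] at h
      linarith
    have h5 : 32 * Real.log N ≤ η * z := by
      calc 32 * Real.log N ≤ 32 * (2 * A * Real.log z) := by linarith
        _ ≤ 32 * (2 * A * (3 * Real.log s)) := by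
            have : 2 * (A : ℝ) * Real.log z ≤ 2 * A * (3 * Real.log s) :=
              mul_le_mul_of_nonneg_left hlog3 (by positivity)
            linarith
        _ = (192 * A) * Real.log s := by ring
        _ ≤ (192 * A) * s := mul_le_mul_of_nonneg_left h3 (by positivity)
        _ ≤ (η * s) * s := mul_le_mul_of_nonneg_right h4 (by linarith)
        _ = η * s ^ 2 := by ring
        _ ≤ η * z := mul_le_mul_of_nonneg_left hszR hη.le
    have hN0 : (0 : ℝ) ≤ N := by linarith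
    nlinarith [mul_le_mul_of_nonneg_left h5 hN0]
  -- the number of blocks
  set I : ℕ := ⌈4 / δ * Real.log N⌉₊ with hIdef
  have hIle : (I : ℝ) ≤ 5 / δ * Real.log N := by
    have h1 : (I : ℝ) < 4 / δ * Real.log N + 1 := Nat.ceil_lt_add_one (by positivity)
    have h2 : 1 ≤ 1 / δ * Real.log N := by
      rw [div_mul_eq_mul_div, one_mul, le_div_iff₀ hδ]; linarith
    have h3 : 5 / δ * Real.log N = 4 / δ * Real.log N + 1 / δ * Real.log N := by ring
    linarith
  have hIN : N < J53_P δ z I := by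
    have h1 := (J53_P_grow hδ hδz2 I).2
    have h2 : (N : ℝ) ≤ (1 + δ / 2) ^ I := by
      have h3 : δ / 4 ≤ Real.log (1 + δ / 2) := by
        have h4 := Real.le_log_one_add_of_nonneg (x := δ / 2) (by positivity)
        have h5 : δ / 4 ≤ 2 * (δ / 2) / (δ / 2 + 2) := by
          rw [div_le_div_iff₀ (by norm_num) (by positivity)]
          nlinarith
        exact h5.trans h4
      have h4 : Real.log N ≤ I * Real.log (1 + δ / 2) := by
        have h5 : 4 / δ * Real.log N ≤ I := Nat.le_ceil _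
        calc Real.log N = (4 / δ * Real.log N) * (δ / 4) := by field_simp
          _ ≤ I * Real.log (1 + δ / 2) :=
              mul_le_mul h5 h3 (by positivity) (Nat.cast_nonneg _)
      rw [← Real.log_pow] at h4
      exact (Real.log_le_log_iff (by linarith) (by positivity)).mp h4
    have h3 : (N : ℝ) < (z : ℝ) * (1 + δ / 2) ^ I := by
      nlinarith
    exact_mod_cast lt_of_lt_of_le h3 h1
  have hB := J53_total (A := A) (κ := δ ^ 2) (α := α) hC (by positivity) hδ hδ1 hJ2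
    (yp := s) (by omega) hslez hsδz hδz2 hlog3 (N := N) (by omega) hNzA
    (fun P M hzP hzM hPz hNMP P' hP' =>
      hJ4 z P M N (by omega) hzP hzM hPz (by omega) hNMP α hmaj0 P' hP' J53_c J53_c_le) I hIN
  have hB2 : (I : ℝ) * ((δ ^ 2 + 18 * C ^ 2 * δ ^ 2) * N / (Real.log z) ^ 2) ≤
      (η / 8) * N / Real.log N := by
    have h1 : (Real.log N) ^ 2 ≤ 4 * (A : ℝ) ^ 2 * (Real.log z) ^ 2 := by
      have := pow_le_pow_left₀ (by linarith) hlogNz 2
      nlinarith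
    have h2 : δ ^ 2 + 18 * C ^ 2 * δ ^ 2 ≤ 19 * C ^ 2 * δ ^ 2 := by
      have : 1 ≤ C ^ 2 := one_le_pow₀ hC
      nlinarith [sq_nonneg δ]
    have h3 : 1 / (Real.log z) ^ 2 ≤ 4 * (A : ℝ) ^ 2 / (Real.log N) ^ 2 := by
      rw [div_le_div_iff₀ (by positivity) (by positivity)]
      linarith
    calc (I : ℝ) * ((δ ^ 2 + 18 * C ^ 2 * δ ^ 2) * N / (Real.log z) ^ 2)
        = ((I : ℝ) * ((δ ^ 2 + 18 * C ^ 2 * δ ^ 2) * N)) * (1 / (Real.log z) ^ 2) := by ring
      _ ≤ ((5 / δ * Real.log N) * ((19 * C ^ 2 * δ ^ 2) * N)) * (4 * (A : ℝ) ^ 2 / (Real.log N) ^ 2) := by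
          apply mul_le_mul _ h3 (by positivity) (by positivity)
          apply mul_le_mul hIle _ (by positivity) (by positivity)
          exact mul_le_mul_of_nonneg_right h2 (by positivity)
      _ = (δ * (3040 * (A : ℝ) ^ 2 * C ^ 2)) / 8 * N / Real.log N := by
          have : Real.log N ≠ 0 := by linarith
          field_simp; ring
      _ ≤ (η / 8) * N / Real.log N := by
          apply div_le_div_of_nonneg_right _ (by linarith)
          apply mul_le_mul_of_nonneg_right _ (by linarith)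
          linarith
  have hfin := J53_step1 z N hz2 α
  have hpos : 0 ≤ η * N / Real.log N := by positivity
  have e8 : (η / 8) * N / Real.log N = (1 / 8) * (η * N / Real.log N) := by ring
  rw [e8] at hrough herr hB2
  linarith

end Pool.Agent.Helper602.MK.N_J4c
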