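import Mathlib
import Pool.Agent.Helper602.MK.Defs

set_option autoImplicit false

namespace Pool.Agent.Helper602.MK.N_J5a

open Finset


/-! ### helper lemmas for J5a -/

/-- the moduli -/
def QS (z Q : ℕ) : Finset ℕ :=
  (Icc 1 Q).filter (fun q => Squarefree q ∧ ∀ p ∈ q.primeFactors, z < p)

theorem mem_QS {z Q q : ℕ} : q ∈ QS z Q ↔ (1 ≤ q ∧ q ≤ Q) ∧ Squarefree q ∧
    ∀ p ∈ q.primeFactors, z < p := by
  unfold QS
  rw [mem_filter, mem_Icc]

theorem mem_RR {z Q : ℕ} {x : ℕ × ℕ} : x ∈ RR z Q ↔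
    x.1 ∈ QS z Q ∧ x.2 < x.1 ∧ Nat.Coprime x.2 x.1 := by
  unfold RR
  rw [mem_filter, mem_product, mem_Icc, mem_range, mem_QS]
  constructor
  · rintro ⟨⟨h1, _⟩, h3, h4, h5, h6⟩
    exact ⟨⟨h1, h3, h4⟩, h5, h6⟩
  · rintro ⟨⟨h1, h3, h4⟩, h5, h6⟩
    exact ⟨⟨h1, by omega⟩, h3, h4, h5, h6⟩

/-- the weight -/
noncomputable def wt (q : ℕ) : ℝ := 1 / (Nat.totient q : ℝ)

theorem wt_nonneg (q : ℕ) : 0 ≤ wt q := by unfold wt; positivity

theorem GG_eq (z Q : ℕ) : GG z Q = ∑ q ∈ QS z Q, wt q := rfl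

theorem GG_nonneg (z Q : ℕ) : 0 ≤ GG z Q := by
  rw [GG_eq]; exact sum_nonneg (fun q _ => wt_nonneg q)

theorem tot_pos {z Q q : ℕ} (hq : q ∈ QS z Q) : (0 : ℝ) < Nat.totient q := by
  have h1 : 0 < q := (mem_QS.mp hq).1.1
  exact_mod_cast Nat.totient_pos.mpr h1

theorem sum_RR_le {z Q : ℕ} (A : Finset (ℕ × ℕ)) (hA : A ⊆ RR z Q) (g : ℕ → ℝ) (N : ℕ → ℕ)
    (hg : ∀ q, 0 ≤ g q) (hN : ∀ q ∈ QS z Q, (A.filter (fun x => x.1 = q)).card ≤ N q) :
    ∑ x ∈ A, g x.1 ≤ ∑ q ∈ QS z Q, (N q : ℝ) * g q := by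
  have hmap : ∀ x ∈ A, x.1 ∈ QS z Q := fun x hx => (mem_RR.mp (hA hx)).1
  rw [← sum_fiberwise_of_maps_to (g := fun x : ℕ × ℕ => x.1) hmap]
  apply sum_le_sum
  intro q hq
  have h1 : ∑ x ∈ A.filter (fun x => x.1 = q), g x.1 = ∑ x ∈ A.filter (fun x => x.1 = q), g q := by
    apply sum_congr rfl
    intro x hx
    rw [(mem_filter.mp hx).2]
  rw [h1, sum_const, nsmul_eq_mul]
  exact mul_le_mul_of_nonneg_right (by exact_mod_cast hN q hq) (hg q)

theorem card_fiber {z Q : ℕ} (q : ℕ) :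
    ((RR z Q).filter (fun x => x.1 = q)).card ≤ Nat.totient q := by
  rw [Nat.totient_eq_card_coprime]
  apply card_le_card_of_injOn (fun x => x.2)
  · intro x hx
    have hx' := mem_filter.mp hx
    obtain ⟨h1, h2, h3⟩ := mem_RR.mp hx'.1
    have h4 : x.1 = q := hx'.2
    rw [h4] at h2 h3
    exact mem_coe.mpr (mem_filter.mpr ⟨mem_range.mpr h2, h3.symm⟩)
  · intro x hx y hy hxy
    have hx' := (mem_filter.mp hx).2
    have hy' := (mem_filter.mp hy).2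
    exact Prod.ext (hx'.trans hy'.symm) hxy

/-- the relation -/
def Rel (β : ℝ) (x x' : ℕ × ℕ) : Prop :=
  ∃ n : ℤ, (x.2 : ℝ) / x.1 - (x'.2 : ℝ) / x'.1 - β = n

theorem frac_unique {z Q : ℕ} {x y : ℕ × ℕ} (hx : x ∈ RR z Q) (hy : y ∈ RR z Q) (n : ℤ)
    (h : (x.2 : ℝ) / x.1 - (y.2 : ℝ) / y.1 = n) : x = y := by
  obtain ⟨hx1, hx2, hx3⟩ := mem_RR.mp hx
  obtain ⟨hy1, hy2, hy3⟩ := mem_RR.mp hy
  have px : (0:ℝ) < x.1 := by exact_mod_cast (mem_QS.mp hx1).1.1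
  have py : (0:ℝ) < y.1 := by exact_mod_cast (mem_QS.mp hy1).1.1
  have bx : (x.2 : ℝ) / x.1 < 1 := by rw [div_lt_one px]; exact_mod_cast hx2
  have by' : (y.2 : ℝ) / y.1 < 1 := by rw [div_lt_one py]; exact_mod_cast hy2
  have cx : 0 ≤ (x.2 : ℝ) / x.1 := by positivity
  have cy : 0 ≤ (y.2 : ℝ) / y.1 := by positivity
  have hn : n = 0 := by
    have h1 : (n : ℝ) < 1 := by rw [← h]; linarith
    have h2 : (-1 : ℝ) < n := by rw [← h]; linarith
    have h3 : n < 1 := by exact_mod_cast h1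
    have h4 : -1 < n := by exact_mod_cast h2
    omega
  rw [hn, Int.cast_zero, sub_eq_zero, div_eq_div_iff px.ne' py.ne'] at h
  have h5 : x.2 * y.1 = y.2 * x.1 := by exact_mod_cast h
  have d1 : x.1 ∣ y.1 := by
    have : x.1 ∣ x.2 * y.1 := by rw [h5]; exact dvd_mul_left _ _
    exact (Nat.Coprime.symm hx3).dvd_of_dvd_mul_left this
  have d2 : y.1 ∣ x.1 := by
    have : y.1 ∣ y.2 * x.1 := by rw [← h5]; exact dvd_mul_left _ _
    exact (Nat.Coprime.symm hy3).dvd_of_dvd_mul_left this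
  have e1 : x.1 = y.1 := Nat.dvd_antisymm d1 d2
  have e2 : x.2 = y.2 := by
    rw [← e1] at h5
    exact Nat.eq_of_mul_eq_mul_right (by exact_mod_cast px) h5
  exact Prod.ext e1 e2

theorem rel_left {z Q : ℕ} {β : ℝ} {x y x' : ℕ × ℕ} (hx : x ∈ RR z Q) (hy : y ∈ RR z Q)
    (h1 : Rel β x x') (h2 : Rel β y x') : x = y := by
  obtain ⟨n, hn⟩ := h1
  obtain ⟨m, hm⟩ := h2
  apply frac_unique hx hy (n - m)
  push_cast
  rw [← hn, ← hm]
  ring

theorem rel_right {z Q : ℕ} {β : ℝ} {x x' y' : ℕ × ℕ} (hx : x' ∈ RR z Q) (hy : y' ∈ RR z Q)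
    (h1 : Rel β x x') (h2 : Rel β x y') : x' = y' := by
  obtain ⟨n, hn⟩ := h1
  obtain ⟨m, hm⟩ := h2
  apply frac_unique hx hy (m - n)
  push_cast
  rw [← hn, ← hm]
  ring

theorem rel_symm {β : ℝ} {x x' : ℕ × ℕ} (h : Rel β x x') : Rel (-β) x' x := by
  obtain ⟨n, hn⟩ := h
  refine ⟨-n, ?_⟩
  push_cast
  rw [← hn]
  ring

theorem match_sum {α γ : Type*} (s : Finset α) (t : Finset γ) (R : α → γ → Prop)
    [∀ x y, Decidable (R x y)] [DecidablePred (fun x => ∃ y ∈ t, R x y)]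
    (hR : ∀ x ∈ s, ∀ y ∈ t, ∀ y' ∈ t, R x y → R x y' → y = y') (u : α → ℝ) :
    ∑ x ∈ s, ∑ y ∈ t, (if R x y then u x else 0) =
      ∑ x ∈ s.filter (fun x => ∃ y ∈ t, R x y), u x := by
  rw [sum_filter]
  apply sum_congr rfl
  intro x hx
  split_ifs with h
  · obtain ⟨y, hy, hxy⟩ := h
    rw [sum_eq_single y]
    · rw [if_pos hxy]
    · intro y' hy' hne
      rw [if_neg]
      intro h1
      exact hne (hR x hx y' hy' y hy h1 hxy)
    · intro h1
      exact absurd hy h1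
  · apply sum_eq_zero
    intro y hy
    rw [if_neg]
    intro h1
    exact h ⟨y, hy, h1⟩

theorem QS_div {z Q q l : ℕ} (hl : l.Prime) (hq : q ∈ QS z Q) (hlq : l ∣ q) :
    q / l ∈ QS z Q ∧ Nat.Coprime l (q / l) ∧ l * (q / l) = q ∧
      Nat.totient q = (l - 1) * Nat.totient (q / l) := by
  obtain ⟨⟨h1, h2⟩, h3, h4⟩ := mem_QS.mp hq
  obtain ⟨m, rfl⟩ := hlq
  rw [Nat.mul_div_cancel_left m hl.pos]
  have h5 := Nat.squarefree_mul_iff.mp h3
  have hm0 : m ≠ 0 := by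
    rintro rfl
    omega
  refine ⟨mem_QS.mpr ⟨⟨Nat.pos_of_ne_zero hm0, ?_⟩, h5.2.2, ?_⟩, h5.1, rfl, ?_⟩
  · exact le_trans (Nat.le_mul_of_pos_left m hl.pos) h2
  · intro p hp
    apply h4 p
    rw [Nat.mem_primeFactors] at hp ⊢
    exact ⟨hp.1, dvd_mul_of_dvd_right hp.2.1 l, by omega⟩
  · rw [Nat.totient_mul h5.1, Nat.totient_prime hl]

/-- the part of the sum with `l ∣ q` -/
theorem Gl_le {z Q l : ℕ} (hl : l.Prime) :
    ∑ q ∈ (QS z Q).filter (fun q => l ∣ q), wt q ≤ GG z Q / (l - 1 : ℝ) := by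
  have hl1 : (0:ℝ) < (l:ℝ) - 1 := by
    have : (1:ℝ) < l := by exact_mod_cast hl.one_lt
    linarith
  have hinj : Set.InjOn (fun q => q / l) ((QS z Q).filter (fun q => l ∣ q) : Set ℕ) := by
    intro q hq q' hq' h
    have e1 := Nat.mul_div_cancel' (mem_filter.mp hq).2
    have e2 := Nat.mul_div_cancel' (mem_filter.mp hq').2
    have h' : q / l = q' / l := h
    rw [← e1, ← e2, h']
  have h1 : ∑ q ∈ (QS z Q).filter (fun q => l ∣ q), wt q =
      ∑ q ∈ (QS z Q).filter (fun q => l ∣ q), wt (q / l) / ((l:ℝ) - 1) := by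
    apply sum_congr rfl
    intro q hq
    obtain ⟨hq1, hq2⟩ := mem_filter.mp hq
    obtain ⟨_, _, _, h4⟩ := QS_div hl hq1 hq2
    unfold wt
    rw [h4, Nat.cast_mul, Nat.cast_sub hl.one_le, Nat.cast_one, div_div, mul_comm]
  rw [h1, ← sum_div]
  apply div_le_div_of_nonneg_right _ hl1.le
  rw [← sum_image (f := fun q => wt q) hinj, GG_eq]
  apply sum_le_sum_of_subset_of_nonneg
  · intro q hq
    obtain ⟨q', hq', rfl⟩ := mem_image.mp hq
    obtain ⟨hq1, hq2⟩ := mem_filter.mp hq'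
    exact (QS_div hl hq1 hq2).1
  · intro q _ _
    exact wt_nonneg q

theorem sum_w2_l {z Q l : ℕ} (A : Finset (ℕ × ℕ)) (hA : A ⊆ RR z Q) (hAl : ∀ x ∈ A, l ∣ x.1) :
    ∑ x ∈ A, wt x.1 ^ 2 ≤ ∑ q ∈ (QS z Q).filter (fun q => l ∣ q), wt q := by
  have h1 := sum_RR_le A hA (fun q => wt q ^ 2) (fun q => if l ∣ q then Nat.totient q else 0)
    (fun q => sq_nonneg _) (by
      intro q hq
      split_ifs with h
      · exact (card_le_card (filter_subset_filter _ hA)).trans (card_fiber q)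
      · rw [Nat.le_zero, card_eq_zero, filter_eq_empty_iff]
        intro x hx hxq
        exact h (hxq ▸ hAl x hx))
  refine h1.trans (le_of_eq ?_)
  rw [sum_filter]
  apply sum_congr rfl
  intro q hq
  have h2 := tot_pos hq
  split_ifs with h
  · unfold wt
    field_simp
  · simp

theorem sum_w2 {z Q : ℕ} (A : Finset (ℕ × ℕ)) (hA : A ⊆ RR z Q) :
    ∑ x ∈ A, wt x.1 ^ 2 ≤ GG z Q := by
  have h1 := sum_w2_l (l := 1) A hA (fun x _ => one_dvd _)
  refine h1.trans (le_of_eq ?_)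
  rw [GG_eq]
  congr 1
  ext q
  simp

/-- the occurring numerators -/
theorem occ_card {z Q l : ℕ} (hl : l.Prime) (β : ℝ) (A : Finset (ℕ × ℕ)) (hA : A ⊆ RR z Q)
    (hAo : ∀ x ∈ A, ∃ x' ∈ RR z Q, Rel β x x' ∧ l ∣ x.1 ∧ ¬ l ∣ x'.1) (q : ℕ) (hq : q ∈ QS z Q)
    (hlq : l ∣ q) : (A.filter (fun x => x.1 = q)).card ≤ Nat.totient (q / l) := by
  obtain ⟨h1, h2, h3, h4⟩ := QS_div hl hq hlq
  have hq1 : 0 < q / l := (mem_QS.mp h1).1.1
  rw [Nat.totient_eq_card_coprime]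
  apply card_le_card_of_injOn (fun x => x.2 % (q / l))
  · intro x hx
    have hx' := mem_filter.mp hx
    obtain ⟨k1, k2, k3⟩ := mem_RR.mp (hA hx'.1)
    have k4 : x.1 = q := hx'.2
    rw [k4] at k3
    refine mem_coe.mpr (mem_filter.mpr ⟨mem_range.mpr (Nat.mod_lt _ hq1), ?_⟩)
    have k5 : Nat.Coprime x.2 (q / l) := Nat.Coprime.coprime_dvd_right (Nat.div_dvd_of_dvd hlq) k3
    rw [Nat.coprime_comm]
    have : Nat.gcd (x.2 % (q / l)) (q / l) = Nat.gcd x.2 (q / l) := by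
      rw [Nat.gcd_comm, Nat.gcd_comm x.2, Nat.gcd_rec (q / l) x.2, Nat.gcd_comm]
    unfold Nat.Coprime
    rw [this]
    exact k5
  · intro x hx y hy hxy
    obtain ⟨hxA, hxq⟩ := mem_filter.mp hx
    obtain ⟨hyA, hyq⟩ := mem_filter.mp hy
    obtain ⟨x', hx', ⟨n, hn⟩, _, hlx'⟩ := hAo x hxA
    obtain ⟨y', hy', ⟨m, hm⟩, _, hly'⟩ := hAo y hyA
    obtain ⟨_, kx2, _⟩ := mem_RR.mp (hA hxA)
    obtain ⟨_, ky2, _⟩ := mem_RR.mp (hA hyA)
    rw [hxq] at hn kx2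
    rw [hyq] at hm ky2
    have q0 : (q:ℝ) ≠ 0 := by
      have := (mem_QS.mp hq).1.1
      positivity
    have x0 : (x'.1:ℝ) ≠ 0 := by
      have := (mem_QS.mp (mem_RR.mp hx').1).1.1
      positivity
    have y0 : (y'.1:ℝ) ≠ 0 := by
      have := (mem_QS.mp (mem_RR.mp hy').1).1.1
      positivity
    have e1 : ((x.2 : ℝ) - y.2) * x'.1 * y'.1 =
        q * ((x'.2 : ℝ) * y'.1 - y'.2 * x'.1 + (n - m) * x'.1 * y'.1) := by
      have e2 : (x.2 : ℝ) / q - y.2 / q = (x'.2 : ℝ) / x'.1 - y'.2 / y'.1 + (n - m) := by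
        linarith
      field_simp at e2
      linarith
    have e3 : ((x.2 : ℤ) - y.2) * x'.1 * y'.1 =
        q * ((x'.2 : ℤ) * y'.1 - y'.2 * x'.1 + (n - m) * x'.1 * y'.1) := by exact_mod_cast e1
    have hlI : Prime (l : ℤ) := Nat.prime_iff_prime_int.mp hl
    have d1 : (l : ℤ) ∣ ((x.2 : ℤ) - y.2) * x'.1 * y'.1 := by
      rw [e3]
      exact dvd_mul_of_dvd_left (by exact_mod_cast hlq) _
    have d2 : (l : ℤ) ∣ (x.2 : ℤ) - y.2 := by
      rcases hlI.dvd_or_dvd d1 with d | d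
      · rcases hlI.dvd_or_dvd d with d | d
        · exact d
        · exact absurd (by exact_mod_cast d) hlx'
      · exact absurd (by exact_mod_cast d) hly'
    have d3 : ((q / l : ℕ) : ℤ) ∣ (x.2 : ℤ) - y.2 := by
      have : x.2 % (q / l) = y.2 % (q / l) := hxy
      exact (Nat.modEq_iff_dvd.mp (Nat.ModEq.symm this))
    have hcop : IsCoprime (l : ℤ) ((q / l : ℕ) : ℤ) := Nat.isCoprime_iff_coprime.mpr h2
    have d4 : (q : ℤ) ∣ (x.2 : ℤ) - y.2 := by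
      have := hcop.mul_dvd d2 d3
      rw [← Nat.cast_mul, h3] at this
      exact this
    have e4 : x.2 = y.2 := by
      have h5 : x.2 % q = y.2 % q := (Nat.modEq_iff_dvd.mpr d4).symm
      rwa [Nat.mod_eq_of_lt kx2, Nat.mod_eq_of_lt ky2] at h5
    exact Prod.ext (hxq.trans hyq.symm) e4

open Classical in
theorem case1 {z Q l : ℕ} (hl : l.Prime) (β : ℝ) :
    ∑ x ∈ RR z Q, ∑ x' ∈ RR z Q, (if Rel β x x' ∧ l ∣ x.1 ∧ ¬ l ∣ x'.1 then
      wt x.1 * wt x'.1 else 0) ≤ GG z Q / (l - 1 : ℝ) := by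
  have hl1 : (0:ℝ) < (l:ℝ) - 1 := by
    have : (1:ℝ) < l := by exact_mod_cast hl.one_lt
    linarith
  have h1 : ∑ x ∈ RR z Q, ∑ x' ∈ RR z Q, (if Rel β x x' ∧ l ∣ x.1 ∧ ¬ l ∣ x'.1 then
      wt x.1 * wt x'.1 else 0) ≤
      ∑ x ∈ RR z Q, ∑ x' ∈ RR z Q, (if Rel β x x' ∧ l ∣ x.1 ∧ ¬ l ∣ x'.1 then
        ((l:ℝ) - 1) / 2 * wt x.1 ^ 2 else 0) +
      ∑ x ∈ RR z Q, ∑ x' ∈ RR z Q, (if Rel β x x' ∧ l ∣ x.1 ∧ ¬ l ∣ x'.1 then
        1 / (2 * ((l:ℝ) - 1)) * wt x'.1 ^ 2 else 0) := by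
    rw [← sum_add_distrib]
    apply sum_le_sum
    intro x _
    rw [← sum_add_distrib]
    apply sum_le_sum
    intro x' _
    split_ifs with h
    · generalize wt x.1 = a
      generalize wt x'.1 = b
      generalize (l:ℝ) - 1 = c at hl1
      have h2 : 0 ≤ (c * a - b) ^ 2 / (2 * c) := by positivity
      have h3 : (c * a - b) ^ 2 / (2 * c) = c / 2 * a ^ 2 + 1 / (2 * c) * b ^ 2 - a * b := by
        field_simp
        ring
      linarith
    · simp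
  have h2 : ∑ x ∈ RR z Q, ∑ x' ∈ RR z Q, (if Rel β x x' ∧ l ∣ x.1 ∧ ¬ l ∣ x'.1 then
        ((l:ℝ) - 1) / 2 * wt x.1 ^ 2 else 0) ≤ GG z Q / (l - 1 : ℝ) / 2 := by
    rw [match_sum (RR z Q) (RR z Q) (fun x x' => Rel β x x' ∧ l ∣ x.1 ∧ ¬ l ∣ x'.1)
      (fun x _ y hy y' hy' h3 h4 => rel_right hy hy' h3.1 h4.1)
      (fun x => ((l:ℝ) - 1) / 2 * wt x.1 ^ 2)]
    set A := (RR z Q).filter (fun x => ∃ x' ∈ RR z Q, Rel β x x' ∧ l ∣ x.1 ∧ ¬ l ∣ x'.1) with hAdef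
    have hA : A ⊆ RR z Q := filter_subset _ _
    have hAo : ∀ x ∈ A, ∃ x' ∈ RR z Q, Rel β x x' ∧ l ∣ x.1 ∧ ¬ l ∣ x'.1 :=
      fun x hx => (mem_filter.mp hx).2
    have h3 := sum_RR_le A hA (fun q => ((l:ℝ) - 1) / 2 * wt q ^ 2)
      (fun q => if l ∣ q then Nat.totient (q / l) else 0)
      (fun q => by positivity) (by
        intro q hq
        split_ifs with h
        · exact occ_card hl β A hA hAo q hq h
        · rw [Nat.le_zero, card_eq_zero, filter_eq_empty_iff]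
          intro x hx hxq
          obtain ⟨_, _, _, hd, _⟩ := hAo x hx
          exact h (hxq ▸ hd))
    refine h3.trans ?_
    have h4 : ∑ q ∈ QS z Q, ((if l ∣ q then Nat.totient (q / l) else 0 : ℕ) : ℝ) *
        (((l:ℝ) - 1) / 2 * wt q ^ 2) = (∑ q ∈ (QS z Q).filter (fun q => l ∣ q), wt q) / 2 := by
      rw [sum_filter, sum_div]
      apply sum_congr rfl
      intro q hq
      split_ifs with h
      · obtain ⟨k1, _, _, k4⟩ := QS_div hl hq h
        have k5 := tot_pos k1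
        unfold wt
        rw [k4, Nat.cast_mul, Nat.cast_sub hl.one_le, Nat.cast_one]
        field_simp
      · simp
    rw [h4]
    exact div_le_div_of_nonneg_right (Gl_le hl) (by norm_num)
  have h3 : ∑ x ∈ RR z Q, ∑ x' ∈ RR z Q, (if Rel β x x' ∧ l ∣ x.1 ∧ ¬ l ∣ x'.1 then
        1 / (2 * ((l:ℝ) - 1)) * wt x'.1 ^ 2 else 0) ≤ GG z Q / (l - 1 : ℝ) / 2 := by
    rw [sum_comm, match_sum (RR z Q) (RR z Q) (fun x' x => Rel β x x' ∧ l ∣ x.1 ∧ ¬ l ∣ x'.1)
      (fun x _ y hy y' hy' h3 h4 => rel_left hy hy' h3.1 h4.1)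
      (fun x => 1 / (2 * ((l:ℝ) - 1)) * wt x.1 ^ 2), ← mul_sum]
    have h4 := sum_w2 (z := z) (Q := Q) ((RR z Q).filter (fun x' => ∃ x ∈ RR z Q,
      Rel β x x' ∧ l ∣ x.1 ∧ ¬ l ∣ x'.1)) (filter_subset _ _)
    calc 1 / (2 * ((l:ℝ) - 1)) * _ ≤ 1 / (2 * ((l:ℝ) - 1)) * GG z Q :=
          mul_le_mul_of_nonneg_left h4 (by positivity)
      _ = _ := by field_simp
  linarith

open Classical in
theorem case3 {z Q l : ℕ} (hl : l.Prime) (β : ℝ) :
    ∑ x ∈ RR z Q, ∑ x' ∈ RR z Q, (if Rel β x x' ∧ l ∣ x.1 ∧ l ∣ x'.1 then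
      wt x.1 * wt x'.1 else 0) ≤ GG z Q / (l - 1 : ℝ) := by
  have h1 : ∑ x ∈ RR z Q, ∑ x' ∈ RR z Q, (if Rel β x x' ∧ l ∣ x.1 ∧ l ∣ x'.1 then
      wt x.1 * wt x'.1 else 0) ≤
      ∑ x ∈ RR z Q, ∑ x' ∈ RR z Q, (if Rel β x x' ∧ l ∣ x.1 ∧ l ∣ x'.1 then
        1 / 2 * wt x.1 ^ 2 else 0) +
      ∑ x ∈ RR z Q, ∑ x' ∈ RR z Q, (if Rel β x x' ∧ l ∣ x.1 ∧ l ∣ x'.1 then
        1 / 2 * wt x'.1 ^ 2 else 0) := by
    rw [← sum_add_distrib]
    apply sum_le_sum
    intro x _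
    rw [← sum_add_distrib]
    apply sum_le_sum
    intro x' _
    split_ifs with h
    · nlinarith [sq_nonneg (wt x.1 - wt x'.1)]
    · simp
  have h2 : ∑ x ∈ RR z Q, ∑ x' ∈ RR z Q, (if Rel β x x' ∧ l ∣ x.1 ∧ l ∣ x'.1 then
        1 / 2 * wt x.1 ^ 2 else 0) ≤ GG z Q / (l - 1 : ℝ) / 2 := by
    rw [match_sum (RR z Q) (RR z Q) (fun x x' => Rel β x x' ∧ l ∣ x.1 ∧ l ∣ x'.1)
      (fun x _ y hy y' hy' h3 h4 => rel_right hy hy' h3.1 h4.1)
      (fun x => 1 / 2 * wt x.1 ^ 2), ← mul_sum]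
    have h4 := sum_w2_l (z := z) (Q := Q) (l := l) ((RR z Q).filter (fun x => ∃ x' ∈ RR z Q,
      Rel β x x' ∧ l ∣ x.1 ∧ l ∣ x'.1)) (filter_subset _ _) (by
        intro x hx
        obtain ⟨_, _, _, hd, _⟩ := (mem_filter.mp hx).2
        exact hd)
    have h5 := Gl_le (z := z) (Q := Q) hl
    linarith
  have h3 : ∑ x ∈ RR z Q, ∑ x' ∈ RR z Q, (if Rel β x x' ∧ l ∣ x.1 ∧ l ∣ x'.1 then
        1 / 2 * wt x'.1 ^ 2 else 0) ≤ GG z Q / (l - 1 : ℝ) / 2 := by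
    rw [sum_comm, match_sum (RR z Q) (RR z Q) (fun x' x => Rel β x x' ∧ l ∣ x.1 ∧ l ∣ x'.1)
      (fun x _ y hy y' hy' h3 h4 => rel_left hy hy' h3.1 h4.1)
      (fun x => 1 / 2 * wt x.1 ^ 2), ← mul_sum]
    have h4 := sum_w2_l (z := z) (Q := Q) (l := l) ((RR z Q).filter (fun x' => ∃ x ∈ RR z Q,
      Rel β x x' ∧ l ∣ x.1 ∧ l ∣ x'.1)) (filter_subset _ _) (by
        intro x hx
        obtain ⟨_, _, _, _, hd⟩ := (mem_filter.mp hx).2
        exact hd)
    have h5 := Gl_le (z := z) (Q := Q) hl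
    linarith
  linarith

theorem J5a : J5aStmt := by
  classical
  intro z Q hz hQ β
  have hterm : ∀ x x' : ℕ × ℕ, (1 : ℝ) / ((Nat.totient x.1 : ℝ) * (Nat.totient x'.1 : ℝ)) =
      wt x.1 * wt x'.1 := by
    intro x x'
    unfold wt
    rw [div_mul_div_comm, one_mul]
  have hS : ∑ x ∈ RR z Q, ∑ x' ∈ RR z Q, (open Classical in
      if ∃ n : ℤ, (x.2 : ℝ) / x.1 - (x'.2 : ℝ) / x'.1 - β = n then
      (1 : ℝ) / ((Nat.totient x.1 : ℝ) * (Nat.totient x'.1 : ℝ)) else 0) =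
      ∑ x ∈ RR z Q, ∑ x' ∈ RR z Q, (open Classical in
        if Rel β x x' then wt x.1 * wt x'.1 else 0) := by
    apply sum_congr rfl
    intro x _
    apply sum_congr rfl
    intro x' _
    rw [hterm]
    rfl
  rw [hS]
  by_cases hβ : ∃ n : ℤ, β = n
  · rw [if_pos hβ]
    refine le_trans ?_ (sum_w2 (RR z Q) (subset_refl _))
    apply sum_le_sum
    intro x hx
    calc ∑ x' ∈ RR z Q, (if Rel β x x' then wt x.1 * wt x'.1 else 0)
        ≤ ∑ x' ∈ RR z Q, (if x = x' then wt x.1 ^ 2 else 0) := by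
          apply sum_le_sum
          intro x' hx'
          by_cases h : Rel β x x'
          · rw [if_pos h]
            obtain ⟨n, hn⟩ := h
            obtain ⟨m, hm⟩ := hβ
            have hxx : x = x' := by
              apply frac_unique hx hx' (n + m)
              push_cast
              rw [← hn, ← hm]
              ring
            rw [if_pos hxx, ← hxx, sq]
          · rw [if_neg h]
            split_ifs
            · exact sq_nonneg _
            · exact le_refl _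
      _ = wt x.1 ^ 2 := by
          rw [sum_ite_eq, if_pos hx]
  · rw [if_neg hβ]
    by_cases hex : ∃ x ∈ RR z Q, ∃ x' ∈ RR z Q, Rel β x x'
    · obtain ⟨x0, hx0, x0', hx0', hrel0⟩ := hex
      obtain ⟨n, hn⟩ := id hrel0
      obtain ⟨r, hr⟩ : ∃ r : ℚ, (r : ℝ) = β := by
        refine ⟨(x0.2:ℚ)/x0.1 - (x0'.2:ℚ)/x0'.1 - n, ?_⟩
        push_cast
        linarith
      have hden : r.den ≠ 1 := by
        intro h
        apply hβ
        refine ⟨r.num, ?_⟩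
        rw [← hr]
        have := (Rat.den_eq_one_iff r).mp h
        conv_lhs => rw [← this]
        rw [Rat.cast_intCast]
      set l := Nat.minFac r.den with hldef
      have hl : l.Prime := Nat.minFac_prime hden
      have key : ∀ x ∈ RR z Q, ∀ x' ∈ RR z Q, Rel β x x' → l ∣ x.1 ∨ l ∣ x'.1 := by
        intro x hx x' hx' ⟨m, hm⟩
        have x0 : (x.1:ℝ) ≠ 0 := by
          have := (mem_QS.mp (mem_RR.mp hx).1).1.1
          positivity
        have y0 : (x'.1:ℝ) ≠ 0 := by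
          have := (mem_QS.mp (mem_RR.mp hx').1).1.1
          positivity
        have e1 : (r : ℝ) = (((x.2 : ℤ) * x'.1 - x'.2 * x.1 - m * (x.1 * x'.1) : ℤ) : ℝ) /
            ((x.1 * x'.1 : ℤ) : ℝ) := by
          rw [hr]
          push_cast
          rw [eq_div_iff (mul_ne_zero x0 y0)]
          have e2 : β = (x.2 : ℝ) / x.1 - x'.2 / x'.1 - m := by linarith
          rw [e2]
          field_simp
        have e2 : r = (((x.2 : ℤ) * x'.1 - x'.2 * x.1 - m * (x.1 * x'.1) : ℤ) : ℚ) /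
            ((x.1 * x'.1 : ℤ) : ℚ) := by exact_mod_cast e1
        have e3 : (r.den : ℤ) ∣ (x.1 * x'.1 : ℤ) := by
          have h3 := Rat.den_dvd ((x.2 : ℤ) * x'.1 - x'.2 * x.1 - m * (x.1 * x'.1)) (x.1 * x'.1 : ℤ)
          rw [Rat.divInt_eq_div, ← e2] at h3
          exact h3
        have e4 : r.den ∣ x.1 * x'.1 := by exact_mod_cast e3
        exact (Nat.Prime.dvd_mul hl).mp ((Nat.minFac_dvd _).trans e4)
      have hlz : z < l := by
        rcases key x0 hx0 x0' hx0' hrel0 with h | h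
        · have h1 := mem_QS.mp (mem_RR.mp hx0).1
          exact h1.2.2 l (Nat.mem_primeFactors.mpr ⟨hl, h, by omega⟩)
        · have h1 := mem_QS.mp (mem_RR.mp hx0').1
          exact h1.2.2 l (Nat.mem_primeFactors.mpr ⟨hl, h, by omega⟩)
      have hsplit : ∑ x ∈ RR z Q, ∑ x' ∈ RR z Q, (if Rel β x x' then wt x.1 * wt x'.1 else 0) ≤
          ∑ x ∈ RR z Q, ∑ x' ∈ RR z Q, (if Rel β x x' ∧ l ∣ x.1 ∧ ¬ l ∣ x'.1 then
            wt x.1 * wt x'.1 else 0) +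
          (∑ x ∈ RR z Q, ∑ x' ∈ RR z Q, (if Rel (-β) x' x ∧ l ∣ x'.1 ∧ ¬ l ∣ x.1 then
            wt x'.1 * wt x.1 else 0) +
          ∑ x ∈ RR z Q, ∑ x' ∈ RR z Q, (if Rel β x x' ∧ l ∣ x.1 ∧ l ∣ x'.1 then
            wt x.1 * wt x'.1 else 0)) := by
        rw [← sum_add_distrib, ← sum_add_distrib]
        apply sum_le_sum
        intro x hx
        rw [← sum_add_distrib, ← sum_add_distrib]
        apply sum_le_sum
        intro x' hx'
        have hww : 0 ≤ wt x.1 * wt x'.1 := mul_nonneg (wt_nonneg _) (wt_nonneg _)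
        have hww' : 0 ≤ wt x'.1 * wt x.1 := mul_nonneg (wt_nonneg _) (wt_nonneg _)
        by_cases h : Rel β x x'
        · by_cases hd : l ∣ x.1
          · by_cases hd' : l ∣ x'.1
            · have e1 : Rel β x x' ∧ l ∣ x.1 ∧ l ∣ x'.1 := ⟨h, hd, hd'⟩
              rw [if_pos h, if_pos e1]
              have : 0 ≤ (if Rel β x x' ∧ l ∣ x.1 ∧ ¬ l ∣ x'.1 then wt x.1 * wt x'.1 else 0) := by
                split_ifs <;> [exact hww; exact le_refl _]
              have : 0 ≤ (if Rel (-β) x' x ∧ l ∣ x'.1 ∧ ¬ l ∣ x.1 then wt x'.1 * wt x.1 else 0) := by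
                split_ifs <;> [exact hww'; exact le_refl _]
              linarith
            · have e1 : Rel β x x' ∧ l ∣ x.1 ∧ ¬ l ∣ x'.1 := ⟨h, hd, hd'⟩
              rw [if_pos h, if_pos e1]
              have : 0 ≤ (if Rel β x x' ∧ l ∣ x.1 ∧ l ∣ x'.1 then wt x.1 * wt x'.1 else 0) := by
                split_ifs <;> [exact hww; exact le_refl _]
              have : 0 ≤ (if Rel (-β) x' x ∧ l ∣ x'.1 ∧ ¬ l ∣ x.1 then wt x'.1 * wt x.1 else 0) := by
                split_ifs <;> [exact hww'; exact le_refl _]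
              linarith
          · have hd' : l ∣ x'.1 := by
              rcases key x hx x' hx' h with h1 | h1
              · exact absurd h1 hd
              · exact h1
            have e1 : Rel (-β) x' x ∧ l ∣ x'.1 ∧ ¬ l ∣ x.1 := ⟨rel_symm h, hd', hd⟩
            rw [if_pos h, if_pos e1]
            have : 0 ≤ (if Rel β x x' ∧ l ∣ x.1 ∧ l ∣ x'.1 then wt x.1 * wt x'.1 else 0) := by
              split_ifs <;> [exact hww; exact le_refl _]
            have : 0 ≤ (if Rel β x x' ∧ l ∣ x.1 ∧ ¬ l ∣ x'.1 then wt x.1 * wt x'.1 else 0) := by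
              split_ifs <;> [exact hww; exact le_refl _]
            have e2 : wt x'.1 * wt x.1 = wt x.1 * wt x'.1 := mul_comm _ _
            rw [e2]
            linarith
        · rw [if_neg h]
          have : 0 ≤ (if Rel β x x' ∧ l ∣ x.1 ∧ ¬ l ∣ x'.1 then wt x.1 * wt x'.1 else 0) := by
            split_ifs <;> [exact hww; exact le_refl _]
          have : 0 ≤ (if Rel β x x' ∧ l ∣ x.1 ∧ l ∣ x'.1 then wt x.1 * wt x'.1 else 0) := by
            split_ifs <;> [exact hww; exact le_refl _]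
          have : 0 ≤ (if Rel (-β) x' x ∧ l ∣ x'.1 ∧ ¬ l ∣ x.1 then wt x'.1 * wt x.1 else 0) := by
            split_ifs <;> [exact hww'; exact le_refl _]
          linarith
      have hc1 := case1 (z := z) (Q := Q) hl β
      have hc2 := case1 (z := z) (Q := Q) hl (-β)
      have hc3 := case3 (z := z) (Q := Q) hl β
      rw [sum_comm] at hc2
      have hzpos : (0:ℝ) < z := by
        have : 0 < z := by omega
        exact_mod_cast this
      have hle : GG z Q / (l - 1 : ℝ) ≤ GG z Q / z := by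
        apply div_le_div_of_nonneg_left (GG_nonneg z Q) hzpos
        have : (z : ℝ) + 1 ≤ l := by exact_mod_cast hlz
        linarith
      have hfin : 3 * GG z Q / z = GG z Q / z + (GG z Q / z + GG z Q / z) := by ring
      rw [hfin]
      refine hsplit.trans ?_
      exact add_le_add (hc1.trans hle) (add_le_add (hc2.trans hle) (hc3.trans hle))
    · have h0 : ∑ x ∈ RR z Q, ∑ x' ∈ RR z Q, (if Rel β x x' then wt x.1 * wt x'.1 else 0) = 0 := by
        apply sum_eq_zero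
        intro x hx
        apply sum_eq_zero
        intro x' hx'
        rw [if_neg]
        intro h
        exact hex ⟨x, hx, x', hx', h⟩
      rw [h0]
      have := GG_nonneg z Q
      positivity

end Pool.Agent.Helper602.MK.N_J5a
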