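import Mathlib
import Pool.Agent.Helper602.MK.Defs

set_option autoImplicit false

namespace Pool.Agent.Helper602.MK.N_J5c

open Finset


namespace Mert

/-! ## First Mertens theorem -/

/-- primes up to `N` -/
abbrev MPP (N : ℕ) : Finset ℕ := (Finset.Icc 1 N).filter Nat.Prime

lemma log_factorial_eq (N : ℕ) :
    Real.log (N.factorial : ℝ) = ∑ p ∈ MPP N, (N.factorial.factorization p : ℝ) * Real.log p := by
  rw [Real.log_nat_eq_sum_factorization, Finsupp.sum]
  have h1 : N.factorial.factorization.support ⊆ MPP N := by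
    intro p hp
    rw [Nat.support_factorization, Nat.mem_primeFactors] at hp
    rw [Finset.mem_filter, Finset.mem_Icc]
    exact ⟨⟨hp.1.one_lt.le, (hp.1.dvd_factorial).1 hp.2.1⟩, hp.1⟩
  refine Finset.sum_subset h1 fun p _ hp => ?_
  rw [Finsupp.notMem_support_iff] at hp
  rw [hp]; simp

lemma sum_small_bound : ∃ C : ℝ, 0 ≤ C ∧ ∀ N : ℕ, ∑ p ∈ MPP N, Real.log p / (p * (p - 1)) ≤ C := by
  have hs : Summable (fun n : ℕ => 4 / (n : ℝ) ^ (3 / 2 : ℝ)) := by
    have := Real.summable_nat_rpow_inv (p := (3 / 2 : ℝ)).2 (by norm_num)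
    have h2 := this.mul_left 4
    exact h2.congr fun n => (div_eq_mul_inv _ _).symm
  refine ⟨∑' n : ℕ, 4 / (n : ℝ) ^ (3 / 2 : ℝ), tsum_nonneg fun n => by positivity, fun N => ?_⟩
  refine le_trans ?_ (hs.sum_le_tsum (MPP N) fun n _ => by positivity)
  refine Finset.sum_le_sum fun p hp => ?_
  rw [Finset.mem_filter] at hp
  have h2 : (2 : ℝ) ≤ p := by exact_mod_cast hp.2.two_le
  have hp0 : (0 : ℝ) < p := by linarith
  have hlog : Real.log p ≤ 2 * (p : ℝ) ^ (1 / 2 : ℝ) := by
    have := Real.log_le_rpow_div hp0.le (ε := 1 / 2) (by norm_num)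
    linarith
  rw [div_le_div_iff₀ (by nlinarith) (by positivity)]
  have h3 : (p : ℝ) ^ (1 / 2 : ℝ) * (p : ℝ) ^ (3 / 2 : ℝ) = p ^ 2 := by
    rw [← Real.rpow_add hp0]; norm_num
  have h4 : 0 < (p : ℝ) ^ (3 / 2 : ℝ) := by positivity
  calc Real.log p * (p : ℝ) ^ (3 / 2 : ℝ) ≤ 2 * (p : ℝ) ^ (1 / 2 : ℝ) * (p : ℝ) ^ (3 / 2 : ℝ) :=
        mul_le_mul_of_nonneg_right hlog h4.le
    _ = 2 * p ^ 2 := by rw [mul_assoc, h3]
    _ ≤ 4 * (p * (p - 1)) := by nlinarith

lemma theta_le (N : ℕ) : ∑ p ∈ MPP N, Real.log p ≤ 2 * N := by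
  have h := Chebyshev.theta_le_log4_mul_x (x := (N : ℝ)) (by positivity)
  have h2 : Chebyshev.theta (N : ℝ) = ∑ p ∈ MPP N, Real.log p := by
    rw [Chebyshev.theta, Nat.floor_natCast]
    rfl
  rw [h2] at h
  have h3 : Real.log 4 ≤ 2 := by
    have : Real.log 4 = 2 * Real.log 2 := by
      rw [show (4 : ℝ) = 2 ^ 2 by norm_num, Real.log_pow]; norm_num
    have := Real.log_two_lt_d9
    linarith
  have : (0 : ℝ) ≤ N := by positivity
  nlinarith

theorem mertens_log : ∃ C : ℝ, ∀ N : ℕ, 1 ≤ N →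
    |∑ p ∈ (Finset.Icc 1 N).filter Nat.Prime, Real.log p / p - Real.log N| ≤ C := by
  obtain ⟨C, hC0, hC⟩ := sum_small_bound
  refine ⟨C + 2, fun N hN => ?_⟩
  have hN' : (0 : ℝ) < N := by exact_mod_cast hN
  have hN1 : (1 : ℝ) ≤ N := by exact_mod_cast hN
  have hfac := log_factorial_eq N
  set P := ∑ p ∈ MPP N, Real.log p / p with hP
  -- upper bound for the factorial
  have hup : Real.log (N.factorial : ℝ) ≤ N * Real.log N := by
    rw [← Real.log_pow]
    apply Real.log_le_log
    · exact_mod_cast N.factorial_pos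
    · exact_mod_cast N.factorial_le_pow
  have hlo : N * Real.log N - N ≤ Real.log (N.factorial : ℝ) := by
    have h1 := Stirling.le_log_factorial_stirling (n := N) (by omega)
    have h2 : 0 ≤ Real.log N := Real.log_nonneg hN1
    have h3 : 0 ≤ Real.log (2 * Real.pi) := Real.log_nonneg (by linarith [Real.pi_gt_three])
    linarith
  -- lower bound for valuations
  have h1 : (N : ℝ) * P - 2 * N ≤ Real.log (N.factorial : ℝ) := by
    rw [hfac]
    have h2 := theta_le N
    have h3 : (N : ℝ) * P - ∑ p ∈ MPP N, Real.log p ≤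
        ∑ p ∈ MPP N, (N.factorial.factorization p : ℝ) * Real.log p := by
      rw [hP, Finset.mul_sum, ← Finset.sum_sub_distrib]
      refine Finset.sum_le_sum fun p hp => ?_
      rw [Finset.mem_filter] at hp
      have hp0 : (0 : ℝ) < p := by exact_mod_cast hp.2.pos
      have hlog : 0 ≤ Real.log p := Real.log_nonneg (by exact_mod_cast hp.2.one_lt.le)
      have h4 : N / p ≤ N.factorial.factorization p := by
        rw [Nat.factorization_factorial hp.2 (Nat.lt_succ_self (Nat.log p N))]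
        by_cases h5 : p ≤ N
        · have h6 : 1 ≤ Nat.log p N := by
            have := Nat.log_pos hp.2.one_lt h5
            omega
          have h7 : N / p = N / p ^ 1 := by rw [pow_one]
          rw [h7]
          exact Finset.single_le_sum (f := fun i => N / p ^ i) (fun i _ => Nat.zero_le _)
            (Finset.mem_Ico.2 ⟨le_rfl, by omega⟩)
        · rw [Nat.div_eq_of_lt (by omega)]; exact Nat.zero_le _
      have h5 : (N : ℝ) / p - 1 ≤ N.factorial.factorization p := by
        have h6 : (N : ℝ) / p < ((N / p : ℕ) : ℝ) + 1 := by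
          rw [← Nat.floor_div_eq_div (K := ℝ)]
          exact Nat.lt_floor_add_one _
        have h7 : ((N / p : ℕ) : ℝ) ≤ N.factorial.factorization p := by exact_mod_cast h4
        linarith
      calc (N : ℝ) * (Real.log p / p) - Real.log p = (N / p - 1) * Real.log p := by ring
        _ ≤ _ := mul_le_mul_of_nonneg_right h5 hlog
    linarith
  -- upper bound for valuations
  have h2 : Real.log (N.factorial : ℝ) ≤ N * P + N * C := by
    rw [hfac]
    have h3 : ∑ p ∈ MPP N, (N.factorial.factorization p : ℝ) * Real.log p ≤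
        ∑ p ∈ MPP N, ((N : ℝ) * (Real.log p / p) + N * (Real.log p / (p * (p - 1)))) := by
      refine Finset.sum_le_sum fun p hp => ?_
      rw [Finset.mem_filter] at hp
      have h2' : (2 : ℝ) ≤ p := by exact_mod_cast hp.2.two_le
      have hlog : 0 ≤ Real.log p := Real.log_nonneg (by linarith)
      have h4 : (N.factorial.factorization p : ℝ) ≤ N / (p - 1) := by
        have h5 := Nat.factorization_factorial_le_div_pred hp.2 N
        have h6 : (N.factorial.factorization p : ℝ) ≤ ((N / (p - 1) : ℕ) : ℝ) := by exact_mod_cast h5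
        refine h6.trans ?_
        have h7 : ((p - 1 : ℕ) : ℝ) = (p : ℝ) - 1 := by
          rw [Nat.cast_sub hp.2.one_lt.le]; norm_num
        rw [← h7]
        exact Nat.cast_div_le
      have h8 : (N : ℝ) * (Real.log p / p) + N * (Real.log p / (p * (p - 1))) =
          N / (p - 1) * Real.log p := by
        have : (p : ℝ) ≠ 0 := by linarith
        have : (p : ℝ) - 1 ≠ 0 := by linarith
        field_simp
        ring
      rw [h8]
      exact mul_le_mul_of_nonneg_right h4 hlog
    refine h3.trans ?_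
    rw [Finset.sum_add_distrib, ← Finset.mul_sum, ← Finset.mul_sum]
    have := hC N
    have := mul_le_mul_of_nonneg_left this hN'.le
    linarith
  change |P - Real.log N| ≤ C + 2
  rw [abs_le]
  constructor
  · have h3 : (N : ℝ) * (Real.log N - 1) ≤ N * (P + C) := by linarith
    have := le_of_mul_le_mul_left h3 hN'
    linarith
  · have h3 : (N : ℝ) * (P - 2) ≤ N * Real.log N := by linarith
    have := le_of_mul_le_mul_left h3 hN'
    linarith

/-! ## Second Mertens theorem -/

/-- finite sums of `log p / p` -/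
noncomputable def AA (N : ℕ) : ℝ := ∑ p ∈ MPP N, Real.log p / p

lemma MPP_succ (N : ℕ) : MPP (N + 1) = if (N + 1).Prime then insert (N + 1) (MPP N) else MPP N := by
  ext p
  split_ifs with h
  · simp only [Finset.mem_filter, Finset.mem_Icc, Finset.mem_insert]
    constructor
    · rintro ⟨⟨h1, h2⟩, h3⟩
      rcases Nat.lt_or_ge p (N + 1) with h4 | h4
      · right; exact ⟨⟨h1, by omega⟩, h3⟩
      · left; omega
    · rintro (h1 | ⟨⟨h1, h2⟩, h3⟩)
      · subst h1; exact ⟨⟨by omega, le_rfl⟩, h⟩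
      · exact ⟨⟨h1, by omega⟩, h3⟩
  · simp only [Finset.mem_filter, Finset.mem_Icc]
    constructor
    · rintro ⟨⟨h1, h2⟩, h3⟩
      rcases Nat.lt_or_ge p (N + 1) with h4 | h4
      · exact ⟨⟨h1, by omega⟩, h3⟩
      · have : p = N + 1 := by omega
        subst this; exact absurd h3 h
    · rintro ⟨⟨h1, h2⟩, h3⟩
      exact ⟨⟨h1, by omega⟩, h3⟩

lemma notMem_MPP_succ (N : ℕ) : (N + 1) ∉ MPP N := by
  simp only [Finset.mem_filter, Finset.mem_Icc]
  omega

lemma sum_MPP_succ (f : ℕ → ℝ) (N : ℕ) :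
    ∑ p ∈ MPP (N + 1), f p = ∑ p ∈ MPP N, f p + if (N + 1).Prime then f (N + 1) else 0 := by
  rw [MPP_succ]
  split_ifs with h
  · rw [Finset.sum_insert (notMem_MPP_succ N)]; ring
  · ring

/-- summation by parts -/
lemma inv_eq (N : ℕ) (hN : 2 ≤ N) : ∑ p ∈ MPP N, (1 : ℝ) / p =
    AA N / Real.log N +
      ∑ n ∈ Finset.Ico 2 N, AA n * (1 / Real.log n - 1 / Real.log ((n + 1 : ℕ) : ℝ)) := by
  induction N, hN using Nat.le_induction with
  | base =>
    have h : MPP 2 = {2} := by decide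
    unfold AA
    rw [h]
    have h2 : Real.log 2 ≠ 0 := by have := Real.log_two_gt_d9; linarith
    simp
    field_simp
  | succ N hN ih =>
    rw [Finset.sum_Ico_succ_top hN, sum_MPP_succ, ih]
    have h1 : AA (N + 1) = AA N + if (N + 1).Prime then Real.log ((N + 1 : ℕ) : ℝ) / ((N + 1 : ℕ) : ℝ) else 0 := by
      unfold AA
      rw [sum_MPP_succ (fun p => Real.log p / p)]
    rw [h1]
    have h3 : (2 : ℝ) ≤ N := by exact_mod_cast hN
    have hl1 : Real.log N ≠ 0 := (Real.log_pos (by linarith)).ne'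
    have hl2 : Real.log ((N + 1 : ℕ) : ℝ) ≠ 0 := by
      refine (Real.log_pos ?_).ne'
      push_cast; linarith
    have hN1 : ((N + 1 : ℕ) : ℝ) ≠ 0 := by positivity
    split_ifs with h
    · field_simp
      ring
    · field_simp
      ring

theorem mertens_inv : ∃ C : ℝ, ∀ N : ℕ, 3 ≤ N →
    |∑ p ∈ (Finset.Icc 1 N).filter Nat.Prime, (1 : ℝ) / p - Real.log (Real.log N)| ≤ C := by
  obtain ⟨C, hC⟩ := mertens_log
  have hC0 : 0 ≤ C := (abs_nonneg _).trans (hC 1 le_rfl)
  have hl2 : (0 : ℝ) < Real.log 2 := by have := Real.log_two_gt_d9; linarith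
  -- squares are summable
  have hs : Summable (fun n : ℕ => 1 / (n : ℝ) ^ 2) := Real.summable_one_div_nat_pow.2 (by norm_num)
  set K : ℝ := (∑' n : ℕ, 1 / (n : ℝ) ^ 2) / Real.log 2 ^ 2 with hK
  have hK0 : 0 ≤ K := by
    rw [hK]
    exact div_nonneg (tsum_nonneg fun n => by positivity) (by positivity)
  refine ⟨1 + 2 * (C / Real.log 2) + |Real.log (Real.log 2)| + K, fun N hN => ?_⟩
  change |∑ p ∈ MPP N, (1 : ℝ) / p - Real.log (Real.log N)| ≤ _
  rw [inv_eq N (by omega)]
  have hlogpos : ∀ n : ℕ, 2 ≤ n → 0 < Real.log n := fun n hn =>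
    Real.log_pos (by exact_mod_cast (by omega : 1 < n))
  have hloglo : ∀ n : ℕ, 2 ≤ n → Real.log 2 ≤ Real.log n := fun n hn =>
    Real.log_le_log (by norm_num) (by exact_mod_cast hn)
  have hA : ∀ n : ℕ, 2 ≤ n → |AA n - Real.log n| ≤ C := fun n hn => hC n (by omega)
  set d : ℕ → ℝ := fun n => 1 / Real.log n - 1 / Real.log ((n + 1 : ℕ) : ℝ) with hd
  have hd0 : ∀ n : ℕ, 2 ≤ n → 0 ≤ d n := by
    intro n hn
    have h1 := hlogpos n hn
    have h2 : Real.log n ≤ Real.log ((n + 1 : ℕ) : ℝ) :=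
      Real.log_le_log (by exact_mod_cast (by omega : 0 < n)) (by exact_mod_cast Nat.le_succ n)
    have := one_div_le_one_div_of_le h1 h2
    simp only [hd]; linarith
  -- telescoping sum of d
  have hdsum : ∑ n ∈ Finset.Ico 2 N, d n = 1 / Real.log 2 - 1 / Real.log N := by
    have := Finset.sum_Ico_sub (fun n : ℕ => -(1 / Real.log (n : ℝ))) (by omega : 2 ≤ N)
    have h2 : ∑ n ∈ Finset.Ico 2 N, d n =
        ∑ i ∈ Finset.Ico 2 N, (-(1 / Real.log ((i + 1 : ℕ) : ℝ)) - -(1 / Real.log (i : ℝ))) := by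
      refine Finset.sum_congr rfl fun n _ => ?_
      simp only [hd]; ring
    rw [h2, this]; push_cast; ring
  have hlogN := hlogpos N (by omega)
  have hdsum_le : ∑ n ∈ Finset.Ico 2 N, d n ≤ 1 / Real.log 2 := by
    rw [hdsum]
    have : 0 < 1 / Real.log N := by positivity
    linarith
  -- main part
  have hmain : ∀ n : ℕ, 2 ≤ n →
      Real.log n * d n ≤ Real.log (Real.log ((n + 1 : ℕ) : ℝ)) - Real.log (Real.log n) ∧
      Real.log (Real.log ((n + 1 : ℕ) : ℝ)) - Real.log (Real.log n) -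
        (1 / (n : ℝ) ^ 2) / Real.log 2 ^ 2 ≤ Real.log n * d n := by
    intro n hn
    have hy := hlogpos n hn
    have hx := hlogpos (n + 1) (by omega)
    set y := Real.log (n : ℝ) with hy'
    set x := Real.log ((n + 1 : ℕ) : ℝ) with hx'
    have hyx : y ≤ x := Real.log_le_log (by exact_mod_cast (by omega : 0 < n)) (by exact_mod_cast Nat.le_succ n)
    have e1 : y * d n = 1 - y / x := by
      simp only [hd]
      rw [← hy', ← hx']
      field_simp
    have e2 : Real.log x - Real.log y = Real.log (x / y) := by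
      rw [Real.log_div hx.ne' hy.ne']
    rw [e1, e2]
    have hn0 : (0 : ℝ) < n := by exact_mod_cast (by omega : 0 < n)
    constructor
    · have := Real.one_sub_inv_le_log_of_pos (div_pos hx hy)
      rw [inv_div] at this
      exact this
    · have h1 := Real.log_le_sub_one_of_pos (div_pos hx hy)
      have h2 : x - y ≤ 1 / n := by
        have : x - y = Real.log (((n + 1 : ℕ) : ℝ) / n) := by
          rw [Real.log_div (by positivity) hn0.ne']
        rw [this]
        have h3 := Real.log_le_sub_one_of_pos (div_pos (by positivity : (0 : ℝ) < ((n + 1 : ℕ) : ℝ)) hn0)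
        have h4 : ((n + 1 : ℕ) : ℝ) / n - 1 = 1 / n := by
          push_cast; field_simp; ring
        linarith
      have h3 : x / y - 1 - (1 - y / x) = (x - y) ^ 2 / (x * y) := by
        field_simp
      have h4 : (x - y) ^ 2 / (x * y) ≤ (1 / (n : ℝ) ^ 2) / Real.log 2 ^ 2 := by
        have h5 : (x - y) ^ 2 ≤ 1 / (n : ℝ) ^ 2 := by
          have : (x - y) ^ 2 ≤ (1 / (n : ℝ)) ^ 2 := pow_le_pow_left₀ (by linarith) h2 2
          rw [div_pow, one_pow] at this; exact this
        have h6 : Real.log 2 ^ 2 ≤ x * y := by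
          have := hloglo n hn
          have : Real.log 2 ≤ x := (hloglo n hn).trans hyx
          nlinarith
        exact div_le_div₀ (by positivity) h5 (by positivity) h6
      linarith
  have htel : ∑ n ∈ Finset.Ico 2 N, (Real.log (Real.log ((n + 1 : ℕ) : ℝ)) - Real.log (Real.log n)) =
      Real.log (Real.log N) - Real.log (Real.log 2) := by
    have := Finset.sum_Ico_sub (fun n : ℕ => Real.log (Real.log (n : ℝ))) (by omega : 2 ≤ N)
    rw [this]; push_cast; ring
  have hup1 : ∑ n ∈ Finset.Ico 2 N, Real.log n * d n ≤ Real.log (Real.log N) - Real.log (Real.log 2) := by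
    rw [← htel]
    exact Finset.sum_le_sum fun n hn => (hmain n (Finset.mem_Ico.1 hn).1).1
  have hlo1 : Real.log (Real.log N) - Real.log (Real.log 2) - K ≤ ∑ n ∈ Finset.Ico 2 N, Real.log n * d n := by
    have h1 : ∑ n ∈ Finset.Ico 2 N, (1 / (n : ℝ) ^ 2) / Real.log 2 ^ 2 ≤ K := by
      rw [← Finset.sum_div, hK]
      exact div_le_div_of_nonneg_right (hs.sum_le_tsum _ fun n _ => by positivity) (by positivity)
    have h2 : ∑ n ∈ Finset.Ico 2 N, (Real.log (Real.log ((n + 1 : ℕ) : ℝ)) - Real.log (Real.log n) -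
        (1 / (n : ℝ) ^ 2) / Real.log 2 ^ 2) ≤ ∑ n ∈ Finset.Ico 2 N, Real.log n * d n :=
      Finset.sum_le_sum fun n hn => (hmain n (Finset.mem_Ico.1 hn).1).2
    rw [Finset.sum_sub_distrib, htel] at h2
    linarith
  have hdiff : |∑ n ∈ Finset.Ico 2 N, AA n * d n - ∑ n ∈ Finset.Ico 2 N, Real.log n * d n| ≤
      C / Real.log 2 := by
    rw [← Finset.sum_sub_distrib]
    refine (Finset.abs_sum_le_sum_abs _ _).trans ?_
    calc ∑ n ∈ Finset.Ico 2 N, |AA n * d n - Real.log n * d n| ≤ ∑ n ∈ Finset.Ico 2 N, C * d n := by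
          refine Finset.sum_le_sum fun n hn => ?_
          have h2 := (Finset.mem_Ico.1 hn).1
          rw [← sub_mul, abs_mul, abs_of_nonneg (hd0 n h2)]
          exact mul_le_mul_of_nonneg_right (hA n h2) (hd0 n h2)
      _ = C * ∑ n ∈ Finset.Ico 2 N, d n := by rw [Finset.mul_sum]
      _ ≤ C * (1 / Real.log 2) := mul_le_mul_of_nonneg_left hdsum_le hC0
      _ = C / Real.log 2 := by ring
  have hhead : |AA N / Real.log N - 1| ≤ C / Real.log 2 := by
    have h1 : AA N / Real.log N - 1 = (AA N - Real.log N) / Real.log N := by field_simp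
    rw [h1, abs_div, abs_of_pos hlogN]
    exact div_le_div₀ hC0 (hA N (by omega)) hl2 (hloglo N (by omega))
  have hdiff' := abs_le.1 hdiff
  have hhead' := abs_le.1 hhead
  have hll := abs_le.1 (le_refl |Real.log (Real.log 2)|)
  simp only [hd] at hdiff' hup1 hlo1
  rw [abs_le]
  constructor
  · linarith [hdiff'.1, hdiff'.2, hhead'.1, hhead'.2, hll.1, hll.2]
  · linarith [hdiff'.1, hdiff'.2, hhead'.1, hhead'.2, hll.1, hll.2]


end Mert

open Classical in
/-- sum over smooth numbers, Euler product form -/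
theorem sum_factored' (S : Finset ℕ) (N : ℕ) :
    (∑ d ∈ (Finset.Icc 1 N).filter (fun d => ∀ l : ℕ, l.Prime → l ∣ d → l ∈ S), (d : ℝ)⁻¹) ≤
      ∏ p ∈ S.filter Nat.Prime, (1 - (p : ℝ)⁻¹)⁻¹ := by
  let f : ℕ →* ℝ :=
    { toFun := fun n => (n : ℝ)⁻¹
      map_one' := by simp
      map_mul' := by intro x y; push_cast; rw [mul_inv] }
  have hf : ∀ {p : ℕ}, p.Prime → ‖f p‖ < 1 := by
    intro p hp
    change ‖(p : ℝ)⁻¹‖ < 1
    rw [norm_inv, RCLike.norm_natCast]
    exact inv_lt_one_of_one_lt₀ (by exact_mod_cast hp.one_lt)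
  have h := EulerProduct.summable_and_hasSum_factoredNumbers_prod_filter_prime_geometric
    (f := f) (fun {p} hp => hf hp) S
  have hsum := h.2
  set G := (Finset.Icc 1 N).filter (fun d => ∀ l : ℕ, l.Prime → l ∣ d → l ∈ S) with hG
  have hmem : ∀ d ∈ G, d ∈ Nat.factoredNumbers S := by
    intro d hd
    rw [hG, Finset.mem_filter, Finset.mem_Icc] at hd
    rw [Nat.mem_factoredNumbers']
    exact fun p hp hpd => hd.2 p hp hpd
  let e : {x // x ∈ G} ↪ (Nat.factoredNumbers S : Set ℕ) :=
    ⟨fun d => ⟨d.1, hmem d.1 d.2⟩, by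
      intro x y hxy
      have := congrArg Subtype.val hxy
      exact Subtype.ext this⟩
  have : (∑ d ∈ G, (d : ℝ)⁻¹) = ∑ m ∈ G.attach.map e, f m := by
    rw [← Finset.sum_attach, Finset.sum_map]
    rfl
  rw [this]
  exact sum_le_hasSum _ (fun i _ => by
    change 0 ≤ ((i : ℕ) : ℝ)⁻¹
    positivity) hsum

open Classical in
/-- harmonic sum is bounded by coprime sum times smooth sum -/
theorem harmonic_le_mul (S : Finset ℕ) (q R : ℕ)
    (hq : ∀ l : ℕ, l.Prime → l ≤ R → (l ∣ q ↔ l ∈ S)) :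
    (∑ n ∈ Finset.Icc 1 R, (n : ℝ)⁻¹) ≤
      (∑ n ∈ (Finset.Icc 1 R).filter (fun n => Nat.Coprime n q), (n : ℝ)⁻¹) *
        (∑ d ∈ (Finset.Icc 1 R).filter (fun d => ∀ l : ℕ, l.Prime → l ∣ d → l ∈ S), (d : ℝ)⁻¹) := by
  -- each n = m * d, m coprime to q, d smooth
  have key : ∀ n : ℕ, 1 ≤ n → n ≤ R → ∃ m d : ℕ, m * d = n ∧ Nat.Coprime m q ∧
      ∀ l : ℕ, l.Prime → l ∣ d → l ∈ S := by
    intro n
    induction n using Nat.strong_induction_on with
    | _ n ih =>
      intro h1 hR
      by_cases hc : Nat.Coprime n q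
      · refine ⟨n, 1, by ring, hc, ?_⟩
        intro l hl hld
        exact absurd (Nat.dvd_one.mp hld) hl.one_lt.ne'
      · obtain ⟨l, hl, hlg⟩ := Nat.exists_prime_and_dvd hc
        have hln : l ∣ n := hlg.trans (Nat.gcd_dvd_left _ _)
        have hlq : l ∣ q := hlg.trans (Nat.gcd_dvd_right _ _)
        obtain ⟨c, rfl⟩ := hln
        have hc0 : 0 < c := by
          rcases Nat.eq_zero_or_pos c with h | h
          · subst h; omega
          · exact h
        have hlt : c < l * c := by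
          have := hl.two_le
          nlinarith
        obtain ⟨m, d, hmd, hm, hd⟩ := ih c hlt hc0 (by omega)
        refine ⟨m, l * d, by rw [← hmd]; ring, hm, ?_⟩
        intro r hr hrd
        rcases (Nat.Prime.dvd_mul hr).mp hrd with h | h
        · have : r = l := (Nat.prime_dvd_prime_iff_eq hr hl).mp h
          subst this
          refine (hq r hr ?_).mp hlq
          exact (Nat.le_mul_of_pos_right r hc0).trans hR
        · exact hd r hr h
  choose! fm fd hmul hcop hsm using key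
  rw [Finset.sum_mul_sum, ← Finset.sum_product']
  have h1 : (∑ n ∈ Finset.Icc 1 R, (n : ℝ)⁻¹) =
      ∑ x ∈ (Finset.Icc 1 R).image (fun n => (fm n, fd n)), ((x.1 : ℝ)⁻¹ * (x.2 : ℝ)⁻¹) := by
    rw [Finset.sum_image]
    · apply Finset.sum_congr rfl
      intro n hn
      rw [Finset.mem_Icc] at hn
      have := hmul n hn.1 hn.2
      rw [← mul_inv]
      congr 1
      exact_mod_cast this.symm
    · intro n hn m hm hnm
      rw [Finset.mem_coe, Finset.mem_Icc] at hn hm
      simp only [Prod.mk.injEq] at hnm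
      rw [← hmul n hn.1 hn.2, ← hmul m hm.1 hm.2, hnm.1, hnm.2]
  rw [h1]
  apply Finset.sum_le_sum_of_subset_of_nonneg
  · intro x hx
    rw [Finset.mem_image] at hx
    obtain ⟨n, hn, rfl⟩ := hx
    rw [Finset.mem_Icc] at hn
    have hm := hmul n hn.1 hn.2
    have hpos1 : 0 < fm n := by
      rcases Nat.eq_zero_or_pos (fm n) with h | h
      · rw [h] at hm; omega
      · exact h
    have hpos2 : 0 < fd n := by
      rcases Nat.eq_zero_or_pos (fd n) with h | h
      · rw [h] at hm; omega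
      · exact h
    rw [Finset.mem_product, Finset.mem_filter, Finset.mem_filter, Finset.mem_Icc, Finset.mem_Icc]
    refine ⟨⟨⟨hpos1, ?_⟩, hcop n hn.1 hn.2⟩, ⟨hpos2, ?_⟩, hsm n hn.1 hn.2⟩
    · exact le_trans (Nat.le_mul_of_pos_right _ hpos2) (by rw [hm]; exact hn.2)
    · exact le_trans (Nat.le_mul_of_pos_left _ hpos1) (by rw [hm]; exact hn.2)
  · intro x _ _
    positivity


theorem totient_inv {q : ℕ} (hq : q ≠ 0) :
    (1 : ℝ) / (Nat.totient q : ℝ) = (q : ℝ)⁻¹ * ∏ p ∈ q.primeFactors, (1 - (p : ℝ)⁻¹)⁻¹ := by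
  have h1 : (Nat.totient q : ℝ) = q * ∏ p ∈ q.primeFactors, (1 - (p : ℝ)⁻¹) := by
    have := Nat.totient_eq_mul_prod_factors q
    have h2 : ((Nat.totient q : ℚ) : ℝ) = ((q * ∏ p ∈ q.primeFactors, (1 - (p : ℚ)⁻¹) : ℚ) : ℝ) := by
      rw [this]
    push_cast at h2
    exact h2
  rw [h1, one_div, mul_inv, Finset.prod_inv_distrib]

open Classical in
/-- the part with a given radical -/
theorem fiber_le (z Q q : ℕ) (hq : q ≠ 0) :
    ∑ n ∈ ((Icc 1 Q).filter (fun n => ∀ p ∈ n.primeFactors, z < p)).filter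
      (fun n => ∏ p ∈ n.primeFactors, p = q), (n : ℝ)⁻¹ ≤ (1 : ℝ) / (Nat.totient q : ℝ) := by
  rw [totient_inv hq]
  have h1 := sum_factored' q.primeFactors Q
  have h2 : q.primeFactors.filter Nat.Prime = q.primeFactors :=
    Finset.filter_true_of_mem (fun p hp => Nat.prime_of_mem_primeFactors hp)
  rw [h2] at h1
  have hq0 : (0 : ℝ) ≤ (q : ℝ)⁻¹ := by positivity
  refine le_trans ?_ (mul_le_mul_of_nonneg_left h1 hq0)
  set A := ((Icc 1 Q).filter (fun n => ∀ p ∈ n.primeFactors, z < p)).filter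
      (fun n => ∏ p ∈ n.primeFactors, p = q) with hA
  have hdvd : ∀ n ∈ A, q ∣ n := by
    intro n hn
    rw [hA, Finset.mem_filter] at hn
    rw [← hn.2]
    exact Nat.prod_primeFactors_dvd n
  have h3 : ∑ n ∈ A, (n : ℝ)⁻¹ = ∑ m ∈ A.image (fun n => n / q), (q : ℝ)⁻¹ * (m : ℝ)⁻¹ := by
    rw [Finset.sum_image]
    · apply Finset.sum_congr rfl
      intro n hn
      rw [← mul_inv]
      congr 1
      have := Nat.mul_div_cancel' (hdvd n hn)
      exact_mod_cast this.symm
    · intro n hn m hm hnm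
      have hnm' : n / q = m / q := hnm
      rw [← Nat.mul_div_cancel' (hdvd n hn), ← Nat.mul_div_cancel' (hdvd m hm), hnm']
  rw [h3, Finset.mul_sum]
  apply Finset.sum_le_sum_of_subset_of_nonneg
  · intro m hm
    rw [Finset.mem_image] at hm
    obtain ⟨n, hn, rfl⟩ := hm
    have hd := hdvd n hn
    rw [hA, Finset.mem_filter, Finset.mem_filter, Finset.mem_Icc] at hn
    have hn0 : n ≠ 0 := by omega
    rw [Finset.mem_filter, Finset.mem_Icc]
    refine ⟨⟨?_, (Nat.div_le_self _ _).trans hn.1.1.2⟩, ?_⟩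
    · exact Nat.div_pos (Nat.le_of_dvd (by omega) hd) (Nat.pos_of_ne_zero hq)
    · intro l hl hld
      have hln : l ∣ n := hld.trans (Nat.div_dvd_of_dvd hd)
      rw [← hn.2, Nat.primeFactors_prod_primeFactors]
      exact Nat.mem_primeFactors.mpr ⟨hl, hln, hn0⟩
  · intro m _ _
    positivity

open Classical in
theorem rough_le_GG (z Q : ℕ) :
    ∑ n ∈ (Icc 1 Q).filter (fun n => ∀ p ∈ n.primeFactors, z < p), (n : ℝ)⁻¹ ≤ GG z Q := by
  unfold GG
  rw [← Finset.sum_fiberwise_of_maps_to (t := (Icc 1 Q).filter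
    (fun q => Squarefree q ∧ ∀ p ∈ q.primeFactors, z < p)) (g := fun n => ∏ p ∈ n.primeFactors, p)]
  · have h0 : ∀ q ∈ (Icc 1 Q).filter (fun q => Squarefree q ∧ ∀ p ∈ q.primeFactors, z < p),
        ∑ n ∈ ((Icc 1 Q).filter (fun n => ∀ p ∈ n.primeFactors, z < p)).filter
        (fun n => ∏ p ∈ n.primeFactors, p = q), (n : ℝ)⁻¹ ≤ (1 : ℝ) / (Nat.totient q : ℝ) := by
      intro q hq
      rw [Finset.mem_filter, Finset.mem_Icc] at hq
      exact fiber_le z Q q (by omega)
    exact Finset.sum_le_sum h0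
  · intro n hn
    rw [Finset.mem_filter, Finset.mem_Icc] at hn
    rw [Finset.mem_filter, Finset.mem_Icc]
    have hd := Nat.prod_primeFactors_dvd n
    have hpos : 0 < ∏ p ∈ n.primeFactors, p := Nat.pos_of_dvd_of_pos hd (by omega)
    refine ⟨⟨hpos, (Nat.le_of_dvd (by omega) hd).trans hn.1.2⟩, ?_, ?_⟩
    · rw [← Nat.radical_eq_prod_primeFactors]
      exact UniqueFactorizationMonoid.squarefree_radical
    · rw [Nat.primeFactors_prod_primeFactors]
      exact hn.2

theorem prod_primes_le : ∃ K : ℝ, 0 < K ∧ ∀ z : ℕ, 2 ≤ z →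
    ∏ p ∈ (Icc 1 z).filter Nat.Prime, (1 - (p : ℝ)⁻¹)⁻¹ ≤ K * Real.log z := by
  obtain ⟨C, hC⟩ := Mert.mertens_inv
  have hK : 0 < Real.exp (C + 1) + 3 := by positivity
  refine ⟨Real.exp (C + 1) + 3, hK, fun z hz => ?_⟩
  rcases Nat.lt_or_ge z 3 with h3 | h3
  · have : z = 2 := by omega
    subst this
    have h : (Icc 1 2).filter Nat.Prime = {2} := by decide
    rw [h, Finset.prod_singleton]
    have hl := Real.log_two_gt_d9
    have he := Real.exp_pos (C + 1)
    push_cast
    norm_num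
    nlinarith
  · have hz2 : (3 : ℝ) ≤ z := by exact_mod_cast h3
    have hlog : 1 < Real.log z := by
      rw [Real.lt_log_iff_exp_lt (by linarith)]
      have := Real.exp_one_lt_d9
      linarith
    have h1 : ∀ p ∈ (Icc 1 z).filter Nat.Prime, (1 - (p : ℝ)⁻¹)⁻¹ ≤
        Real.exp (1 / (p : ℝ) + (1 / ((p : ℝ) - 1) - 1 / p)) := by
      intro p hp
      have hp2 : (2 : ℝ) ≤ p := by exact_mod_cast (Finset.mem_filter.mp hp).2.two_le
      have e1 : (1 - (p : ℝ)⁻¹)⁻¹ = 1 / ((p : ℝ) - 1) + 1 := by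
        have : (p : ℝ) - 1 ≠ 0 := by linarith
        have h4 : (p : ℝ) ≠ 0 := by linarith
        have h5 : 1 - (p : ℝ)⁻¹ = (p - 1) / p := by field_simp
        rw [h5, inv_div]
        field_simp
        ring
      rw [e1]
      have e2 : 1 / (p : ℝ) + (1 / ((p : ℝ) - 1) - 1 / p) = 1 / ((p : ℝ) - 1) := by ring
      rw [e2]
      exact Real.add_one_le_exp _
    have h2 : ∏ p ∈ (Icc 1 z).filter Nat.Prime, (1 - (p : ℝ)⁻¹)⁻¹ ≤
        ∏ p ∈ (Icc 1 z).filter Nat.Prime,
          Real.exp (1 / (p : ℝ) + (1 / ((p : ℝ) - 1) - 1 / p)) := by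
      apply Finset.prod_le_prod
      · intro p hp
        have hp2 : (2 : ℝ) ≤ p := by exact_mod_cast (Finset.mem_filter.mp hp).2.two_le
        apply inv_nonneg.mpr
        have : (p : ℝ)⁻¹ ≤ 1 := inv_le_one_of_one_le₀ (by linarith)
        linarith
      · exact h1
    refine h2.trans ?_
    rw [← Real.exp_sum, Finset.sum_add_distrib]
    have h4 : ∑ p ∈ (Icc 1 z).filter Nat.Prime, (1 / ((p : ℝ) - 1) - 1 / p) ≤ 1 := by
      calc ∑ p ∈ (Icc 1 z).filter Nat.Prime, (1 / ((p : ℝ) - 1) - 1 / p)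
          ≤ ∑ p ∈ Ico 2 (z + 1), (1 / ((p : ℝ) - 1) - 1 / p) := by
            apply Finset.sum_le_sum_of_subset_of_nonneg
            · intro p hp
              rw [Finset.mem_filter, Finset.mem_Icc] at hp
              rw [Finset.mem_Ico]
              exact ⟨hp.2.two_le, by omega⟩
            · intro p hp _
              have hp2 : (2 : ℝ) ≤ p := by exact_mod_cast (Finset.mem_Ico.mp hp).1
              have := one_div_le_one_div_of_le (by linarith : (0 : ℝ) < p - 1)
                (by linarith : (p : ℝ) - 1 ≤ p)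
              linarith
        _ = 1 - 1 / (z : ℝ) := by
            have hind : ∀ n : ℕ, 2 ≤ n → ∑ p ∈ Ico 2 (n + 1), (1 / ((p : ℝ) - 1) - 1 / p)
                = 1 - 1 / (n : ℝ) := by
              intro n hn
              induction n, hn using Nat.le_induction with
              | base => norm_num
              | succ n hn ih =>
                rw [Finset.sum_Ico_succ_top (by omega), ih]
                push_cast
                ring
            exact hind z hz
        _ ≤ 1 := by
            have : 0 ≤ 1 / (z : ℝ) := by positivity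
            linarith
    have h5 := (abs_le.mp (hC z h3)).2
    calc Real.exp (∑ p ∈ (Icc 1 z).filter Nat.Prime, 1 / (p : ℝ) +
          ∑ p ∈ (Icc 1 z).filter Nat.Prime, (1 / ((p : ℝ) - 1) - 1 / p))
        ≤ Real.exp (Real.log (Real.log z) + (C + 1)) := by
          apply Real.exp_le_exp.mpr
          linarith
      _ = Real.exp (C + 1) * Real.log z := by
          rw [Real.exp_add, Real.exp_log (by linarith)]
          ring
      _ ≤ (Real.exp (C + 1) + 3) * Real.log z := by
          apply mul_le_mul_of_nonneg_right _ (by linarith)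
          linarith

theorem J5c : J5cStmt := by
  classical
  obtain ⟨K, hK, hprod⟩ := prod_primes_le
  refine ⟨1 / K, by positivity, fun z Q hz hQ => ?_⟩
  have hlogz : 0 < Real.log z := Real.log_pos (by exact_mod_cast (by omega : 1 < z))
  set S := (Icc 1 z).filter Nat.Prime with hS
  have hSp : ∀ p ∈ S, p.Prime := fun p hp => (Finset.mem_filter.mp hp).2
  set P := ∏ p ∈ S, p with hP
  have hP0 : P ≠ 0 := Finset.prod_ne_zero_iff.mpr (fun p hp => (hSp p hp).ne_zero)
  have hq : ∀ l : ℕ, l.Prime → l ≤ Q → (l ∣ P ↔ l ∈ S) := by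
    intro l hl _
    rw [← Nat.primeFactors_prod hSp, Nat.mem_primeFactors]
    exact ⟨fun h => ⟨hl, h, hP0⟩, fun h => h.2.1⟩
  have h1 := harmonic_le_mul S P Q hq
  have h2 := log_add_one_le_harmonic Q
  rw [harmonic_eq_sum_Icc] at h2
  push_cast at h2
  have h3 := sum_factored' S Q
  have h4 : S.filter Nat.Prime = S := Finset.filter_true_of_mem hSp
  rw [h4] at h3
  have h5 : (∑ n ∈ (Finset.Icc 1 Q).filter (fun n => Nat.Coprime n P), (n : ℝ)⁻¹) ≤ GG z Q := by
    refine le_trans ?_ (rough_le_GG z Q)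
    apply Finset.sum_le_sum_of_subset_of_nonneg
    · intro n hn
      rw [Finset.mem_filter] at hn ⊢
      refine ⟨hn.1, fun p hp => ?_⟩
      rw [Nat.mem_primeFactors] at hp
      by_contra hc
      push Not at hc
      have hpS : p ∈ S := by
        rw [hS, Finset.mem_filter, Finset.mem_Icc]
        exact ⟨⟨hp.1.one_lt.le, hc⟩, hp.1⟩
      have hpP : p ∣ P := Finset.dvd_prod_of_mem _ hpS
      have := Nat.dvd_gcd hp.2.1 hpP
      rw [hn.2] at this
      exact hp.1.one_lt.ne' (Nat.dvd_one.mp this)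
    · intro n _ _
      positivity
  have hGG : 0 ≤ GG z Q := Finset.sum_nonneg (fun _ _ => by positivity)
  have h6 : Real.log Q ≤ GG z Q * (K * Real.log z) := by
    calc Real.log Q ≤ Real.log ((Q : ℝ) + 1) := by
          apply Real.log_le_log
          · exact_mod_cast (by omega : 0 < Q)
          · linarith
      _ ≤ ∑ n ∈ Finset.Icc 1 Q, (n : ℝ)⁻¹ := h2
      _ ≤ _ := h1
      _ ≤ GG z Q * (K * Real.log z) := by
          apply mul_le_mul h5 (h3.trans (hprod z hz)) _ hGG
          exact Finset.sum_nonneg (fun _ _ => by positivity)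
  rw [div_le_iff₀ hlogz, one_div, inv_mul_le_iff₀ hK]
  linarith

end Pool.Agent.Helper602.MK.N_J5c

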