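import Mathlib
import Pool.Agent.Helper602.MK.Defs

set_option autoImplicit false

namespace Pool.Agent.Helper602.MK.N_J6

open Finset


theorem j6_card (k : ℕ) (hk : 2 ≤ k) :
    ((PP k).card : ℝ) ≤ 2 * Real.log 4 * ((k : ℝ) / Real.log k) := by
  have hlk : 0 < Real.log k := Real.log_pos (by exact_mod_cast hk)
  have h1 : ∀ p ∈ PP k, Real.log k / 2 ≤ Real.log p := by
    intro p hp
    rw [PP, Finset.mem_filter, Finset.mem_Icc] at hp
    obtain ⟨⟨hp1, hp2⟩, hp3, hp4⟩ := hp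
    have h2 : Real.log k ≤ Real.log ((p : ℝ) ^ 2) :=
      Real.log_le_log (by positivity) (by exact_mod_cast hp4.le)
    rw [Real.log_pow] at h2
    push_cast at h2
    linarith
  have h2 : ((PP k).card : ℝ) * (Real.log k / 2) ≤ ∑ p ∈ PP k, Real.log p := by
    rw [← nsmul_eq_mul]
    exact Finset.card_nsmul_le_sum _ _ _ h1
  have h3 : ∑ p ∈ PP k, Real.log p ≤ Chebyshev.theta k := by
    rw [Chebyshev.theta_eq_sum_Icc]
    refine Finset.sum_le_sum_of_subset_of_nonneg ?_ ?_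
    · intro p hp
      rw [PP, Finset.mem_filter, Finset.mem_Icc] at hp
      rw [Finset.mem_filter, Finset.mem_Icc, Nat.floor_natCast]
      exact ⟨⟨Nat.zero_le _, hp.1.2⟩, hp.2.1⟩
    · intro p hp _
      rw [Finset.mem_filter] at hp
      exact Real.log_nonneg (by exact_mod_cast hp.2.one_lt.le)
  have h4 := Chebyshev.theta_le_log4_mul_x (x := (k : ℝ)) (by positivity)
  have h5 : ((PP k).card : ℝ) * (Real.log k / 2) ≤ Real.log 4 * k := h2.trans (h3.trans h4)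
  rw [show 2 * Real.log 4 * ((k : ℝ) / Real.log k) = (2 * Real.log 4 * k) / Real.log k by ring,
    le_div_iff₀ hlk]
  linarith

theorem j6_weight (n : ℕ) (hn : 1 ≤ n) :
    (Real.log (2 * n) / n) ^ (5 / 4 : ℝ) ≤ 20 ^ (5 / 4 : ℝ) * (n : ℝ) ^ (-(9 / 8) : ℝ) := by
  have hn0 : (0 : ℝ) < n := by exact_mod_cast hn
  have hn1 : (1 : ℝ) ≤ n := by exact_mod_cast hn
  have h1 : Real.log (2 * n) ≤ (2 * (n : ℝ)) ^ (1 / 10 : ℝ) / (1 / 10) :=
    Real.log_le_rpow_div (by positivity) (by norm_num)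
  have h2 : (2 : ℝ) ^ (1 / 10 : ℝ) ≤ 2 := by
    calc (2 : ℝ) ^ (1 / 10 : ℝ) ≤ (2 : ℝ) ^ (1 : ℝ) :=
          Real.rpow_le_rpow_of_exponent_le (by norm_num) (by norm_num)
      _ = 2 := Real.rpow_one 2
  have h3 : Real.log (2 * n) ≤ 20 * (n : ℝ) ^ (1 / 10 : ℝ) := by
    rw [Real.mul_rpow (by norm_num) hn0.le] at h1
    have : 0 ≤ (n : ℝ) ^ (1 / 10 : ℝ) := by positivity
    nlinarith
  have h4 : Real.log (2 * n) / n ≤ 20 * (n : ℝ) ^ (-(9 / 10) : ℝ) := by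
    rw [div_le_iff₀ hn0, mul_assoc]
    have : (n : ℝ) ^ (-(9 / 10) : ℝ) * n = (n : ℝ) ^ (1 / 10 : ℝ) := by
      nth_rewrite 2 [← Real.rpow_one (n : ℝ)]
      rw [← Real.rpow_add hn0]
      norm_num
    rw [this]
    exact h3
  have h5 : 0 ≤ Real.log (2 * n) / n := div_nonneg (Real.log_nonneg (by linarith)) hn0.le
  calc (Real.log (2 * n) / n) ^ (5 / 4 : ℝ) ≤ (20 * (n : ℝ) ^ (-(9 / 10) : ℝ)) ^ (5 / 4 : ℝ) :=
        Real.rpow_le_rpow h5 h4 (by norm_num)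
    _ = _ := by
      rw [Real.mul_rpow (by norm_num) (by positivity), ← Real.rpow_mul hn0.le]
      norm_num

theorem j6_induct (F : ℕ → ℝ) (hF : ∀ ξ, 0 ≤ F ξ) (B : ℝ) (R : Finset ℕ)
    (h : ∀ X : Finset ℕ, X ⊆ R → X.Nonempty → ∑ ξ ∈ X, F ξ ^ 2 ≤ B * Real.log (2 * X.card)) :
    ∀ n : ℕ, ∀ X : Finset ℕ, X ⊆ R → X.card = n → ∑ ξ ∈ X, F ξ ^ (5 / 2 : ℝ) ≤
      ∑ i ∈ range n, (B * Real.log (2 * ((i + 1 : ℕ) : ℝ)) / ((i + 1 : ℕ) : ℝ)) ^ (5 / 4 : ℝ) := by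
  intro n
  induction n with
  | zero =>
    intro X _ hc
    rw [Finset.card_eq_zero] at hc
    subst hc
    simp
  | succ n ih =>
    intro X hX hc
    have hne : X.Nonempty := Finset.card_pos.1 (by omega)
    obtain ⟨ξ, hξ, hmin⟩ := Finset.exists_min_image X F hne
    have h1 := h X hX hne
    have h2 : (X.card : ℝ) * F ξ ^ 2 ≤ ∑ η ∈ X, F η ^ 2 := by
      rw [← nsmul_eq_mul]
      exact Finset.card_nsmul_le_sum _ _ _ fun η hη => pow_le_pow_left₀ (hF ξ) (hmin η hη) 2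
    rw [hc] at h1 h2
    have hpos : (0 : ℝ) < ((n + 1 : ℕ) : ℝ) := by positivity
    have h3 : F ξ ^ 2 ≤ B * Real.log (2 * ((n + 1 : ℕ) : ℝ)) / ((n + 1 : ℕ) : ℝ) := by
      rw [le_div_iff₀ hpos]
      linarith
    have h4 : F ξ ^ (5 / 2 : ℝ) ≤
        (B * Real.log (2 * ((n + 1 : ℕ) : ℝ)) / ((n + 1 : ℕ) : ℝ)) ^ (5 / 4 : ℝ) := by
      have e : F ξ ^ (5 / 2 : ℝ) = (F ξ ^ 2) ^ (5 / 4 : ℝ) := by
        rw [← Real.rpow_natCast, ← Real.rpow_mul (hF ξ)]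
        norm_num
      rw [e]
      exact Real.rpow_le_rpow (sq_nonneg _) h3 (by norm_num)
    have h5 := ih (X.erase ξ) ((Finset.erase_subset _ _).trans hX) (by
      rw [Finset.card_erase_of_mem hξ]; omega)
    rw [← Finset.add_sum_erase X _ hξ, Finset.sum_range_succ]
    linarith

theorem J6 (h5 : J5Stmt) : J6Stmt := by
  obtain ⟨C5, hC5, k0, hk0, h5⟩ := h5
  have hsum : Summable (fun n : ℕ => ((n : ℝ)) ^ (-(9 / 8) : ℝ)) :=
    Real.summable_nat_rpow.2 (by norm_num)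
  have hsum' : Summable (fun n : ℕ => (((n + 1 : ℕ) : ℝ)) ^ (-(9 / 8) : ℝ)) :=
    (summable_nat_add_iff 1).2 hsum
  set S := ∑' n : ℕ, (((n + 1 : ℕ) : ℝ)) ^ (-(9 / 8) : ℝ) with hS
  have hlog4 : 0 < Real.log 4 := Real.log_pos (by norm_num)
  set A : ℝ := (C5 * (2 * Real.log 4)) ^ (5 / 4 : ℝ) * 20 ^ (5 / 4 : ℝ) * S with hA
  refine ⟨max 1 A, le_max_left _ _, k0, hk0, ?_⟩
  intro k hk M hkM hM f hf
  have hk2 : 2 ≤ k := hk0.trans hk
  have hlk : 0 < Real.log k := Real.log_pos (by exact_mod_cast hk2)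
  have hkpos : (0 : ℝ) < k := by positivity
  set N1 : ℝ := (k : ℝ) / Real.log k with hN1
  have hN1p : 0 < N1 := div_pos hkpos hlk
  have hf2 : ∑ p ∈ PP k, ‖f p‖ ^ 2 ≤ 2 * Real.log 4 * N1 := by
    refine le_trans ?_ (j6_card k hk2)
    have : ∑ p ∈ PP k, ‖f p‖ ^ 2 ≤ ∑ p ∈ PP k, (1 : ℝ) := by
      apply Finset.sum_le_sum
      intro p _
      have := hf p
      have := norm_nonneg (f p)
      nlinarith
    simpa using this
  set B : ℝ := C5 * (2 * Real.log 4) * N1 ^ 2 with hB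
  have hB0 : 0 ≤ B := by positivity
  have hX : ∀ X : Finset ℕ, X ⊆ range M → X.Nonempty →
      ∑ ξ ∈ X, ‖∑ p ∈ PP k, f p * ee ((ξ : ℝ) * p / M)‖ ^ 2 ≤ B * Real.log (2 * X.card) := by
    intro X hXM hXne
    have h := h5 k hk M hkM hM X hXM hXne f
    have hc : (1 : ℝ) ≤ X.card := by exact_mod_cast Finset.card_pos.2 hXne
    have hl : 0 ≤ Real.log (2 * X.card) := Real.log_nonneg (by linarith)
    refine h.trans ?_
    have h6 : 0 ≤ C5 * N1 * Real.log (2 * X.card) := by positivity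
    have h7 := mul_le_mul_of_nonneg_left hf2 h6
    refine h7.trans (le_of_eq ?_)
    rw [hB]
    ring
  have h8 := j6_induct (fun ξ => ‖∑ p ∈ PP k, f p * ee ((ξ : ℝ) * p / M)‖) (fun ξ => norm_nonneg _) B
    (range M) hX M (range M) (Finset.Subset.refl _) (Finset.card_range M)
  refine h8.trans ?_
  have h9 : ∀ i ∈ range M, (B * Real.log (2 * ((i + 1 : ℕ) : ℝ)) / ((i + 1 : ℕ) : ℝ)) ^ (5 / 4 : ℝ) ≤
      B ^ (5 / 4 : ℝ) * 20 ^ (5 / 4 : ℝ) * (((i + 1 : ℕ) : ℝ)) ^ (-(9 / 8) : ℝ) := by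
    intro i _
    have hi1 : (1 : ℝ) ≤ ((i + 1 : ℕ) : ℝ) := by exact_mod_cast Nat.succ_pos i
    rw [mul_div_assoc, Real.mul_rpow hB0 (div_nonneg (Real.log_nonneg (by linarith)) (by linarith)), mul_assoc]
    exact mul_le_mul_of_nonneg_left (j6_weight (i + 1) (Nat.succ_pos i)) (by positivity)
  refine (Finset.sum_le_sum h9).trans ?_
  rw [← Finset.mul_sum]
  have h10 : ∑ i ∈ range M, (((i + 1 : ℕ) : ℝ)) ^ (-(9 / 8) : ℝ) ≤ S :=
    hsum'.sum_le_tsum _ (fun i _ => by positivity)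
  have h11 : B ^ (5 / 4 : ℝ) = (C5 * (2 * Real.log 4)) ^ (5 / 4 : ℝ) * N1 ^ (5 / 2 : ℝ) := by
    rw [hB, Real.mul_rpow (by positivity) (by positivity), ← Real.rpow_natCast N1 2,
      ← Real.rpow_mul hN1p.le]
    norm_num
  calc B ^ (5 / 4 : ℝ) * 20 ^ (5 / 4 : ℝ) * ∑ i ∈ range M, (((i + 1 : ℕ) : ℝ)) ^ (-(9 / 8) : ℝ)
      ≤ B ^ (5 / 4 : ℝ) * 20 ^ (5 / 4 : ℝ) * S :=
        mul_le_mul_of_nonneg_left h10 (by positivity)
    _ = A * N1 ^ (5 / 2 : ℝ) := by rw [h11, hA]; ring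
    _ ≤ max 1 A * N1 ^ (5 / 2 : ℝ) :=
        mul_le_mul_of_nonneg_right (le_max_right _ _) (by positivity)

end Pool.Agent.Helper602.MK.N_J6
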