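import Mathlib
import Pool.Agent.Helper602.MK.Defs

set_option autoImplicit false

namespace Pool.Agent.Helper602.MK.N_J7

open Finset



/-! ### the exponential -/

theorem ee_add (x y : ℝ) : ee (x + y) = ee x * ee y := by
  unfold ee
  rw [← Complex.exp_add]
  congr 1
  push_cast
  ring

theorem norm_ee (x : ℝ) : ‖ee x‖ = 1 := by
  unfold ee
  have : (2 * Real.pi * x * Complex.I : ℂ) = ((2 * Real.pi * x : ℝ) : ℂ) * Complex.I := by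
    push_cast; ring
  rw [this, Complex.norm_exp_ofReal_mul_I]

theorem ee_int (n : ℤ) : ee (n : ℝ) = 1 := by
  unfold ee
  rw [Complex.exp_eq_one_iff]
  exact ⟨n, by push_cast; ring⟩

theorem ee_zero : ee 0 = 1 := by
  have := ee_int 0
  simpa using this

theorem ee_add_int (x : ℝ) (n : ℤ) : ee (x + n) = ee x := by
  rw [ee_add, ee_int, mul_one]

theorem ee_eq_one {x : ℝ} (h : ee x = 1) : ∃ n : ℤ, x = n := by
  unfold ee at h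
  rw [Complex.exp_eq_one_iff] at h
  obtain ⟨n, hn⟩ := h
  refine ⟨n, ?_⟩
  have h1 : (2 * Real.pi * Complex.I : ℂ) ≠ 0 := Complex.two_pi_I_ne_zero
  have h2 : (x : ℂ) * (2 * Real.pi * Complex.I) = (n : ℂ) * (2 * Real.pi * Complex.I) := by
    rw [← hn]; ring
  have h3 := mul_right_cancel₀ h1 h2
  exact_mod_cast h3

theorem ee_pow (x : ℝ) (n : ℕ) : ee (n * x) = ee x ^ n := by
  unfold ee
  rw [← Complex.exp_nat_mul]
  congr 1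
  push_cast
  ring

theorem ee_conj (x : ℝ) : (starRingEnd ℂ) (ee x) = ee (-x) := by
  unfold ee
  rw [← Complex.exp_conj]
  congr 1
  have : (2 * Real.pi * x * Complex.I : ℂ) = ((2 * Real.pi * x : ℝ) : ℂ) * Complex.I := by
    push_cast; ring
  rw [this, map_mul, Complex.conj_ofReal, Complex.conj_I]
  push_cast
  ring

theorem norm_ee_sub_one (t : ℝ) : ‖ee t - 1‖ ≤ 2 * Real.pi * |t| := by
  have h := Real.norm_exp_I_mul_ofReal_sub_one_le (x := 2 * Real.pi * t)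
  have e : Complex.I * ((2 * Real.pi * t : ℝ) : ℂ) = 2 * Real.pi * t * Complex.I := by
    push_cast; ring
  rw [e] at h
  unfold ee
  refine h.trans ?_
  rw [Real.norm_eq_abs, abs_mul, abs_of_pos Real.two_pi_pos]

/-- orthogonality -/
theorem orth (M : ℕ) (hM : 0 < M) (u : ℤ) (hu : |u| < M) :
    ∑ ξ ∈ range M, ee ((ξ : ℝ) * u / M) = if u = 0 then (M : ℂ) else 0 := by
  split_ifs with h
  · subst h
    simp [ee_zero]
  · have hM' : (M : ℝ) ≠ 0 := by positivity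
    have h1 : ∀ ξ ∈ range M, ee ((ξ : ℝ) * u / M) = ee ((u : ℝ) / M) ^ ξ := by
      intro ξ _
      rw [← ee_pow]
      congr 1
      ring
    rw [sum_congr rfl h1]
    have h2 : ee ((u : ℝ) / M) ≠ 1 := by
      intro h3
      obtain ⟨n, hn⟩ := ee_eq_one h3
      rw [div_eq_iff hM'] at hn
      have h4 : u = n * M := by exact_mod_cast hn
      have h5 : n ≠ 0 := by rintro rfl; simp at h4; exact h h4
      rw [h4, abs_mul] at hu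
      have h6 : 1 ≤ |n| := Int.one_le_abs h5
      have h7 : |(M : ℤ)| = M := by simp
      rw [h7] at hu
      have : (M : ℤ) ≤ |n| * M := by nlinarith
      omega
    rw [geom_sum_eq h2]
    have h3 : ee ((u : ℝ) / M) ^ M = 1 := by
      rw [← ee_pow]
      have : (M : ℝ) * ((u : ℝ) / M) = (u : ℝ) := by field_simp
      rw [this, ee_int]
    rw [h3]
    simp

/-- the indicator of the primes by exponentials -/
theorem ip_fourier (M N : ℕ) (z : ℤ) (hN : N < M) (h1 : z ≤ N) (h2 : N - z < M) :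
    (M : ℂ) * (ip z : ℂ) = ∑ ξ ∈ range M, ee ((ξ : ℝ) * z / M) *
      ∑ p ∈ (Icc 1 N).filter Nat.Prime, ee (-((ξ : ℝ) * p / M)) := by
  have hM : 0 < M := by omega
  have e1 : ∀ ξ ∈ range M, ee ((ξ : ℝ) * z / M) *
      ∑ p ∈ (Icc 1 N).filter Nat.Prime, ee (-((ξ : ℝ) * p / M)) =
      ∑ p ∈ (Icc 1 N).filter Nat.Prime, ee ((ξ : ℝ) * ((z - (p : ℤ) : ℤ) : ℝ) / M) := by
    intro ξ _
    rw [mul_sum]
    apply sum_congr rfl
    intro p _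
    rw [← ee_add]
    congr 1
    push_cast
    ring
  rw [sum_congr rfl e1, sum_comm]
  have e2 : ∀ p ∈ (Icc 1 N).filter Nat.Prime,
      ∑ ξ ∈ range M, ee ((ξ : ℝ) * ((z - (p : ℤ) : ℤ) : ℝ) / M) =
      if z - (p : ℤ) = 0 then (M : ℂ) else 0 := by
    intro p hp
    rw [mem_filter, mem_Icc] at hp
    apply orth M hM
    rw [abs_lt]
    constructor <;> omega
  rw [sum_congr rfl e2]
  unfold ip
  split_ifs with h
  · have hz : z = (z.toNat : ℤ) := by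
      have := h.pos
      omega
    rw [sum_eq_single z.toNat]
    · rw [if_pos (by omega)]
      simp
    · intro p hp hne
      rw [if_neg (by omega)]
    · intro hcon
      exfalso
      apply hcon
      rw [mem_filter, mem_Icc]
      have := h.pos
      exact ⟨by omega, h⟩
  · symm
    simp only [Complex.ofReal_zero, mul_zero]
    apply sum_eq_zero
    intro p hp
    rw [mem_filter] at hp
    rw [if_neg]
    intro hcon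
    apply h
    have : z.toNat = p := by omega
    rw [this]
    exact hp.2

/-! ### Chebyshev -/

theorem pi_bound (N : ℕ) (hN : 2 ≤ N) :
    (((Icc 1 N).filter Nat.Prime).card : ℝ) ≤ 5 * ((N : ℝ) / Real.log N) := by
  have hN' : (1 : ℝ) < N := by exact_mod_cast (by omega : 1 < N)
  have h := Chebyshev.pi_le_log4_mul_div hN'
  rw [Nat.floor_natCast] at h
  have hc : ((Icc 1 N).filter Nat.Prime).card = Nat.primeCounting N := by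
    rw [Nat.primeCounting, Nat.primeCounting', Nat.count_eq_card_filter_range]
    congr 1
    ext p
    simp only [mem_filter, mem_Icc, mem_range]
    constructor
    · rintro ⟨⟨h1, h2⟩, h3⟩
      exact ⟨by omega, h3⟩
    · rintro ⟨h1, h3⟩
      have := h3.pos
      exact ⟨⟨by omega, by omega⟩, h3⟩
  rw [hc]
  refine h.trans ?_
  have hl : 0 < Real.log N := Real.log_pos hN'
  have h0 : (0 : ℝ) ≤ N := by positivity
  have hs : Real.log (√(N : ℝ)) = Real.log N / 2 := Real.log_sqrt h0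
  rw [hs]
  have h4 : Real.log 4 ≤ 3 / 2 := by
    have : Real.log 4 = 2 * Real.log 2 := by
      rw [show (4 : ℝ) = 2 ^ 2 by norm_num, Real.log_pow]; norm_num
    rw [this]
    have := Real.log_two_lt_d9
    linarith
  have hs0 : 0 < √(N : ℝ) := Real.sqrt_pos.2 (by linarith)
  have h5 : Real.log N ≤ 2 * √(N : ℝ) := by
    have h6 : Real.log (√(N : ℝ)) ≤ √(N : ℝ) - 1 := Real.log_le_sub_one_of_pos hs0
    rw [hs] at h6
    linarith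
  have h6 : √(N : ℝ) ≤ 2 * ((N : ℝ) / Real.log N) := by
    rw [← mul_div_assoc, le_div_iff₀ hl]
    have h7 : √(N : ℝ) * √(N : ℝ) = N := Real.mul_self_sqrt h0
    nlinarith
  have h7 : Real.log 4 * (N : ℝ) / (Real.log N / 2) ≤ 3 * ((N : ℝ) / Real.log N) := by
    have e : Real.log 4 * (N : ℝ) / (Real.log N / 2) = (2 * Real.log 4) * ((N : ℝ) / Real.log N) := by
      field_simp
    rw [e]
    apply mul_le_mul_of_nonneg_right _ (by positivity)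
    linarith
  linarith

/-! ### change of variable -/

/-- multiplication by `a` mod `M` -/
def sig (M : ℕ) (a : ℤ) (ξ : ℕ) : ℕ := ((a * ξ) % (M : ℤ)).toNat

theorem sig_spec (M : ℕ) (hM : 0 < M) (a : ℤ) (ξ : ℕ) :
    ∃ m : ℤ, a * ξ = sig M a ξ + m * M := by
  refine ⟨(a * ξ) / M, ?_⟩
  unfold sig
  have h1 : 0 ≤ (a * ξ) % (M : ℤ) := Int.emod_nonneg _ (by omega)
  rw [Int.toNat_of_nonneg h1]
  have := Int.emod_add_mul_ediv (a * ξ) (M : ℤ)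
  linarith

theorem sig_lt (M : ℕ) (hM : 0 < M) (a : ℤ) (ξ : ℕ) : sig M a ξ < M := by
  unfold sig
  have h1 : 0 ≤ (a * ξ) % (M : ℤ) := Int.emod_nonneg _ (by omega)
  have h2 : (a * ξ) % (M : ℤ) < M := Int.emod_lt_of_pos _ (by omega)
  omega

theorem sig_inj (M : ℕ) (hM : Odd M) (a : ℤ) (ha : a.natAbs ∈ ({1, 2, 4} : Finset ℕ)) :
    Set.InjOn (sig M a) (range M : Finset ℕ) := by
  have hM0 : 0 < M := hM.pos
  intro ξ hξ ξ' hξ' h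
  rw [mem_coe, mem_range] at hξ hξ'
  obtain ⟨m, hm⟩ := sig_spec M hM0 a ξ
  obtain ⟨m', hm'⟩ := sig_spec M hM0 a ξ'
  rw [h] at hm
  have h1 : (M : ℤ) ∣ a * ((ξ : ℤ) - ξ') := ⟨m - m', by linear_combination hm - hm'⟩
  have hcop : IsCoprime (M : ℤ) a := by
    rw [Int.isCoprime_iff_gcd_eq_one, Int.gcd, Int.natAbs_natCast]
    have h2 : Nat.Coprime M 2 := (Nat.coprime_two_right).2 hM
    simp only [mem_insert, mem_singleton] at ha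
    rcases ha with ha | ha | ha
    · rw [ha]; exact Nat.gcd_one_right M
    · rw [ha]; exact h2
    · rw [ha]
      exact Nat.Coprime.pow_right 2 h2
  have h2 := hcop.dvd_of_dvd_mul_left h1
  obtain ⟨t, ht⟩ := h2
  have h3 : |(ξ : ℤ) - ξ'| < M := by rw [abs_lt]; constructor <;> omega
  have h4 : t = 0 := by
    by_contra hne
    have h6 : 1 ≤ |t| := Int.one_le_abs hne
    rw [ht, abs_mul] at h3
    have h7 : |(M : ℤ)| = M := by simp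
    rw [h7] at h3
    have : (M : ℤ) * 1 ≤ M * |t| := Int.mul_le_mul_of_nonneg_left h6 (by omega)
    omega
  rw [h4] at ht
  omega

theorem sum_sig_le (M : ℕ) (hM : Odd M) (a : ℤ) (ha : a.natAbs ∈ ({1, 2, 4} : Finset ℕ))
    (h : ℕ → ℝ) (h0 : ∀ ξ, 0 ≤ h ξ) :
    ∑ ξ ∈ range M, h (sig M a ξ) ≤ ∑ ξ ∈ range M, h ξ := by
  rw [← sum_image (s := range M) (g := sig M a) (f := h) (sig_inj M hM a ha)]
  apply sum_le_sum_of_subset_of_nonneg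
  · intro x hx
    rw [mem_image] at hx
    obtain ⟨y, _, rfl⟩ := hx
    exact mem_range.2 (sig_lt M hM.pos a y)
  · intro i _ _
    exact h0 i

theorem ee_sig (M : ℕ) (hM : 0 < M) (a : ℤ) (ξ x : ℕ) :
    ee ((ξ : ℝ) * ((a * x : ℤ) : ℝ) / M) = ee ((sig M a ξ : ℝ) * x / M) := by
  obtain ⟨m, hm⟩ := sig_spec M hM a ξ
  have hM' : (M : ℝ) ≠ 0 := by positivity
  have h1 : (a : ℝ) * ξ = sig M a ξ + m * M := by exact_mod_cast hm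
  have h2 : (ξ : ℝ) * ((a * x : ℤ) : ℝ) / M = (sig M a ξ : ℝ) * x / M + ((m * x : ℤ) : ℝ) := by
    push_cast
    have : (ξ : ℝ) * (a * x) = (sig M a ξ + m * M) * x := by rw [← h1]; ring
    rw [this]
    field_simp
  rw [h2, ee_add_int]

/-- restriction estimate after the change of variable -/
theorem restr {C6 : ℝ} {k M : ℕ} (hM : Odd M)
    (h6 : ∀ f : ℕ → ℂ, (∀ p, ‖f p‖ ≤ 1) →
      ∑ ξ ∈ range M, ‖∑ p ∈ PP k, f p * ee ((ξ : ℝ) * p / M)‖ ^ (5 / 2 : ℝ) ≤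
      C6 * ((k : ℝ) / Real.log k) ^ (5 / 2 : ℝ)) (a : ℤ)
    (ha : a.natAbs ∈ ({1, 2, 4} : Finset ℕ)) (f : ℕ → ℝ) (hf : ∀ p, |f p| ≤ 1) :
    ∑ ξ ∈ range M, ‖∑ x ∈ PP k, (f x : ℂ) * ee ((ξ : ℝ) * ((a * x : ℤ) : ℝ) / M)‖ ^ (5 / 2 : ℝ) ≤
      C6 * ((k : ℝ) / Real.log k) ^ (5 / 2 : ℝ) := by
  refine le_trans ?_ (h6 (fun p => (f p : ℂ)) (fun p => by simpa using hf p))
  have h1 : ∀ ξ ∈ range M,
      ‖∑ x ∈ PP k, (f x : ℂ) * ee ((ξ : ℝ) * ((a * x : ℤ) : ℝ) / M)‖ ^ (5 / 2 : ℝ) =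
      (fun η : ℕ => ‖∑ p ∈ PP k, (f p : ℂ) * ee ((η : ℝ) * p / M)‖ ^ (5 / 2 : ℝ)) (sig M a ξ) := by
    intro ξ _
    dsimp only
    congr 2
    apply sum_congr rfl
    intro x _
    rw [ee_sig M hM.pos]
  rw [sum_congr rfl h1]
  exact sum_sig_le M hM a ha
    (fun η : ℕ => ‖∑ p ∈ PP k, (f p : ℂ) * ee ((η : ℝ) * p / M)‖ ^ (5 / 2 : ℝ))
    (fun ξ => by positivity)

/-! ### Young -/

theorem young (u v w X δ : ℝ) (hu : 0 ≤ u) (hv : 0 ≤ v) (hw : 0 ≤ w) (hX : 0 < X)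
    (hwX : w ≤ δ * X) :
    u * v * w ≤ √δ * X ^ 3 * ((2 / 5) * (u ^ (5 / 2 : ℝ) / X ^ (5 / 2 : ℝ)) +
      (2 / 5) * (v ^ (5 / 2 : ℝ) / X ^ (5 / 2 : ℝ)) +
      (1 / 5) * (w ^ (5 / 2 : ℝ) / X ^ (5 / 2 : ℝ))) := by
  rw [← Real.div_rpow hu hX.le, ← Real.div_rpow hv hX.le, ← Real.div_rpow hw hX.le]
  obtain ⟨U, hU⟩ : ∃ U, U = u / X := ⟨_, rfl⟩
  obtain ⟨V, hV⟩ : ∃ V, V = v / X := ⟨_, rfl⟩
  obtain ⟨Z, hZ⟩ : ∃ Z, Z = w / X := ⟨_, rfl⟩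
  have eu : u = U * X := by rw [hU]; field_simp
  have ev : v = V * X := by rw [hV]; field_simp
  have ew : w = Z * X := by rw [hZ]; field_simp
  rw [← hU, ← hV, ← hZ]
  have hU0 : 0 ≤ U := by rw [hU]; positivity
  have hV0 : 0 ≤ V := by rw [hV]; positivity
  have hZ0 : 0 ≤ Z := by rw [hZ]; positivity
  have hZδ : Z ≤ δ := by rw [hZ, div_le_iff₀ hX]; exact hwX
  have h1 := Real.geom_mean_le_arith_mean3_weighted (w₁ := 2 / 5) (w₂ := 2 / 5) (w₃ := 1 / 5)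
    (p₁ := U ^ (5 / 2 : ℝ)) (p₂ := V ^ (5 / 2 : ℝ)) (p₃ := Z ^ (5 / 2 : ℝ)) (by norm_num)
    (by norm_num) (by norm_num) (by positivity) (by positivity) (by positivity) (by norm_num)
  rw [← Real.rpow_mul hU0, ← Real.rpow_mul hV0, ← Real.rpow_mul hZ0] at h1
  norm_num only [] at h1
  rw [Real.rpow_one, Real.rpow_one] at h1
  have h2 : Z ^ (1 / 2 : ℝ) = √Z := by rw [Real.sqrt_eq_rpow]
  rw [h2] at h1
  have h3 : Z = √Z * √Z := (Real.mul_self_sqrt hZ0).symm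
  have h4 : √Z ≤ √δ := Real.sqrt_le_sqrt hZδ
  have h5 : U * V * Z ≤ √δ * (U * V * √Z) := by
    calc U * V * Z = √Z * (U * V * √Z) := by
          nth_rewrite 1 [h3]
          ring
      _ ≤ √δ * (U * V * √Z) := by
          apply mul_le_mul_of_nonneg_right h4
          positivity
  calc u * v * w = X ^ 3 * (U * V * Z) := by rw [eu, ev, ew]; ring
    _ ≤ X ^ 3 * (√δ * (U * V * √Z)) := by
        apply mul_le_mul_of_nonneg_left h5; positivity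
    _ ≤ X ^ 3 * (√δ * ((2 / 5) * U ^ (5 / 2 : ℝ) + (2 / 5) * V ^ (5 / 2 : ℝ) +
        (1 / 5) * Z ^ (5 / 2 : ℝ))) := by
        apply mul_le_mul_of_nonneg_left _ (by positivity)
        apply mul_le_mul_of_nonneg_left h1 (by positivity)
    _ = _ := by ring

theorem young_sum (s : Finset ℕ) (u v w : ℕ → ℝ) (X δ A B : ℝ) (hu : ∀ i, 0 ≤ u i)
    (hv : ∀ i, 0 ≤ v i) (hw : ∀ i, 0 ≤ w i) (hX : 0 < X)
    (hwX : ∀ i ∈ s, w i ≤ δ * X)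
    (h1 : ∑ i ∈ s, u i ^ (5 / 2 : ℝ) ≤ A * X ^ (5 / 2 : ℝ))
    (h2 : ∑ i ∈ s, v i ^ (5 / 2 : ℝ) ≤ A * X ^ (5 / 2 : ℝ))
    (h3 : ∑ i ∈ s, w i ^ (5 / 2 : ℝ) ≤ B * X ^ (5 / 2 : ℝ)) :
    ∑ i ∈ s, u i * v i * w i ≤ √δ * X ^ 3 * (A + B) := by
  have hXp : 0 < X ^ (5 / 2 : ℝ) := by positivity
  have h1' : ∑ i ∈ s, u i ^ (5 / 2 : ℝ) / X ^ (5 / 2 : ℝ) ≤ A := by
    rw [← sum_div, div_le_iff₀ hXp]; exact h1
  have h2' : ∑ i ∈ s, v i ^ (5 / 2 : ℝ) / X ^ (5 / 2 : ℝ) ≤ A := by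
    rw [← sum_div, div_le_iff₀ hXp]; exact h2
  have h3' : ∑ i ∈ s, w i ^ (5 / 2 : ℝ) / X ^ (5 / 2 : ℝ) ≤ B := by
    rw [← sum_div, div_le_iff₀ hXp]; exact h3
  have hA : 0 ≤ A := by
    refine le_trans ?_ h1'
    exact sum_nonneg (fun i _ => by have := hu i; positivity)
  have hB : 0 ≤ B := by
    refine le_trans ?_ h3'
    exact sum_nonneg (fun i _ => by have := hw i; positivity)
  calc ∑ i ∈ s, u i * v i * w i
      ≤ ∑ i ∈ s, √δ * X ^ 3 * ((2 / 5) * (u i ^ (5 / 2 : ℝ) / X ^ (5 / 2 : ℝ)) +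
      (2 / 5) * (v i ^ (5 / 2 : ℝ) / X ^ (5 / 2 : ℝ)) +
      (1 / 5) * (w i ^ (5 / 2 : ℝ) / X ^ (5 / 2 : ℝ))) :=
        sum_le_sum (fun i hi => young _ _ _ X δ (hu i) (hv i) (hw i) hX (hwX i hi))
    _ = √δ * X ^ 3 * ((2 / 5) * ∑ i ∈ s, (u i ^ (5 / 2 : ℝ) / X ^ (5 / 2 : ℝ)) +
      (2 / 5) * ∑ i ∈ s, (v i ^ (5 / 2 : ℝ) / X ^ (5 / 2 : ℝ)) +
      (1 / 5) * ∑ i ∈ s, (w i ^ (5 / 2 : ℝ) / X ^ (5 / 2 : ℝ))) := by
        rw [← mul_sum, sum_add_distrib, sum_add_distrib, ← mul_sum, ← mul_sum, ← mul_sum]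
    _ ≤ _ := by
        apply mul_le_mul_of_nonneg_left _ (by positivity)
        linarith

/-! ### the kernel -/

theorem norm_kh_le (J : ℕ) (φ : ℕ → ℝ) :
    ‖1 - (1 / (J : ℂ)) * ∑ j ∈ Icc 1 J, ee (φ j)‖ ≤ 2 := by
  have h1 : ‖(1 / (J : ℂ)) * ∑ j ∈ Icc 1 J, ee (φ j)‖ ≤ 1 := by
    rw [norm_mul, norm_div, norm_one, Complex.norm_natCast]
    have h2 : ‖∑ j ∈ Icc 1 J, ee (φ j)‖ ≤ J := by
      refine (norm_sum_le _ _).trans ?_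
      simp [norm_ee]
    rcases Nat.eq_zero_or_pos J with h | h
    · subst h; simp
    · have hJ : (0 : ℝ) < J := by exact_mod_cast h
      rw [one_div, inv_mul_le_iff₀ hJ, mul_one]
      exact h2
  calc _ ≤ ‖(1 : ℂ)‖ + ‖(1 / (J : ℂ)) * ∑ j ∈ Icc 1 J, ee (φ j)‖ := norm_sub_le _ _
    _ ≤ 2 := by rw [norm_one]; linarith

theorem norm_kh_small (J : ℕ) (hJ : 1 ≤ J) (φ : ℕ → ℝ) (c : ℝ)
    (h : ∀ j ∈ Icc 1 J, ‖ee (φ j) - 1‖ ≤ c) :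
    ‖1 - (1 / (J : ℂ)) * ∑ j ∈ Icc 1 J, ee (φ j)‖ ≤ c := by
  have hJ0 : (0 : ℝ) < J := by exact_mod_cast hJ
  have hJc : (J : ℂ) ≠ 0 := by exact_mod_cast (by omega : J ≠ 0)
  have e : 1 - (1 / (J : ℂ)) * ∑ j ∈ Icc 1 J, ee (φ j) =
      -((1 / (J : ℂ)) * ∑ j ∈ Icc 1 J, (ee (φ j) - 1)) := by
    rw [sum_sub_distrib]
    simp
    field_simp
    ring
  rw [e, norm_neg, norm_mul, norm_div, norm_one, Complex.norm_natCast, one_div,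
    inv_mul_le_iff₀ hJ0]
  refine (norm_sum_le _ _).trans ?_
  calc _ ≤ ∑ j ∈ Icc 1 J, c := sum_le_sum h
    _ = J * c := by simp

theorem kh_major {Q1 τ η1 θ : ℝ} {k J W : ℕ} (hk : 0 < k) (hJ : 1 ≤ J)
    (hQ1 : 1 ≤ Q1) (hJW : (J : ℝ) * W ≤ τ * k) (hτ : τ * Q1 ≤ η1)
    (hW : ∀ q : ℕ, 1 ≤ q → (q : ℝ) ≤ Q1 → q ∣ W)
    (hmaj : Major Q1 ((9 * k : ℕ) : ℝ) θ) :
    ‖1 - (1 / (J : ℂ)) * ∑ j ∈ Icc 1 J, ee (θ * ((j : ℝ) * W))‖ ≤ η1 := by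
  obtain ⟨q, hq1, hqQ, a, ha⟩ := hmaj
  have hk' : (0 : ℝ) < k := by exact_mod_cast hk
  refine norm_kh_small J hJ _ _ ?_
  intro j hj
  rw [mem_Icc] at hj
  obtain ⟨w, hw⟩ := hW q hq1 hqQ
  have hq0 : (q : ℝ) ≠ 0 := by
    have : (0 : ℝ) < q := by exact_mod_cast hq1
    exact this.ne'
  have e : θ * ((j : ℝ) * W) = (θ - (a : ℝ) / q) * ((j : ℝ) * W) + ((a * (j * w : ℕ) : ℤ) : ℝ) := by
    have : (W : ℝ) = q * w := by exact_mod_cast hw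
    rw [this]
    push_cast
    field_simp
    ring
  rw [e, ee_add_int]
  refine (norm_ee_sub_one _).trans ?_
  rw [abs_mul, abs_of_nonneg (by positivity : (0 : ℝ) ≤ (j : ℝ) * W)]
  have h1 : (j : ℝ) * W ≤ J * W := by
    apply mul_le_mul_of_nonneg_right _ (by positivity)
    exact_mod_cast hj.2
  have h2 : |θ - (a : ℝ) / q| * ((j : ℝ) * W) ≤ Q1 / ((9 * k : ℕ) : ℝ) * (τ * k) :=
    mul_le_mul ha (h1.trans hJW) (by positivity) (by positivity)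
  have h3 : Q1 / ((9 * k : ℕ) : ℝ) * (τ * k) = τ * Q1 / 9 := by
    push_cast
    field_simp
  rw [h3] at h2
  have h4 : 2 * Real.pi ≤ 9 := by have := Real.pi_lt_d2; linarith
  have h5 : 0 ≤ |θ - (a : ℝ) / q| * ((j : ℝ) * W) := by positivity
  calc 2 * Real.pi * (|θ - (a : ℝ) / q| * ((j : ℝ) * W))
      ≤ 9 * (|θ - (a : ℝ) / q| * ((j : ℝ) * W)) := mul_le_mul_of_nonneg_right h4 h5
    _ ≤ 9 * (τ * Q1 / 9) := by linarith
    _ ≤ η1 := by linarith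

theorem sup_bound {Q1 τ η1 θ : ℝ} {k J W : ℕ} (hk : 0 < k) (hJ : 1 ≤ J)
    (hQ1 : 1 ≤ Q1) (hη1 : 0 < η1) (hJW : (J : ℝ) * W ≤ τ * k) (hτ : τ * Q1 ≤ η1)
    (hW : ∀ q : ℕ, 1 ≤ q → (q : ℝ) ≤ Q1 → q ∣ W)
    (h4 : ¬ Major Q1 ((9 * k : ℕ) : ℝ) θ → ‖∑ p ∈ (Icc 1 (9 * k)).filter Nat.Prime, ee (θ * p)‖ ≤
      η1 * ((9 * k : ℕ) : ℝ) / Real.log ((9 * k : ℕ) : ℝ)) :
    ‖∑ p ∈ (Icc 1 (9 * k)).filter Nat.Prime, ee (θ * p)‖ *
      ‖1 - (1 / (J : ℂ)) * ∑ j ∈ Icc 1 J, ee (θ * ((j : ℝ) * W))‖ ≤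
      5 * η1 * (((9 * k : ℕ) : ℝ) / Real.log ((9 * k : ℕ) : ℝ)) := by
  have hR : 0 ≤ ((9 * k : ℕ) : ℝ) / Real.log ((9 * k : ℕ) : ℝ) := by
    apply div_nonneg (by positivity)
    exact Real.log_natCast_nonneg _
  obtain ⟨R, hRe⟩ : ∃ R, R = ((9 * k : ℕ) : ℝ) / Real.log ((9 * k : ℕ) : ℝ) := ⟨_, rfl⟩
  rw [mul_div_assoc] at h4
  rw [← hRe] at h4 hR ⊢
  by_cases hmaj : Major Q1 ((9 * k : ℕ) : ℝ) θ
  · have h1 := kh_major hk hJ hQ1 hJW hτ hW hmaj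
    have h2 : ‖∑ p ∈ (Icc 1 (9 * k)).filter Nat.Prime, ee (θ * p)‖ ≤ 5 * R := by
      refine (norm_sum_le _ _).trans ?_
      have := pi_bound (9 * k) (by omega)
      rw [← hRe] at this
      simpa [norm_ee] using this
    calc _ ≤ (5 * R) * η1 := mul_le_mul h2 h1 (norm_nonneg _) (by positivity)
      _ = _ := by ring
  · have h1 := h4 hmaj
    have h2 := norm_kh_le J (fun j => θ * ((j : ℝ) * W))
    calc _ ≤ (η1 * R) * 2 := mul_le_mul h1 h2 (norm_nonneg _) (by positivity)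
      _ ≤ _ := by nlinarith [mul_nonneg hη1.le hR]

/-! ### the sum over all primes -/

theorem norm_conj_sum (S : Finset ℕ) (c : ℕ → ℝ) :
    ‖∑ p ∈ S, ee (-(c p))‖ = ‖∑ p ∈ S, ee (c p)‖ := by
  rw [← Complex.norm_conj (∑ p ∈ S, ee (c p)), map_sum]
  congr 1
  apply sum_congr rfl
  intro p _
  rw [ee_conj]

theorem split_primes (N : ℕ) (c : ℕ → ℝ) :
    ‖∑ p ∈ (Icc 1 N).filter Nat.Prime, ee (c p)‖ ≤ ‖∑ p ∈ PP N, ee (c p)‖ + √(N : ℝ) := by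
  have h1 : ∑ p ∈ (Icc 1 N).filter Nat.Prime, ee (c p) = ∑ p ∈ PP N, ee (c p) +
      ∑ p ∈ ((Icc 1 N).filter Nat.Prime).filter (fun p => ¬ N < p ^ 2), ee (c p) := by
    rw [← sum_filter_add_sum_filter_not ((Icc 1 N).filter Nat.Prime) (fun p => N < p ^ 2)]
    congr 1
    unfold PP
    rw [filter_filter]
  rw [h1]
  refine (norm_add_le _ _).trans ?_
  apply add_le_add le_rfl
  refine (norm_sum_le _ _).trans ?_
  simp only [norm_ee, sum_const, nsmul_eq_mul, mul_one]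
  refine le_trans ?_ (Real.nat_sqrt_le_real_sqrt)
  have h2 : ((Icc 1 N).filter Nat.Prime).filter (fun p => ¬ N < p ^ 2) ⊆ Icc 1 (Nat.sqrt N) := by
    intro p hp
    rw [mem_filter, mem_filter, mem_Icc] at hp
    rw [mem_Icc]
    refine ⟨hp.1.1.1, ?_⟩
    rw [Nat.le_sqrt']
    omega
  have h3 := card_le_card h2
  rw [Nat.card_Icc] at h3
  exact_mod_cast (by omega : _ ≤ Nat.sqrt N)

theorem add_rpow_le (u v : ℝ) (hu : 0 ≤ u) (hv : 0 ≤ v) :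
    (u + v) ^ (5 / 2 : ℝ) ≤ 8 * (u ^ (5 / 2 : ℝ) + v ^ (5 / 2 : ℝ)) := by
  have h2 : (2 : ℝ) ^ (5 / 2 : ℝ) ≤ 8 := by
    calc (2 : ℝ) ^ (5 / 2 : ℝ) ≤ (2 : ℝ) ^ (3 : ℝ) :=
          Real.rpow_le_rpow_of_exponent_le (by norm_num) (by norm_num)
      _ = 8 := by norm_num
  have key : ∀ x y : ℝ, 0 ≤ x → 0 ≤ y → x ≤ y →
      (x + y) ^ (5 / 2 : ℝ) ≤ 8 * (x ^ (5 / 2 : ℝ) + y ^ (5 / 2 : ℝ)) := by
    intro x y hx hy hxy
    calc (x + y) ^ (5 / 2 : ℝ) ≤ (2 * y) ^ (5 / 2 : ℝ) :=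
          Real.rpow_le_rpow (by positivity) (by linarith) (by norm_num)
      _ = 2 ^ (5 / 2 : ℝ) * y ^ (5 / 2 : ℝ) := Real.mul_rpow (by norm_num) hy
      _ ≤ 8 * y ^ (5 / 2 : ℝ) := mul_le_mul_of_nonneg_right h2 (by positivity)
      _ ≤ _ := by
        have : 0 ≤ x ^ (5 / 2 : ℝ) := by positivity
        linarith
  rcases le_total u v with h | h
  · exact key u v hu hv h
  · have := key v u hv hu h
    rw [add_comm u v, add_comm (u ^ (5 / 2 : ℝ))]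
    exact this

theorem X_bounds {k : ℕ} (hk : 3 ≤ k) :
    0 < (k : ℝ) / Real.log k ∧
      ((9 * k : ℕ) : ℝ) / Real.log ((9 * k : ℕ) : ℝ) ≤ 9 * ((k : ℝ) / Real.log k) := by
  have hk' : (1 : ℝ) < k := by exact_mod_cast (by omega : 1 < k)
  have hl : 0 < Real.log k := Real.log_pos hk'
  have h1 : Real.log k ≤ Real.log ((9 * k : ℕ) : ℝ) := by
    apply Real.log_le_log (by linarith)
    push_cast
    linarith
  refine ⟨by positivity, ?_⟩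
  calc ((9 * k : ℕ) : ℝ) / Real.log ((9 * k : ℕ) : ℝ) ≤ ((9 * k : ℕ) : ℝ) / Real.log k :=
        div_le_div_of_nonneg_left (by positivity) hl h1
    _ = _ := by push_cast; ring

theorem small_part {k M : ℕ} (hk : 3 ≤ k) (hM : M ≤ 61 * k)
    (hlog : Real.log k ≤ (1 / 1000) * (k : ℝ) ^ (1 / 10 : ℝ)) :
    (M : ℝ) * (√((9 * k : ℕ) : ℝ)) ^ (5 / 2 : ℝ) ≤ ((k : ℝ) / Real.log k) ^ (5 / 2 : ℝ) := by
  have hk' : (1 : ℝ) < k := by exact_mod_cast (by omega : 1 < k)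
  have hl : 0 < Real.log k := Real.log_pos hk'
  have hk0 : (0 : ℝ) < k := by linarith
  have h1 : √((9 * k : ℕ) : ℝ) = 3 * (k : ℝ) ^ (1 / 2 : ℝ) := by
    push_cast
    rw [Real.sqrt_mul (by norm_num), ← Real.sqrt_eq_rpow]
    congr 1
    rw [show (9 : ℝ) = 3 ^ 2 by norm_num, Real.sqrt_sq (by norm_num)]
  have h2 : (√((9 * k : ℕ) : ℝ)) ^ (5 / 2 : ℝ) ≤ 16 * (k : ℝ) ^ (5 / 4 : ℝ) := by
    rw [h1, Real.mul_rpow (by norm_num) (by positivity), ← Real.rpow_mul hk0.le]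
    have h3 : (3 : ℝ) ^ (5 / 2 : ℝ) ≤ 16 := by
      have h4 : ((3 : ℝ) ^ (5 / 2 : ℝ)) ^ 2 ≤ 16 ^ 2 := by
        rw [← Real.rpow_natCast ((3 : ℝ) ^ (5 / 2 : ℝ)) 2, ← Real.rpow_mul (by norm_num)]
        norm_num
      exact le_of_sq_le_sq h4 (by norm_num)
    have h5 : (1 / 2 : ℝ) * (5 / 2) = 5 / 4 := by norm_num
    rw [h5]
    exact mul_le_mul_of_nonneg_right h3 (by positivity)
  have h6 : 1000 * (k : ℝ) ^ (9 / 10 : ℝ) ≤ (k : ℝ) / Real.log k := by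
    rw [le_div_iff₀ hl]
    calc 1000 * (k : ℝ) ^ (9 / 10 : ℝ) * Real.log k ≤
        1000 * (k : ℝ) ^ (9 / 10 : ℝ) * ((1 / 1000) * (k : ℝ) ^ (1 / 10 : ℝ)) :=
          mul_le_mul_of_nonneg_left hlog (by positivity)
      _ = (k : ℝ) ^ (9 / 10 : ℝ) * (k : ℝ) ^ (1 / 10 : ℝ) := by ring
      _ = k := by
        rw [← Real.rpow_add hk0]
        norm_num
  have h7 : 1000 * (k : ℝ) ^ (9 / 4 : ℝ) ≤ ((k : ℝ) / Real.log k) ^ (5 / 2 : ℝ) := by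
    calc 1000 * (k : ℝ) ^ (9 / 4 : ℝ) ≤ 1000 ^ (5 / 2 : ℝ) * (k : ℝ) ^ (9 / 4 : ℝ) := by
          apply mul_le_mul_of_nonneg_right _ (by positivity)
          calc (1000 : ℝ) = 1000 ^ (1 : ℝ) := by norm_num
            _ ≤ _ := Real.rpow_le_rpow_of_exponent_le (by norm_num) (by norm_num)
      _ = (1000 * (k : ℝ) ^ (9 / 10 : ℝ)) ^ (5 / 2 : ℝ) := by
          rw [Real.mul_rpow (by norm_num) (by positivity), ← Real.rpow_mul hk0.le]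
          norm_num
      _ ≤ _ := Real.rpow_le_rpow (by positivity) h6 (by norm_num)
  refine le_trans ?_ h7
  have hM' : (M : ℝ) ≤ 61 * k := by exact_mod_cast hM
  calc (M : ℝ) * (√((9 * k : ℕ) : ℝ)) ^ (5 / 2 : ℝ) ≤ (61 * k) * (16 * (k : ℝ) ^ (5 / 4 : ℝ)) :=
        mul_le_mul hM' h2 (by positivity) (by positivity)
    _ = 976 * ((k : ℝ) ^ (1 : ℝ) * (k : ℝ) ^ (5 / 4 : ℝ)) := by rw [Real.rpow_one]; ring
    _ = 976 * (k : ℝ) ^ (9 / 4 : ℝ) := by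
        rw [← Real.rpow_add hk0]
        norm_num
    _ ≤ _ := by
        apply mul_le_mul_of_nonneg_right (by norm_num) (by positivity)

theorem w_sum {C6 : ℝ} {k M : ℕ} (hC6 : 1 ≤ C6) (hk : 3 ≤ k) (hM : M ≤ 61 * k)
    (hlog : Real.log k ≤ (1 / 1000) * (k : ℝ) ^ (1 / 10 : ℝ))
    (h6 : ∀ f : ℕ → ℂ, (∀ p, ‖f p‖ ≤ 1) →
      ∑ ξ ∈ range M, ‖∑ p ∈ PP (9 * k), f p * ee ((ξ : ℝ) * p / M)‖ ^ (5 / 2 : ℝ) ≤
      C6 * (((9 * k : ℕ) : ℝ) / Real.log ((9 * k : ℕ) : ℝ)) ^ (5 / 2 : ℝ)) (K : ℕ → ℝ)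
    (hK : ∀ ξ, K ξ ≤ 2) (hK0 : ∀ ξ, 0 ≤ K ξ) :
    ∑ ξ ∈ range M, (‖∑ p ∈ (Icc 1 (9 * k)).filter Nat.Prime, ee (-((ξ : ℝ) * p / M))‖ * K ξ) ^
      (5 / 2 : ℝ) ≤ (64 * (243 * C6 + 1)) * ((k : ℝ) / Real.log k) ^ (5 / 2 : ℝ) := by
  obtain ⟨hX, hNX⟩ := X_bounds hk
  have hR0 : 0 ≤ ((9 * k : ℕ) : ℝ) / Real.log ((9 * k : ℕ) : ℝ) := by
    apply div_nonneg (by positivity)
    exact Real.log_natCast_nonneg _
  have hs := small_part hk hM hlog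
  have h1 := h6 (fun _ => 1) (fun _ => by simp)
  simp only [one_mul] at h1
  have h2 : (((9 * k : ℕ) : ℝ) / Real.log ((9 * k : ℕ) : ℝ)) ^ (5 / 2 : ℝ) ≤
      243 * ((k : ℝ) / Real.log k) ^ (5 / 2 : ℝ) := by
    calc _ ≤ (9 * ((k : ℝ) / Real.log k)) ^ (5 / 2 : ℝ) :=
          Real.rpow_le_rpow hR0 hNX (by norm_num)
      _ = 9 ^ (5 / 2 : ℝ) * ((k : ℝ) / Real.log k) ^ (5 / 2 : ℝ) :=
          Real.mul_rpow (by norm_num) hX.le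
      _ = _ := by
          congr 1
          rw [show (9 : ℝ) = 3 ^ (2 : ℝ) by norm_num, ← Real.rpow_mul (by norm_num)]
          norm_num
  have h3 : ∀ ξ ∈ range M, (‖∑ p ∈ (Icc 1 (9 * k)).filter Nat.Prime,
      ee (-((ξ : ℝ) * p / M))‖ * K ξ) ^ (5 / 2 : ℝ) ≤
      64 * (‖∑ p ∈ PP (9 * k), ee ((ξ : ℝ) * p / M)‖ ^ (5 / 2 : ℝ) +
        (√((9 * k : ℕ) : ℝ)) ^ (5 / 2 : ℝ)) := by
    intro ξ _
    rw [norm_conj_sum _ (fun p : ℕ => (ξ : ℝ) * p / M)]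
    have h4 := split_primes (9 * k) (fun p : ℕ => (ξ : ℝ) * p / M)
    obtain ⟨A, hA⟩ : ∃ A, A = ‖∑ p ∈ PP (9 * k), ee ((ξ : ℝ) * p / M)‖ := ⟨_, rfl⟩
    obtain ⟨P, hP⟩ : ∃ P, P = ‖∑ p ∈ (Icc 1 (9 * k)).filter Nat.Prime, ee ((ξ : ℝ) * p / M)‖ :=
      ⟨_, rfl⟩
    have hA0 : 0 ≤ A := by rw [hA]; positivity
    have hP0 : 0 ≤ P := by rw [hP]; positivity
    rw [← hA, ← hP] at h4
    rw [← hA, ← hP]
    have hh := hK ξ
    have hh0 := hK0 ξ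
    have hPA : (P * K ξ) ≤ (A + √((9 * k : ℕ) : ℝ)) + (A + √((9 * k : ℕ) : ℝ)) := by
      calc P * K ξ ≤ P * 2 := mul_le_mul_of_nonneg_left hh hP0
        _ ≤ _ := by linarith
    have hB0 : 0 ≤ A + √((9 * k : ℕ) : ℝ) := by positivity
    have e0 : ∀ z : ℝ, 0 ≤ z → (z + z) ^ (5 / 2 : ℝ) ≤ 8 * z ^ (5 / 2 : ℝ) := by
      intro z hz
      have h2 : (2 : ℝ) ^ (5 / 2 : ℝ) ≤ 8 := by
        calc (2 : ℝ) ^ (5 / 2 : ℝ) ≤ (2 : ℝ) ^ (3 : ℝ) :=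
              Real.rpow_le_rpow_of_exponent_le (by norm_num) (by norm_num)
          _ = 8 := by norm_num
      rw [← two_mul, Real.mul_rpow (by norm_num) hz]
      exact mul_le_mul_of_nonneg_right h2 (by positivity)
    calc (P * K ξ) ^ (5 / 2 : ℝ) ≤
        ((A + √((9 * k : ℕ) : ℝ)) + (A + √((9 * k : ℕ) : ℝ))) ^ (5 / 2 : ℝ) :=
          Real.rpow_le_rpow (by positivity) hPA (by norm_num)
      _ ≤ 8 * (A + √((9 * k : ℕ) : ℝ)) ^ (5 / 2 : ℝ) := e0 _ hB0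
      _ ≤ 8 * (8 * (A ^ (5 / 2 : ℝ) + (√((9 * k : ℕ) : ℝ)) ^ (5 / 2 : ℝ))) := by
          apply mul_le_mul_of_nonneg_left _ (by norm_num)
          exact add_rpow_le _ _ hA0 (by positivity)
      _ = _ := by ring
  refine (sum_le_sum h3).trans ?_
  rw [← mul_sum, sum_add_distrib, sum_const, card_range, nsmul_eq_mul]
  have h5 : C6 * (((9 * k : ℕ) : ℝ) / Real.log ((9 * k : ℕ) : ℝ)) ^ (5 / 2 : ℝ) ≤
      C6 * (243 * ((k : ℝ) / Real.log k) ^ (5 / 2 : ℝ)) :=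
    mul_le_mul_of_nonneg_left h2 (by linarith)
  nlinarith [h1, h5, hs]

/-! ### the Fourier identity -/

theorem natAbs_le_four {a : ℤ} (ha : a.natAbs ∈ ({1, 2, 4} : Finset ℕ)) : -4 ≤ a ∧ a ≤ 4 := by
  simp only [mem_insert, mem_singleton] at ha
  omega

theorem z_bounds {k : ℕ} {a b : ℤ} (ha : a.natAbs ∈ ({1, 2, 4} : Finset ℕ))
    (hb : b.natAbs ∈ ({1, 2, 4} : Finset ℕ)) {x y : ℕ} (hx : x ∈ PP k) (hy : y ∈ PP k) :
    -(8 * k : ℤ) ≤ a * x + b * y ∧ a * x + b * y ≤ 8 * k := by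
  have h1 : x ≤ k := by unfold PP at hx; rw [mem_filter, mem_Icc] at hx; exact hx.1.2
  have h2 : y ≤ k := by unfold PP at hy; rw [mem_filter, mem_Icc] at hy; exact hy.1.2
  obtain ⟨a1, a2⟩ := natAbs_le_four ha
  obtain ⟨b1, b2⟩ := natAbs_le_four hb
  have x0 : (0 : ℤ) ≤ x := by positivity
  have y0 : (0 : ℤ) ≤ y := by positivity
  have x1 : (x : ℤ) ≤ k := by exact_mod_cast h1
  have y1 : (y : ℤ) ≤ k := by exact_mod_cast h2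
  constructor <;> nlinarith

theorem g_fourier (k M J W : ℕ) (hM : 17 * k < M) (hJW : J * W ≤ k) (z : ℤ)
    (h1 : -(8 * k : ℤ) ≤ z) (h2 : z ≤ 8 * k) :
    (M : ℂ) * ((ip z - (1 / (J : ℝ)) * ∑ j ∈ Icc 1 J, ip (z + j * W) : ℝ) : ℂ) =
      ∑ ξ ∈ range M, ee ((ξ : ℝ) * z / M) *
        ((∑ p ∈ (Icc 1 (9 * k)).filter Nat.Prime, ee (-((ξ : ℝ) * p / M))) *
        (1 - (1 / (J : ℂ)) * ∑ j ∈ Icc 1 J, ee (((ξ : ℝ) / M) * ((j : ℝ) * W)))) := by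
  have e1 := ip_fourier M (9 * k) z (by omega) (by omega) (by omega)
  have e2 : ∀ j ∈ Icc 1 J, (M : ℂ) * (ip (z + j * W) : ℂ) = ∑ ξ ∈ range M,
      (ee ((ξ : ℝ) * z / M) * ∑ p ∈ (Icc 1 (9 * k)).filter Nat.Prime, ee (-((ξ : ℝ) * p / M))) *
        ee (((ξ : ℝ) / M) * ((j : ℝ) * W)) := by
    intro j hj
    rw [mem_Icc] at hj
    have h3 : j * W ≤ k := (Nat.mul_le_mul_right W hj.2).trans hJW
    have h4 : ((j * W : ℕ) : ℤ) ≤ k := by exact_mod_cast h3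
    have h5 : (0 : ℤ) ≤ ((j * W : ℕ) : ℤ) := by positivity
    push_cast at h4 h5
    rw [ip_fourier M (9 * k) (z + j * W) (by omega) (by push_cast; omega) (by push_cast; omega)]
    apply sum_congr rfl
    intro ξ _
    have : ee ((ξ : ℝ) * ((z + j * W : ℤ) : ℝ) / M) =
        ee ((ξ : ℝ) * z / M) * ee (((ξ : ℝ) / M) * ((j : ℝ) * W)) := by
      rw [← ee_add]
      congr 1
      push_cast
      ring
    rw [this]
    ring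
  have e3 : (M : ℂ) * ((ip z - (1 / (J : ℝ)) * ∑ j ∈ Icc 1 J, ip (z + j * W) : ℝ) : ℂ) =
      (M : ℂ) * (ip z : ℂ) - (1 / (J : ℂ)) * ∑ j ∈ Icc 1 J, (M : ℂ) * (ip (z + j * W) : ℂ) := by
    rw [← mul_sum]
    push_cast
    ring
  rw [e3, e1, sum_congr rfl e2, sum_comm, mul_sum, ← sum_sub_distrib]
  apply sum_congr rfl
  intro ξ _
  rw [← mul_sum]
  ring

theorem tri (S : Finset ℕ) (F G : ℕ → ℂ) (H : ℂ) :
    ∑ x ∈ S, ∑ y ∈ S, F x * G y * H = (∑ x ∈ S, F x) * (∑ y ∈ S, G y) * H := by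
  rw [sum_mul_sum, sum_mul]
  apply sum_congr rfl
  intro x _
  rw [sum_mul]

theorem T_fourier (k M J W : ℕ) (hM : 17 * k < M) (hJW : J * W ≤ k) (a b : ℤ)
    (ha : a.natAbs ∈ ({1, 2, 4} : Finset ℕ)) (hb : b.natAbs ∈ ({1, 2, 4} : Finset ℕ))
    (f g : ℕ → ℝ) :
    (M : ℂ) * ((∑ x ∈ PP k, ∑ y ∈ PP k, f x * g y * (ip (a * x + b * y) -
        (1 / (J : ℝ)) * ∑ j ∈ Icc 1 J, ip (a * x + b * y + j * W)) : ℝ) : ℂ) =
      ∑ ξ ∈ range M, (∑ x ∈ PP k, (f x : ℂ) * ee ((ξ : ℝ) * ((a * x : ℤ) : ℝ) / M)) *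
        (∑ y ∈ PP k, (g y : ℂ) * ee ((ξ : ℝ) * ((b * y : ℤ) : ℝ) / M)) *
        ((∑ p ∈ (Icc 1 (9 * k)).filter Nat.Prime, ee (-((ξ : ℝ) * p / M))) *
        (1 - (1 / (J : ℂ)) * ∑ j ∈ Icc 1 J, ee (((ξ : ℝ) / M) * ((j : ℝ) * W)))) := by
  have e1 : (M : ℂ) * ((∑ x ∈ PP k, ∑ y ∈ PP k, f x * g y * (ip (a * x + b * y) -
        (1 / (J : ℝ)) * ∑ j ∈ Icc 1 J, ip (a * x + b * y + j * W)) : ℝ) : ℂ) =
      ∑ x ∈ PP k, ∑ y ∈ PP k, (f x : ℂ) * (g y : ℂ) * ((M : ℂ) * ((ip (a * x + b * y) -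
        (1 / (J : ℝ)) * ∑ j ∈ Icc 1 J, ip (a * x + b * y + j * W) : ℝ) : ℂ)) := by
    rw [Complex.ofReal_sum, mul_sum]
    apply sum_congr rfl
    intro x _
    rw [Complex.ofReal_sum, mul_sum]
    apply sum_congr rfl
    intro y _
    push_cast
    ring
  rw [e1]
  have e2 : ∀ x ∈ PP k, ∀ y ∈ PP k, (f x : ℂ) * (g y : ℂ) * ((M : ℂ) * ((ip (a * x + b * y) -
        (1 / (J : ℝ)) * ∑ j ∈ Icc 1 J, ip (a * x + b * y + j * W) : ℝ) : ℂ)) =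
      ∑ ξ ∈ range M, ((f x : ℂ) * ee ((ξ : ℝ) * ((a * x : ℤ) : ℝ) / M)) *
        ((g y : ℂ) * ee ((ξ : ℝ) * ((b * y : ℤ) : ℝ) / M)) *
        ((∑ p ∈ (Icc 1 (9 * k)).filter Nat.Prime, ee (-((ξ : ℝ) * p / M))) *
        (1 - (1 / (J : ℂ)) * ∑ j ∈ Icc 1 J, ee (((ξ : ℝ) / M) * ((j : ℝ) * W)))) := by
    intro x hx y hy
    obtain ⟨z1, z2⟩ := z_bounds ha hb hx hy
    rw [g_fourier k M J W hM hJW (a * x + b * y) z1 z2, mul_sum]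
    apply sum_congr rfl
    intro ξ _
    have : ee ((ξ : ℝ) * ((a * x + b * y : ℤ) : ℝ) / M) =
        ee ((ξ : ℝ) * ((a * x : ℤ) : ℝ) / M) * ee ((ξ : ℝ) * ((b * y : ℤ) : ℝ) / M) := by
      rw [← ee_add]
      congr 1
      push_cast
      ring
    rw [this]
    ring
  rw [sum_congr rfl (fun x hx => sum_congr rfl (e2 x hx))]
  rw [sum_congr rfl (fun x _ => sum_comm), sum_comm]
  apply sum_congr rfl
  intro ξ _
  exact tri (PP k) _ _ _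

theorem T_bound (k M J W : ℕ) (hM : 17 * k < M) (hJW : J * W ≤ k) (a b : ℤ)
    (ha : a.natAbs ∈ ({1, 2, 4} : Finset ℕ)) (hb : b.natAbs ∈ ({1, 2, 4} : Finset ℕ))
    (f g : ℕ → ℝ) :
    (M : ℝ) * |∑ x ∈ PP k, ∑ y ∈ PP k, f x * g y * (ip (a * x + b * y) -
        (1 / (J : ℝ)) * ∑ j ∈ Icc 1 J, ip (a * x + b * y + j * W))| ≤
      ∑ ξ ∈ range M, ‖∑ x ∈ PP k, (f x : ℂ) * ee ((ξ : ℝ) * ((a * x : ℤ) : ℝ) / M)‖ *
        ‖∑ y ∈ PP k, (g y : ℂ) * ee ((ξ : ℝ) * ((b * y : ℤ) : ℝ) / M)‖ *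
        (‖∑ p ∈ (Icc 1 (9 * k)).filter Nat.Prime, ee (-((ξ : ℝ) * p / M))‖ *
        ‖1 - (1 / (J : ℂ)) * ∑ j ∈ Icc 1 J, ee (((ξ : ℝ) / M) * ((j : ℝ) * W))‖) := by
  have h := congrArg norm (T_fourier k M J W hM hJW a b ha hb f g)
  rw [norm_mul, Complex.norm_natCast, Complex.norm_real, Real.norm_eq_abs] at h
  rw [h]
  refine (norm_sum_le _ _).trans ?_
  apply le_of_eq
  apply sum_congr rfl
  intro ξ _
  rw [norm_mul, norm_mul, norm_mul]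

/-- the estimate for one `k` -/
theorem core {C6 δ Q1 τ : ℝ} {k W : ℕ} (hC6 : 1 ≤ C6) (hk : 3 ≤ k) (hδ : 0 < δ) (hQ1 : 1 ≤ Q1)
    (hτ0 : 0 < τ) (hτ1 : τ < 1 / 2) (hτ : τ * Q1 ≤ δ / 45)
    (hWk : (W : ℝ) / τ ≤ k) (hW0 : 0 < W)
    (hW : ∀ q : ℕ, 1 ≤ q → (q : ℝ) ≤ Q1 → q ∣ W)
    (hlog : Real.log k ≤ (1 / 1000) * (k : ℝ) ^ (1 / 10 : ℝ))
    (h4 : ∀ α : ℝ, ¬ Major Q1 ((9 * k : ℕ) : ℝ) α →
      ‖∑ p ∈ (Icc 1 (9 * k)).filter Nat.Prime, ee (α * p)‖ ≤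
      (δ / 45) * ((9 * k : ℕ) : ℝ) / Real.log ((9 * k : ℕ) : ℝ))
    (h6 : ∀ f : ℕ → ℂ, (∀ p, ‖f p‖ ≤ 1) →
      ∑ ξ ∈ range (60 * k + 1), ‖∑ p ∈ PP k, f p * ee ((ξ : ℝ) * p / (60 * k + 1 : ℕ))‖ ^
        (5 / 2 : ℝ) ≤ C6 * ((k : ℝ) / Real.log k) ^ (5 / 2 : ℝ))
    (h6' : ∀ f : ℕ → ℂ, (∀ p, ‖f p‖ ≤ 1) →
      ∑ ξ ∈ range (60 * k + 1), ‖∑ p ∈ PP (9 * k), f p * ee ((ξ : ℝ) * p / (60 * k + 1 : ℕ))‖ ^
        (5 / 2 : ℝ) ≤ C6 * (((9 * k : ℕ) : ℝ) / Real.log ((9 * k : ℕ) : ℝ)) ^ (5 / 2 : ℝ))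
    (a b : ℤ) (ha : a.natAbs ∈ ({1, 2, 4} : Finset ℕ)) (hb : b.natAbs ∈ ({1, 2, 4} : Finset ℕ))
    (f g : ℕ → ℝ) (hf : ∀ p, |f p| ≤ 1) (hg : ∀ p, |g p| ≤ 1) :
    |∑ x ∈ PP k, ∑ y ∈ PP k, f x * g y * (ip (a * x + b * y) -
        (1 / (⌊τ * k / (W : ℝ)⌋₊ : ℝ)) * ∑ j ∈ Icc 1 ⌊τ * k / (W : ℝ)⌋₊,
          ip (a * x + b * y + j * W))| ≤
      √δ * (C6 + 64 * (243 * C6 + 1)) * ((k : ℝ) ^ 2 / (Real.log k) ^ 3) := by
  obtain ⟨J, hJ⟩ : ∃ J, J = ⌊τ * k / (W : ℝ)⌋₊ := ⟨_, rfl⟩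
  rw [← hJ]
  obtain ⟨M, hM⟩ : ∃ M, M = 60 * k + 1 := ⟨_, rfl⟩
  rw [← hM] at h6 h6'
  have hk' : (1 : ℝ) < k := by exact_mod_cast (by omega : 1 < k)
  have hk0 : (0 : ℝ) < k := by linarith
  have hl : 0 < Real.log k := Real.log_pos hk'
  have hWr : (0 : ℝ) < W := by exact_mod_cast hW0
  have hJ1 : 1 ≤ J := by
    rw [hJ]
    apply Nat.le_floor
    rw [Nat.cast_one, le_div_iff₀ hWr, one_mul]
    rw [div_le_iff₀ hτ0] at hWk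
    linarith
  have hJW : (J : ℝ) * W ≤ τ * k := by
    have : (J : ℝ) ≤ τ * k / W := by
      rw [hJ]; exact Nat.floor_le (by positivity)
    rwa [le_div_iff₀ hWr] at this
  have hJWk : J * W ≤ k := by
    have : (J : ℝ) * W ≤ k := by nlinarith
    exact_mod_cast this
  have hModd : Odd M := ⟨30 * k, by omega⟩
  obtain ⟨hX, hNX⟩ := X_bounds hk
  have hT := T_bound k M J W (by omega) hJWk a b ha hb f g
  have hY := young_sum (range M)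
    (fun ξ => ‖∑ x ∈ PP k, (f x : ℂ) * ee ((ξ : ℝ) * ((a * x : ℤ) : ℝ) / M)‖)
    (fun ξ => ‖∑ y ∈ PP k, (g y : ℂ) * ee ((ξ : ℝ) * ((b * y : ℤ) : ℝ) / M)‖)
    (fun ξ => ‖∑ p ∈ (Icc 1 (9 * k)).filter Nat.Prime, ee (-((ξ : ℝ) * p / M))‖ *
        ‖1 - (1 / (J : ℂ)) * ∑ j ∈ Icc 1 J, ee (((ξ : ℝ) / M) * ((j : ℝ) * W))‖)
    ((k : ℝ) / Real.log k) δ C6 (64 * (243 * C6 + 1)) (fun _ => norm_nonneg _)
    (fun _ => norm_nonneg _) (fun _ => by positivity) hX (by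
      intro ξ _
      have h5 := sup_bound (θ := (ξ : ℝ) / M) (by omega : 0 < k) hJ1 hQ1
        (by positivity : 0 < δ / 45) hJW hτ hW (h4 _)
      rw [norm_conj_sum _ (fun p : ℕ => (ξ : ℝ) * p / M)]
      have e : ∀ p ∈ (Icc 1 (9 * k)).filter Nat.Prime, ee ((ξ : ℝ) * p / M) =
          ee ((ξ : ℝ) / M * p) := by
        intro p _
        congr 1
        ring
      rw [sum_congr rfl e]
      refine h5.trans ?_
      calc 5 * (δ / 45) * (((9 * k : ℕ) : ℝ) / Real.log ((9 * k : ℕ) : ℝ)) ≤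
          5 * (δ / 45) * (9 * ((k : ℝ) / Real.log k)) :=
            mul_le_mul_of_nonneg_left hNX (by positivity)
        _ = δ * ((k : ℝ) / Real.log k) := by ring)
    (restr hModd h6 a ha f hf) (restr hModd h6 b hb g hg)
    (w_sum hC6 hk (by omega) hlog h6'
      (fun ξ => ‖1 - (1 / (J : ℂ)) * ∑ j ∈ Icc 1 J, ee (((ξ : ℝ) / M) * ((j : ℝ) * W))‖)
      (fun ξ => norm_kh_le J (fun j => ((ξ : ℝ) / M) * ((j : ℝ) * W)))
      (fun ξ => norm_nonneg _))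
  have h7 := hT.trans hY
  have hMk : (k : ℝ) ≤ M := by exact_mod_cast (by omega : k ≤ M)
  obtain ⟨T, hTe⟩ : ∃ T, T = |∑ x ∈ PP k, ∑ y ∈ PP k, f x * g y * (ip (a * x + b * y) -
        (1 / (J : ℝ)) * ∑ j ∈ Icc 1 J, ip (a * x + b * y + j * W))| := ⟨_, rfl⟩
  rw [← hTe] at h7 ⊢
  have hT0 : 0 ≤ T := by rw [hTe]; positivity
  have h8 : (k : ℝ) * T ≤ √δ * ((k : ℝ) / Real.log k) ^ 3 * (C6 + 64 * (243 * C6 + 1)) :=
    (mul_le_mul_of_nonneg_right hMk hT0).trans h7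
  have h9 : √δ * ((k : ℝ) / Real.log k) ^ 3 * (C6 + 64 * (243 * C6 + 1)) =
      k * (√δ * (C6 + 64 * (243 * C6 + 1)) * ((k : ℝ) ^ 2 / (Real.log k) ^ 3)) := by
    rw [div_pow]
    ring
  rw [h9] at h8
  exact le_of_mul_le_mul_left h8 hk0

theorem J7 (h4 : J4Stmt) (h6 : J6Stmt) : J7Stmt := by
  intro η hη a b ha hb
  obtain ⟨C6, hC6, k6, hk6, h6⟩ := h6
  obtain ⟨B, hB⟩ : ∃ B, B = C6 + 64 * (243 * C6 + 1) := ⟨_, rfl⟩
  have hB0 : 0 < B := by rw [hB]; linarith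
  obtain ⟨δ, hδ⟩ : ∃ δ, δ = (η / B) ^ 2 := ⟨_, rfl⟩
  have hδ0 : 0 < δ := by rw [hδ]; positivity
  have hsδ : √δ = η / B := by rw [hδ]; exact Real.sqrt_sq (by positivity)
  obtain ⟨Q1, hQ1, N0, hN0, h4⟩ := h4 (δ / 45) (by positivity)
  have hQ10 : 0 < Q1 := by linarith
  obtain ⟨τ, hτ⟩ : ∃ τ, τ = min ((δ / 45) / Q1) (1 / 4) := ⟨_, rfl⟩
  have hτ0 : 0 < τ := by rw [hτ]; positivity
  have hτ1 : τ < 1 / 2 := by
    rw [hτ]
    exact lt_of_le_of_lt (min_le_right _ _) (by norm_num)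
  have hτ2 : τ * Q1 ≤ δ / 45 := by
    have : τ ≤ (δ / 45) / Q1 := by rw [hτ]; exact min_le_left _ _
    rwa [le_div_iff₀ hQ10] at this
  obtain ⟨Q, hQ⟩ : ∃ Q, Q = ⌈Q1⌉₊ + 2 := ⟨_, rfl⟩
  have hW : ∀ q : ℕ, 1 ≤ q → (q : ℝ) ≤ Q1 → q ∣ Q.factorial := by
    intro q h1 h2
    apply Nat.dvd_factorial h1
    have h3 : (q : ℝ) ≤ (⌈Q1⌉₊ : ℝ) := h2.trans (Nat.le_ceil Q1)
    have h5 : q ≤ ⌈Q1⌉₊ := by exact_mod_cast h3
    omega
  have hlo := (isLittleO_log_rpow_atTop (by norm_num : (0 : ℝ) < 1 / 10)).bound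
    (by norm_num : (0 : ℝ) < 1 / 1000)
  have hlo' := tendsto_natCast_atTop_atTop.eventually hlo
  rw [Filter.eventually_atTop] at hlo'
  obtain ⟨k1, hk1⟩ := hlo'
  refine ⟨Q, by omega, τ, hτ0, hτ1, k6 + N0 + k1 + 3 + ⌈(Q.factorial : ℝ) / τ⌉₊, by omega, ?_⟩
  intro k hk f g hf hg
  have hWk : (Q.factorial : ℝ) / τ ≤ k := by
    refine (Nat.le_ceil _).trans ?_
    exact_mod_cast (by omega : ⌈(Q.factorial : ℝ) / τ⌉₊ ≤ k)
  have hlog : Real.log k ≤ (1 / 1000) * (k : ℝ) ^ (1 / 10 : ℝ) := by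
    have h := hk1 k (by omega)
    have h5 : (0 : ℝ) ≤ (k : ℝ) ^ (1 / 10 : ℝ) := by positivity
    rw [Real.norm_eq_abs, Real.norm_eq_abs, abs_of_nonneg h5] at h
    exact (le_abs_self _).trans h
  have hfin := core hC6 (by omega : 3 ≤ k) hδ0 hQ1 hτ0 hτ1 hτ2 hWk (Nat.factorial_pos Q) hW hlog
    (fun α hα => h4 (9 * k) (by omega) α hα)
    (fun f hf => h6 k (by omega) (60 * k + 1) (by omega) (by omega) f hf)
    (fun f hf => h6 (9 * k) (by omega) (60 * k + 1) (by omega) (by omega) f hf)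
    a b ha hb f g hf hg
  refine hfin.trans ?_
  rw [← hB, hsδ]
  have : η / B * B = η := by field_simp
  rw [this, mul_div_assoc]

end Pool.Agent.Helper602.MK.N_J7
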