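import Mathlib
import Pool.Agent.Helper602.MK.Defs

set_option autoImplicit false

namespace Pool.Agent.Helper602.MK.N_J8

open Finset



/-! ### helper lemmas for J8 -/

/-- primes up to N in a residue class -/
def j8_pic (W c N : ℕ) : ℕ := ((Icc 1 N).filter (fun p => p.Prime ∧ p ≡ c [MOD W])).card

theorem j8_pic_congr {W c c' : ℕ} (h : c ≡ c' [MOD W]) (N : ℕ) : j8_pic W c N = j8_pic W c' N := by
  unfold j8_pic
  congr 1
  apply Finset.filter_congr
  intro p _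
  constructor
  · rintro ⟨h1, h2⟩
    exact ⟨h1, h2.trans h⟩
  · rintro ⟨h1, h2⟩
    exact ⟨h1, h2.trans h.symm⟩

theorem j8_log20 : Real.log 20 ≤ 3 := by
  rw [Real.log_le_iff_le_exp (by norm_num)]
  have h1 := Real.exp_one_gt_d9
  have h2 : Real.exp 3 = Real.exp 1 ^ 3 := by
    rw [← Real.exp_nat_mul]; norm_num
  rw [h2]
  have h3 : (2.718 : ℝ) ^ 3 ≤ Real.exp 1 ^ 3 := by
    apply pow_le_pow_left₀ (by norm_num)
    linarith
  refine le_trans ?_ h3
  norm_num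

theorem j8_exists_log_ge (A : ℝ) (B : ℕ) : ∃ k0 : ℕ, 2 ≤ k0 ∧ B ≤ k0 ∧ ∀ k : ℕ, k0 ≤ k → A ≤ Real.log k := by
  refine ⟨max 2 (max B ⌈Real.exp A⌉₊), le_max_left _ _,
    (le_max_left _ _).trans (le_max_right _ _), fun k hk => ?_⟩
  have h1 : ⌈Real.exp A⌉₊ ≤ k := ((le_max_right _ _).trans (le_max_right _ _)).trans hk
  have h2 : Real.exp A ≤ k := (Nat.le_ceil _).trans (by exact_mod_cast h1)
  have hk0 : (0 : ℝ) < k := lt_of_lt_of_le (Real.exp_pos _) h2
  rw [Real.le_log_iff_exp_le hk0]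
  exact h2

theorem j8_pnt (h13 : J13Stmt) (W : ℕ) (hW : 1 ≤ W) (δ : ℝ) (hδ : 0 < δ) :
    ∃ k0 : ℕ, 2 ≤ k0 ∧ ∀ k : ℕ, k0 ≤ k → ∀ N : ℕ, k ≤ 20 * N → N ≤ 20 * k → ∀ c : ℕ,
      Nat.Coprime c W →
      |(j8_pic W c N : ℝ) - N / ((Nat.totient W : ℝ) * Real.log k)| ≤ δ * k / Real.log k := by
  have h1 : ∀ c : ℕ, ∃ N0 : ℕ, Nat.Coprime c W → ∀ N : ℕ, N0 ≤ N →
      |(j8_pic W c N : ℝ) * Real.log N / N - 1 / (Nat.totient W : ℝ)| < δ / 80 := by
    intro c
    by_cases hc : Nat.Coprime c W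
    · have h2 := h13 W c hW hc
      rw [Metric.tendsto_atTop] at h2
      obtain ⟨N0, hN0⟩ := h2 (δ / 80) (by positivity)
      refine ⟨N0, fun _ N hN => ?_⟩
      have := hN0 N hN
      rw [Real.dist_eq] at this
      exact this
    · exact ⟨0, fun h => absurd h hc⟩
  choose N0 hN0 using h1
  obtain ⟨k0, hk02, hk0B, hk0⟩ := j8_exists_log_ge (max 6 (240 / δ)) (20 * ((range W).sup N0) + 20)
  refine ⟨k0, hk02, fun k hk N hN1 hN2 c hc => ?_⟩
  have hL := hk0 k hk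
  have hL6 : 6 ≤ Real.log k := (le_max_left _ _).trans hL
  have hLd : 240 / δ ≤ Real.log k := (le_max_right _ _).trans hL
  have hcW : c % W < W := Nat.mod_lt _ (by omega)
  have hc' : Nat.Coprime (c % W) W := by
    have h2 : Nat.gcd (c % W) W = Nat.gcd c W := by
      rw [← Nat.gcd_rec, Nat.gcd_comm]
    rw [Nat.Coprime, h2]
    exact hc
  have hNge : N0 (c % W) ≤ N := by
    have h3 : N0 (c % W) ≤ (range W).sup N0 := Finset.le_sup (f := N0) (mem_range.2 hcW)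
    omega
  have h4 := hN0 (c % W) hc' N hNge
  rw [j8_pic_congr (Nat.mod_modEq c W)] at h4
  have hk0' : (0 : ℝ) < k := by
    have : 0 < k := by omega
    exact_mod_cast this
  have hN0' : (0 : ℝ) < N := by
    have : 0 < N := by omega
    exact_mod_cast this
  have hN1' : (k : ℝ) ≤ 20 * N := by exact_mod_cast hN1
  have hN2' : (N : ℝ) ≤ 20 * k := by exact_mod_cast hN2
  have hφ : (1 : ℝ) ≤ (Nat.totient W : ℝ) := by
    exact_mod_cast Nat.totient_pos.2 (by omega)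
  obtain ⟨L, hLdef⟩ : ∃ L, L = Real.log k := ⟨_, rfl⟩
  obtain ⟨lN, hlN⟩ : ∃ L, L = Real.log N := ⟨_, rfl⟩
  rw [← hLdef] at hL6 hLd ⊢
  rw [← hlN] at h4
  have h5 : |L - lN| ≤ 3 := by
    have e1 : Real.log (20 * N) = Real.log 20 + lN := by
      rw [Real.log_mul (by norm_num) hN0'.ne', hlN]
    have e2 : Real.log (20 * k) = Real.log 20 + L := by
      rw [Real.log_mul (by norm_num) hk0'.ne', hLdef]
    have e3 : L ≤ Real.log (20 * N) := by
      rw [hLdef]; exact Real.log_le_log hk0' hN1'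
    have e4 : lN ≤ Real.log (20 * k) := by
      rw [hlN]; exact Real.log_le_log hN0' hN2'
    have := j8_log20
    rw [abs_le]
    constructor <;> linarith
  have h5' := abs_le.1 h5
  have hlN2 : L / 2 ≤ lN := by linarith
  have hLpos : 0 < L := by linarith
  have hlNpos : 0 < lN := by linarith
  -- first difference
  have h6 : |(j8_pic W c N : ℝ) - N / ((Nat.totient W : ℝ) * lN)| ≤ δ / 2 * k / L := by
    have e1 : (j8_pic W c N : ℝ) - N / ((Nat.totient W : ℝ) * lN) =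
        ((j8_pic W c N : ℝ) * lN / N - 1 / (Nat.totient W : ℝ)) * (N / lN) := by
      field_simp
    rw [e1, abs_mul, abs_of_pos (show (0:ℝ) < N / lN by positivity)]
    have e2 : (N : ℝ) / lN ≤ 40 * k / L := by
      rw [div_le_div_iff₀ hlNpos hLpos]
      nlinarith
    calc _ ≤ δ / 80 * (40 * k / L) := by
          apply mul_le_mul h4.le e2 (by positivity) (by positivity)
      _ = δ / 2 * k / L := by ring
  have h7 : |N / ((Nat.totient W : ℝ) * lN) - N / ((Nat.totient W : ℝ) * L)| ≤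
      δ / 2 * k / L := by
    have e1 : N / ((Nat.totient W : ℝ) * lN) - N / ((Nat.totient W : ℝ) * L) =
        (L - lN) * (N / ((Nat.totient W : ℝ) * lN * L)) := by
      field_simp
    rw [e1, abs_mul, abs_of_pos (show (0:ℝ) < N / ((Nat.totient W : ℝ) * lN * L) by positivity)]
    have e2 : (N : ℝ) / ((Nat.totient W : ℝ) * lN * L) ≤ 40 * k / (L * L) := by
      rw [div_le_div_iff₀ (by positivity) (by positivity)]
      have e3 : (N : ℝ) * L ≤ 40 * k * lN := by nlinarith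
      have e4 : 40 * (k : ℝ) * lN ≤ 40 * k * ((Nat.totient W : ℝ) * lN) := by
        have : lN ≤ (Nat.totient W : ℝ) * lN := by nlinarith
        nlinarith
      calc (N : ℝ) * (L * L) = (N * L) * L := by ring
        _ ≤ (40 * k * ((Nat.totient W : ℝ) * lN)) * L := by
            apply mul_le_mul_of_nonneg_right (e3.trans e4) hLpos.le
        _ = _ := by ring
    calc _ ≤ 3 * (40 * k / (L * L)) := by
          apply mul_le_mul h5 e2 (by positivity) (by norm_num)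
      _ = (120 / L) * k / L := by
          field_simp
          ring
      _ ≤ δ / 2 * k / L := by
          have e5 : 120 / L ≤ δ / 2 := by
            rw [div_le_iff₀ hLpos]
            rw [div_le_iff₀ hδ] at hLd
            linarith
          gcongr
  have h8 := abs_add_le ((j8_pic W c N : ℝ) - N / ((Nat.totient W : ℝ) * lN))
    (N / ((Nat.totient W : ℝ) * lN) - N / ((Nat.totient W : ℝ) * L))
  rw [sub_add_sub_cancel] at h8
  refine h8.trans ((add_le_add h6 h7).trans (le_of_eq ?_))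
  ring

theorem j8_ip_natCast (n : ℕ) : ip (n : ℤ) = if n.Prime then 1 else 0 := by
  unfold ip
  rw [Int.toNat_natCast]

theorem j8_ip_nonneg (z : ℤ) : 0 ≤ ip z := by
  unfold ip; split_ifs <;> norm_num

theorem j8_sum_ip (W R n : ℕ) (hW : 1 ≤ W) :
    ∑ j ∈ Icc 1 R, ip ((n : ℤ) + j * W) = (j8_pic W n (n + R * W) : ℝ) - j8_pic W n n := by
  have h1 : ∀ j ∈ Icc 1 R, ip ((n : ℤ) + j * W) = if (n + j * W).Prime then 1 else 0 := by
    intro j _
    have : ((n : ℤ) + j * W) = ((n + j * W : ℕ) : ℤ) := by push_cast; ring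
    rw [this, j8_ip_natCast]
  rw [Finset.sum_congr rfl h1, Finset.sum_boole]
  have h2 : (Icc 1 (n + R * W)).filter (fun p => p.Prime ∧ p ≡ n [MOD W]) =
      (Icc 1 n).filter (fun p => p.Prime ∧ p ≡ n [MOD W]) ∪
      ((Icc 1 R).filter (fun j => (n + j * W).Prime)).image (fun j => n + j * W) := by
    ext p
    simp only [mem_filter, mem_Icc, mem_union, mem_image]
    constructor
    · rintro ⟨⟨hp1, hp2⟩, hp, hpn⟩
      by_cases hpn' : p ≤ n
      · exact Or.inl ⟨⟨hp1, hpn'⟩, hp, hpn⟩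
      · right
        have h3 : W ∣ p - n := (Nat.modEq_iff_dvd' (by omega)).1 hpn.symm
        obtain ⟨j, hj⟩ := h3
        have h4 : p = n + j * W := by
          rw [mul_comm] at hj
          omega
        refine ⟨j, ⟨⟨?_, ?_⟩, ?_⟩, h4.symm⟩
        · rcases Nat.eq_zero_or_pos j with h0 | h0
          · subst h0
            simp at h4
            omega
          · exact h0
        · have h5 : j * W ≤ R * W := by omega
          exact Nat.le_of_mul_le_mul_right h5 (by omega)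
        · rw [← h4]; exact hp
    · rintro (⟨⟨hp1, hp2⟩, hp, hpn⟩ | ⟨j, ⟨⟨hj1, hj2⟩, hj⟩, rfl⟩)
      · exact ⟨⟨hp1, by omega⟩, hp, hpn⟩
      · refine ⟨⟨hj.one_lt.le, ?_⟩, hj, ?_⟩
        · have : j * W ≤ R * W := Nat.mul_le_mul_right _ hj2
          omega
        · exact (Nat.modEq_iff_dvd' (by omega)).2 ⟨j, by rw [Nat.add_sub_cancel_left, mul_comm]⟩ |>.symm
  have h3 : Disjoint ((Icc 1 n).filter (fun p => p.Prime ∧ p ≡ n [MOD W]))
      (((Icc 1 R).filter (fun j => (n + j * W).Prime)).image (fun j => n + j * W)) := by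
    rw [Finset.disjoint_left]
    intro p hp hp'
    simp only [mem_filter, mem_Icc, mem_image] at hp hp'
    obtain ⟨j, ⟨⟨hj1, _⟩, _⟩, rfl⟩ := hp'
    have h4 : 1 * W ≤ j * W := Nat.mul_le_mul_right _ hj1
    omega
  have h4 : j8_pic W n (n + R * W) = j8_pic W n n + ((Icc 1 R).filter (fun j => (n + j * W).Prime)).card := by
    unfold j8_pic
    rw [h2, Finset.card_union_of_disjoint h3, Finset.card_image_of_injective]
    intro j j' hjj
    have h5 : j * W = j' * W := by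
      have : n + j * W = n + j' * W := hjj
      omega
    exact Nat.eq_of_mul_eq_mul_right (by omega) h5
  rw [h4]
  push_cast
  ring


/-- indicator of coprimality -/
def j8_uv (V : ℕ) (z : ℤ) : ℝ := if Nat.Coprime z.natAbs V then 1 else 0

theorem j8_uv_nonneg (V : ℕ) (z : ℤ) : 0 ≤ j8_uv V z := by
  unfold j8_uv; split_ifs <;> norm_num

theorem j8_uv_le (V : ℕ) (z : ℤ) : j8_uv V z ≤ 1 := by
  unfold j8_uv; split_ifs <;> norm_num

/-- the average of `ip` along a progression -/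
noncomputable def j8_avg (W R : ℕ) (z : ℤ) : ℝ := (1 / (R : ℝ)) * ∑ j ∈ Icc 1 R, ip (z + j * W)

theorem j8_avT (h13 : J13Stmt) (W : ℕ) (hW : 1 ≤ W) (τ : ℝ) (hτ : 0 < τ) (hτ2 : τ < 1 / 2)
    (δ : ℝ) (hδ : 0 < δ) :
    ∃ k0 : ℕ, 2 ≤ k0 ∧ ∀ k : ℕ, k0 ≤ k → ∀ z : ℤ, (k : ℤ) ≤ 10 * z → z ≤ 8 * k →
      |j8_avg W ⌊τ * k / (W : ℝ)⌋₊ z - ((W : ℝ) / (Nat.totient W : ℝ)) * j8_uv W z / Real.log k| ≤
        δ / Real.log k := by
  have hWr : (0 : ℝ) < W := by exact_mod_cast hW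
  obtain ⟨k1, hk12, hk1⟩ := j8_pnt h13 W hW (δ * τ / (4 * W)) (by positivity)
  obtain ⟨k2, hk22, hk2B, hk2⟩ := j8_exists_log_ge 1 (max (10 * W) ⌈2 * W / τ⌉₊)
  refine ⟨max k1 k2, le_trans hk12 (le_max_left _ _), fun k hk z hz1 hz2 => ?_⟩
  have hkk1 : k1 ≤ k := (le_max_left _ _).trans hk
  have hkk2 : k2 ≤ k := (le_max_right _ _).trans hk
  have hk0 : (0 : ℝ) < k := by
    have : 0 < k := by omega
    exact_mod_cast this
  have hL1 : 1 ≤ Real.log k := hk2 k hkk2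
  have hL : 0 < Real.log k := by linarith
  have hkW : 10 * W ≤ k := ((le_max_left _ _).trans hk2B).trans hkk2
  have hkτ : 2 * W / τ ≤ k := by
    refine (Nat.le_ceil _).trans ?_
    have : ⌈2 * W / τ⌉₊ ≤ k := ((le_max_right _ _).trans hk2B).trans hkk2
    exact_mod_cast this
  obtain ⟨R, hR⟩ : ∃ R, R = ⌊τ * k / (W : ℝ)⌋₊ := ⟨_, rfl⟩
  rw [← hR]
  have hquot : 2 ≤ τ * k / (W : ℝ) := by
    rw [le_div_iff₀ hWr]
    rw [div_le_iff₀ hτ] at hkτ
    linarith
  have hRle : (R : ℝ) ≤ τ * k / W := by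
    rw [hR]; exact Nat.floor_le (by positivity)
  have hRge : τ * k / (2 * W) ≤ R := by
    have h1 := Nat.lt_floor_add_one (τ * k / (W : ℝ))
    rw [← hR] at h1
    have h2 : τ * k / (2 * W) = (τ * k / W) / 2 := by field_simp
    rw [h2]
    linarith
  have hRpos : (0 : ℝ) < R := lt_of_lt_of_le (by positivity) hRge
  obtain ⟨n, rfl⟩ : ∃ n : ℕ, z = n := ⟨z.toNat, by omega⟩
  have hn1 : k ≤ 10 * n := by exact_mod_cast hz1
  have hn2 : n ≤ 8 * k := by exact_mod_cast hz2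
  by_cases hc : Nat.Coprime n W
  · have huv : j8_uv W (n : ℤ) = 1 := by
      unfold j8_uv
      rw [if_pos (by simpa using hc)]
    rw [huv]
    unfold j8_avg
    rw [j8_sum_ip W R n hW]
    have hRW : (R : ℝ) * W ≤ τ * k := by
      rw [le_div_iff₀ hWr] at hRle
      exact hRle
    have hb1 := hk1 k hkk1 n (by omega) (by omega) n hc
    have hb2 := hk1 k hkk1 (n + R * W) (by
      have : n ≤ n + R * W := Nat.le_add_right _ _
      omega) (by
      have h1 : (R : ℝ) * W ≤ k := by nlinarith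
      have h2 : R * W ≤ k := by exact_mod_cast h1
      omega) n hc
    have hφ : (1 : ℝ) ≤ (Nat.totient W : ℝ) := by
      exact_mod_cast Nat.totient_pos.2 (by omega)
    have e1 : 1 / (R : ℝ) * ((j8_pic W n (n + R * W) : ℝ) - j8_pic W n n) -
        (W : ℝ) / (Nat.totient W : ℝ) * 1 / Real.log k =
        1 / (R : ℝ) * (((j8_pic W n (n + R * W) : ℝ) -
          ((n + R * W : ℕ) : ℝ) / ((Nat.totient W : ℝ) * Real.log k)) -
          ((j8_pic W n n : ℝ) - (n : ℝ) / ((Nat.totient W : ℝ) * Real.log k))) := by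
      push_cast
      field_simp
      ring
    rw [e1, abs_mul, abs_of_pos (by positivity : (0:ℝ) < 1 / (R : ℝ))]
    have e2 := abs_sub (((j8_pic W n (n + R * W) : ℝ) -
          ((n + R * W : ℕ) : ℝ) / ((Nat.totient W : ℝ) * Real.log k)))
          ((j8_pic W n n : ℝ) - (n : ℝ) / ((Nat.totient W : ℝ) * Real.log k))
    have e3 : 1 / (R : ℝ) ≤ 2 * W / (τ * k) := by
      rw [div_le_div_iff₀ hRpos (by positivity)]
      rw [div_le_iff₀ (by positivity)] at hRge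
      linarith
    calc _ ≤ 2 * W / (τ * k) * (δ * τ / (4 * W) * k / Real.log k +
            δ * τ / (4 * W) * k / Real.log k) := by
          apply mul_le_mul e3 (e2.trans (add_le_add hb2 hb1)) (abs_nonneg _) (by positivity)
      _ = δ / Real.log k := by
          field_simp
          ring
  · have huv : j8_uv W (n : ℤ) = 0 := by
      unfold j8_uv
      rw [if_neg (by simpa using hc)]
    rw [huv]
    have h0 : j8_avg W R (n : ℤ) = 0 := by
      unfold j8_avg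
      rw [Finset.sum_eq_zero, mul_zero]
      intro j hj
      have : ((n : ℤ) + j * W) = ((n + j * W : ℕ) : ℤ) := by push_cast; ring
      rw [this, j8_ip_natCast, if_neg]
      intro hp
      have hg1 : Nat.gcd n W ≠ 1 := hc
      have hg2 : Nat.gcd n W ∣ n + j * W :=
        dvd_add (Nat.gcd_dvd_left _ _) ((Nat.gcd_dvd_right n W).mul_left _)
      rcases (Nat.dvd_prime hp).1 hg2 with h | h
      · exact hg1 h
      · have h1 : Nat.gcd n W ≤ W := Nat.le_of_dvd (by omega) (Nat.gcd_dvd_right _ _)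
        have h2 : 1 * W ≤ j * W := Nat.mul_le_mul_right _ (mem_Icc.1 hj).1
        omega
    rw [h0]
    simp only [mul_zero, zero_div, sub_zero, abs_zero]
    positivity

theorem j8_win (h13 : J13Stmt) (I : Finset (ℝ × ℝ)) (hI : Wok I) (V : ℕ) (hV : 1 ≤ V)
    (δ : ℝ) (hδ : 0 < δ) :
    ∃ k0 : ℕ, 2 ≤ k0 ∧ ∀ k : ℕ, k0 ≤ k → ∀ c : ℕ, Nat.Coprime c V →
      |(((win k I).filter (fun p => p ≡ c [MOD V])).card : ℝ) -
        len I * k / ((Nat.totient V : ℝ) * Real.log k)| ≤ δ * k / Real.log k := by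
  obtain ⟨m, hm⟩ : ∃ m : ℝ, m = (I.card : ℝ) + 1 := ⟨_, rfl⟩
  have hm1 : 1 ≤ m := by rw [hm]; have : (0:ℝ) ≤ I.card := Nat.cast_nonneg _; linarith
  obtain ⟨k1, hk12, hk1⟩ := j8_pnt h13 V hV (δ / (4 * m)) (by positivity)
  obtain ⟨k2, hk22, hk2B, hk2⟩ := j8_exists_log_ge 1 (max 20 ⌈4 * m / δ⌉₊)
  refine ⟨max k1 k2, le_trans hk12 (le_max_left _ _), fun k hk c hc => ?_⟩
  have hkk1 : k1 ≤ k := (le_max_left _ _).trans hk
  have hkk2 : k2 ≤ k := (le_max_right _ _).trans hk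
  have hk20 : 20 ≤ k := ((le_max_left _ _).trans hk2B).trans hkk2
  have hk20' : (20 : ℝ) ≤ k := by exact_mod_cast hk20
  have hk0 : (0 : ℝ) < k := by linarith
  have hL1 : 1 ≤ Real.log k := hk2 k hkk2
  have hL : 0 < Real.log k := by linarith
  have hkd : 4 * m / δ ≤ k := by
    refine (Nat.le_ceil _).trans ?_
    have : ⌈4 * m / δ⌉₊ ≤ k := ((le_max_right _ _).trans hk2B).trans hkk2
    exact_mod_cast this
  have hφ : (1 : ℝ) ≤ (Nat.totient V : ℝ) := by
    exact_mod_cast Nat.totient_pos.2 (by omega)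
  -- decomposition
  have hdec : (win k I).filter (fun p => p ≡ c [MOD V]) =
      I.biUnion (fun J => (Ioc ⌊J.1 * k⌋₊ ⌊J.2 * k⌋₊).filter (fun p => p.Prime ∧ p ≡ c [MOD V])) := by
    ext p
    simp only [win, mem_filter, mem_Icc, mem_biUnion, mem_Ioc]
    constructor
    · rintro ⟨⟨⟨hp1, hp2⟩, hp, J, hJ, hJ1, hJ2⟩, hpc⟩
      have h0 := (hI.1 J hJ).1
      have h0' := (hI.1 J hJ).2.1
      refine ⟨J, hJ, ⟨(Nat.floor_lt (by positivity)).2 hJ1, (Nat.le_floor_iff (by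
        have : 0 < J.2 := by linarith
        positivity)).2 hJ2⟩, hp, hpc⟩
    · rintro ⟨J, hJ, ⟨hp1, hp2⟩, hp, hpc⟩
      have h0 := (hI.1 J hJ).1
      have h0' := (hI.1 J hJ).2.1
      have h0'' := (hI.1 J hJ).2.2
      have hJ1 := (Nat.floor_lt (by positivity)).1 hp1
      have hJ2 := (Nat.le_floor_iff (by
        have : 0 < J.2 := by linarith
        positivity)).1 hp2
      refine ⟨⟨⟨hp.one_lt.le, ?_⟩, hp, J, hJ, hJ1, hJ2⟩, hpc⟩
      have : (p : ℝ) ≤ k := hJ2.trans (by nlinarith)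
      exact_mod_cast this
  have hdisj : ∀ J ∈ I, ∀ J' ∈ I, J ≠ J' →
      Disjoint ((Ioc ⌊J.1 * k⌋₊ ⌊J.2 * k⌋₊).filter (fun p => p.Prime ∧ p ≡ c [MOD V]))
        ((Ioc ⌊J'.1 * k⌋₊ ⌊J'.2 * k⌋₊).filter (fun p => p.Prime ∧ p ≡ c [MOD V])) := by
    intro J hJ J' hJ' hne
    rw [Finset.disjoint_left]
    intro p hp hp'
    simp only [mem_filter, mem_Ioc] at hp hp'
    rcases hI.2 J hJ J' hJ' hne with h | h
    · have h1 : ⌊J.2 * k⌋₊ ≤ ⌊J'.1 * k⌋₊ := Nat.floor_mono (by gcongr)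
      omega
    · have h1 : ⌊J'.2 * k⌋₊ ≤ ⌊J.1 * k⌋₊ := Nat.floor_mono (by gcongr)
      omega
  rw [hdec, Finset.card_biUnion hdisj]
  have hJ : ∀ J ∈ I, |(((Ioc ⌊J.1 * k⌋₊ ⌊J.2 * k⌋₊).filter
      (fun p => p.Prime ∧ p ≡ c [MOD V])).card : ℝ) -
      (J.2 - J.1) * k / ((Nat.totient V : ℝ) * Real.log k)| ≤
      (δ / (2 * m) * k + 2) / Real.log k := by
    intro J hJ
    obtain ⟨h0, h1, h2⟩ := hI.1 J hJ
    have hfl : ⌊J.1 * k⌋₊ ≤ ⌊J.2 * k⌋₊ := Nat.floor_mono (by gcongr)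
    have hsplit : j8_pic V c ⌊J.2 * k⌋₊ = j8_pic V c ⌊J.1 * k⌋₊ +
        ((Ioc ⌊J.1 * k⌋₊ ⌊J.2 * k⌋₊).filter (fun p => p.Prime ∧ p ≡ c [MOD V])).card := by
      unfold j8_pic
      rw [← Finset.card_union_of_disjoint]
      · congr 1
        rw [← Finset.filter_union]
        congr 1
        ext p
        simp only [mem_Icc, mem_union, mem_Ioc]
        omega
      · rw [Finset.disjoint_left]
        intro p hp hp'
        simp only [mem_filter, mem_Ioc, mem_Icc] at hp hp'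
        omega
    have hfloor : ∀ t : ℝ, 1 / 10 ≤ t → t ≤ 1 → k ≤ 20 * ⌊t * k⌋₊ ∧ ⌊t * k⌋₊ ≤ 20 * k ∧
        |((⌊t * k⌋₊ : ℕ) : ℝ) - t * k| ≤ 1 := by
      intro t ht ht1
      have ht0 : 0 ≤ t * k := by positivity
      have f1 := Nat.floor_le ht0
      have f2 := Nat.lt_floor_add_one (t * k)
      refine ⟨?_, ?_, ?_⟩
      · have : (k : ℝ) ≤ 20 * (⌊t * k⌋₊ : ℝ) := by nlinarith
        exact_mod_cast this
      · have : ((⌊t * k⌋₊ : ℕ) : ℝ) ≤ 20 * k := by nlinarith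
        exact_mod_cast this
      · rw [abs_le]
        constructor <;> linarith
    obtain ⟨a1, a2, a3⟩ := hfloor J.1 h0 (by linarith)
    obtain ⟨b1, b2, b3⟩ := hfloor J.2 (by linarith) h2
    have c1 := hk1 k hkk1 _ a1 a2 c hc
    have c2 := hk1 k hkk1 _ b1 b2 c hc
    have hcard : (((Ioc ⌊J.1 * k⌋₊ ⌊J.2 * k⌋₊).filter
        (fun p => p.Prime ∧ p ≡ c [MOD V])).card : ℝ) =
        (j8_pic V c ⌊J.2 * k⌋₊ : ℝ) - j8_pic V c ⌊J.1 * k⌋₊ := by
      rw [hsplit]; push_cast; ring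
    rw [hcard]
    obtain ⟨D, hD⟩ : ∃ D : ℝ, D = (Nat.totient V : ℝ) * Real.log k := ⟨_, rfl⟩
    rw [← hD] at c1 c2 ⊢
    have hDL : Real.log k ≤ D := by rw [hD]; nlinarith
    have hD0 : 0 < D := by linarith
    have e1 : (j8_pic V c ⌊J.2 * k⌋₊ : ℝ) - j8_pic V c ⌊J.1 * k⌋₊ - (J.2 - J.1) * k / D =
        ((j8_pic V c ⌊J.2 * k⌋₊ : ℝ) - (⌊J.2 * k⌋₊ : ℝ) / D) -
        ((j8_pic V c ⌊J.1 * k⌋₊ : ℝ) - (⌊J.1 * k⌋₊ : ℝ) / D) +
        ((((⌊J.2 * k⌋₊ : ℕ) : ℝ) - J.2 * k) - (((⌊J.1 * k⌋₊ : ℕ) : ℝ) - J.1 * k)) / D := by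
      field_simp
      ring
    rw [e1]
    have e2 : |((((⌊J.2 * k⌋₊ : ℕ) : ℝ) - J.2 * k) - (((⌊J.1 * k⌋₊ : ℕ) : ℝ) - J.1 * k)) / D| ≤
        2 / Real.log k := by
      rw [abs_div, abs_of_pos hD0]
      have e3 := abs_sub (((⌊J.2 * k⌋₊ : ℕ) : ℝ) - J.2 * k) (((⌊J.1 * k⌋₊ : ℕ) : ℝ) - J.1 * k)
      exact div_le_div₀ (by norm_num) (by linarith) hL hDL
    refine (abs_add_le _ _).trans ((add_le_add ((abs_sub _ _).trans (add_le_add c2 c1)) e2).trans
      (le_of_eq ?_))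
    field_simp
    ring
  unfold len
  push_cast
  rw [Finset.sum_mul, Finset.sum_div, ← Finset.sum_sub_distrib]
  refine (Finset.abs_sum_le_sum_abs _ _).trans ((Finset.sum_le_sum hJ).trans ?_)
  rw [Finset.sum_const, nsmul_eq_mul, ← mul_div_assoc]
  apply div_le_div_of_nonneg_right _ hL.le
  have hcard : (I.card : ℝ) ≤ m := by rw [hm]; linarith
  have hm0 : 0 < m := by linarith
  have h3 : 2 * m ≤ δ / 2 * k := by
    rw [div_le_iff₀ hδ] at hkd
    linarith
  calc (I.card : ℝ) * (δ / (2 * m) * k + 2) ≤ m * (δ / (2 * m) * k + 2) := by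
        gcongr
    _ = δ / 2 * k + 2 * m := by field_simp
    _ ≤ δ * k := by linarith


/-- number of units `c` with `α + β c` a unit -/
noncomputable def j8_NU (m : ℕ) (α β : ℤ) : ℕ :=
  Nat.card {c : ZMod m // IsUnit c ∧ IsUnit ((α : ZMod m) + (β : ZMod m) * c)}

theorem j8_NU_one (α β : ℤ) : j8_NU 1 α β = 1 := by
  unfold j8_NU
  rw [Nat.card_eq_one_iff_unique]
  refine ⟨⟨fun a b => Subtype.ext (Subsingleton.elim _ _)⟩, ⟨⟨0, ?_, ?_⟩⟩⟩
  · exact isUnit_of_subsingleton _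
  · exact isUnit_of_subsingleton _

theorem j8_NU_mul {m n : ℕ} (h : Nat.Coprime m n) (α β : ℤ) :
    j8_NU (m * n) α β = j8_NU m α β * j8_NU n α β := by
  unfold j8_NU
  rw [← Nat.card_prod]
  let e := ZMod.chineseRemainder h
  refine Nat.card_congr
    { toFun := fun c => (⟨(e c.1).1, ?_, ?_⟩, ⟨(e c.1).2, ?_, ?_⟩)
      invFun := fun p => ⟨e.symm (p.1.1, p.2.1), ?_, ?_⟩
      left_inv := ?_
      right_inv := ?_ }
  · have h1 : IsUnit (e c.1) := c.2.1.map e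
    exact (Prod.isUnit_iff.1 h1).1
  · have h1 : IsUnit (e ((α : ZMod (m * n)) + (β : ZMod (m * n)) * c.1)) := c.2.2.map e
    rw [map_add, map_mul, map_intCast, map_intCast] at h1
    exact (Prod.isUnit_iff.1 h1).1
  · have h1 : IsUnit (e c.1) := c.2.1.map e
    exact (Prod.isUnit_iff.1 h1).2
  · have h1 : IsUnit (e ((α : ZMod (m * n)) + (β : ZMod (m * n)) * c.1)) := c.2.2.map e
    rw [map_add, map_mul, map_intCast, map_intCast] at h1
    exact (Prod.isUnit_iff.1 h1).2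
  · have h1 : IsUnit ((p.1.1, p.2.1) : ZMod m × ZMod n) :=
      Prod.isUnit_iff.2 ⟨p.1.2.1, p.2.2.1⟩
    exact h1.map e.symm
  · have h1 : IsUnit ((((α : ZMod m) + (β : ZMod m) * p.1.1,
        (α : ZMod n) + (β : ZMod n) * p.2.1)) : ZMod m × ZMod n) :=
      Prod.isUnit_iff.2 ⟨p.1.2.2, p.2.2.2⟩
    have h2 := h1.map e.symm
    have h3 : e.symm (((α : ZMod m) + (β : ZMod m) * p.1.1,
        (α : ZMod n) + (β : ZMod n) * p.2.1)) =
        (α : ZMod (m * n)) + (β : ZMod (m * n)) * e.symm (p.1.1, p.2.1) := by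
      apply e.injective
      rw [RingEquiv.apply_symm_apply, map_add, map_mul, map_intCast, map_intCast,
        RingEquiv.apply_symm_apply]
      rfl
    rw [← h3]
    exact h2
  · intro c
    apply Subtype.ext
    exact e.symm_apply_apply c.1
  · intro p
    refine Prod.ext (Subtype.ext ?_) (Subtype.ext ?_)
    · show (e (e.symm (p.1.1, p.2.1))).1 = p.1.1
      rw [RingEquiv.apply_symm_apply]
    · show (e (e.symm (p.1.1, p.2.1))).2 = p.2.1
      rw [RingEquiv.apply_symm_apply]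

theorem j8_NU_prod (S : Finset ℕ) (hS : ∀ p ∈ S, p.Prime) (α β : ℤ) :
    j8_NU (∏ p ∈ S, p) α β = ∏ p ∈ S, j8_NU p α β := by
  classical
  induction S using Finset.induction_on with
  | empty => simp [j8_NU_one]
  | insert q S hq ih =>
    rw [Finset.prod_insert hq, Finset.prod_insert hq, j8_NU_mul, ih]
    · intro p hp
      exact hS p (mem_insert_of_mem hp)
    · apply Nat.Coprime.prod_right
      intro p hp
      rw [Nat.coprime_primes (hS q (mem_insert_self _ _)) (hS p (mem_insert_of_mem hp))]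
      rintro rfl
      exact hq hp

theorem j8_isUnit_int_iff {m : ℕ} (z : ℤ) : IsUnit ((z : ℤ) : ZMod m) ↔ Nat.Coprime z.natAbs m := by
  rw [ZMod.coe_int_isUnit_iff_isCoprime, Int.isCoprime_iff_gcd_eq_one, Int.gcd_comm]
  rfl

theorem j8_NU_range {m : ℕ} (hm : 1 ≤ m) (α β : ℤ) :
    j8_NU m α β = ((range m).filter (fun c : ℕ => Nat.Coprime c m ∧
      Nat.Coprime (α + β * c).natAbs m)).card := by
  have : NeZero m := ⟨by omega⟩
  unfold j8_NU
  rw [← Fintype.card_coe, ← Nat.card_eq_fintype_card]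
  refine Nat.card_congr
    { toFun := fun c => ⟨c.1.val, ?_⟩
      invFun := fun c => ⟨((c.1 : ℕ) : ZMod m), ?_⟩
      left_inv := ?_
      right_inv := ?_ }
  · rw [mem_filter, mem_range]
    refine ⟨ZMod.val_lt _, ?_, ?_⟩
    · have h1 := c.2.1
      rw [← ZMod.natCast_zmod_val c.1, ZMod.isUnit_iff_coprime] at h1
      exact h1
    · have h1 := c.2.2
      rw [← j8_isUnit_int_iff]
      push_cast
      rw [ZMod.natCast_zmod_val]
      exact h1
  · have h1 := c.2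
    rw [mem_filter] at h1
    refine ⟨(ZMod.isUnit_iff_coprime _ _).2 h1.2.1, ?_⟩
    have h2 := (j8_isUnit_int_iff (m := m) (α + β * (c.1 : ℕ))).2 h1.2.2
    push_cast at h2
    exact h2
  · intro c
    apply Subtype.ext
    exact ZMod.natCast_zmod_val c.1
  · intro c
    apply Subtype.ext
    have h1 := c.2
    rw [mem_filter, mem_range] at h1
    exact ZMod.val_cast_of_lt h1.1

theorem j8_NU_odd {p : ℕ} (hp : p.Prime) (hp2 : p ≠ 2) {α β : ℤ} (hα : ¬ (p : ℤ) ∣ α)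
    (hβ : ¬ (p : ℤ) ∣ β) : (j8_NU p α β : ℝ) = (p : ℝ) - 2 := by
  classical
  have : Fact p.Prime := ⟨hp⟩
  have hα' : (α : ZMod p) ≠ 0 := fun h => hα ((ZMod.intCast_zmod_eq_zero_iff_dvd _ _).1 h)
  have hβ' : (β : ZMod p) ≠ 0 := fun h => hβ ((ZMod.intCast_zmod_eq_zero_iff_dvd _ _).1 h)
  unfold j8_NU
  rw [Nat.card_eq_fintype_card, Fintype.card_subtype]
  have h1 : (univ.filter (fun c : ZMod p => IsUnit c ∧ IsUnit ((α : ZMod p) + (β : ZMod p) * c))) =
      (univ : Finset (ZMod p)) \ {0, -(α : ZMod p) / β} := by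
    ext c
    simp only [mem_filter, mem_univ, true_and, mem_sdiff, mem_insert, mem_singleton, not_or,
      isUnit_iff_ne_zero]
    constructor
    · rintro ⟨h1, h2⟩
      refine ⟨h1, fun h3 => h2 ?_⟩
      rw [h3]
      field_simp
      ring
    · rintro ⟨h1, h2⟩
      refine ⟨h1, fun h3 => h2 ?_⟩
      rw [eq_div_iff hβ']
      linear_combination h3
  rw [h1, Finset.card_sdiff_of_subset (subset_univ _), Finset.card_pair, Finset.card_univ,
    ZMod.card, Nat.cast_sub hp.two_le]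
  · push_cast; ring
  · intro h
    have h2 : -(α : ZMod p) / β ≠ 0 := div_ne_zero (neg_ne_zero.2 hα') hβ'
    exact h2 h.symm

theorem j8_NU_two {α β : ℤ} (h : Odd (α + β)) : (j8_NU 2 α β : ℝ) = 1 := by
  have h1 : j8_NU 2 α β = 1 := by
    rw [j8_NU_range (by norm_num)]
    have h2 : (range 2).filter (fun c : ℕ => Nat.Coprime c 2 ∧
        Nat.Coprime (α + β * c).natAbs 2) = {1} := by
      ext c
      simp only [mem_filter, mem_range, mem_singleton]
      constructor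
      · rintro ⟨h3, h4, _⟩
        interval_cases c
        · exact absurd h4 (by decide)
        · rfl
      · rintro rfl
        refine ⟨by norm_num, by decide, ?_⟩
        have h5 : Odd (α + β * (1 : ℕ)).natAbs := by
          rw [Int.natAbs_odd]
          simpa using h
        exact (Nat.coprime_two_right).2 h5
    rw [h2, card_singleton]
  rw [h1, Nat.cast_one]

/-- primes up to `Q` -/
def j8_prs (Q : ℕ) : Finset ℕ := (range (Q + 1)).filter Nat.Prime

theorem j8_mem_prs {Q p : ℕ} : p ∈ j8_prs Q ↔ p ≤ Q ∧ p.Prime := by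
  unfold j8_prs
  rw [mem_filter, mem_range, Nat.lt_succ_iff]

/-- the primorial -/
def j8_VV (Q : ℕ) : ℕ := ∏ p ∈ j8_prs Q, p

theorem j8_VV_pos (Q : ℕ) : 1 ≤ j8_VV Q :=
  Nat.one_le_iff_ne_zero.2 (Finset.prod_ne_zero_iff.2 fun p hp => (j8_mem_prs.1 hp).2.ne_zero)

theorem j8_dvd_VV {Q p : ℕ} (hp : p.Prime) : p ∣ j8_VV Q ↔ p ≤ Q := by
  unfold j8_VV
  rw [Prime.dvd_finsetProd_iff (Nat.prime_iff.1 hp)]
  constructor
  · rintro ⟨q, hq, hpq⟩
    rw [j8_mem_prs] at hq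
    rw [(Nat.prime_dvd_prime_iff_eq hp hq.2).1 hpq]
    exact hq.1
  · intro h
    exact ⟨p, j8_mem_prs.2 ⟨h, hp⟩, dvd_rfl⟩

theorem j8_coprime_iff_primes {n m : ℕ} : Nat.Coprime n m ↔ ∀ p : ℕ, p.Prime → p ∣ m → ¬ p ∣ n := by
  constructor
  · intro h p hp hm hn
    exact Nat.not_coprime_of_dvd_of_dvd hp.one_lt hn hm h
  · intro h
    exact Nat.Coprime.symm (Nat.coprime_of_dvd fun p hp hm hn => h p hp hm hn)

theorem j8_uv_factorial (Q : ℕ) (z : ℤ) : j8_uv Q.factorial z = j8_uv (j8_VV Q) z := by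
  unfold j8_uv
  have : Nat.Coprime z.natAbs Q.factorial ↔ Nat.Coprime z.natAbs (j8_VV Q) := by
    rw [j8_coprime_iff_primes, j8_coprime_iff_primes]
    constructor
    · intro h p hp hd
      exact h p hp ((hp.dvd_factorial).2 ((j8_dvd_VV hp).1 hd))
    · intro h p hp hd
      exact h p hp ((j8_dvd_VV hp).2 ((hp.dvd_factorial).1 hd))
  simp only [this]

theorem j8_tot_formula {m Q : ℕ} (hm : 1 ≤ m) (h : ∀ p : ℕ, p.Prime → (p ∣ m ↔ p ≤ Q)) :
    (Nat.totient m : ℝ) = m * ∏ p ∈ j8_prs Q, (1 - (p : ℝ)⁻¹) := by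
  have h1 := Nat.totient_eq_mul_prod_factors m
  have h2 : m.primeFactors = j8_prs Q := by
    ext p
    rw [Nat.mem_primeFactors, j8_mem_prs]
    constructor
    · rintro ⟨h3, h4, _⟩
      exact ⟨(h p h3).1 h4, h3⟩
    · rintro ⟨h3, h4⟩
      exact ⟨h4, (h p h4).2 h3, by omega⟩
  rw [h2] at h1
  have h3 := congrArg (Rat.cast : ℚ → ℝ) h1
  push_cast at h3
  exact h3

/-- local factor -/
noncomputable def j8_lf (p : ℕ) : ℝ := if p = 2 then 1 else (p : ℝ) - 2

/-- the singular series -/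
noncomputable def j8_rr (Q : ℕ) : ℝ := ∏ p ∈ j8_prs Q, ((p : ℝ) * j8_lf p / ((p : ℝ) - 1) ^ 2)

theorem j8_NU_VV {Q : ℕ} {α β : ℤ} (hodd : Odd (α + β))
    (hα : ∀ p : ℕ, p.Prime → p ≠ 2 → p ≤ Q → ¬ (p : ℤ) ∣ α)
    (hβ : ∀ p : ℕ, p.Prime → p ≠ 2 → p ≤ Q → ¬ (p : ℤ) ∣ β) :
    (j8_NU (j8_VV Q) α β : ℝ) = ∏ p ∈ j8_prs Q, j8_lf p := by
  unfold j8_VV
  rw [j8_NU_prod _ (fun p hp => (j8_mem_prs.1 hp).2)]
  push_cast
  refine Finset.prod_congr rfl fun p hp => ?_
  rw [j8_mem_prs] at hp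
  unfold j8_lf
  by_cases h2 : p = 2
  · rw [if_pos h2, h2]
    exact j8_NU_two hodd
  · rw [if_neg h2]
    exact j8_NU_odd hp.2 h2 (hα p hp.2 h2 hp.1) (hβ p hp.2 h2 hp.1)

theorem j8_rr_eq {Q : ℕ} {α β : ℤ} (hodd : Odd (α + β))
    (hα : ∀ p : ℕ, p.Prime → p ≠ 2 → p ≤ Q → ¬ (p : ℤ) ∣ α)
    (hβ : ∀ p : ℕ, p.Prime → p ≠ 2 → p ≤ Q → ¬ (p : ℤ) ∣ β) :
    ((Q.factorial : ℕ) : ℝ) / (Nat.totient Q.factorial : ℝ) *
      ((j8_NU (j8_VV Q) α β : ℝ) / (Nat.totient (j8_VV Q) : ℝ)) = j8_rr Q := by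
  rw [j8_NU_VV hodd hα hβ, j8_tot_formula (Nat.factorial_pos Q) (fun p hp => hp.dvd_factorial),
    j8_tot_formula (j8_VV_pos Q) (fun p hp => j8_dvd_VV hp)]
  have hV : ((j8_VV Q : ℕ) : ℝ) = ∏ p ∈ j8_prs Q, (p : ℝ) := by
    unfold j8_VV
    push_cast
    rfl
  have hQ0 : ((Q.factorial : ℕ) : ℝ) ≠ 0 := by
    exact_mod_cast (Nat.factorial_pos Q).ne'
  have hne : ∀ p ∈ j8_prs Q, (1 - (p : ℝ)⁻¹) ≠ 0 := by
    intro p hp
    have h1 : (1 : ℝ) < p := by exact_mod_cast (j8_mem_prs.1 hp).2.one_lt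
    have h2 : (p : ℝ)⁻¹ < 1 := inv_lt_one_of_one_lt₀ h1
    linarith
  have hP0 : ∏ p ∈ j8_prs Q, (1 - (p : ℝ)⁻¹) ≠ 0 := Finset.prod_ne_zero_iff.2 hne
  have e1 : ((Q.factorial : ℕ) : ℝ) / (((Q.factorial : ℕ) : ℝ) * ∏ p ∈ j8_prs Q, (1 - (p : ℝ)⁻¹)) =
      1 / ∏ p ∈ j8_prs Q, (1 - (p : ℝ)⁻¹) := by
    field_simp
  rw [e1, hV, ← Finset.prod_mul_distrib, ← Finset.prod_div_distrib, one_div,
    ← Finset.prod_inv_distrib, ← Finset.prod_mul_distrib]
  unfold j8_rr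
  refine Finset.prod_congr rfl fun p hp => ?_
  have h1 : (1 : ℝ) < p := by exact_mod_cast (j8_mem_prs.1 hp).2.one_lt
  have h2 : (p : ℝ) - 1 ≠ 0 := by linarith
  have h3 : (p : ℝ) ≠ 0 := by linarith
  have h4 : (1 - (p : ℝ)⁻¹) = ((p : ℝ) - 1) / p := by field_simp
  rw [h4]
  field_simp

theorem j8_prod_g (Q : ℕ) (hQ : 2 ≤ Q) :
    ∏ m ∈ Icc 3 Q, ((m : ℝ) * ((m : ℝ) - 2) / ((m : ℝ) - 1) ^ 2) =
      (Q : ℝ) / (2 * ((Q : ℝ) - 1)) := by
  induction Q, hQ using Nat.le_induction with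
  | base => norm_num
  | succ Q hQ ih =>
    rw [Finset.prod_Icc_succ_top (by omega), ih]
    have h1 : (2 : ℝ) ≤ Q := by exact_mod_cast hQ
    have h2 : (Q : ℝ) - 1 ≠ 0 := by linarith
    have h3 : (Q : ℝ) ≠ 0 := by linarith
    push_cast
    have h4 : (Q : ℝ) + 1 - 1 = Q := by ring
    have h5 : (Q : ℝ) + 1 - 2 = Q - 1 := by ring
    rw [h4, h5]
    field_simp

theorem j8_rr_bounds (Q : ℕ) (hQ : 2 ≤ Q) : 1 ≤ j8_rr Q ∧ j8_rr Q ≤ 2 := by
  have hg0 : ∀ m : ℕ, 3 ≤ m → 0 ≤ (m : ℝ) * ((m : ℝ) - 2) / ((m : ℝ) - 1) ^ 2 := by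
    intro m hm
    have h1 : (3 : ℝ) ≤ m := by exact_mod_cast hm
    have h2 : 0 ≤ (m : ℝ) - 2 := by linarith
    positivity
  have hg1 : ∀ m : ℕ, 3 ≤ m → (m : ℝ) * ((m : ℝ) - 2) / ((m : ℝ) - 1) ^ 2 ≤ 1 := by
    intro m hm
    have h1 : (3 : ℝ) ≤ m := by exact_mod_cast hm
    have h2 : 0 < (m : ℝ) - 1 := by linarith
    rw [div_le_one (by positivity)]
    nlinarith
  have h2mem : 2 ∈ j8_prs Q := j8_mem_prs.2 ⟨hQ, Nat.prime_two⟩
  have hsplit : j8_rr Q = 2 * ∏ p ∈ (j8_prs Q).erase 2, ((p : ℝ) * ((p : ℝ) - 2) / ((p : ℝ) - 1) ^ 2) := by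
    unfold j8_rr
    rw [← Finset.mul_prod_erase _ _ h2mem]
    congr 1
    · unfold j8_lf; norm_num
    · refine Finset.prod_congr rfl fun p hp => ?_
      unfold j8_lf
      rw [if_neg (Finset.ne_of_mem_erase hp)]
  have h3 : ∀ p ∈ (j8_prs Q).erase 2, 3 ≤ p := by
    intro p hp
    rw [mem_erase, j8_mem_prs] at hp
    have := hp.2.2.two_le
    omega
  have hsub : (j8_prs Q).erase 2 ⊆ Icc 3 Q := by
    intro p hp
    rw [mem_Icc]
    refine ⟨h3 p hp, ?_⟩
    rw [mem_erase, j8_mem_prs] at hp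
    exact hp.2.1
  constructor
  · rw [hsplit]
    have h4 : ∏ m ∈ Icc 3 Q, ((m : ℝ) * ((m : ℝ) - 2) / ((m : ℝ) - 1) ^ 2) ≤
        ∏ p ∈ (j8_prs Q).erase 2, ((p : ℝ) * ((p : ℝ) - 2) / ((p : ℝ) - 1) ^ 2) := by
      rw [← Finset.prod_sdiff hsub]
      apply mul_le_of_le_one_left
      · exact Finset.prod_nonneg fun p hp => hg0 p (h3 p hp)
      · apply Finset.prod_le_one
        · intro p hp
          exact hg0 p (mem_Icc.1 (mem_sdiff.1 hp).1).1
        · intro p hp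
          exact hg1 p (mem_Icc.1 (mem_sdiff.1 hp).1).1
    rw [j8_prod_g Q hQ] at h4
    have h5 : (2 : ℝ) ≤ Q := by exact_mod_cast hQ
    have h6 : 1 / 2 ≤ (Q : ℝ) / (2 * (Q - 1)) := by
      rw [div_le_div_iff₀ (by norm_num) (by linarith)]
      linarith
    linarith
  · rw [hsplit]
    have h4 : ∏ p ∈ (j8_prs Q).erase 2, ((p : ℝ) * ((p : ℝ) - 2) / ((p : ℝ) - 1) ^ 2) ≤ 1 := by
      apply Finset.prod_le_one
      · intro p hp
        exact hg0 p (h3 p hp)
      · intro p hp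
        exact hg1 p (h3 p hp)
    linarith


theorem j8_uv_congr {V : ℕ} {z z' : ℤ} (h : ((z : ℤ) : ZMod V) = ((z' : ℤ) : ZMod V)) :
    j8_uv V z = j8_uv V z' := by
  unfold j8_uv
  have : Nat.Coprime z.natAbs V ↔ Nat.Coprime z'.natAbs V := by
    rw [← j8_isUnit_int_iff, ← j8_isUnit_int_iff, h]
  simp only [this]

theorem j8_win_prime {k : ℕ} {I : Finset (ℝ × ℝ)} {p : ℕ} (hp : p ∈ win k I) : p.Prime := by
  unfold win at hp
  rw [mem_filter] at hp
  exact hp.2.1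

theorem j8_win_le {k : ℕ} {I : Finset (ℝ × ℝ)} {p : ℕ} (hp : p ∈ win k I) : p ≤ k := by
  unfold win at hp
  rw [mem_filter, mem_Icc] at hp
  exact hp.1.2

theorem j8_win_gt {k : ℕ} {I : Finset (ℝ × ℝ)} (hI : Wok I) {p : ℕ} (hp : p ∈ win k I) :
    k ≤ 10 * p := by
  unfold win at hp
  rw [mem_filter] at hp
  obtain ⟨J, hJ, h1, _⟩ := hp.2.2
  have h2 := (hI.1 J hJ).1
  have hk : (0 : ℝ) ≤ k := Nat.cast_nonneg _
  have h3 : (k : ℝ) ≤ 10 * p := by nlinarith
  exact_mod_cast h3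

theorem j8_uvsum (h13 : J13Stmt) (I : Finset (ℝ × ℝ)) (hI : Wok I) (Q : ℕ)
    (δ : ℝ) (hδ : 0 < δ) :
    ∃ k0 : ℕ, 2 ≤ k0 ∧ ∀ k : ℕ, k0 ≤ k → ∀ α β : ℤ,
      |∑ y ∈ win k I, j8_uv (j8_VV Q) (α + β * y) -
        (j8_NU (j8_VV Q) α β : ℝ) * (len I * k / ((Nat.totient (j8_VV Q) : ℝ) * Real.log k))| ≤
        (j8_VV Q : ℝ) * (δ * k / Real.log k) := by
  classical
  obtain ⟨k1, hk12, hk1⟩ := j8_win h13 I hI (j8_VV Q) (j8_VV_pos Q) δ hδ
  refine ⟨max k1 (10 * Q + 1), hk12.trans (le_max_left _ _), fun k hk α β => ?_⟩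
  have hkk1 : k1 ≤ k := (le_max_left _ _).trans hk
  have hkk2 : 10 * Q + 1 ≤ k := (le_max_right _ _).trans hk
  obtain ⟨V, hV⟩ : ∃ V, V = j8_VV Q := ⟨_, rfl⟩
  have hV1 : 1 ≤ V := hV ▸ j8_VV_pos Q
  have hcop : ∀ y ∈ win k I, Nat.Coprime y V := by
    intro y hy
    have h1 := j8_win_gt hI hy
    have h2 := j8_win_prime hy
    rw [hV, j8_coprime_iff_primes]
    intro p hp hpV hpy
    rw [j8_dvd_VV hp] at hpV
    rw [(Nat.prime_dvd_prime_iff_eq hp h2).1 hpy] at hpV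
    omega
  have hk1' := hk1 k hkk1
  rw [← hV] at hk1' ⊢
  obtain ⟨M, hM⟩ : ∃ M : ℝ, M = len I * k / ((Nat.totient V : ℝ) * Real.log k) := ⟨_, rfl⟩
  obtain ⟨e, he⟩ : ∃ e : ℝ, e = δ * k / Real.log k := ⟨_, rfl⟩
  rw [← hM] at hk1' ⊢
  rw [← he] at hk1' ⊢
  have he0 : 0 ≤ e := (abs_nonneg _).trans (hk1' 1 (Nat.coprime_one_left _))
  have h1 : ∑ y ∈ win k I, j8_uv V (α + β * y) =
      ∑ c ∈ range V, ∑ y ∈ (win k I).filter (fun y => y % V = c), j8_uv V (α + β * y) :=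
    (Finset.sum_fiberwise_of_maps_to (fun y _ => mem_range.2 (Nat.mod_lt _ (by omega))) _).symm
  have h2 : ∀ c ∈ range V, ∑ y ∈ (win k I).filter (fun y => y % V = c), j8_uv V (α + β * y) =
      if Nat.Coprime c V ∧ Nat.Coprime (α + β * c).natAbs V then
        (((win k I).filter (fun p => p ≡ c [MOD V])).card : ℝ) else 0 := by
    intro c hc
    rw [mem_range] at hc
    have hfil : (win k I).filter (fun y => y % V = c) =
        (win k I).filter (fun p => p ≡ c [MOD V]) := by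
      apply Finset.filter_congr
      intro y _
      unfold Nat.ModEq
      rw [Nat.mod_eq_of_lt hc]
    have h3 : ∀ y ∈ (win k I).filter (fun p => p ≡ c [MOD V]), j8_uv V (α + β * y) =
        j8_uv V (α + β * c) := by
      intro y hy
      apply j8_uv_congr
      have h4 : ((y : ℕ) : ZMod V) = ((c : ℕ) : ZMod V) :=
        (ZMod.natCast_eq_natCast_iff _ _ _).2 (mem_filter.1 hy).2
      push_cast
      rw [h4]
    rw [hfil, Finset.sum_congr rfl h3, Finset.sum_const, nsmul_eq_mul]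
    by_cases hcc : Nat.Coprime c V
    · by_cases hcd : Nat.Coprime (α + β * c).natAbs V
      · rw [if_pos ⟨hcc, hcd⟩]
        unfold j8_uv
        rw [if_pos hcd, mul_one]
      · rw [if_neg (fun h => hcd h.2)]
        unfold j8_uv
        rw [if_neg hcd, mul_zero]
    · rw [if_neg (fun h => hcc h.1)]
      have h5 : (win k I).filter (fun p => p ≡ c [MOD V]) = ∅ := by
        rw [Finset.filter_eq_empty_iff]
        intro y hy hyc
        apply hcc
        have h6 := hcop y hy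
        have h7 : Nat.gcd y V = Nat.gcd c V := hyc.gcd_eq
        rw [Nat.Coprime] at h6 ⊢
        rw [← h7]
        exact h6
      rw [h5]
      simp
  rw [h1, Finset.sum_congr rfl h2, ← Finset.sum_filter, j8_NU_range hV1]
  have h3 : (((range V).filter (fun c : ℕ => Nat.Coprime c V ∧
      Nat.Coprime (α + β * c).natAbs V)).card : ℝ) * M =
      ∑ c ∈ (range V).filter (fun c : ℕ => Nat.Coprime c V ∧
      Nat.Coprime (α + β * c).natAbs V), M := by
    rw [Finset.sum_const, nsmul_eq_mul]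
  rw [h3, ← Finset.sum_sub_distrib]
  calc _ ≤ ∑ c ∈ (range V).filter (fun c : ℕ => Nat.Coprime c V ∧
      Nat.Coprime (α + β * c).natAbs V),
      |(((win k I).filter (fun p => p ≡ c [MOD V])).card : ℝ) - M| :=
        Finset.abs_sum_le_sum_abs _ _
    _ ≤ ∑ c ∈ (range V).filter (fun c : ℕ => Nat.Coprime c V ∧
      Nat.Coprime (α + β * c).natAbs V), e :=
        Finset.sum_le_sum fun c hc => hk1' c (mem_filter.1 hc).2.1
    _ = (((range V).filter (fun c : ℕ => Nat.Coprime c V ∧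
      Nat.Coprime (α + β * c).natAbs V)).card : ℝ) * e := by
        rw [Finset.sum_const, nsmul_eq_mul]
    _ ≤ (V : ℝ) * e := by
        apply mul_le_mul_of_nonneg_right _ he0
        have := Finset.card_filter_le (range V) (fun c : ℕ => Nat.Coprime c V ∧
          Nat.Coprime (α + β * c).natAbs V)
        rw [card_range] at this
        exact_mod_cast this

/-- trilinear instance -/
def j8_Tri (a b : ℤ) (Q : ℕ) (τ η : ℝ) (k0 : ℕ) : Prop :=
  ∀ k : ℕ, k0 ≤ k → ∀ f g : ℕ → ℝ, (∀ p, |f p| ≤ 1) → (∀ p, |g p| ≤ 1) →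
    |∑ x ∈ PP k, ∑ y ∈ PP k, f x * g y * (ip (a * x + b * y) -
        j8_avg Q.factorial ⌊τ * k / (Q.factorial : ℝ)⌋₊ (a * x + b * y))| ≤
      η * (k : ℝ) ^ 2 / (Real.log k) ^ 3

theorem j8_Tri.symm {a b : ℤ} {Q : ℕ} {τ η : ℝ} {k0 : ℕ} (h : j8_Tri a b Q τ η k0) :
    j8_Tri b a Q τ η k0 := by
  intro k hk f g hf hg
  have h1 := h k hk g f hg hf
  rw [Finset.sum_comm] at h1
  have h2 : ∑ x ∈ PP k, ∑ y ∈ PP k, f x * g y * (ip (b * x + a * y) -
        j8_avg Q.factorial ⌊τ * k / (Q.factorial : ℝ)⌋₊ (b * x + a * y)) =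
      ∑ y ∈ PP k, ∑ x ∈ PP k, g x * f y * (ip (a * x + b * y) -
        j8_avg Q.factorial ⌊τ * k / (Q.factorial : ℝ)⌋₊ (a * x + b * y)) := by
    refine Finset.sum_congr rfl fun x _ => Finset.sum_congr rfl fun y _ => ?_
    rw [add_comm (b * (x : ℤ)), mul_comm (g y)]
  rw [h2]
  exact h1

theorem j8_card_win (h12 : J12Stmt) (I : Finset (ℝ × ℝ)) (hI : Wok I) :
    ∃ C : ℝ, 1 ≤ C ∧ ∃ k0 : ℕ, ∀ k : ℕ, k0 ≤ k →
      ((win k I).card : ℝ) ≤ C * k / Real.log k := by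
  have h1 := h12 I hI
  rw [Metric.tendsto_atTop] at h1
  obtain ⟨k1, hk1⟩ := h1 1 one_pos
  refine ⟨|len I| + 1, by have := abs_nonneg (len I); linarith, max k1 2, fun k hk => ?_⟩
  have h2 := hk1 k ((le_max_left _ _).trans hk)
  have hk2 : 2 ≤ k := (le_max_right _ _).trans hk
  have hk2' : (2 : ℝ) ≤ k := by exact_mod_cast hk2
  have hL : 0 < Real.log k := Real.log_pos (by linarith)
  rw [Real.dist_eq] at h2
  have h3 := (abs_lt.1 h2).2
  have h4 : ((win k I).card : ℝ) * Real.log k / k ≤ |len I| + 1 := by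
    have := le_abs_self (len I)
    linarith
  rw [div_le_iff₀ (by linarith)] at h4
  rw [le_div_iff₀ hL]
  exact h4

theorem j8_prime_not_dvd_aux {a : ℤ} (ha : a.natAbs ∈ ({1, 2, 4} : Finset ℕ)) {p : ℕ}
    (hp : p.Prime) (h2 : p ≠ 2) : ¬ (p : ℤ) ∣ a := by
  intro h
  have h1 : p ∣ a.natAbs := Int.natCast_dvd.1 h
  simp only [mem_insert, mem_singleton] at ha
  rcases ha with h3 | h3 | h3
  · rw [h3] at h1
    exact hp.one_lt.ne' (Nat.dvd_one.1 h1)
  · rw [h3] at h1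
    exact h2 ((Nat.prime_dvd_prime_iff_eq hp Nat.prime_two).1 h1)
  · rw [h3] at h1
    have h4 : p ∣ 2 := by
      have : p ∣ 2 ^ 2 := h1
      exact hp.dvd_of_dvd_pow this
    exact h2 ((Nat.prime_dvd_prime_iff_eq hp Nat.prime_two).1 h4)

theorem j8_abs_le_four {a : ℤ} (ha : a.natAbs ∈ ({1, 2, 4} : Finset ℕ)) : |a| ≤ 4 := by
  simp only [mem_insert, mem_singleton] at ha
  rw [Int.abs_eq_natAbs]
  omega

theorem j8_half (h12 : J12Stmt) (h13 : J13Stmt) (IX IY : Finset (ℝ × ℝ)) (a b : ℤ)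
    (hX : Wok IX) (hY : Wok IY)
    (ha : a.natAbs ∈ ({1, 2, 4} : Finset ℕ)) (hb : b.natAbs ∈ ({1, 2, 4} : Finset ℕ))
    (hodd : Odd (a + b))
    (hpos : ∀ x y : ℝ, (∃ J ∈ IX, J.1 ≤ x ∧ x ≤ J.2) → (∃ J ∈ IY, J.1 ≤ y ∧ y ≤ J.2) →
      1 / 10 ≤ a * x + b * y)
    (Q : ℕ) (hQ : 2 ≤ Q) (τ : ℝ) (hτ : 0 < τ) (hτ2 : τ < 1 / 2) (η : ℝ) (hη : 0 < η) (k7 : ℕ)
    (hT : j8_Tri a b Q τ η k7) :
    ∃ k0 : ℕ, 2 ≤ k0 ∧ ∀ k : ℕ, k0 ≤ k →
      ∑ x ∈ win k IX, |∑ y ∈ win k IY, ip (a * x + b * y) -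
        j8_rr Q * len IY * k / (Real.log k) ^ 2| ≤ 2 * η * (k : ℝ) ^ 2 / (Real.log k) ^ 3 := by
  classical
  obtain ⟨CX, hCX, kX, hkX⟩ := j8_card_win h12 IX hX
  obtain ⟨CY, hCY, kY, hkY⟩ := j8_card_win h12 IY hY
  have hWpos : 1 ≤ Q.factorial := Nat.factorial_pos Q
  have hWr : (1 : ℝ) ≤ (Q.factorial : ℝ) := by exact_mod_cast hWpos
  have hVr : (1 : ℝ) ≤ (j8_VV Q : ℝ) := by exact_mod_cast j8_VV_pos Q
  obtain ⟨δ1, hδ1⟩ : ∃ d : ℝ, d = η / (2 * CX * CY) := ⟨_, rfl⟩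
  obtain ⟨δ2, hδ2⟩ : ∃ d : ℝ, d = η / (2 * CX * (Q.factorial : ℝ) * (j8_VV Q : ℝ)) := ⟨_, rfl⟩
  have hδ1p : 0 < δ1 := by rw [hδ1]; positivity
  have hδ2p : 0 < δ2 := by rw [hδ2]; positivity
  obtain ⟨k1, hk12, hk1⟩ := j8_avT h13 Q.factorial hWpos τ hτ hτ2 δ1 hδ1p
  obtain ⟨k2, hk22, hk2⟩ := j8_uvsum h13 IY hY Q δ2 hδ2p
  refine ⟨max k1 (max k2 (max kX (max kY (max k7 (10 * Q + 101))))),
    hk12.trans (le_max_left _ _), fun k hk => ?_⟩
  have c1 : k1 ≤ k := (le_max_left _ _).trans hk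
  have hk' := (le_max_right _ _).trans hk
  have c2 : k2 ≤ k := (le_max_left _ _).trans hk'
  have hk'' := (le_max_right _ _).trans hk'
  have c3 : kX ≤ k := (le_max_left _ _).trans hk''
  have hk3 := (le_max_right _ _).trans hk''
  have c4 : kY ≤ k := (le_max_left _ _).trans hk3
  have hk4 := (le_max_right _ _).trans hk3
  have c5 : k7 ≤ k := (le_max_left _ _).trans hk4
  have c6 : 10 * Q + 101 ≤ k := (le_max_right _ _).trans hk4
  have hk0 : (0 : ℝ) < k := by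
    have : 0 < k := by omega
    exact_mod_cast this
  have hk2r : (1 : ℝ) < k := by
    have : 1 < k := by omega
    exact_mod_cast this
  have hL : 0 < Real.log k := Real.log_pos hk2r
  obtain ⟨L, hLdef⟩ : ∃ L, L = Real.log k := ⟨_, rfl⟩
  obtain ⟨R, hRdef⟩ : ∃ R, R = ⌊τ * k / (Q.factorial : ℝ)⌋₊ := ⟨_, rfl⟩
  have hT' := hT k c5
  have hk1' := hk1 k c1
  have hk2' := hk2 k c2
  have hkX' := hkX k c3
  have hkY' := hkY k c4
  rw [← hLdef] at hL hT' hk1' hk2' hkX' hkY' ⊢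
  rw [← hRdef] at hT' hk1'
  -- windows in PP
  have hPP : ∀ I : Finset (ℝ × ℝ), Wok I → win k I ⊆ PP k := by
    intro I hI p hp
    have h1 := j8_win_prime hp
    have h2 := j8_win_le hp
    have h3 := j8_win_gt hI hp
    unfold PP
    rw [mem_filter, mem_Icc]
    refine ⟨⟨h1.one_lt.le, h2⟩, h1, ?_⟩
    nlinarith
  have hXP := hPP IX hX
  have hYP := hPP IY hY
  -- range of the values
  have hz : ∀ x ∈ win k IX, ∀ y ∈ win k IY, (k : ℤ) ≤ 10 * (a * x + b * y) ∧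
      a * x + b * y ≤ 8 * (k : ℤ) := by
    intro x hx y hy
    constructor
    · have hx' := hx
      have hy' := hy
      unfold win at hx' hy'
      rw [mem_filter] at hx' hy'
      obtain ⟨J, hJ, hJ1, hJ2⟩ := hx'.2.2
      obtain ⟨J', hJ', hJ1', hJ2'⟩ := hy'.2.2
      have h1 := hpos ((x : ℝ) / k) ((y : ℝ) / k)
        ⟨J, hJ, by rw [le_div_iff₀ hk0]; exact hJ1.le, by rw [div_le_iff₀ hk0]; exact hJ2⟩
        ⟨J', hJ', by rw [le_div_iff₀ hk0]; exact hJ1'.le, by rw [div_le_iff₀ hk0]; exact hJ2'⟩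
      have h2 : (a : ℝ) * (x / k) + b * (y / k) = (a * x + b * y) / k := by ring
      rw [h2, le_div_iff₀ hk0] at h1
      have h3 : (k : ℝ) ≤ 10 * (a * x + b * y) := by linarith
      exact_mod_cast h3
    · have h1 := j8_win_le hx
      have h2 := j8_win_le hy
      have h3 := abs_le.1 (j8_abs_le_four ha)
      have h4 := abs_le.1 (j8_abs_le_four hb)
      have h5 : a * (x : ℤ) ≤ 4 * k := by
        have : (0 : ℤ) ≤ x := Int.natCast_nonneg _
        have h6 : (x : ℤ) ≤ k := by exact_mod_cast h1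
        nlinarith
      have h6 : b * (y : ℤ) ≤ 4 * k := by
        have : (0 : ℤ) ≤ y := Int.natCast_nonneg _
        have h6 : (y : ℤ) ≤ k := by exact_mod_cast h2
        nlinarith
      linarith
  -- first difference
  have hF : ∑ x ∈ win k IX, |∑ y ∈ win k IY, (ip (a * x + b * y) -
      j8_avg Q.factorial R (a * x + b * y))| ≤ η * (k : ℝ) ^ 2 / L ^ 3 := by
    let F : ℕ → ℕ → ℝ := fun x y => ip (a * x + b * y) - j8_avg Q.factorial R (a * x + b * y)
    let f : ℕ → ℝ := fun x => if x ∈ win k IX then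
      (if 0 ≤ ∑ y ∈ win k IY, F x y then 1 else -1) else 0
    let g : ℕ → ℝ := fun y => if y ∈ win k IY then 1 else 0
    have hf : ∀ p, |f p| ≤ 1 := by
      intro p
      simp only [f]
      split_ifs <;> simp
    have hg : ∀ p, |g p| ≤ 1 := by
      intro p
      simp only [g]
      split_ifs <;> simp
    have h1 := hT' f g hf hg
    have h2 : ∑ x ∈ PP k, ∑ y ∈ PP k, f x * g y * (ip (a * x + b * y) -
        j8_avg Q.factorial R (a * x + b * y)) = ∑ x ∈ win k IX, |∑ y ∈ win k IY, F x y| := by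
      have h3 : ∀ x, ∑ y ∈ PP k, f x * g y * (ip (a * x + b * y) -
          j8_avg Q.factorial R (a * x + b * y)) = f x * ∑ y ∈ win k IY, F x y := by
        intro x
        rw [Finset.mul_sum, ← Finset.sum_subset hYP]
        · refine Finset.sum_congr rfl fun y hy => ?_
          simp only [g, if_pos hy, F, mul_one]
        · intro y _ hy
          simp only [g, if_neg hy, mul_zero, zero_mul]
      rw [Finset.sum_congr rfl (fun x _ => h3 x), ← Finset.sum_subset hXP]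
      · refine Finset.sum_congr rfl fun x hx => ?_
        simp only [f, if_pos hx]
        split_ifs with h
        · rw [one_mul, abs_of_nonneg h]
        · rw [abs_of_neg (not_le.1 h)]
          ring
      · intro x _ hx
        simp only [f, if_neg hx, zero_mul]
    rw [h2] at h1
    exact (le_abs_self _).trans h1
  -- pointwise bound for the other parts
  obtain ⟨φW, hφW⟩ : ∃ t : ℝ, t = (Nat.totient Q.factorial : ℝ) := ⟨_, rfl⟩
  have hφW1 : 1 ≤ φW := by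
    rw [hφW]
    exact_mod_cast Nat.totient_pos.2 hWpos
  obtain ⟨W, hWdef⟩ : ∃ t : ℝ, t = (Q.factorial : ℝ) := ⟨_, rfl⟩
  rw [← hWdef] at hWr hδ2 hk1'
  rw [← hφW] at hk1'
  have hWφ : W / φW ≤ W := div_le_self (by linarith) hφW1
  have hWφ0 : 0 ≤ W / φW := by positivity
  have hpt : ∀ x ∈ win k IX, |∑ y ∈ win k IY, ip (a * x + b * y) -
      j8_rr Q * len IY * k / L ^ 2| ≤
      |∑ y ∈ win k IY, (ip (a * x + b * y) - j8_avg Q.factorial R (a * x + b * y))| +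
      ((CY * k / L) * (δ1 / L) + W / L * ((j8_VV Q : ℝ) * (δ2 * k / L))) := by
    intro x hx
    have hxp := j8_win_prime hx
    have hxg := j8_win_gt hX hx
    have e2 : |∑ y ∈ win k IY, (j8_avg Q.factorial R (a * x + b * y) -
        W / φW * j8_uv Q.factorial (a * x + b * y) / L)| ≤ (CY * k / L) * (δ1 / L) := by
      calc _ ≤ ∑ y ∈ win k IY, |j8_avg Q.factorial R (a * x + b * y) -
            W / φW * j8_uv Q.factorial (a * x + b * y) / L| := Finset.abs_sum_le_sum_abs _ _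
        _ ≤ ∑ y ∈ win k IY, δ1 / L := by
            refine Finset.sum_le_sum fun y hy => ?_
            obtain ⟨h1, h2⟩ := hz x hx y hy
            exact hk1' _ h1 h2
        _ = ((win k IY).card : ℝ) * (δ1 / L) := by rw [Finset.sum_const, nsmul_eq_mul]
        _ ≤ _ := by gcongr
    have hxodd : Odd (x : ℤ) := by
      have h1 : Odd x := hxp.odd_of_ne_two (by omega)
      exact_mod_cast h1
    have hαodd : Odd (a * (x : ℤ) + b) := by
      rcases Int.even_or_odd a with h | h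
      · have hbo : Odd b := by
          rcases Int.even_or_odd b with h' | h'
          · exact absurd (h.add h') (Int.not_even_iff_odd.2 hodd)
          · exact h'
        exact (h.mul_right _).add_odd hbo
      · have hbe : Even b := by
          rcases Int.even_or_odd b with h' | h'
          · exact h'
          · exact absurd (h.add_odd h') (Int.not_even_iff_odd.2 hodd)
        exact (h.mul hxodd).add_even hbe
    have hr := j8_rr_eq (Q := Q) hαodd (fun p hp h2 hpQ => by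
        intro hd
        rcases (Int.Prime.dvd_mul' hp hd) with h | h
        · exact j8_prime_not_dvd_aux ha hp h2 h
        · have h3 : p ∣ x := Int.natCast_dvd_natCast.1 h
          rw [Nat.prime_dvd_prime_iff_eq hp hxp] at h3
          omega)
      (fun p hp h2 _ => j8_prime_not_dvd_aux hb hp h2)
    rw [← hφW, ← hWdef] at hr
    have e3 : |∑ y ∈ win k IY, (W / φW * j8_uv Q.factorial (a * x + b * y) / L) -
        j8_rr Q * len IY * k / L ^ 2| ≤ W / L * ((j8_VV Q : ℝ) * (δ2 * k / L)) := by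
      have h1 := hk2' (a * x) b
      have h2 : ∑ y ∈ win k IY, (W / φW * j8_uv Q.factorial (a * x + b * y) / L) =
          W / φW / L * ∑ y ∈ win k IY, j8_uv (j8_VV Q) (a * x + b * y) := by
        rw [Finset.mul_sum]
        refine Finset.sum_congr rfl fun y _ => ?_
        rw [j8_uv_factorial]
        ring
      have hφV : (Nat.totient (j8_VV Q) : ℝ) ≠ 0 := by
        have : 0 < Nat.totient (j8_VV Q) := Nat.totient_pos.2 (j8_VV_pos Q)
        exact_mod_cast this.ne'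
      have h3 : j8_rr Q * len IY * k / L ^ 2 = W / φW / L *
          ((j8_NU (j8_VV Q) (a * x) b : ℝ) * (len IY * k / ((Nat.totient (j8_VV Q) : ℝ) * L))) := by
        rw [← hr]
        field_simp
      rw [h2, h3, ← mul_sub, abs_mul, abs_of_nonneg (by positivity : 0 ≤ W / φW / L)]
      exact mul_le_mul (by gcongr) h1 (abs_nonneg _) (by positivity)
    have e4 : ∑ y ∈ win k IY, ip (a * x + b * y) - j8_rr Q * len IY * k / L ^ 2 =
        ∑ y ∈ win k IY, (ip (a * x + b * y) - j8_avg Q.factorial R (a * x + b * y)) +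
        (∑ y ∈ win k IY, (j8_avg Q.factorial R (a * x + b * y) -
          W / φW * j8_uv Q.factorial (a * x + b * y) / L) +
        (∑ y ∈ win k IY, (W / φW * j8_uv Q.factorial (a * x + b * y) / L) -
          j8_rr Q * len IY * k / L ^ 2)) := by
      rw [Finset.sum_sub_distrib, Finset.sum_sub_distrib]
      ring
    rw [e4]
    refine (abs_add_le _ _).trans (add_le_add le_rfl ((abs_add_le _ _).trans (add_le_add e2 e3)))
  calc _ ≤ ∑ x ∈ win k IX, (|∑ y ∈ win k IY, (ip (a * x + b * y) -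
          j8_avg Q.factorial R (a * x + b * y))| +
          ((CY * k / L) * (δ1 / L) + W / L * ((j8_VV Q : ℝ) * (δ2 * k / L)))) :=
        Finset.sum_le_sum hpt
    _ = ∑ x ∈ win k IX, |∑ y ∈ win k IY, (ip (a * x + b * y) -
          j8_avg Q.factorial R (a * x + b * y))| +
          ((win k IX).card : ℝ) * ((CY * k / L) * (δ1 / L) + W / L * ((j8_VV Q : ℝ) * (δ2 * k / L))) := by
        rw [Finset.sum_add_distrib, Finset.sum_const, nsmul_eq_mul]
    _ ≤ η * (k : ℝ) ^ 2 / L ^ 3 +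
          (CX * k / L) * ((CY * k / L) * (δ1 / L) + W / L * ((j8_VV Q : ℝ) * (δ2 * k / L))) := by
        apply add_le_add hF
        apply mul_le_mul_of_nonneg_right hkX'
        positivity
    _ = 2 * η * (k : ℝ) ^ 2 / L ^ 3 := by
        rw [hδ1, hδ2]
        field_simp
        ring

theorem J8 (h7 : J7Stmt) (h12 : J12Stmt) (h13 : J13Stmt) : J8Stmt := by
  intro IX IY a b hX hY ha hb hodd hpos η hη
  obtain ⟨Q, hQ, τ, hτ, hτ2, k7, _, h7'⟩ := h7 (η / 4) (by positivity) a b ha hb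
  have hT : j8_Tri a b Q τ (η / 4) k7 := h7'
  obtain ⟨h1, h2⟩ := j8_rr_bounds Q hQ
  obtain ⟨k1, hk12, hk1⟩ := j8_half h12 h13 IX IY a b hX hY ha hb hodd hpos Q hQ τ hτ hτ2 (η / 4)
    (by positivity) k7 hT
  obtain ⟨k2, hk22, hk2⟩ := j8_half h12 h13 IY IX b a hY hX hb ha (by rw [add_comm]; exact hodd)
    (fun x y hx hy => by rw [add_comm]; exact hpos y x hy hx) Q hQ τ hτ hτ2 (η / 4)
    (by positivity) k7 hT.symm
  refine ⟨j8_rr Q, h1, h2, max k1 k2, hk12.trans (le_max_left _ _), fun k hk => ⟨?_, ?_⟩⟩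
  · have h3 := hk1 k ((le_max_left _ _).trans hk)
    refine h3.trans ?_
    have hk2r : (1 : ℝ) < k := by
      have : 2 ≤ k := hk12.trans ((le_max_left _ _).trans hk)
      have h4 : 1 < k := by omega
      exact_mod_cast h4
    have hL : 0 < Real.log k := Real.log_pos hk2r
    gcongr
    linarith
  · have h3 := hk2 k ((le_max_right _ _).trans hk)
    have hk2r : (1 : ℝ) < k := by
      have : 2 ≤ k := hk12.trans ((le_max_left _ _).trans hk)
      have h4 : 1 < k := by omega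
      exact_mod_cast h4
    have hL : 0 < Real.log k := Real.log_pos hk2r
    have h5 : ∑ y ∈ win k IY, |∑ x ∈ win k IX, ip (a * x + b * y) -
        j8_rr Q * len IX * k / (Real.log k) ^ 2| =
        ∑ x ∈ win k IY, |∑ y ∈ win k IX, ip (b * x + a * y) -
        j8_rr Q * len IX * k / (Real.log k) ^ 2| := by
      refine Finset.sum_congr rfl fun y _ => ?_
      congr 2
      refine Finset.sum_congr rfl fun x _ => ?_
      rw [add_comm]
    rw [h5]
    refine h3.trans ?_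
    gcongr
    linarith

end Pool.Agent.Helper602.MK.N_J8

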