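import Mathlib
import Pool.Agent.Helper602.MK.FinC
import Pool.Agent.Helper602.MK.J1a
import Pool.Agent.Helper602.MK.J1b
import Pool.Agent.Helper602.MK.J1c
import Pool.Agent.Helper602.MK.J2
import Pool.Agent.Helper602.MK.J3
import Pool.Agent.Helper602.MK.J4a
import Pool.Agent.Helper602.MK.J4b
import Pool.Agent.Helper602.MK.J4c
import Pool.Agent.Helper602.MK.J5a
import Pool.Agent.Helper602.MK.J5b
import Pool.Agent.Helper602.MK.J5c
import Pool.Agent.Helper602.MK.J6
import Pool.Agent.Helper602.MK.J7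
import Pool.Agent.Helper602.MK.J8
import Pool.Agent.Helper602.MK.J9
import Pool.Agent.Helper602.MK.J12
import Pool.Agent.Helper602.MK.J13

set_option autoImplicit false

namespace Pool.Agent.Helper602.MK

open Finset

theorem j1 : J1Stmt := N_J1c.J1c (N_J1b.J1b N_J1a.J1a)

theorem j4a : J4aStmt := N_J4a.J4a N_J3.J3

theorem j4b : J4bStmt := N_J4b.J4b j1 N_J2.J2 j4a

theorem j4 : J4Stmt := N_J4c.J4c j1 N_J2.J2 j4b

theorem j5 : J5Stmt := N_J5b.J5b N_J5a.J5a N_J5c.J5c

theorem j6 : J6Stmt := N_J6.J6 j5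

theorem j7 : J7Stmt := N_J7.J7 j4 j6

theorem j12 : J12Stmt := N_J12.J12 N_J13.J13

theorem j8 : J8Stmt := N_J8.J8 j7 j12 N_J13.J13

/-- There is a positive constant such that for all large k some block of k consecutive integers
has all its parts made of primes below k larger than that constant times k. -/
theorem mk_main : ∃ ε : ℝ, 0 < ε ∧ ∃ K : ℕ, ∀ k : ℕ, K ≤ k → ∃ n : ℕ, ∀ i ∈ Icc 1 k,
    ε * k < ((∏ p ∈ (range k).filter Nat.Prime, p ^ ((n + i).factorization p) : ℕ) : ℝ) :=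
  mk_final j8 N_J9.J9 j12 N_J13.J13

end Pool.Agent.Helper602.MK
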